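import Pool.Agent.Lib.MP_15b3df_nt.Defs

namespace Pool.Agent.Lib.MP_15b3df_nt

open Filter Topology Complex

noncomputable def imMul (c : ℂ) : ℂ →L[ℝ] ℝ := imCLM.comp (ContinuousLinearMap.mul ℝ ℂ c)
noncomputable def reMul (c : ℂ) : ℂ →L[ℝ] ℝ := reCLM.comp (ContinuousLinearMap.mul ℝ ℂ c)

@[simp] lemma imMul_apply (c v : ℂ) : imMul c v = (c * v).im := rfl
@[simp] lemma reMul_apply (c v : ℂ) : reMul c v = (c * v).re := rfl

/-- the differential of the Bloch-Wigner function. -/
noncomputable def etaL (z : ℂ) : ℂ →L[ℝ] ℝ :=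
  Real.log ‖z‖ • imMul (-(1 - z)⁻¹) - Real.log ‖1 - z‖ • imMul z⁻¹

lemma etaL_apply (z v : ℂ) :
    etaL z v = Real.log ‖z‖ * (-(1 - z)⁻¹ * v).im - Real.log ‖1 - z‖ * (z⁻¹ * v).im := by
  simp [etaL]

lemma fd_im {f : ℂ → ℂ} {c z : ℂ} (h : HasDerivAt f c z) :
    HasFDerivAt (fun w => (f w).im) (imMul c) z := by
  have := imCLM.hasFDerivAt.comp z (h.hasFDerivAt.restrictScalars ℝ)
  refine this.congr_fderiv ?_
  ext v; simp [mul_comm]

lemma fd_re {f : ℂ → ℂ} {c z : ℂ} (h : HasDerivAt f c z) :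
    HasFDerivAt (fun w => (f w).re) (reMul c) z := by
  have := reCLM.hasFDerivAt.comp z (h.hasFDerivAt.restrictScalars ℝ)
  refine this.congr_fderiv ?_
  ext v; simp [mul_comm]

lemma fd_log {f : ℂ → ℂ} {c z : ℂ} (h : HasDerivAt f c z) (h0 : f z ≠ 0) :
    HasFDerivAt (fun w => Real.log ‖f w‖) (reMul (c / f z)) z := by
  have h1 : HasDerivAt (fun w => Complex.log (f w / f z)) (c / f z) z := by
    have := (h.div_const (f z)).clog (by simp [h0])
    simpa [h0] using this
  refine ((fd_re h1).add_const (Real.log ‖f z‖)).congr_of_eventuallyEq ?_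
  filter_upwards [h.continuousAt.eventually_ne h0] with w hw
  rw [Complex.log_re, norm_div, Real.log_div (norm_ne_zero_iff.mpr hw) (norm_ne_zero_iff.mpr h0)]
  ring

lemma exists_prim {U : Set ℂ} (hU : Convex ℝ U) (ho : IsOpen U) (h0 : ∀ z ∈ U, z ≠ 0)
    (h1 : ∀ z ∈ U, 1 - z ≠ 0) {p : ℂ} (hp : p ∈ U) (c : ℝ) :
    ∃ D : ℂ → ℝ, D p = c ∧ ∀ z ∈ U, HasFDerivAt D (etaL z) z := by
  obtain ⟨g, hg⟩ := hU.exists_forall_hasDerivWithinAt (f := fun z : ℂ => -(1 - z)⁻¹)
    (fun z hz => (((differentiableAt_const _).sub differentiableAt_id).inv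
      (h1 z hz)).neg.differentiableWithinAt)
  have hg' : ∀ z ∈ U, HasDerivAt g (-(1 - z)⁻¹) z := fun z hz =>
    (hg z hz).hasDerivAt (ho.mem_nhds hz)
  have hl : ∀ z ∈ U, HasFDerivAt (fun w : ℂ => Real.log ‖1 - w‖) (reMul (-(1 - z)⁻¹)) z := by
    intro z hz
    have := fd_log ((hasDerivAt_id z).const_sub 1) (h1 z hz)
    simpa [neg_div] using this
  set k : ℝ := (g p).re - Real.log ‖1 - p‖
  have hre : ∀ z ∈ U, (g z - k).re = Real.log ‖1 - z‖ := by
    intro z hz
    have := ho.eqOn_of_fderiv_eq (𝕜 := ℝ) hU.isPreconnected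
      (f := fun w => (g w).re - k) (g := fun w => Real.log ‖1 - w‖)
      (fun w hw => ((fd_re (hg' w hw)).sub_const k).differentiableAt.differentiableWithinAt)
      (fun w hw => (hl w hw).differentiableAt.differentiableWithinAt)
      (fun w hw => by rw [((fd_re (hg' w hw)).sub_const k).fderiv, (hl w hw).fderiv])
      hp (by simp [k]) hz
    simpa using this
  obtain ⟨F, hF⟩ := hU.exists_forall_hasDerivWithinAt (f := fun z : ℂ => -(g z - k) / z)
    (fun z hz => (((hg' z hz).differentiableAt.sub_const _).neg.div differentiableAt_id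
      (h0 z hz)).differentiableWithinAt)
  have hF' : ∀ z ∈ U, HasDerivAt F (-(g z - k) / z) z := fun z hz =>
    (hF z hz).hasDerivAt (ho.mem_nhds hz)
  refine ⟨fun z => (F z).im + (g z).im * Real.log ‖z‖ +
    (c - ((F p).im + (g p).im * Real.log ‖p‖)), by ring, fun z hz => ?_⟩
  have h2 := fd_log (hasDerivAt_id z) (h0 z hz)
  refine (((fd_im (hF' z hz)).add ((fd_im (hg' z hz)).mul h2)).add_const _).congr_fderiv ?_
  refine ContinuousLinearMap.ext fun v => ?_
  have e : -(g z - k) / z * v = -((g z - k) * (z⁻¹ * v)) := by ring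
  simp only [add_apply, smul_apply, imMul_apply,
    reMul_apply, etaL_apply, e, id, one_div, smul_eq_mul, neg_im]
  rw [mul_im (g z - k), hre z hz]
  simp only [sub_im, ofReal_im, sub_zero]
  ring

variable {D : ℂ → ℝ} {z : ℂ}

lemma P_conj (h : HasFDerivAt D (etaL ((starRingEnd ℂ) z)) ((starRingEnd ℂ) z)) :
    HasFDerivAt (fun w => -D ((starRingEnd ℂ) w)) (etaL z) z := by
  have := (h.comp z (conjCLE.toContinuousLinearMap.hasFDerivAt (x := z))).neg
  refine this.congr_fderiv (ContinuousLinearMap.ext fun v => ?_)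
  have e1 : 1 - (starRingEnd ℂ) z = (starRingEnd ℂ) (1 - z) := by simp
  have e2 : ∀ a : ℂ, (((starRingEnd ℂ) a)⁻¹ * (starRingEnd ℂ) v).im = -(a⁻¹ * v).im := by
    intro a; rw [← map_inv₀, ← map_mul, conj_im]
  simp only [neg_apply, ContinuousLinearMap.comp_apply, etaL_apply,
    ContinuousLinearEquiv.coe_coe, conjCLE_apply, e1, norm_conj, neg_mul, neg_im, e2]
  ring

lemma P_sub (h : HasFDerivAt D (etaL (1 - z)) (1 - z)) :
    HasFDerivAt (fun w => -D (1 - w)) (etaL z) z := by
  have := (h.comp z ((hasFDerivAt_id (𝕜 := ℝ) z).const_sub 1)).neg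
  refine this.congr_fderiv (ContinuousLinearMap.ext fun v => ?_)
  simp only [neg_apply, ContinuousLinearMap.comp_apply, etaL_apply,
    ContinuousLinearMap.id_apply, sub_sub_cancel, neg_mul, mul_neg, neg_im]
  ring

lemma P_inv (h0 : z ≠ 0) (h1 : 1 - z ≠ 0) (h : HasFDerivAt D (etaL z⁻¹) z⁻¹) :
    HasFDerivAt (fun w => -D w⁻¹) (etaL z) z := by
  have := (h.comp z ((hasDerivAt_inv h0).hasFDerivAt.restrictScalars ℝ)).neg
  refine this.congr_fderiv (ContinuousLinearMap.ext fun v => ?_)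
  have e1 : 1 - z⁻¹ = -(1 - z) / z := by field_simp; ring
  have e2 : -(-(1 - z) / z)⁻¹ * (v * -(z ^ 2)⁻¹) = -(1 - z)⁻¹ * v - z⁻¹ * v := by
    field_simp; ring
  have e3 : z * (v * -(z ^ 2)⁻¹) = -(z⁻¹ * v) := by field_simp
  simp only [neg_apply, ContinuousLinearMap.comp_apply, etaL_apply,
    ContinuousLinearMap.coe_restrictScalars', ContinuousLinearMap.toSpanSingleton_apply,
    smul_eq_mul, inv_inv, e1, e2, e3, norm_inv, Real.log_inv, norm_div, norm_neg,
    Real.log_div (norm_ne_zero_iff.mpr h1) (norm_ne_zero_iff.mpr h0), sub_im, neg_im]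
  ring

lemma prim_eq {U : Set ℂ} (hU : Convex ℝ U) (ho : IsOpen U) {D E : ℂ → ℝ}
    (hD : ∀ z ∈ U, HasFDerivAt D (etaL z) z) (hE : ∀ z ∈ U, HasFDerivAt E (etaL z) z)
    {p : ℂ} (hp : p ∈ U) (h : D p = E p) {z : ℂ} (hz : z ∈ U) : D z = E z :=
  ho.eqOn_of_fderiv_eq (𝕜 := ℝ) hU.isPreconnected
    (fun w hw => (hD w hw).differentiableAt.differentiableWithinAt)
    (fun w hw => (hE w hw).differentiableAt.differentiableWithinAt)
    (fun w hw => by rw [(hD w hw).fderiv, (hE w hw).fderiv]) hp h hz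

/-- existence of the Bloch-Wigner function. -/
theorem exists_BW : ∃ D : ℂ → ℝ, ∀ z, z ≠ 0 → 1 - z ≠ 0 → HasFDerivAt D (etaL z) z := by
  have cM : Convex ℝ {z : ℂ | 0 < z.re ∧ z.re < 1} :=
    (convex_halfSpace_re_gt 0).inter (convex_halfSpace_re_lt 1)
  have oM : IsOpen {z : ℂ | 0 < z.re ∧ z.re < 1} :=
    (isOpen_lt continuous_const continuous_re).inter (isOpen_lt continuous_re continuous_const)
  have cH : Convex ℝ {z : ℂ | 0 < z.im} := convex_halfSpace_im_gt 0
  have oH : IsOpen {z : ℂ | 0 < z.im} := isOpen_lt continuous_const continuous_im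
  obtain ⟨M, hM0, hM⟩ := exists_prim cM oM (fun z hz h => by simp [h] at hz)
    (fun z hz h => by rw [← sub_eq_zero.mp h] at hz; simp at hz) (p := 1 / 2) (by norm_num) 0
  obtain ⟨H, hH0, hH⟩ := exists_prim cH oH (fun z hz h => by simp [h] at hz)
    (fun z hz h => by rw [← sub_eq_zero.mp h] at hz; simp at hz) (p := 1 / 2 + I) (by simp)
    (M (1 / 2 + I))
  have hMc : ∀ z : ℂ, 0 < z.re ∧ z.re < 1 → M z = -M ((starRingEnd ℂ) z) := fun z hz =>
    prim_eq cM oM hM (fun w hw => P_conj (hM _ (by simpa using hw))) (p := 1 / 2) (by norm_num)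
      (by
        have : (starRingEnd ℂ) (1 / 2) = 1 / 2 := by rw [map_div₀, map_one, map_ofNat]
        rw [this, hM0, neg_zero]) hz
  have hHM : ∀ z : ℂ, 0 < z.im → 0 < z.re ∧ z.re < 1 → H z = M z := fun z h1 h2 =>
    prim_eq (cH.inter cM) (oH.inter oM) (fun w hw => hH w hw.1) (fun w hw => hM w hw.2)
      (p := 1 / 2 + I) ⟨by simp, by norm_num⟩ hH0 ⟨h1, h2⟩
  have hHs : ∀ z : ℂ, 0 < z.im → H z = H ((starRingEnd ℂ) (1 - z)) := fun z hz => by
    have := prim_eq cH oH hH (fun w hw => P_sub (P_conj (hH _ (by simpa using hw))))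
      (p := 1 / 2 + I) (by simp) (by
        have : (starRingEnd ℂ) (1 - (1 / 2 + I)) = 1 / 2 + I := by
          apply Complex.ext <;> norm_num
        rw [this, neg_neg]) hz
    rwa [neg_neg] at this
  have him : ∀ w : ℂ, w ≠ 0 → (0 < ((starRingEnd ℂ) w⁻¹).im ↔ 0 < w.im) := by
    intro w hw
    have := normSq_pos.mpr hw
    rw [conj_im, inv_im, neg_div, neg_neg, div_pos_iff_of_pos_right this]
  have hHi : ∀ z : ℂ, 0 < z.im → H z = H ((starRingEnd ℂ) z⁻¹) := fun z hz => by
    have := prim_eq cH oH hH (fun w hw =>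
      have h0 : w ≠ 0 := fun h => by simp [h] at hw
      P_inv h0 (fun h => by rw [← sub_eq_zero.mp h] at hw; simp at hw)
        (P_conj (hH _ ((him w h0).mpr hw)))) (p := I) (by simp) (by simp) hz
    rwa [neg_neg] at this
  let D : ℂ → ℝ := fun z =>
    if 0 < z.im then H z else if z.im < 0 then -H ((starRingEnd ℂ) z) else 0
  have dp : ∀ z : ℂ, 0 < z.im → D z = H z := fun z hz => if_pos hz
  have dn : ∀ z : ℂ, z.im < 0 → D z = -H ((starRingEnd ℂ) z) := fun z hz => by
    simp only [D, if_neg (not_lt.mpr hz.le), if_pos hz]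
  have dz : ∀ z : ℂ, z.im = 0 → D z = 0 := fun z hz => by simp [D, hz]
  have ds : ∀ z, D z = -D (1 - z) := by
    intro z
    rcases lt_trichotomy z.im 0 with h | h | h
    · rw [dn z h, dp (1 - z) (by simpa using h), hHs (1 - z) (by simpa using h), sub_sub_cancel]
    · rw [dz z h, dz (1 - z) (by simpa using h), neg_zero]
    · rw [dp z h, dn (1 - z) (by simpa using h), neg_neg, hHs z h]
  have di : ∀ z, D z = -D z⁻¹ := by
    intro z
    rcases lt_trichotomy z.im 0 with h | h | h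
    · have h0 : z ≠ 0 := fun h' => by simp [h'] at h
      have h2 : 0 < z⁻¹.im := by
        have := (him z⁻¹ (inv_ne_zero h0)).mp (by simpa using h)
        exact this
      rw [dn z h, dp _ h2, hHi _ h2, inv_inv]
    · rw [dz z h, dz z⁻¹ (by simp [h]), neg_zero]
    · have h0 : z ≠ 0 := fun h' => by simp [h'] at h
      have h2 : z⁻¹.im < 0 := by
        have := (him z h0).mpr h
        rw [conj_im] at this; linarith
      rw [dp z h, dn _ h2, neg_neg, hHi z h]
  have dM : ∀ z : ℂ, 0 < z.re ∧ z.re < 1 → D z = M z := by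
    intro z hz
    rcases lt_trichotomy z.im 0 with h | h | h
    · rw [dn z h, hHM _ (by simpa using h) (by simpa using hz), hMc z hz]
    · have := hMc z hz
      rw [conj_eq_iff_im.mpr h] at this
      rw [dz z h]; linarith
    · rw [dp z h, hHM z h hz]
  have aM : ∀ z : ℂ, 0 < z.re ∧ z.re < 1 → HasFDerivAt D (etaL z) z := fun z hz =>
    (hM z hz).congr_of_eventuallyEq (by filter_upwards [oM.mem_nhds hz] with w hw using dM w hw)
  have aR : ∀ z : ℂ, z.im = 0 → 1 < z.re → HasFDerivAt D (etaL z) z := fun z h1 h2 => by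
    have e : z = (z.re : ℂ) := by apply Complex.ext <;> simp [h1]
    have h3 : z⁻¹.re = z.re⁻¹ := by rw [e, ← ofReal_inv]; simp
    have := P_inv (z := z) (fun h => by simp [h] at h2; linarith)
      (fun h => by rw [← sub_eq_zero.mp h] at h2; simp at h2)
      (aM _ (by rw [h3]; exact ⟨by positivity, inv_lt_one_of_one_lt₀ h2⟩))
    rwa [← funext di] at this
  refine ⟨D, fun z h0 h1 => ?_⟩
  rcases lt_trichotomy z.im 0 with h | h | h
  · refine (P_conj (hH _ (by simpa using h))).congr_of_eventuallyEq ?_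
    filter_upwards [(isOpen_lt continuous_im continuous_const).mem_nhds h] with w hw using dn w hw
  · rcases lt_trichotomy z.re 0 with h2 | h2 | h2
    · have := P_sub (z := z) (aR (1 - z) (by simpa using h) (by rw [sub_re, one_re]; linarith))
      rwa [← funext ds] at this
    · exact absurd (Complex.ext h2 h) h0
    · rcases lt_trichotomy z.re 1 with h3 | h3 | h3
      · exact aM z ⟨h2, h3⟩
      · exact absurd (Complex.ext (by simp [h3]) (by simp [h])) h1
      · exact aR z h h3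
  · exact (hH z h).congr_of_eventuallyEq
      (by filter_upwards [oH.mem_nhds h] with w hw using dp w hw)

/-- the Steinberg relation for the regulator integral. -/
theorem eta_steinberg {h : ℝ → ℂ} (hs : ContDiff ℝ 1 h) (hc : h 0 = h 1) (h0 : ∀ t, h t ≠ 0)
    (h1 : ∀ t, 1 - h t ≠ 0) : etaIntegral h (fun t => 1 - h t) = 0 := by
  obtain ⟨D, hD⟩ := exists_BW
  have hd : ∀ t, HasDerivAt h (deriv h t) t := fun t =>
    (hs.differentiable (by simp) t).hasDerivAt
  have hder : ∀ t, HasDerivAt (fun t => D (h t))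
      (Real.log ‖h t‖ * (deriv (fun t => 1 - h t) t / (1 - h t)).im
        - Real.log ‖1 - h t‖ * (deriv h t / h t).im) t := by
    intro t
    have := (hD _ (h0 t) (h1 t)).comp_hasDerivAt t (hd t)
    rw [etaL_apply] at this
    have e1 : -deriv h t / (1 - h t) = -(1 - h t)⁻¹ * deriv h t := by ring
    have e2 : deriv h t / h t = (h t)⁻¹ * deriv h t := by ring
    rw [deriv_const_sub, e1, e2]
    exact this
  have c1 : Continuous h := hs.continuous
  have c2 : Continuous (deriv h) := hs.continuous_deriv le_rfl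
  have hs' : ContDiff ℝ 1 fun t => 1 - h t := contDiff_const.sub hs
  have hcont : Continuous fun t => Real.log ‖h t‖ * (deriv (fun t => 1 - h t) t / (1 - h t)).im
        - Real.log ‖1 - h t‖ * (deriv h t / h t).im :=
    ((c1.norm.log fun t => norm_ne_zero_iff.mpr (h0 t)).mul (continuous_im.comp
      ((hs'.continuous_deriv le_rfl).div hs'.continuous h1))).sub
      ((hs'.continuous.norm.log fun t => norm_ne_zero_iff.mpr (h1 t)).mul
        (continuous_im.comp (c2.div c1 h0)))
  rw [etaIntegral, intervalIntegral.integral_eq_sub_of_hasDerivAt (fun t _ => hder t)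
    (hcont.intervalIntegrable _ _), hc, sub_self]

end Pool.Agent.Lib.MP_15b3df_nt
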