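import Mathlib

/-! Infinite products `(x;p)`, theta functions, and a Liouville lemma on the punctured plane. -/

open Complex Filter Topology Set

namespace RV6

noncomputable def poch (x p : ℂ) : ℂ := ∏' n : ℕ, (1 - x * p ^ n)

noncomputable def th (p w : ℂ) : ℂ := poch w p * poch (p / w) p

variable {p : ℂ}

lemma poch_summable (hp : ‖p‖ < 1) (x : ℂ) : Summable fun n : ℕ => ‖-(x * p ^ n)‖ := by
  simpa using (summable_geometric_of_lt_one (norm_nonneg _) hp).mul_left ‖x‖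

lemma poch_multipliable (hp : ‖p‖ < 1) (x : ℂ) : Multipliable fun n : ℕ => 1 - x * p ^ n :=
  multipliable_one_add_of_summable (f := fun n => -(x * p ^ n)) (poch_summable hp x)

lemma poch_hasProd (hp : ‖p‖ < 1) (x : ℂ) : HasProd (fun n : ℕ => 1 - x * p ^ n) (poch x p) :=
  (poch_multipliable hp x).hasProd

lemma poch_tendsto (hp : ‖p‖ < 1) (x : ℂ) :
    Tendsto (fun N => ∏ n ∈ Finset.range N, (1 - x * p ^ n)) atTop (𝓝 (poch x p)) :=
  (poch_hasProd hp x).tendsto_prod_nat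

lemma poch_succ (hp : ‖p‖ < 1) (x : ℂ) : poch x p = (1 - x) * poch (x * p) p := by
  have h1 := (poch_tendsto hp x).comp (tendsto_add_atTop_nat 1)
  have h2 := (poch_tendsto hp (x * p)).const_mul (1 - x)
  refine tendsto_nhds_unique h1 (h2.congr fun N => ?_)
  simp only [Function.comp, Finset.prod_range_succ', pow_zero, mul_one, pow_succ]
  rw [mul_comm]
  congr 1
  exact Finset.prod_congr rfl fun n _ => by ring

lemma poch_ne_zero (hp : ‖p‖ < 1) {x : ℂ} (h : ∀ n : ℕ, x * p ^ n ≠ 1) : poch x p ≠ 0 :=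
  tprod_one_add_ne_zero_of_summable (f := fun n => -(x * p ^ n))
    (fun n => by simpa [← sub_eq_add_neg, sub_eq_zero] using (h n).symm) (poch_summable hp x)

lemma poch_ne_zero' (hp : ‖p‖ < 1) {x : ℂ} (h : ‖x‖ < 1) : poch x p ≠ 0 := by
  refine poch_ne_zero hp fun n hn => ?_
  have := congrArg norm hn
  rw [norm_mul, norm_pow, norm_one] at this
  have h2 : ‖p‖ ^ n ≤ 1 := pow_le_one₀ (norm_nonneg _) hp.le
  nlinarith [norm_nonneg x, pow_nonneg (norm_nonneg p) n]

lemma differentiable_poch (hp : ‖p‖ < 1) : Differentiable ℂ fun x => poch x p := by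
  have h : HasProdLocallyUniformlyOn (fun (n : ℕ) (x : ℂ) => 1 - x * p ^ n)
      (fun x => poch x p) univ := by
    simp_rw [poch, sub_eq_add_neg]
    apply hasProdLocallyUniformlyOn_of_forall_compact isOpen_univ
    intro K _ hcK
    obtain ⟨R, hR⟩ := hcK.isBounded.exists_norm_le
    refine ((summable_geometric_of_lt_one (norm_nonneg _) hp).mul_left
      R).hasProdUniformlyOn_nat_one_add hcK (.of_forall fun n x hx => ?_) (fun _ => by fun_prop)
    rw [norm_neg, norm_mul, norm_pow]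
    exact mul_le_mul_of_nonneg_right (hR x hx) (by positivity)
  rw [← differentiableOn_univ]
  exact h.differentiableOn (.of_forall fun _ => by
    simpa [Finset.prod_fn] using
      DifferentiableOn.finsetProd (fun _ _ => by fun_prop)) isOpen_univ

lemma norm_pow_lt (hp : ‖p‖ < 1) {k : ℕ} (hk : k ≠ 0) : ‖p ^ k‖ < 1 := by
  rw [norm_pow]; exact pow_lt_one₀ (norm_nonneg _) hp hk

lemma poch_two (hp : ‖p‖ < 1) (x : ℂ) : poch x p = poch x (p ^ 2) * poch (x * p) (p ^ 2) := by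
  have hp2 := norm_pow_lt hp two_ne_zero
  have h1 := (poch_tendsto hp x).comp (tendsto_id.const_mul_atTop' (r := 2) two_pos)
  have h2 := (poch_tendsto hp2 x).mul (poch_tendsto hp2 (x * p))
  refine tendsto_nhds_unique h1 (h2.congr fun N => ?_)
  simp only [Function.comp, id]
  induction N with
  | zero => simp
  | succ N ih =>
    rw [show 2 * (N + 1) = 2 * N + 1 + 1 by ring]
    simp only [Finset.prod_range_succ]
    rw [← ih]
    ring

lemma poch_three (hp : ‖p‖ < 1) (x : ℂ) :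
    poch x p = poch x (p ^ 3) * poch (x * p) (p ^ 3) * poch (x * p ^ 2) (p ^ 3) := by
  have hp2 := norm_pow_lt hp three_ne_zero
  have h1 := (poch_tendsto hp x).comp (tendsto_id.const_mul_atTop' (r := 3) three_pos)
  have h2 := ((poch_tendsto hp2 x).mul (poch_tendsto hp2 (x * p))).mul
    (poch_tendsto hp2 (x * p ^ 2))
  refine tendsto_nhds_unique h1 (h2.congr fun N => ?_)
  simp only [Function.comp, id]
  induction N with
  | zero => simp
  | succ N ih =>
    rw [show 3 * (N + 1) = 3 * N + 1 + 1 + 1 by ring]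
    simp only [Finset.prod_range_succ]
    rw [← ih]
    ring

lemma poch_neg (hp : ‖p‖ < 1) (x : ℂ) : poch x p * poch (-x) p = poch (x ^ 2) (p ^ 2) := by
  have h := (poch_hasProd hp x).mul (poch_hasProd hp (-x))
  refine h.unique ((poch_hasProd (norm_pow_lt hp two_ne_zero) (x ^ 2)).congr_fun fun n => ?_)
  ring

lemma poch_cube (hp : ‖p‖ < 1) {ρ : ℂ} (hρ : ρ ^ 2 + ρ + 1 = 0) (x : ℂ) :
    poch x p * poch (ρ * x) p * poch (ρ ^ 2 * x) p = poch (x ^ 3) (p ^ 3) := by
  have h := ((poch_hasProd hp x).mul (poch_hasProd hp (ρ * x))).mul (poch_hasProd hp (ρ ^ 2 * x))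
  refine h.unique ((poch_hasProd (norm_pow_lt hp three_ne_zero) (x ^ 3)).congr_fun fun n => ?_)
  have : (p ^ 3) ^ n = (p ^ n) ^ 3 := by ring
  rw [this]
  generalize p ^ n = a
  linear_combination (-(x * a) + ρ * (x * a) ^ 2 - (ρ - 1) * (x * a) ^ 3) * hρ

lemma one_sub_pow_ne (hp : ‖p‖ < 1) (k : ℕ+) : 1 - p ^ (k : ℕ) ≠ 0 := by
  intro h
  have h1 := norm_pow_lt hp k.ne_zero
  rw [← sub_eq_zero.mp h] at h1
  simp at h1

lemma poch_exp (hp : ‖p‖ < 1) {x : ℂ} (hx : ‖x‖ < 1) :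
    ∃ S, HasSum (fun k : ℕ+ => x ^ (k : ℕ) / ((k : ℕ) * (1 - p ^ (k : ℕ)))) S ∧
      poch x p = exp (-S) := by
  have hs : Summable fun z : ℕ × ℕ+ => (x * p ^ z.1) ^ (z.2 : ℕ) / ((z.2 : ℕ) : ℂ) := by
    have h1 := summable_geometric_of_lt_one (norm_nonneg _) hp
    have h2 : Summable fun k : ℕ+ => ‖x‖ ^ (k : ℕ) :=
      (summable_pnat_iff_summable_nat (f := fun m : ℕ => ‖x‖ ^ m)).mpr
        (summable_geometric_of_lt_one (norm_nonneg _) hx)
    refine Summable.of_norm_bounded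
      (h1.mul_of_nonneg h2 (fun m => by positivity) (fun m => by positivity)) fun z => ?_
    rw [norm_div, norm_pow, norm_mul, norm_pow, mul_pow, Complex.norm_natCast]
    have a1 : (1 : ℝ) ≤ (z.2 : ℕ) := by exact_mod_cast z.2.pos
    have a2 : (‖p‖ ^ z.1) ^ (z.2 : ℕ) ≤ ‖p‖ ^ z.1 :=
      pow_le_of_le_one (by positivity) (pow_le_one₀ (norm_nonneg _) hp.le) z.2.ne_zero
    refine (div_le_self (by positivity) a1).trans ?_
    rw [mul_comm]
    gcongr
  have hlt : ∀ n : ℕ, ‖x * p ^ n‖ < 1 := fun n => by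
    rw [norm_mul, norm_pow]
    exact lt_of_le_of_lt (mul_le_of_le_one_right (norm_nonneg _)
      (pow_le_one₀ (norm_nonneg _) hp.le)) hx
  refine ⟨∑' z : ℕ × ℕ+, (x * p ^ z.1) ^ (z.2 : ℕ) / ((z.2 : ℕ) : ℂ), ?_, ?_⟩
  · have h := ((Equiv.prodComm ℕ+ ℕ).hasSum_iff (f := fun z : ℕ × ℕ+ =>
      (x * p ^ z.1) ^ (z.2 : ℕ) / ((z.2 : ℕ) : ℂ))).mpr hs.hasSum
    refine HasSum.prod_fiberwise h fun k => ?_
    have := (hasSum_geometric_of_norm_lt_one (norm_pow_lt hp k.ne_zero)).mul_left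
      (x ^ (k : ℕ) / ((k : ℕ) : ℂ))
    rw [show x ^ (k : ℕ) / (((k : ℕ) : ℂ) * (1 - p ^ (k : ℕ))) =
      x ^ (k : ℕ) / ((k : ℕ) : ℂ) * (1 - p ^ (k : ℕ))⁻¹ by rw [div_mul_eq_div_div]; rfl]
    refine this.congr_fun fun n => ?_
    simp only [Function.comp, Equiv.prodComm_apply, Prod.swap]
    ring
  · have h : HasSum (fun n : ℕ => -log (1 - x * p ^ n))
        (∑' z : ℕ × ℕ+, (x * p ^ z.1) ^ (z.2 : ℕ) / ((z.2 : ℕ) : ℂ)) := by
      refine HasSum.prod_fiberwise hs.hasSum fun n => ?_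
      have := hasSum_taylorSeries_neg_log (hlt n)
      exact (hasSum_pnat_iff (f := fun k : ℕ => (x * p ^ n) ^ k / (k : ℂ))).mpr (by simpa using this)
    have h2 := h.neg.cexp
    refine (poch_hasProd hp x).unique (h2.congr_fun fun n => ?_)
    simp only [Function.comp, neg_neg]
    rw [exp_log]
    intro h0
    have := hlt n
    rw [← sub_eq_zero.mp h0] at this
    simp at this

lemma th_mul (hp : ‖p‖ < 1) (hp0 : p ≠ 0) {w : ℂ} (hw : w ≠ 0) :
    th p (p * w) = -w⁻¹ * th p w := by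
  unfold th
  rw [poch_succ hp w, poch_succ hp (p / (p * w)), mul_comm w p,
    show p / (p * w) * p = p / w by field_simp]
  field_simp
  ring

lemma th_refl (hp0 : p ≠ 0) {w : ℂ} (hw : w ≠ 0) : th p (p / w) = th p w := by
  unfold th
  rw [show p / (p / w) = w by field_simp, mul_comm]

lemma th_inv (hp : ‖p‖ < 1) (hp0 : p ≠ 0) {w : ℂ} (hw : w ≠ 0) :
    th p w⁻¹ = -w⁻¹ * th p w := by
  rw [← th_mul hp hp0 hw, ← th_refl hp0 (inv_ne_zero hw)]
  congr 1
  field_simp

lemma th_one (hp : ‖p‖ < 1) : th p 1 = 0 := by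
  unfold th
  rw [poch_succ hp 1]
  simp

lemma differentiableAt_th (hp : ‖p‖ < 1) {w : ℂ} (hw : w ≠ 0) : DifferentiableAt ℂ (th p) w := by
  unfold th
  have := differentiable_poch hp
  refine (this w).mul ?_
  exact (this (p / w)).comp w ((differentiableAt_const p).div differentiableAt_id hw)

lemma differentiableOn_th (hp : ‖p‖ < 1) : DifferentiableOn ℂ (th p) {0}ᶜ :=
  fun _ hw => (differentiableAt_th hp hw).differentiableWithinAt

lemma th_eq_zero (hp : ‖p‖ < 1) (hp0 : p ≠ 0) {w : ℂ} (hw : w ≠ 0) (h : th p w = 0) :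
    ∃ n : ℤ, w = p ^ n := by
  by_contra hc
  push Not at hc
  refine mul_ne_zero (poch_ne_zero hp fun n hn => ?_) (poch_ne_zero hp fun n hn => ?_) h
  · apply hc (-n)
    rw [zpow_neg, zpow_natCast]
    exact eq_inv_of_mul_eq_one_left hn
  · apply hc ((n + 1 : ℕ) : ℤ)
    rw [zpow_natCast]
    field_simp at hn
    rw [← hn]; ring

/-- propagation along the orbit of multiplication by `p` -/
lemma zpow_induct (hp0 : p ≠ 0) {Q : ℂ → Prop} (hQ : ∀ w, w ≠ 0 → (Q (p * w) ↔ Q w)) {a : ℂ}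
    (ha : a ≠ 0) (h : Q a) (n : ℤ) : Q (p ^ n * a) := by
  induction n using Int.induction_on with
  | zero => simpa
  | succ n ih =>
    rw [zpow_add_one₀ hp0, mul_comm _ p, mul_assoc, hQ]
    · exact ih
    · exact mul_ne_zero (zpow_ne_zero _ hp0) ha
  | pred n ih =>
    rw [← hQ _ (mul_ne_zero (zpow_ne_zero _ hp0) ha), ← mul_assoc, zpow_sub_one₀ hp0,
      mul_comm p, mul_assoc (p ^ _), inv_mul_cancel₀ hp0, mul_one]
    exact ih

lemma hasDerivAt_th_one (hp : ‖p‖ < 1) : HasDerivAt (th p) (-(poch p p) ^ 2) 1 := by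
  have h1 : th p = fun w => (1 - w) * (poch (w * p) p * poch (p / w) p) := by
    funext w
    unfold th
    rw [poch_succ hp w]; ring
  have h2 : DifferentiableAt ℂ (fun w => poch (w * p) p * poch (p / w) p) 1 := by
    have := differentiable_poch hp
    refine ((this _).comp (1 : ℂ) (differentiableAt_id.mul_const p)).mul ?_
    exact (this (p / 1)).comp (1 : ℂ)
      ((differentiableAt_const p).div differentiableAt_id one_ne_zero)
  rw [h1]
  refine (((hasDerivAt_id (1 : ℂ)).const_sub 1).mul h2.hasDerivAt).congr_deriv ?_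
  simp
  ring

lemma deriv_th_mul (hp : ‖p‖ < 1) (hp0 : p ≠ 0) {w : ℂ} (hw : w ≠ 0) :
    p * deriv (th p) (p * w) = (w ^ 2)⁻¹ * th p w - w⁻¹ * deriv (th p) w := by
  have h1 : HasDerivAt (fun w => th p (p * w)) (deriv (th p) (p * w) * (p * 1)) w :=
    (differentiableAt_th hp (mul_ne_zero hp0 hw)).hasDerivAt.comp w
      ((hasDerivAt_id w).const_mul p)
  have h2 := ((hasDerivAt_inv hw).neg).mul (differentiableAt_th hp hw).hasDerivAt
  have h3 : (fun w => th p (p * w)) =ᶠ[𝓝 w] fun w => -w⁻¹ * th p w := by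
    filter_upwards [isOpen_ne.mem_nhds hw] with z hz using th_mul hp hp0 hz
  have := h1.unique (h2.congr_of_eventuallyEq h3)
  simp only [Pi.neg_apply] at this
  linear_combination this

lemma deriv_th_ne (hp : ‖p‖ < 1) (hp0 : p ≠ 0) {w : ℂ} (hw : w ≠ 0) (h : th p w = 0) :
    deriv (th p) w ≠ 0 := by
  obtain ⟨n, rfl⟩ := th_eq_zero hp hp0 hw h
  have := zpow_induct hp0 (Q := fun w => th p w = 0 ∧ deriv (th p) w ≠ 0) (a := 1) ?_ one_ne_zero
    ⟨th_one hp, ?_⟩ n
  · simpa using this.2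
  · intro w hw
    have h1 := deriv_th_mul hp hp0 hw
    simp only [th_mul hp hp0 hw]
    have hw' := inv_ne_zero hw
    constructor
    · rintro ⟨a, b⟩
      have a' : th p w = 0 := by simpa [hw] using a
      refine ⟨a', fun c => b ?_⟩
      rw [a', c] at h1
      simpa [hp0] using h1
    · rintro ⟨a, b⟩
      refine ⟨by simp [a], fun c => b ?_⟩
      rw [a, c] at h1
      simpa [hw] using h1
  · rw [(hasDerivAt_th_one hp).deriv]
    simpa using poch_ne_zero' hp hp

/-- a `p`-invariant holomorphic function on the punctured plane is constant -/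
lemma const_of_invariant (hp : ‖p‖ < 1) (hp0 : p ≠ 0) {g : ℂ → ℂ}
    (hg : DifferentiableOn ℂ g {0}ᶜ) (hi : ∀ w, w ≠ 0 → g (p * w) = g w) :
    ∃ c, ∀ w, w ≠ 0 → g w = c := by
  have hK : IsCompact (Metric.closedBall (0 : ℂ) 1 ∩ {w | ‖p‖ ≤ ‖w‖}) :=
    (isCompact_closedBall 0 1).inter_right (isClosed_le continuous_const continuous_norm)
  have hp' : 0 < ‖p‖ := norm_pos_iff.mpr hp0
  have hsub : Metric.closedBall (0 : ℂ) 1 ∩ {w | ‖p‖ ≤ ‖w‖} ⊆ {0}ᶜ := by
    rintro w ⟨-, hw⟩ rfl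
    simp only [mem_ofPred_eq, norm_zero] at hw
    linarith
  obtain ⟨M, hM⟩ := hK.exists_bound_of_continuousOn (hg.continuousOn.mono hsub)
  have hb : ∀ w, w ≠ 0 → ‖g w‖ ≤ M := by
    intro w hw
    obtain ⟨n, hn1, hn2⟩ := exists_mem_Ioc_zpow (norm_pos_iff.mpr hw)
      (one_lt_inv_iff₀.mpr ⟨hp', hp⟩)
    have ha : p ^ (n + 1) * w ≠ 0 := mul_ne_zero (zpow_ne_zero _ hp0) hw
    have := zpow_induct hp0 (Q := fun w => ‖g w‖ ≤ M) (fun w hw => by simp only [hi w hw]) ha
      (hM _ ⟨?_, ?_⟩) (-(n + 1))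
    · rwa [← mul_assoc, ← zpow_add₀ hp0, neg_add_cancel, zpow_zero, one_mul] at this
    · rw [mem_closedBall_zero_iff, norm_mul, norm_zpow]
      rw [inv_zpow, le_inv_comm₀ (norm_pos_iff.mpr hw) (zpow_pos hp' _)] at hn2
      calc _ ≤ ‖w‖⁻¹ * ‖w‖ := by gcongr
        _ = 1 := inv_mul_cancel₀ (norm_ne_zero_iff.mpr hw)
    · rw [mem_ofPred_eq, norm_mul, norm_zpow, zpow_add_one₀ hp'.ne']
      rw [inv_zpow, inv_lt_comm₀ (zpow_pos hp' _) (norm_pos_iff.mpr hw)] at hn1
      have h1 : ‖w‖⁻¹ * ‖w‖ = 1 := inv_mul_cancel₀ (norm_ne_zero_iff.mpr hw)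
      have h2 : ‖w‖⁻¹ * ‖w‖ ≤ ‖p‖ ^ n * ‖w‖ := by gcongr
      nlinarith
  have hd : Differentiable ℂ (g ∘ exp) := fun z =>
    ((hg _ (exp_ne_zero z)).differentiableAt (isOpen_ne.mem_nhds (exp_ne_zero z))).comp z
      differentiableAt_exp
  have hbd : Bornology.IsBounded (range (g ∘ exp)) := by
    rw [isBounded_iff_forall_norm_le]
    exact ⟨M, by rintro _ ⟨z, rfl⟩; exact hb _ (exp_ne_zero z)⟩
  refine ⟨g 1, fun w hw => ?_⟩
  have := hd.apply_eq_apply_of_bounded hbd (log w) 0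
  simpa [exp_log hw] using this

/-- Liouville lemma for quasi-periodic functions -/
lemma theta_div (hp : ‖p‖ < 1) (hp0 : p ≠ 0) {F G m : ℂ → ℂ}
    (hF : DifferentiableOn ℂ F {0}ᶜ) (hG : DifferentiableOn ℂ G {0}ᶜ)
    (hm : ∀ w, w ≠ 0 → m w ≠ 0) (hFm : ∀ w, w ≠ 0 → F (p * w) = m w * F w)
    (hGm : ∀ w, w ≠ 0 → G (p * w) = m w * G w)
    (hz : ∀ w, w ≠ 0 → G w = 0 → F w = 0 ∧ deriv G w ≠ 0) :
    ∃ c, ∀ w, w ≠ 0 → F w = c * G w := by
  classical
  set g : ℂ → ℂ := fun w => if G w = 0 then deriv F w / deriv G w else F w / G w with hg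
  have hnb : ∀ w : ℂ, w ≠ 0 → ({0}ᶜ : Set ℂ) ∈ 𝓝 w := fun w hw => isOpen_ne.mem_nhds hw
  have hloc : ∀ w, w ≠ 0 → G w = 0 →
      (∀ᶠ z in 𝓝[≠] w, G z ≠ 0) ∧ DifferentiableAt ℂ g w := by
    intro w hw h0
    obtain ⟨hF0, hd⟩ := hz w hw h0
    have dF := ((differentiableOn_dslope (hnb w hw)).mpr hF).differentiableAt (hnb w hw)
    have dG := ((differentiableOn_dslope (hnb w hw)).mpr hG).differentiableAt (hnb w hw)
    have hne : dslope G w w ≠ 0 := by rwa [dslope_same]
    have hev := dG.continuousAt.eventually_ne hne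
    have eG : ∀ z, G z = (z - w) * dslope G w z := fun z => by
      have := sub_smul_dslope G w z
      rw [h0, sub_zero] at this
      exact this.symm
    have eF : ∀ z, F z = (z - w) * dslope F w z := fun z => by
      have := sub_smul_dslope F w z
      rw [hF0, sub_zero] at this
      exact this.symm
    constructor
    · filter_upwards [nhdsWithin_le_nhds hev, self_mem_nhdsWithin] with z h1 h2
      rw [eG]
      exact mul_ne_zero (sub_ne_zero.mpr h2) h1
    · refine (dF.div dG hne).congr_of_eventuallyEq ?_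
      filter_upwards [hev] with z hz
      by_cases hzw : z = w
      · subst hzw
        simp [hg, h0, dslope_same]
      · have : G z ≠ 0 := by rw [eG]; exact mul_ne_zero (sub_ne_zero.mpr hzw) hz
        simp only [hg, this, if_false, Pi.div_apply]
        rw [eG, eF, mul_div_mul_left _ _ (sub_ne_zero.mpr hzw)]
  have hdg : ∀ w, w ≠ 0 → DifferentiableAt ℂ g w := by
    intro w hw
    by_cases h0 : G w = 0
    · exact (hloc w hw h0).2
    · have dF := hF.differentiableAt (hnb w hw)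
      have dG := hG.differentiableAt (hnb w hw)
      refine (dF.div dG h0).congr_of_eventuallyEq ?_
      filter_upwards [dG.continuousAt.eventually_ne h0] with z hz
      simp [hg, hz]
  have hinv0 : ∀ w, w ≠ 0 → G w ≠ 0 → g (p * w) = g w := by
    intro w hw h0
    have : G (p * w) ≠ 0 := by rw [hGm w hw]; exact mul_ne_zero (hm w hw) h0
    simp only [hg, this, h0, if_false]
    rw [hFm w hw, hGm w hw, mul_div_mul_left _ _ (hm w hw)]
  have hinv : ∀ w, w ≠ 0 → g (p * w) = g w := by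
    intro w hw
    by_cases h0 : G w = 0
    · have c1 : ContinuousAt (fun z => g (p * z)) w :=
        ContinuousAt.comp (hdg _ (mul_ne_zero hp0 hw)).continuousAt (by fun_prop)
      have c2 := (hdg w hw).continuousAt
      refine tendsto_nhds_unique_of_eventuallyEq (l := 𝓝[≠] w)
        (c1.tendsto.mono_left nhdsWithin_le_nhds) (c2.tendsto.mono_left nhdsWithin_le_nhds) ?_
      filter_upwards [(hloc w hw h0).1, nhdsWithin_le_nhds (hnb w hw)] with z h1 h2
      exact hinv0 z h2 h1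
    · exact hinv0 w hw h0
  obtain ⟨c, hc⟩ := const_of_invariant hp hp0
    (fun w hw => (hdg w hw).differentiableWithinAt) hinv
  refine ⟨c, fun w hw => ?_⟩
  by_cases h0 : G w = 0
  · rw [(hz w hw h0).1, h0, mul_zero]
  · have := hc w hw
    simp only [hg, h0, if_false] at this
    rw [← this, div_mul_cancel₀ _ h0]

end RV6
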