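import Pool.Agent.Lib.MP_15b3df_nt.Defs

namespace Pool.Agent.Lib.MP_15b3df_nt

variable {F : Type} [Field F]

section
variable (v : Valuation F (WithZero (Multiplicative ℤ)))

lemma v_eq_one_of_sub {w : F} (h : v (w - 1) < 1) : v w = 1 := by
  have : v (w - 1 + 1) = v 1 := v.map_add_eq_of_lt_right (by simpa using h)
  simpa using this

lemma v_mul_sub {a b : F} (ha : v (a - 1) < 1) (hb : v (b - 1) < 1) : v (a * b - 1) < 1 := by
  have e : a * b - 1 = a * (b - 1) + (a - 1) := by ring
  rw [e]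
  refine v.map_add_lt ?_ ha
  rw [map_mul, v_eq_one_of_sub v ha, one_mul]; exact hb

lemma v_inv_sub {a : F} (ha : v (a - 1) < 1) : v (a⁻¹ - 1) < 1 := by
  have h1 := v_eq_one_of_sub v ha
  have ha0 : a ≠ 0 := by rintro rfl; simp at h1
  have e : a⁻¹ - 1 = -(a⁻¹ * (a - 1)) := by field_simp; ring
  rw [e, Valuation.map_neg, map_mul, map_inv₀, h1, inv_one, one_mul]; exact ha

lemma v_zpow_sub {a : F} (ha : v (a - 1) < 1) (k : ℤ) : v (a ^ k - 1) < 1 := by
  have hn : ∀ n : ℕ, v (a ^ n - 1) < 1 := by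
    intro n
    induction n with
    | zero => simp
    | succ n ih => rw [pow_succ]; exact v_mul_sub v ih ha
  obtain ⟨n, rfl | rfl⟩ := k.eq_nat_or_neg
  · simpa using hn n
  · rw [zpow_neg, zpow_natCast]; exact v_inv_sub v (hn n)

lemma v_one_sub_small {a : F} (h : v a < 1) : v (1 - a) = 1 := by
  rw [v.map_sub_eq_of_lt_left (by simpa using h)]; simp

lemma v_one_sub_big {a : F} (h : 1 < v a) : v (1 - a) = v a :=
  v.map_sub_eq_of_lt_right (by simpa using h)

/-- if `X` is not a unit and `Y` is, then `Y ≡ 1`; if `X` is small then `Y` is a unit. -/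
lemma pent_aux {X Y s : F} (hX : X ≠ 0) (hs : v s ≤ 1)
    (h : (1 - X) * (1 - Y) * (1 - X - Y) = s * X * Y) :
    (v X < 1 → v (Y - 1) < 1) ∧ (1 < v X → v Y = 1 → v (Y - 1) < 1) := by
  have hv : v (1 - X) * v (1 - Y) * v (1 - X - Y) = v s * v X * v Y := by
    rw [← map_mul, ← map_mul, h, map_mul, map_mul]
  have hX0 : 0 < v X := by simpa [pos_iff_ne_zero] using hX
  have hsw : v (Y - 1) = v (1 - Y) := v.map_sub_swap _ _
  constructor
  · intro hx
    rw [hsw]
    by_contra hc
    rw [not_lt] at hc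
    have e : 1 - X - Y = (1 - Y) - X := by ring
    have h1 : v (1 - X - Y) = v (1 - Y) := by
      rw [e]; exact v.map_sub_eq_of_lt_left (lt_of_lt_of_le hx hc)
    rw [v_one_sub_small v hx, h1, one_mul] at hv
    have hYle : v Y ≤ v (1 - Y) := by
      have : Y = 1 - (1 - Y) := by ring
      calc v Y = v (1 - (1 - Y)) := by rw [← this]
        _ ≤ v (1 - Y) := v.map_sub_le (by simpa using hc) le_rfl
    have hpos : 0 < v (1 - Y) := lt_of_lt_of_le one_pos hc
    have h2 : v s * v X * v Y < v (1 - Y) := by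
      calc v s * v X * v Y ≤ 1 * v X * v (1 - Y) := by gcongr
        _ < 1 * v (1 - Y) := by
            rw [one_mul]; exact mul_lt_mul_of_pos_right hx hpos
        _ = v (1 - Y) := one_mul _
    have h3 : v (1 - Y) ≤ v (1 - Y) * v (1 - Y) := by
      calc v (1 - Y) = 1 * v (1 - Y) := (one_mul _).symm
        _ ≤ v (1 - Y) * v (1 - Y) := by gcongr
    rw [hv] at h3
    exact absurd h2 (not_lt.mpr h3)
  · intro hx hy
    rw [hsw]
    have hle : v (1 - Y) ≤ 1 := v.map_sub_le (by simp) hy.le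
    have e : 1 - X - Y = (1 - Y) - X := by ring
    have h1 : v (1 - X - Y) = v X := by
      rw [e]; exact v.map_sub_eq_of_lt_right (lt_of_le_of_lt hle hx)
    rw [v_one_sub_big v hx, h1, hy, mul_one] at hv
    have h2 : v (1 - Y) * v X = v s := by
      have : (v (1 - Y) * v X) * v X = v s * v X := by rw [← hv]; ac_rfl
      exact mul_right_cancel₀ hX0.ne' this
    by_contra hc
    rw [not_lt] at hc
    have : v X ≤ v (1 - Y) * v X := by
      calc v X = 1 * v X := (one_mul _).symm
        _ ≤ v (1 - Y) * v X := by gcongr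
    rw [h2] at this
    exact absurd (lt_of_lt_of_le hx (this.trans hs)) (lt_irrefl _)

lemma pent_aux2 {X Y s : F} (hs : v s ≤ 1)
    (h : (1 - X) * (1 - Y) * (1 - X - Y) = s * X * Y) (hx : 1 < v X) (hy : 1 < v Y) :
    v (-(X / Y) - 1) < 1 := by
  have hv : v (1 - X) * v (1 - Y) * v (1 - X - Y) = v s * v X * v Y := by
    rw [← map_mul, ← map_mul, h, map_mul, map_mul]
  have hX0 : 0 < v X := lt_trans one_pos hx
  have hY0 : 0 < v Y := lt_trans one_pos hy
  have hY : Y ≠ 0 := by rintro rfl; simp at hY0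
  rw [v_one_sub_big v hx, v_one_sub_big v hy] at hv
  have h1 : v (1 - X - Y) = v s := by
    have : v (1 - X - Y) * (v X * v Y) = v s * (v X * v Y) := by
      rw [← mul_assoc (v s), ← hv]; ac_rfl
    exact mul_right_cancel₀ (mul_pos hX0 hY0).ne' this
  have h2 : v (X + Y) ≤ 1 := by
    have e : X + Y = 1 - (1 - X - Y) := by ring
    rw [e]; exact v.map_sub_le (by simp) (h1 ▸ hs)
  have e : -(X / Y) - 1 = -((X + Y) / Y) := by field_simp; ring
  rw [e, Valuation.map_neg, map_div₀, div_lt_one₀ hY0]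
  exact lt_of_le_of_lt h2 hy

end

lemma ord_eq_zero (v : Valuation F (WithZero (Multiplicative ℤ))) {f : Fˣ} (h : v f = 1) :
    ord v f = 0 := by simp [ord, h]

/-- The symbol `{X, Y}` on the curve `(1-X)(1-Y)(1-X-Y) = s X Y` with `s` integral. -/
theorem tameTrivial_of_pentagon {X Y : Fˣ} {s : F} (hs : IsIntegral ℤ s)
    (h : (1 - (X : F)) * (1 - Y) * (1 - X - Y) = s * X * Y) : TameTrivial X Y := by
  intro v
  have hsv : v s ≤ 1 := by
    have h1 : IsIntegral v.integer s := hs.tower_top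
    exact (Valuation.integer.integers v).mem_of_integral h1
  have h' : (1 - (Y : F)) * (1 - X) * (1 - Y - X) = s * Y * X := by linear_combination h
  obtain ⟨a1, a2⟩ := pent_aux v X.ne_zero hsv h
  obtain ⟨b1, b2⟩ := pent_aux v Y.ne_zero hsv h'
  have caseY : v ((Y : F) - 1) < 1 →
      v ((-1) ^ (ord v X * ord v Y) * (X : F) ^ ord v Y / (Y : F) ^ ord v X - 1) < 1 := by
    intro hY
    rw [ord_eq_zero v (v_eq_one_of_sub v hY)]
    simpa using v_inv_sub v (v_zpow_sub v hY (ord v X))
  have caseX : v ((X : F) - 1) < 1 →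
      v ((-1) ^ (ord v X * ord v Y) * (X : F) ^ ord v Y / (Y : F) ^ ord v X - 1) < 1 := by
    intro hX
    rw [ord_eq_zero v (v_eq_one_of_sub v hX)]
    simpa using v_zpow_sub v hX (ord v Y)
  rcases lt_trichotomy (v X) 1 with hx | hx | hx
  · exact caseY (a1 hx)
  · rcases lt_trichotomy (v Y) 1 with hy | hy | hy
    · exact caseX (b1 hy)
    · rw [ord_eq_zero v hx, ord_eq_zero v hy]; simp
    · exact caseX (b2 hy hx)
  · rcases lt_trichotomy (v Y) 1 with hy | hy | hy
    · exact caseX (b1 hy)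
    · exact caseY (a2 hx hy)
    · have h3 := pent_aux2 v hsv h hx hy
      have h4 := v_eq_one_of_sub v h3
      rw [Valuation.map_neg, map_div₀, div_eq_one_iff_eq (by simp)] at h4
      have h5 : ord v Y = ord v X := by simp [ord, h4]
      rw [h5]
      have e : (-1 : F) ^ (ord v X * ord v X) = (-1) ^ ord v X := by
        rcases Int.even_or_odd (ord v X) with he | ho
        · rw [(he.mul_right _).neg_one_zpow, he.neg_one_zpow]
        · rw [(ho.mul ho).neg_one_zpow, ho.neg_one_zpow]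
      have e2 : (-1 : F) ^ ord v X * (X : F) ^ ord v X / (Y : F) ^ ord v X
          = (-((X : F) / Y)) ^ ord v X := by
        rw [← mul_zpow, ← div_zpow]; congr 1; ring
      rw [e, e2]
      exact v_zpow_sub v h3 _

end Pool.Agent.Lib.MP_15b3df_nt
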