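import Pool.Agent.Lib.MP_15b3df_nt.Loops
import Pool.Agent.Lib.MP_15b3df_nt.Tame

namespace Pool.Agent.Lib.MP_15b3df_nt

open Polynomial

section value
variable {A : Type} [CommRing A] {φ : A →+* ℂ} {f g : FractionRing A} {z w : ℂ}

def HasValue (φ : A →+* ℂ) (f : FractionRing A) (z : ℂ) : Prop :=
  ∃ a b : A, φ b ≠ 0 ∧ f * algebraMap A (FractionRing A) b = algebraMap A (FractionRing A) a ∧
    φ a = z * φ b

lemma HasValue.value_eq (h : HasValue φ f z) : value φ f = z := by
  obtain ⟨a, b, hb, h1, h2⟩ := h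
  have hex : ∃ p : A × A, φ p.2 ≠ 0 ∧
      f * algebraMap A (FractionRing A) p.2 = algebraMap A (FractionRing A) p.1 :=
    ⟨(a, b), hb, h1⟩
  rw [value, dif_pos hex]
  obtain ⟨h3, h4⟩ := hex.choose_spec
  set p := hex.choose
  have h5 : p.1 * b = a * p.2 := by
    apply IsFractionRing.injective A (FractionRing A)
    rw [map_mul, map_mul, ← h4, ← h1]; ring
  have h6 := congrArg φ h5
  rw [map_mul, map_mul, h2] at h6
  rw [div_eq_iff h3]
  exact mul_right_cancel₀ hb (by linear_combination h6)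

lemma HasValue.of (φ : A →+* ℂ) (a : A) : HasValue φ (algebraMap A (FractionRing A) a) (φ a) :=
  ⟨a, 1, by simp, by simp, by simp⟩

lemma HasValue.one : HasValue φ 1 1 := by simpa using HasValue.of φ 1

lemma HasValue.add (h : HasValue φ f z) (h' : HasValue φ g w) : HasValue φ (f + g) (z + w) := by
  obtain ⟨a, b, hb, h1, h2⟩ := h
  obtain ⟨c, d, hd, h3, h4⟩ := h'
  refine ⟨a * d + c * b, b * d, by simp [hb, hd], ?_, ?_⟩
  · simp only [map_mul, map_add, ← h1, ← h3]; ring
  · simp only [map_mul, map_add, h2, h4]; ring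

lemma HasValue.mul (h : HasValue φ f z) (h' : HasValue φ g w) : HasValue φ (f * g) (z * w) := by
  obtain ⟨a, b, hb, h1, h2⟩ := h
  obtain ⟨c, d, hd, h3, h4⟩ := h'
  refine ⟨a * c, b * d, by simp [hb, hd], ?_, ?_⟩
  · simp only [map_mul, ← h1, ← h3]; ring
  · simp only [map_mul, h2, h4]; ring

lemma HasValue.neg (h : HasValue φ f z) : HasValue φ (-f) (-z) := by
  obtain ⟨a, b, hb, h1, h2⟩ := h
  exact ⟨-a, b, hb, by simp [h1], by simp [h2]⟩

lemma HasValue.sub (h : HasValue φ f z) (h' : HasValue φ g w) : HasValue φ (f - g) (z - w) := by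
  simpa only [sub_eq_add_neg] using h.add h'.neg

lemma HasValue.sq (h : HasValue φ f z) : HasValue φ (f ^ 2) (z ^ 2) := by
  simpa only [pow_two] using h.mul h

lemma HasValue.ne_zero (h : HasValue φ f z) (hz : z ≠ 0) : f ≠ 0 := by
  obtain ⟨a, b, hb, h1, h2⟩ := h
  rintro rfl
  have : a = 0 := by
    apply IsFractionRing.injective A (FractionRing A)
    simpa using h1.symm
  rw [this, map_zero] at h2
  exact mul_ne_zero hz hb h2.symm

variable [IsDomain A]

lemma HasValue.div (h : HasValue φ f z) (h' : HasValue φ g w) (hw : w ≠ 0) :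
    HasValue φ (f / g) (z / w) := by
  have hg := h'.ne_zero hw
  obtain ⟨a, b, hb, h1, h2⟩ := h
  obtain ⟨c, d, hd, h3, h4⟩ := h'
  refine ⟨a * d, b * c, by simp [hb, hd, h4, hw], ?_, ?_⟩
  · simp only [map_mul, ← h1, ← h3]; field_simp
  · simp only [map_mul, h2, h4]; field_simp

lemma den_ne {a b : ℂ} (h : a / b ≠ 0) : b ≠ 0 := by rintro rfl; simp at h

variable {m x y : FractionRing A} {μ : ℂ}

lemma HasValue.UU (hm : HasValue φ m μ) (hx : HasValue φ x z) (h : UU μ z ≠ 0) :
    HasValue φ (UU m x) (UU μ z) :=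
  (((HasValue.one.sub hm.sq).mul hx).sub hm.sq).div
    (hx.mul (((hm.mul hx).add hm).sub HasValue.one)) (den_ne h)

lemma HasValue.WW (hm : HasValue φ m μ) (hx : HasValue φ x z) (h : WW μ z ≠ 0) :
    HasValue φ (WW m x) (WW μ z) :=
  ((hm.mul (hx.add HasValue.one)).mul (hx.sub hm)).div
    (hx.mul (((hm.mul hx).add hm).sub HasValue.one)) (den_ne h)

lemma HasValue.sm (hm : HasValue φ m μ) (h : sm μ ≠ 0) : HasValue φ (sm m) (sm μ) :=
  (hm.mul (HasValue.one.add hm).sq).div (HasValue.one.sub hm).sq (den_ne h)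

end value

section pentagon
variable {R : Type} [Field R] {m x y s : R}

lemma one_add_UU (h : UU m x ≠ 0) : 1 + UU m x = WW m x := by
  have h1 : x * (m * x + m - 1) ≠ 0 := by
    intro h0; apply h; rw [UU, h0, div_zero]
  rw [UU, WW, eq_div_iff h1, add_mul, div_mul_cancel₀ _ h1]; ring

lemma pentagon_UU (hs : s * m ^ 2 * (1 - m) = 1 + m)
    (h : (x + 1) * (y + 1) * (x * y + x + y) = s * x * y)
    (h0 : sm m ≠ 0) (hx : UU m x ≠ 0) (hy : UU m y ≠ 0) :
    WW m x * WW m y * (1 + UU m x + UU m y) = sm m * UU m x * UU m y := by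
  have h1 : x * (m * x + m - 1) ≠ 0 := by
    intro h0; apply hx; rw [UU, h0, div_zero]
  have h2 : y * (m * y + m - 1) ≠ 0 := by
    intro h0; apply hy; rw [UU, h0, div_zero]
  have h3 : (1 - m) ≠ 0 := by
    intro h; apply h0; rw [sm, h]; simp
  have hQ : m ^ 2 * (1 - m) * ((x + 1) * (y + 1) * (x * y + x + y)) - (1 + m) * x * y = 0 := by
    rw [h, ← hs]; ring
  have key : m * ((x + 1) * (x - m) * (y + 1) * (y - m)) *
      (x * (m * x + m - 1) * (y * (m * y + m - 1))
        + ((1 - m ^ 2) * x - m ^ 2) * (y * (m * y + m - 1))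
        + ((1 - m ^ 2) * y - m ^ 2) * (x * (m * x + m - 1))) * (1 - m) ^ 2
      = (1 + m) ^ 2 * ((1 - m ^ 2) * x - m ^ 2) * ((1 - m ^ 2) * y - m ^ 2)
        * (x * (m * x + m - 1)) * (y * (m * y + m - 1)) := by
    linear_combination ((-1)*x^2*y^2*m^2 + (1)*x^2*y^2*m + (2)*x^2*y*m^3 + (-2)*x^2*y*m^2
      + (-1)*x^2*m^4 + (1)*x^2*m^3 + (2)*x*y^2*m^3 + (-2)*x*y^2*m^2 + (1)*x*y*m^5 + (5)*x*y*m^3
      + (-5)*x*y*m^2 + (1)*x*y + (1)*x*m^5 + (-2)*x*m^4 + (2)*x*m^3 + (-1)*x*m^2 + (-1)*y^2*m^4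
      + (1)*y^2*m^3 + (1)*y*m^5 + (-2)*y*m^4 + (2)*y*m^3 + (-1)*y*m^2 + (1)*m^5 + (-2)*m^4
      + (1)*m^3) * hQ
  rw [UU, UU, WW, WW, sm]
  set p := x * (m * x + m - 1)
  set q := y * (m * y + m - 1)
  field_simp
  linear_combination m * key

lemma pentagon_A (hs : s * m ^ 2 * (1 - m) = 1 + m)
    (h : (x + 1) * (y + 1) * (x * y + x + y) = s * x * y)
    (h0 : sm m ≠ 0) (hx : UU m x ≠ 0) (hy : UU m y ≠ 0) :
    (1 - fA m x) * (1 - fA m y) * (1 - fA m x - fA m y) = sm m * fA m x * fA m y := by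
  have := pentagon_UU hs h h0 hx hy
  rw [← one_add_UU hx, ← one_add_UU hy] at this
  simp only [fA]
  linear_combination this

lemma pentagon_B (hs : s * m ^ 2 * (1 - m) = 1 + m)
    (h : (x + 1) * (y + 1) * (x * y + x + y) = s * x * y)
    (h0 : sm m ≠ 0) (hx : UU m x ≠ 0) (hy : UU m y ≠ 0) (hx' : WW m x ≠ 0) (hy' : WW m y ≠ 0) :
    (1 - fB m x y) * (1 - gB m y) * (1 - fB m x y - gB m y)
      = (-(sm m)⁻¹) * fB m x y * gB m y := by
  have h1 := pentagon_UU hs h h0 hx hy
  have h2 : 1 + UU m x + UU m y ≠ 0 := by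
    intro h3
    rw [h3, mul_zero] at h1
    exact mul_ne_zero (mul_ne_zero h0 hx) hy h1.symm
  have h3 : fB m x y = WW m x / (1 + UU m x + UU m y) := by
    rw [fB, ← h1]; field_simp
  have h4 : (sm m)⁻¹ = UU m x * UU m y / (WW m x * WW m y * (1 + UU m x + UU m y)) := by
    rw [h1]; field_simp
  rw [h3, h4, gB]
  have e1 := one_add_UU hx
  have e2 := one_add_UU hy
  rw [← e1] at hx' ⊢
  rw [← e2] at hy' ⊢
  set u := UU m x
  set v := UU m y
  field_simp
  ring

end pentagon

section curve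
variable {K : Type} [Field K]

/-- Tate normal form with a point of order five. -/
def curve (s : K) : WeierstrassCurve K := ⟨1 - s, -s, -s, 0, 0⟩

abbrev CR (s : K) : Type := (curve s).toAffine.CoordinateRing
abbrev FF (s : K) : Type := (curve s).toAffine.FunctionField

noncomputable def cX (s : K) : CR s := WeierstrassCurve.Affine.CoordinateRing.mk _ (C X)
noncomputable def cY (s : K) : CR s := WeierstrassCurve.Affine.CoordinateRing.mk _ X
noncomputable def cC (s a : K) : CR s := WeierstrassCurve.Affine.CoordinateRing.mk _ (C (C a))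

noncomputable def fX (s : K) : FF s := algebraMap (CR s) (FF s) (cX s)
noncomputable def fY (s : K) : FF s := algebraMap (CR s) (FF s) (cY s)

/-- the constants. -/
noncomputable def fC (s : K) : K →+* FF s :=
  (algebraMap (CR s) (FF s)).comp
    ((WeierstrassCurve.Affine.CoordinateRing.mk _).comp (C.comp C))

lemma fC_apply (s a : K) : fC s a = algebraMap (CR s) (FF s) (cC s a) := rfl

lemma curve_eq (s : K) :
    fY s ^ 2 + (1 - fC s s) * fX s * fY s - fC s s * fY s = fX s ^ 3 - fC s s * fX s ^ 2 := by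
  have h : cY s ^ 2 + (1 - cC s s) * cX s * cY s - cC s s * cY s
      - (cX s ^ 3 - cC s s * cX s ^ 2) = 0 := by
    have h0 : WeierstrassCurve.Affine.CoordinateRing.mk (curve s).toAffine
      (curve s).toAffine.polynomial = 0 := AdjoinRoot.mk_self
    have h1 : (curve s).toAffine.polynomial = X ^ 2 + (1 - C (C s)) * C X * X - C (C s) * X
        - (C X ^ 3 - C (C s) * C X ^ 2) := by
      simp only [WeierstrassCurve.Affine.polynomial, curve, map_add, map_sub, map_mul,
        map_pow, map_neg, map_one, map_zero]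
      ring
    have h2 := congrArg (WeierstrassCurve.Affine.CoordinateRing.mk (curve s).toAffine) h1
    rw [h0] at h2
    simp only [map_add, map_sub, map_mul, map_pow, map_one] at h2
    exact h2.symm
  have := congrArg (algebraMap (CR s) (FF s)) h
  simp only [map_add, map_sub, map_mul, map_pow, map_one, map_zero] at this
  rw [fC_apply, fX, fY]
  linear_combination this

noncomputable def xiF (s : K) : FF s := -fX s / fC s s
noncomputable def etaF (s : K) : FF s :=
  (fX s * (fC s s - fX s) - fC s s * fY s) / (fC s s - fX s) ^ 2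

lemma biquad (s : K) (hs : s ≠ 0) (h : xiF s + 1 ≠ 0) :
    (xiF s + 1) * (etaF s + 1) * (xiF s * etaF s + xiF s + etaF s)
      = fC s s * xiF s * etaF s := by
  have h1 : fC s s ≠ 0 := (_root_.map_ne_zero _).mpr hs
  have h2 : fC s s - fX s ≠ 0 := by
    intro h0; apply h; rw [xiF, ← sub_eq_zero.mp h0]; field_simp; ring
  have h3 := curve_eq s
  rw [xiF, etaF]
  set S := fC s s
  set x := fX s
  set y := fY s
  field_simp
  linear_combination (S ^ 2 * (S - x) ^ 2) * h3

/-- the complex point with coordinates `x, y`. -/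
noncomputable def point (s : K) (σ : K →+* ℂ) (x y : ℂ)
    (h : (x + 1) * (y + 1) * (x * y + x + y) = σ s * x * y) : CR s →+* ℂ :=
  AdjoinRoot.lift (eval₂RingHom σ (-σ s * x)) (-σ s * (y * (x + 1) ^ 2 + x * (x + 1))) (by
    simp only [WeierstrassCurve.Affine.polynomial, curve, eval₂_add, eval₂_sub, eval₂_mul,
      eval₂_pow, eval₂_X, eval₂_C, coe_eval₂RingHom, map_sub, map_neg, map_one, map_zero,
      eval₂_neg, eval₂_one, eval₂_zero]
    linear_combination (σ s ^ 2 * (x + 1) ^ 2) * h)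

lemma point_mk (s : K) (σ : K →+* ℂ) (x y : ℂ) (h) (p : K[X][X]) :
    point s σ x y h (WeierstrassCurve.Affine.CoordinateRing.mk _ p)
      = p.eval₂ (eval₂RingHom σ (-σ s * x)) (-σ s * (y * (x + 1) ^ 2 + x * (x + 1))) :=
  AdjoinRoot.lift_mk _ _

lemma hasValue_C (s : K) (σ : K →+* ℂ) (x y : ℂ) (h) (a : K) :
    HasValue (point s σ x y h) (fC s a) (σ a) := by
  have := HasValue.of (point s σ x y h) (cC s a)
  rwa [cC, point_mk, eval₂_C, coe_eval₂RingHom, eval₂_C] at this

lemma hasValue_X (s : K) (σ : K →+* ℂ) (x y : ℂ) (h) :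
    HasValue (point s σ x y h) (fX s) (-σ s * x) := by
  have := HasValue.of (point s σ x y h) (cX s)
  rwa [cX, point_mk, eval₂_C, coe_eval₂RingHom, eval₂_X] at this

lemma hasValue_Y (s : K) (σ : K →+* ℂ) (x y : ℂ) (h) :
    HasValue (point s σ x y h) (fY s) (-σ s * (y * (x + 1) ^ 2 + x * (x + 1))) := by
  have := HasValue.of (point s σ x y h) (cY s)
  rwa [cY, point_mk, eval₂_X] at this

lemma hasValue_xi (s : K) (hs : s ≠ 0) (σ : K →+* ℂ) (x y : ℂ) (h) :
    HasValue (point s σ x y h) (xiF s) x := by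
  have h1 : σ s ≠ 0 := (_root_.map_ne_zero _).mpr hs
  have := (hasValue_X s σ x y h).neg.div (hasValue_C s σ x y h s) h1
  have e : -(-σ s * x) / σ s = x := by field_simp
  rwa [e] at this

lemma hasValue_eta (s : K) (hs : s ≠ 0) (σ : K →+* ℂ) (x y : ℂ) (h) (hx : x + 1 ≠ 0) :
    HasValue (point s σ x y h) (etaF s) y := by
  have h1 : σ s ≠ 0 := (_root_.map_ne_zero _).mpr hs
  have hX := hasValue_X s σ x y h
  have hC := hasValue_C s σ x y h s
  have h2 : σ s - -σ s * x ≠ 0 := by
    have : σ s - -σ s * x = σ s * (x + 1) := by ring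
    rw [this]; exact mul_ne_zero h1 hx
  have := ((hX.mul (hC.sub hX)).sub (hC.mul (hasValue_Y s σ x y h))).div (hC.sub hX).sq
    (pow_ne_zero 2 h2)
  have e : (-σ s * x * (σ s - -σ s * x) - σ s * (-σ s * (y * (x + 1) ^ 2 + x * (x + 1))))
      / (σ s - -σ s * x) ^ 2 = y := by
    rw [div_eq_iff (pow_ne_zero 2 h2)]; ring
  rwa [e] at this

lemma contDiff_eval₂ (σ : K →+* ℂ) {a b : ℝ → ℂ} (ha : ContDiff ℝ 1 a) (hb : ContDiff ℝ 1 b)
    (p : K[X][X]) : ContDiff ℝ 1 fun t => p.eval₂ (eval₂RingHom σ (a t)) (b t) := by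
  have h1 : ∀ q : K[X], ContDiff ℝ 1 fun t => q.eval₂ σ (a t) := by
    intro q
    induction q using Polynomial.induction_on' with
    | add p q hp hq => simpa only [eval₂_add] using hp.add hq
    | monomial n c => simpa only [eval₂_monomial] using contDiff_const.mul (ha.pow n)
  induction p using Polynomial.induction_on' with
  | add p q hp hq => simpa only [eval₂_add] using hp.add hq
  | monomial n c =>
    simpa only [eval₂_monomial, coe_eval₂RingHom] using (h1 c).mul (hb.pow n)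

/-- the loop with coordinates `x t, y t`. -/
noncomputable def mkLoop (s : K) (σ : K →+* ℂ) (x y : ℝ → ℂ)
    (hx : ContDiff ℝ 1 x ∧ x 0 = x 1) (hy : ContDiff ℝ 1 y ∧ y 0 = y 1)
    (h : ∀ t, (x t + 1) * (y t + 1) * (x t * y t + x t + y t) = σ s * x t * y t) :
    Loop (CR s) where
  pt t := point s σ (x t) (y t) (h t)
  smooth a := by
    obtain ⟨p, rfl⟩ := AdjoinRoot.mk_surjective a
    simp only [point_mk]
    exact contDiff_eval₂ σ (contDiff_const.mul hx.1) (contDiff_const.mul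
      ((hy.1.mul ((hx.1.add contDiff_const).pow 2)).add (hx.1.mul (hx.1.add contDiff_const)))) p
  closed := by
    have e1 := hx.2
    have e2 := hy.2
    have := h 0
    congr 1

end curve

end Pool.Agent.Lib.MP_15b3df_nt
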