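import Mathlib

namespace Pool.Agent.Lib.MP_15b3df_nt

/-- The order `ord_v f` of `f` at a valuation `v` with values in `WithZero (Multiplicative ℤ)`. -/
noncomputable def ord {F : Type} [Field F] (v : Valuation F (WithZero (Multiplicative ℤ)))
    (f : Fˣ) : ℤ :=
  -WithZero.log (v f)

/-- The symbol `{f, g}` has trivial tame symbol at every discrete valuation `v` of `F`:
`(-1) ^ (ord f * ord g) * f ^ ord g / g ^ ord f` is `1` modulo the maximal ideal of `v`. -/
def TameTrivial {F : Type} [Field F] (f g : Fˣ) : Prop :=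
  ∀ v : Valuation F (WithZero (Multiplicative ℤ)),
    v ((-1) ^ (ord v f * ord v g) * (f : F) ^ ord v g / (g : F) ^ ord v f - 1) < 1

open Classical in
/-- The value of a rational function `f` at a complex point `φ` of `Spec A`: `φ a / φ b` if
`f = a / b` with `φ b ≠ 0`, and `0` if `f` is not regular at `φ`. -/
noncomputable def value {A : Type} [CommRing A] (φ : A →+* ℂ) (f : FractionRing A) : ℂ :=
  if h : ∃ p : A × A, φ p.2 ≠ 0 ∧
      f * algebraMap A (FractionRing A) p.2 = algebraMap A (FractionRing A) p.1 then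
    φ h.choose.1 / φ h.choose.2
  else 0

/-- A closed `C¹` path in the complex points of `Spec A`. -/
structure Loop (A : Type) [CommRing A] where
  pt : ℝ → (A →+* ℂ)
  smooth : ∀ a : A, ContDiff ℝ 1 fun t => pt t a
  closed : pt 0 = pt 1

/-- The loop `γ` meets no zero and no pole of `f`. -/
def Avoids {A : Type} [CommRing A] (γ : Loop A) (f : (FractionRing A)ˣ) : Prop :=
  ∀ t : ℝ, value (γ.pt t) f ≠ 0

/-- The integral over `[0, 1]` of `log |f| d arg g - log |g| d arg f`. -/
noncomputable def etaIntegral (f g : ℝ → ℂ) : ℝ :=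
  ∫ t in (0 : ℝ)..1,
    (Real.log ‖f t‖ * (deriv g t / g t).im - Real.log ‖g t‖ * (deriv f t / f t).im)

/-- The regulator pairing of the loop `γ` with the symbol `{f, g}`. -/
noncomputable def reg {A : Type} [CommRing A] (γ : Loop A) (f g : (FractionRing A)ˣ) : ℝ :=
  etaIntegral (fun t => value (γ.pt t) f) (fun t => value (γ.pt t) g) / (2 * Real.pi)

end Pool.Agent.Lib.MP_15b3df_nt
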