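import Pool.Agent.Lib.MP_15b3df_nt.Galois

namespace Pool.Agent.Lib.MP_15b3df_nt

open Polynomial NumberField

def ppr {R : Type} [CommRing R] (n m : R) : R :=
  (m ^ 2 - 1) * (m ^ 2 + n * m + 1) * (m ^ 2 + (n - 1) * m + 1) + m ^ 3

def dpp {R : Type} [CommRing R] (n m : R) : R :=
  6 * m ^ 5 + 5 * (2 * n - 1) * m ^ 4 + 4 * (n ^ 2 - n + 1) * m ^ 3 + 3 * m ^ 2
    - 2 * (n ^ 2 - n + 1) * m - (2 * n - 1)

theorem dvd_discr_of_double_root {K : Type} [Field K] [NumberField K] {n a : ℤ} {θ : K}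
    (hθ : minpoly ℚ θ = PP (n : ℚ)) {p : ℕ} (hp : p.Prime) (h1 : (p : ℤ) ∣ ppr n a)
    (h2 : (p : ℤ) ∣ dpp n a) (h3 : ¬ (p : ℤ) ^ 2 ∣ ppr n a) : (p : ℤ) ∣ NumberField.discr K := by
  have : Fact p.Prime := ⟨hp⟩
  have hpz : Prime (p : ℤ) := Nat.prime_iff_prime_int.mp hp
  have hmapQ : (PP n).map (algebraMap ℤ ℚ) = PP (n : ℚ) := by simp [PP_map]
  have hroot : aeval θ (PP n) = 0 := by
    rw [← aeval_map_algebraMap ℚ, hmapQ, ← hθ]; exact minpoly.aeval ℚ θ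
  have hint : IsIntegral ℤ θ := ⟨PP n, PP_monic n, by simpa [aeval_def] using hroot⟩
  let t : 𝓞 K := ⟨θ, hint⟩
  have hinj : Function.Injective (algebraMap (𝓞 K) K) := IsFractionRing.injective _ _
  have haeval : ∀ f : ℤ[X], algebraMap (𝓞 K) K (aeval t f) = aeval θ f := fun f =>
    (aeval_algebraMap_apply K t f).symm
  have hmin : minpoly ℤ θ = PP n := by
    apply map_injective (algebraMap ℤ ℚ) (RingHom.injective_int _)
    rw [← minpoly.isIntegrallyClosed_eq_field_fractions' ℚ hint, hθ, hmapQ]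
  let φ : ℤ[X] →+* ZMod p := eval₂RingHom (Int.castRingHom (ZMod p)) (a : ZMod p)
  have hφ : Function.Surjective φ := fun z => by
    obtain ⟨j, rfl⟩ := ZMod.intCast_surjective z
    exact ⟨C j, by simp [φ]⟩
  have hmax : (RingHom.ker φ).IsMaximal := RingHom.ker_isMaximal_of_surjective φ hφ
  let _ : Algebra ℤ[X] (𝓞 K) := (aeval t : ℤ[X] →ₐ[ℤ] 𝓞 K).toRingHom.toAlgebra
  have halg : ∀ f : ℤ[X], algebraMap ℤ[X] (𝓞 K) f = aeval t f := fun _ => rfl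
  have : Algebra.IsIntegral ℤ[X] (𝓞 K) :=
    ⟨fun x => (Algebra.IsIntegral.isIntegral (R := ℤ) x).tower_top⟩
  have hφP : φ (PP n) = 0 := by
    have : φ (PP n) = ((ppr n a : ℤ) : ZMod p) := by simp [φ, PP, ppr]
    rw [this, ZMod.intCast_zmod_eq_zero_iff_dvd]; exact h1
  obtain ⟨Q, hQ, hQc⟩ := Ideal.exists_ideal_over_maximal_of_isIntegral (S := 𝓞 K)
    (RingHom.ker φ) (fun f hf => by
      rw [RingHom.mem_ker, halg] at hf
      have h4 : aeval θ f = 0 := by rw [← haeval, hf, map_zero]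
      obtain ⟨g, rfl⟩ := hmin ▸ minpoly.isIntegrallyClosed_dvd hint h4
      rw [RingHom.mem_ker, map_mul, hφP, zero_mul])
  have hmem : ∀ f : ℤ[X], φ f = 0 → aeval t f ∈ Q := fun f hf => by
    rw [← halg, ← Ideal.mem_comap, hQc]; exact hf
  have hpQ : ((p : ℤ) : 𝓞 K) ∈ Q := by simpa using hmem (C (p : ℤ)) (by simp [φ])
  have huQ : t - a ∈ Q := by
    have := hmem (X - C a) (by simp [φ])
    rwa [map_sub, aeval_X, aeval_C] at this
  have ht : ppr (n : 𝓞 K) t = 0 := by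
    apply hinj
    have := haeval (PP n)
    rw [hroot, aeval_PP] at this
    rw [ppr, this, map_zero]
  obtain ⟨c, hc⟩ := h1
  obtain ⟨d, hd⟩ := h2
  have hc' : ppr (n : 𝓞 K) a = (p : ℤ) * (c : 𝓞 K) := by
    have := congrArg (Int.cast : ℤ → 𝓞 K) hc
    simpa [ppr] using this
  have hd' : dpp (n : 𝓞 K) a = (p : ℤ) * (d : 𝓞 K) := by
    have := congrArg (Int.cast : ℤ → 𝓞 K) hd
    simpa [dpp] using this
  have hpc : ((p : ℤ) : 𝓞 K) * c ∈ Q ^ 2 := by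
    set u := t - a with hu
    have e : ((p : ℤ) : 𝓞 K) * c = -(((p : ℤ) : 𝓞 K) * u * d) - u * u * (u ^ 4 + 6 * u ^ 3 * a
        + 2 * u ^ 3 * n - u ^ 3 + 15 * u ^ 2 * a ^ 2 + 10 * u ^ 2 * a * n - 5 * u ^ 2 * a
        + u ^ 2 * n ^ 2 - u ^ 2 * n + u ^ 2 + 20 * u * a ^ 3 + 20 * u * a ^ 2 * n
        - 10 * u * a ^ 2 + 4 * u * a * n ^ 2 - 4 * u * a * n + 4 * u * a + u + 15 * a ^ 4
        + 20 * a ^ 3 * n - 10 * a ^ 3 + 6 * a ^ 2 * n ^ 2 - 6 * a ^ 2 * n + 6 * a ^ 2 + 3 * a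
        - n ^ 2 + n - 1) := by
      have e1 : t = a + u := by rw [hu]; ring
      rw [e1] at ht
      rw [ppr] at ht hc'
      rw [dpp] at hd'
      linear_combination ht - hc' - u * hd'
    rw [e, pow_two]
    exact sub_mem (neg_mem (Ideal.mul_mem_right _ _ (Ideal.mul_mem_mul hpQ huQ)))
      (Ideal.mul_mem_right _ _ (Ideal.mul_mem_mul huQ huQ))
  have hcop : IsCoprime (p : ℤ) c := (hpz.coprime_iff_not_dvd).mpr fun h =>
    h3 (by rw [hc, pow_two]; exact mul_dvd_mul_left _ h)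
  obtain ⟨u, v, huv⟩ := hcop
  have hp2 : ((p : ℤ) : 𝓞 K) ∈ Q ^ 2 := by
    have e : ((p : ℤ) : 𝓞 K) = u * (((p : ℤ) : 𝓞 K) * ((p : ℤ) : 𝓞 K))
        + v * (((p : ℤ) : 𝓞 K) * c) := by
      have := congrArg (Int.cast : ℤ → 𝓞 K) huv
      push_cast at this ⊢
      linear_combination (-(p : 𝓞 K)) * this
    rw [e]
    exact add_mem (Ideal.mul_mem_left _ _ (by rw [pow_two]; exact Ideal.mul_mem_mul hpQ hpQ))
      (Ideal.mul_mem_left _ _ hpc)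
  by_contra hnd
  have hun := (NumberField.not_dvd_discr_iff_forall_mem K (𝓞 K) hpz).mp hnd Q hQ.isPrime hpQ
  have hlo : Q.LiesOver (Ideal.span {(p : ℤ)}) := (Ideal.liesOver_span_iff hQ.ne_top hpz).mpr hpQ
  have hpp : (Ideal.span {(p : ℤ)}).IsPrime := (Ideal.span_singleton_prime hpz.ne_zero).mpr hpz
  let _ := Localization.AtPrime.algebraOfLiesOver (Ideal.span {(p : ℤ)}) Q
  have h5 := ((Algebra.isUnramifiedAt_iff_map_eq ℤ (Ideal.span {(p : ℤ)}) Q).mp hun).2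
  have hle : (Ideal.span {(p : ℤ)}).map (algebraMap ℤ (𝓞 K)) ≤ Q := by
    rw [Ideal.map_span, Set.image_singleton, Ideal.span_singleton_le_iff_mem]; simpa using hpQ
  have h6 := Ideal.ramificationIdx'_eq_one_of_map_localization hle
    (Ideal.IsMaximal.ne_bot_of_isIntegral_int Q) Q.primeCompl_le_nonZeroDivisors h5
  refine (Ideal.ramificationIdx'_ne_one_iff hle).mpr ?_ h6
  rw [Ideal.map_span, Set.image_singleton, Ideal.span_singleton_le_iff_mem]; simpa using hp2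

theorem exists_prime_double_root (B : ℕ) : ∃ (p : ℕ) (n₀ a : ℤ), p.Prime ∧ B < p ∧
    ∀ n : ℤ, n ≡ n₀ [ZMOD (p : ℤ) ^ 2] →
      (p : ℤ) ∣ ppr n a ∧ (p : ℤ) ∣ dpp n a ∧ ¬ (p : ℤ) ^ 2 ∣ ppr n a := by
  obtain ⟨a, ha⟩ : ∃ a : ℤ, a = ((B + 6).factorial : ℤ) := ⟨_, rfl⟩
  have ha6 : 6 ≤ a := by
    have := Nat.self_le_factorial (B + 6)
    omega
  obtain ⟨c, hc⟩ : ∃ c : ℤ,
      c = (1 + 4 * a - a ^ 2) * (1 - a ^ 2) ^ 5 - a ^ 4 * (1 + a ^ 2) ^ 2 := ⟨_, rfl⟩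
  have hc2 : 2 ≤ c := by
    have h0 : 0 ≤ a - 6 := by omega
    have e : c - 2 = 575966399 + 1408253836 * (a - 6) + 1533150786 * (a - 6) ^ 2
        + 989576380 * (a - 6) ^ 3 + 423660374 * (a - 6) ^ 4 + 127135984 * (a - 6) ^ 5
        + 27482426 * (a - 6) ^ 6 + 4318904 * (a - 6) ^ 7 + 490334 * (a - 6) ^ 8
        + 39260 * (a - 6) ^ 9 + 2106 * (a - 6) ^ 10 + 68 * (a - 6) ^ 11 + (a - 6) ^ 12 := by
      rw [hc]; ring
    have : 0 ≤ c - 2 := by rw [e]; positivity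
    omega
  obtain ⟨p, hp, hpc⟩ := Nat.exists_prime_and_dvd (n := c.natAbs) (by omega)
  have : Fact p.Prime := ⟨hp⟩
  have hpc' : (p : ℤ) ∣ c := Int.natCast_dvd.mpr hpc
  have hC : ((c : ℤ) : ZMod p) = 0 := (ZMod.intCast_zmod_eq_zero_iff_dvd _ _).mpr hpc'
  set α : ZMod p := (a : ZMod p) with hα
  have hC' : (1 + 4 * α - α ^ 2) * (1 - α ^ 2) ^ 5 - α ^ 4 * (1 + α ^ 2) ^ 2 = 0 := by
    rw [← hC, hc]; push_cast; ring
  have h0 : α ≠ 0 := by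
    intro h; rw [h] at hC'; norm_num at hC'
  have hB : B + 6 < p := by
    by_contra hle
    apply h0
    rw [hα, ZMod.intCast_zmod_eq_zero_iff_dvd, ha, Int.natCast_dvd_natCast]
    exact (hp.dvd_factorial).mpr (by omega)
  have hsmall : ∀ k : ℕ, 0 < k → k < p → (k : ZMod p) ≠ 0 := fun k hk hk' h =>
    absurd (Nat.le_of_dvd hk ((ZMod.natCast_eq_zero_iff _ _).mp h)) (by omega)
  have h2 : (2 : ZMod p) ≠ 0 := by exact_mod_cast hsmall 2 (by norm_num) (by omega)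
  have h5 : (5 : ZMod p) ≠ 0 := by exact_mod_cast hsmall 5 (by norm_num) (by omega)
  have h1 : 1 - α ^ 2 ≠ 0 := by
    intro h
    have e : α ^ 2 = 1 := by linear_combination -h
    have e4 : α ^ 4 = 1 := by rw [show α ^ 4 = (α ^ 2) ^ 2 by ring, e]; ring
    rw [h, e4, e] at hC'
    apply pow_ne_zero 2 h2
    linear_combination -hC'
  have h3 : 1 + α ^ 2 ≠ 0 := by
    intro h
    have e : α ^ 2 = -1 := by linear_combination h
    rw [h, e] at hC'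
    have h6 : (2 : ZMod p) ^ 6 * (1 + 2 * α) = 0 := by linear_combination hC'
    have h7 := (mul_eq_zero.mp h6).resolve_left (pow_ne_zero _ h2)
    apply h5
    linear_combination 4 * h - (2 * α - 1) * h7
  obtain ⟨κ, hκ⟩ : ∃ κ : ZMod p, κ = (1 - α ^ 2 * (1 + α ^ 2) / (1 - α ^ 2) ^ 3) / 2 := ⟨_, rfl⟩
  have k1 : (2 * κ - 1) * (1 - α ^ 2) ^ 3 = -(α ^ 2 * (1 + α ^ 2)) := by
    rw [hκ]; field_simp; ring
  have k2 : κ * (κ - 1) * (1 - α ^ 2) = α := by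
    have : (2 : ZMod p) ^ 2 * (1 - α ^ 2) ^ 5 * (κ * (κ - 1) * (1 - α ^ 2) - α) = 0 := by
      linear_combination ((2 * κ - 1) * (1 - α ^ 2) ^ 3 - α ^ 2 * (1 + α ^ 2)) * k1 - hC'
    have h8 := (mul_eq_zero.mp this).resolve_left
      (mul_ne_zero (pow_ne_zero _ h2) (pow_ne_zero _ h1))
    linear_combination h8
  obtain ⟨n₁, hn₁⟩ := ZMod.intCast_surjective (κ - α - α⁻¹)
  have k3 : α * n₁ = α * κ - α ^ 2 - 1 := by rw [hn₁]; field_simp
  have r1 : ppr (n₁ : ZMod p) α = 0 := by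
    have e : ppr (n₁ : ZMod p) α = (α ^ 2 - 1) * (α ^ 2 + α * n₁ + 1)
      * (α ^ 2 + α * n₁ - α + 1) + α ^ 3 := by rw [ppr]; ring
    rw [e, k3]
    linear_combination (-α ^ 2) * k2
  have r2 : dpp (n₁ : ZMod p) α = 0 := by
    have e : α * dpp (n₁ : ZMod p) α = 2 * α ^ 2 * (α ^ 2 + α * n₁ + 1) * (α ^ 2 + α * n₁ - α + 1)
      + (α ^ 2 - 1) * (2 * α ^ 2 + α * n₁) * (α ^ 2 + α * n₁ - α + 1)
      + (α ^ 2 - 1) * (α ^ 2 + α * n₁ + 1) * (2 * α ^ 2 + α * n₁ - α) + 3 * α ^ 3 := by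
      rw [dpp]; ring
    rw [k3] at e
    have : (1 - α ^ 2) * α * dpp (n₁ : ZMod p) α = 0 := by
      rw [mul_assoc, e]
      linear_combination α * k1 + (α ^ 2 * (4 * α ^ 2 - 2)) * k2
    exact (mul_eq_zero.mp this).resolve_left (mul_ne_zero h1 h0)
  have r3 : (α ^ 2 - 1) * α * (2 * (α ^ 2 + n₁ * α + 1) - α) ≠ 0 := by
    refine mul_ne_zero (mul_ne_zero (fun h => h1 (by linear_combination -h)) h0) fun h => ?_
    have h9 : α * (2 * κ - 1) = 0 := by linear_combination h - 2 * k3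
    have h10 := (mul_eq_zero.mp h9).resolve_left h0
    rw [h10, zero_mul] at k1
    exact mul_ne_zero (pow_ne_zero 2 h0) h3 (by linear_combination k1)
  have cast1 : ∀ n : ℤ, ((ppr n a : ℤ) : ZMod p) = ppr (n : ZMod p) α := fun n => by
    simp [ppr, hα]
  have cast2 : ∀ n : ℤ, ((dpp n a : ℤ) : ZMod p) = dpp (n : ZMod p) α := fun n => by
    simp [dpp, hα]
  have main : ∀ n₀ : ℤ, (n₀ : ZMod p) = n₁ → ¬ (p : ℤ) ^ 2 ∣ ppr n₀ a →
      ∀ n : ℤ, n ≡ n₀ [ZMOD (p : ℤ) ^ 2] →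
      (p : ℤ) ∣ ppr n a ∧ (p : ℤ) ∣ dpp n a ∧ ¬ (p : ℤ) ^ 2 ∣ ppr n a := by
    intro n₀ e0 hnd n hn
    obtain ⟨k, hk⟩ := hn.dvd
    have e1 : (n : ZMod p) = n₁ := by
      rw [← e0, show n₀ = n + (p : ℤ) ^ 2 * k by linear_combination hk]; simp
    refine ⟨?_, ?_, fun h => hnd ?_⟩
    · rw [← ZMod.intCast_zmod_eq_zero_iff_dvd, cast1, e1, r1]
    · rw [← ZMod.intCast_zmod_eq_zero_iff_dvd, cast2, e1, r2]
    · have e2 : ppr n₀ a = ppr n a + (p : ℤ) ^ 2 * (k * ((a ^ 2 - 1) * a *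
          (2 * (a ^ 2 + n * a + 1) - a + (p : ℤ) ^ 2 * k * a))) := by
        rw [show n₀ = n + (p : ℤ) ^ 2 * k by linear_combination hk, ppr, ppr]; ring
      rw [e2]; exact dvd_add h (dvd_mul_right _ _)
  by_cases hd : (p : ℤ) ^ 2 ∣ ppr n₁ a
  · refine ⟨p, n₁ + p, a, hp, by omega, main _ (by simp) fun h => r3 ?_⟩
    have e2 : ppr (n₁ + p) a - ppr n₁ a - (p : ℤ) ^ 2 * ((a ^ 2 - 1) * a ^ 2)
        = p * ((a ^ 2 - 1) * a * (2 * (a ^ 2 + n₁ * a + 1) - a)) := by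
      rw [ppr, ppr]; ring
    have h11 := dvd_sub (dvd_sub h hd) (dvd_mul_right ((p : ℤ) ^ 2) ((a ^ 2 - 1) * a ^ 2))
    rw [e2, pow_two, mul_dvd_mul_iff_left (by exact_mod_cast hp.ne_zero),
      ← ZMod.intCast_zmod_eq_zero_iff_dvd] at h11
    rw [← h11]; push_cast; rfl
  · exact ⟨p, n₁, a, hp, by omega, main _ rfl hd⟩

end Pool.Agent.Lib.MP_15b3df_nt
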