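import Mathlib

namespace Pool.Agent.Lib.MP_15b3df_nt

open Polynomial NumberField

/-- A Frobenius element acting on the roots of a monic integer polynomial. -/
theorem exists_frob (f : ℤ[X]) (hf : f.Monic) (L : Type) [Field L] [NumberField L] [IsGalois ℚ L]
    (hs : (f.map (algebraMap ℤ L)).Splits) (p : ℕ) [hp : Fact p.Prime]
    (hsep : ∀ (k : Type) [Field k] [CharP k p], (f.map (algebraMap ℤ k)).Separable) :
    ∃ (k : Type) (_ : Field k) (_ : CharP k p) (π : f.rootSet L → k) (σ : L ≃ₐ[ℚ] L),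
      Function.Injective π ∧ (∀ r, π (σ • r) = π r ^ p) ∧ (∀ r, aeval (π r) f = 0) ∧
      (∀ z : k, aeval z f = 0 → ∃ r, π r = z) ∧ Nat.card (f.rootSet L) = f.natDegree := by
  classical
  have hpz : Prime (p : ℤ) := Nat.prime_iff_prime_int.mp hp.out
  have hmax : (Ideal.span {(p : ℤ)}).IsMaximal :=
    PrincipalIdealRing.isMaximal_of_irreducible hpz.irreducible
  obtain ⟨Q, hQ, hQp⟩ := Ideal.exists_maximal_ideal_liesOver_of_isIntegral
    (S := 𝓞 L) (Ideal.span {(p : ℤ)})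
  have hunder : Q.under ℤ = Ideal.span {(p : ℤ)} := hQp.over.symm
  have hQne : Q ≠ ⊥ := Ideal.IsMaximal.ne_bot_of_isIntegral_int Q
  have : Finite (𝓞 L ⧸ Q) := Ideal.finiteQuotientOfFreeOfNeBot Q hQne
  obtain ⟨σ, hσ⟩ := IsArithFrobAt.exists_of_isInvariant ℤ (L ≃ₐ[ℚ] L) Q
  have hcard : Nat.card (ℤ ⧸ Q.under ℤ) = p := by
    rw [hunder, Nat.card_congr (Int.quotientSpanNatEquivZMod p).toEquiv, Nat.card_zmod]
  let k := 𝓞 L ⧸ Q
  let _ : Field k := Ideal.Quotient.field Q
  have hpQ : ((p : ℕ) : k) = 0 := by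
    have : (algebraMap ℤ (𝓞 L)) (p : ℤ) ∈ Q := by
      rw [← Ideal.mem_comap, ← Ideal.under_def, hunder]; exact Ideal.mem_span_singleton_self _
    have h2 := Ideal.Quotient.eq_zero_iff_mem.mpr this
    simpa using h2
  have hchar : CharP k p := (CharP.charP_iff_prime_eq_zero hp.out).mpr hpQ
  have hint : ∀ r : f.rootSet L, IsIntegral ℤ (r : L) := fun r =>
    ⟨f, hf, by simpa [aeval_def] using aeval_eq_zero_of_mem_rootSet r.2⟩
  let j : f.rootSet L → 𝓞 L := fun r => ⟨r, hint r⟩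
  let φ : 𝓞 L →+* k := Ideal.Quotient.mk Q
  set g : (𝓞 L)[X] := f.map (algebraMap ℤ (𝓞 L)) with hg
  have hgL : g.map (algebraMap (𝓞 L) L) = f.map (algebraMap ℤ L) := by
    rw [hg, Polynomial.map_map]; congr 1
  have hgk : g.map φ = f.map (algebraMap ℤ k) := by
    rw [hg, Polynomial.map_map]; congr 1
  have hinj : Function.Injective (algebraMap (𝓞 L) L) := IsFractionRing.injective _ _
  have hfL : f.map (algebraMap ℤ L) ≠ 0 := (hf.map _).ne_zero
  have hmem : ∀ x : L, x ∈ f.rootSet L ↔ x ∈ (f.map (algebraMap ℤ L)).roots := by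
    intro x; simp [rootSet_def, aroots_def]
  have hgs : g.Splits := by
    refine Splits.of_splits_map_of_injective hinj (hgL ▸ hs) fun a ha => ?_
    rw [hgL, ← hmem] at ha
    exact ⟨j ⟨a, ha⟩, rfl⟩
  have hr1 : (f.map (algebraMap ℤ L)).roots = g.roots.map (algebraMap (𝓞 L) L) := by
    rw [← hgL]; exact hgs.roots_map_of_injective hinj
  have hr2 : (f.map (algebraMap ℤ k)).roots = g.roots.map φ := by
    rw [← hgk]; exact hgs.roots_map_of_ne_zero (by rw [hgk]; exact (hf.map _).ne_zero)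
  have hnd : (g.roots.map φ).Nodup := hr2 ▸ nodup_roots (hsep k)
  have hj : ∀ r, j r ∈ g.roots := by
    intro r
    have := (hmem r).mp r.2
    rw [hr1, Multiset.mem_map] at this
    obtain ⟨a, ha, e⟩ := this
    have : a = j r := hinj e
    exact this ▸ ha
  refine ⟨k, inferInstance, hchar, fun r => φ (j r), σ, fun r r' h => ?_, fun r => ?_,
    fun r => ?_, fun z hz => ?_, ?_⟩
  · have := Multiset.inj_on_of_nodup_map hnd _ (hj r) _ (hj r') h
    exact Subtype.ext (congrArg (algebraMap (𝓞 L) L) this)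
  · have := hσ.mk_apply (j r)
    rw [hcard] at this
    exact this
  · have : φ (j r) ∈ (f.map (algebraMap ℤ k)).roots := hr2 ▸ Multiset.mem_map_of_mem _ (hj r)
    rw [aeval_def, eval₂_eq_eval_map]; exact (isRoot_of_mem_roots this).eq_zero
  · have : z ∈ (f.map (algebraMap ℤ k)).roots := by
      rw [mem_roots (hf.map _).ne_zero, IsRoot, eval_map, ← aeval_def]; exact hz
    rw [hr2, Multiset.mem_map] at this
    obtain ⟨a, ha, e⟩ := this
    have h2 : (a : L) ∈ f.rootSet L := by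
      rw [hmem, hr1]; exact Multiset.mem_map_of_mem _ ha
    exact ⟨⟨a, h2⟩, e⟩
  · have h1 : (f.map (algebraMap ℤ L)).roots.Nodup := by
      rw [hr1]; exact (Multiset.Nodup.of_map _ hnd).map hinj
    rw [rootSet_def, aroots_def]
    simp only [Finset.coe_sort_coe, Nat.card_eq_fintype_card, Fintype.card_coe]
    rw [Multiset.toFinset_card_of_nodup h1, ← hs.natDegree_eq_card_roots, hf.natDegree_map]

set_option maxRecDepth 100000 in
lemma five_cycle_aux : ∀ a b c d e : Fin 6, Function.Injective ![0, a, b, c, d, e] →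
    (∀ x : Fin 6, x ≠ 0 → ![0, a, b, c, d, e] (![0, a, b, c, d, e] x) ≠ x) →
    ∀ x : Fin 6, x ≠ 0 → ∀ y : Fin 6, y ≠ 0 → ∃ k : Fin 5, (![0, a, b, c, d, e])^[k] x = y := by
  decide +kernel

lemma five_cycle {α : Type} [Finite α] (hα : Nat.card α = 6) (σ : Equiv.Perm α) (r : α)
    (h0 : σ r = r) (h1 : ∀ x, x ≠ r → σ (σ x) ≠ x) :
    ∀ x, x ≠ r → ∀ y, y ≠ r → ∃ k : ℕ, (σ ^ k) x = y := by
  classical
  let e0 : α ≃ Fin 6 := Finite.equivFinOfCardEq hα
  let e : α ≃ Fin 6 := e0.trans (Equiv.swap (e0 r) 0)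
  have er : e r = 0 := by simp [e]
  have hne : ∀ x, x ≠ r ↔ e x ≠ 0 := fun x => by rw [← er]; exact e.injective.ne_iff.symm
  let f : Fin 6 → Fin 6 := fun i => e (σ (e.symm i))
  have hf : f = ![0, f 1, f 2, f 3, f 4, f 5] := by
    funext i
    fin_cases i
    · simp only [f]
      have : e.symm 0 = r := by rw [← er]; simp
      simp [this, h0, er]
    all_goals rfl
  have hit : ∀ (k : ℕ) (x : α), f^[k] (e x) = e ((σ ^ k) x) := by
    intro k
    induction k with
    | zero => simp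
    | succ k ih => intro x; rw [Function.iterate_succ_apply', ih, pow_succ']; simp [f]
  intro x hx y hy
  have := five_cycle_aux (f 1) (f 2) (f 3) (f 4) (f 5)
  rw [← hf] at this
  obtain ⟨k, hk⟩ := this (e.injective.comp (σ.injective.comp e.symm.injective)) (by
    intro i hi h
    apply h1 (e.symm i) (by rw [hne]; simpa using hi)
    apply e.injective
    simpa [f] using h) (e x) ((hne x).mp hx) (e y) ((hne y).mp hy)
  exact ⟨k, e.injective (by rw [← hit, hk])⟩

lemma eq_top_of_five_cycle {α : Type} [Finite α] [DecidableEq α] (hα : Nat.card α = 6)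
    (H : Subgroup (Equiv.Perm α)) {σ τ g : Equiv.Perm α} (hσ : σ ∈ H) (hτ : τ ∈ H) (hg : g ∈ H)
    (r : α) (h0 : σ r = r) (h1 : ∀ x, x ≠ r → σ (σ x) ≠ x) (hsw : τ.IsSwap) (hgr : g r ≠ r) :
    H = ⊤ := by
  have h5 := five_cycle hα σ r h0 h1
  have hfix : ∀ k : ℕ, (σ ^ k) r = r := fun k => Equiv.Perm.pow_apply_eq_self_of_apply_eq_self h0 k
  have htr : ∀ x, ∃ h ∈ H, h x = r := by
    intro x
    by_cases hx : x = r
    · exact ⟨1, H.one_mem, by simp [hx]⟩
    · obtain ⟨k, hk⟩ := h5 x hx (g r) hgr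
      exact ⟨g⁻¹ * σ ^ k, H.mul_mem (H.inv_mem hg) (H.pow_mem hσ k), by simp [hk]⟩
  have hconj : ∀ h ∈ H, ∀ a b, Equiv.swap a b ∈ H → Equiv.swap (h a) (h b) ∈ H := by
    intro h hh a b hab
    rw [Equiv.swap_apply_apply]
    exact H.mul_mem (H.mul_mem hh hab) (H.inv_mem hh)
  obtain ⟨a, b, hab, rfl⟩ := hsw
  obtain ⟨h, hh, ha⟩ := htr a
  have h2 := hconj h hh a b hτ
  rw [ha] at h2
  have hb : h b ≠ r := by rw [← ha]; exact fun e => hab (h.injective e).symm
  have h3 : ∀ x, Equiv.swap r x ∈ H := by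
    intro x
    by_cases hx : x = r
    · rw [hx, Equiv.swap_self]; exact H.one_mem
    · obtain ⟨k, hk⟩ := h5 (h b) hb x hx
      have := hconj (σ ^ k) (H.pow_mem hσ k) _ _ h2
      rwa [hfix, hk] at this
  rw [eq_top_iff, ← Equiv.Perm.closure_isSwap, Subgroup.closure_le]
  rintro _ ⟨x, y, hxy, rfl⟩
  by_cases hy : y = r
  · rw [hy, Equiv.swap_comm]; exact h3 x
  · have := hconj (Equiv.swap r x) (h3 x) r y (h3 y)
    rwa [Equiv.swap_apply_left, Equiv.swap_apply_of_ne_of_ne hy hxy.symm] at this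

end Pool.Agent.Lib.MP_15b3df_nt
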