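import Pool.Agent.Lib.MP_15b3df_nt.Frob

namespace Pool.Agent.Lib.MP_15b3df_nt

open Polynomial NumberField

/-- The sextic polynomial of the family. -/
noncomputable def PP {R : Type} [CommRing R] (n : R) : R[X] :=
  (X ^ 2 - 1) * (X ^ 2 + C n * X + 1) * (X ^ 2 + (C n - 1) * X + 1) + X ^ 3

lemma PP_map {R S : Type} [CommRing R] [CommRing S] (φ : R →+* S) (n : R) :
    (PP n).map φ = PP (φ n) := by
  simp [PP]

lemma PP_expand {R : Type} [CommRing R] (n : R) :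
    PP n = X ^ 6 + C (2 * n - 1) * X ^ 5 + C (n ^ 2 - n + 1) * X ^ 4 + X ^ 3
      - C (n ^ 2 - n + 1) * X ^ 2 - C (2 * n - 1) * X - 1 := by
  simp only [PP, map_sub, map_mul, map_add, map_pow, map_one, map_ofNat]
  ring

lemma PP_monic {R : Type} [CommRing R] [Nontrivial R] (n : R) : (PP n).Monic := by
  rw [PP_expand]; monicity!

lemma PP_natDegree {R : Type} [CommRing R] [Nontrivial R] (n : R) : (PP n).natDegree = 6 := by
  rw [PP_expand]; compute_degree!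

lemma aeval_PP {S : Type} [CommRing S] (n : ℤ) (z : S) :
    aeval z (PP n) = (z ^ 2 - 1) * (z ^ 2 + n * z + 1) * (z ^ 2 + (n - 1) * z + 1) + z ^ 3 := by
  simp [PP]

lemma cast_eq_of_modEq {k : Type} [Field k] (p : ℕ) [CharP k p] {a b : ℤ} (h : a ≡ b [ZMOD p]) :
    (a : k) = b := (CharP.intCast_eq_intCast k p).mpr h

lemma sep43 {n : ℤ} (hn : n ≡ 7 [ZMOD (43 : ℕ)]) (k : Type) [Field k] [CharP k 43] :
    ((PP n).map (algebraMap ℤ k)).Separable := by
  have h0 : (43 : k[X]) = 0 := by exact_mod_cast CharP.cast_eq_zero k[X] 43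
  have e : algebraMap ℤ k n = 7 := by simpa using cast_eq_of_modEq (k := k) 43 hn
  have e2 : PP (7 : k) = X ^ 6 + 13 * X ^ 5 + 43 * X ^ 4 + X ^ 3 - 43 * X ^ 2 - 13 * X - 1 := by
    simp only [PP, map_ofNat]; ring
  rw [PP_map, e, e2, separable_def']
  refine ⟨3 - 13 * X - 9 * X ^ 2 + 13 * X ^ 3 - 13 * X ^ 4,
    3 - 2 * X + 21 * X ^ 2 + 21 * X ^ 3 - 13 * X ^ 4 - 5 * X ^ 5, ?_⟩
  have e3 : derivative (X ^ 6 + 13 * X ^ 5 + 43 * X ^ 4 + X ^ 3 - 43 * X ^ 2 - 13 * X - 1 : k[X])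
      = 6 * X ^ 5 + 65 * X ^ 4 + 172 * X ^ 3 + 3 * X ^ 2 - 86 * X - 13 := by
    simp only [derivative_add, derivative_sub, derivative_mul, derivative_X_pow, derivative_ofNat,
      derivative_X, derivative_one, Nat.cast_ofNat, map_ofNat]
    ring
  rw [e3]
  linear_combination ((-1) * X ^ 0 + (-6) * X ^ 1 + (-1) * X ^ 2 + (-21) * X ^ 3 + (-32) * X ^ 4
    + 89 * X ^ 5 + 125 * X ^ 6 + (-8) * X ^ 7 + (-46) * X ^ 8 + (-13) * X ^ 9
    + (-1) * X ^ 10) * h0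

lemma sep11 {n : ℤ} (hn : n ≡ 3 [ZMOD (11 : ℕ)]) (k : Type) [Field k] [CharP k 11] :
    ((PP n).map (algebraMap ℤ k)).Separable := by
  have h0 : (11 : k[X]) = 0 := by exact_mod_cast CharP.cast_eq_zero k[X] 11
  have e : algebraMap ℤ k n = 3 := by simpa using cast_eq_of_modEq (k := k) 11 hn
  have e2 : PP (3 : k) = X ^ 6 + 5 * X ^ 5 + 7 * X ^ 4 + X ^ 3 - 7 * X ^ 2 - 5 * X - 1 := by
    simp only [PP, map_ofNat]; ring
  rw [PP_map, e, e2, separable_def']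
  refine ⟨-5 - X ^ 2 - 2 * X ^ 3 - X ^ 4, 3 + X + 4 * X ^ 2 + 2 * X ^ 4 + 2 * X ^ 5, ?_⟩
  have e3 : derivative (X ^ 6 + 5 * X ^ 5 + 7 * X ^ 4 + X ^ 3 - 7 * X ^ 2 - 5 * X - 1 : k[X])
      = 6 * X ^ 5 + 25 * X ^ 4 + 28 * X ^ 3 + 3 * X ^ 2 - 14 * X - 5 := by
    simp only [derivative_add, derivative_sub, derivative_mul, derivative_X_pow, derivative_ofNat,
      derivative_X, derivative_one, Nat.cast_ofNat, map_ofNat]
    ring
  rw [e3]
  linear_combination ((-1) * X ^ 0 + (-2) * X ^ 1 + X ^ 2 + 3 * X ^ 3 + 8 * X ^ 4 + 10 * X ^ 5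
    + 7 * X ^ 6 + 6 * X ^ 7 + 8 * X ^ 8 + 5 * X ^ 9 + X ^ 10) * h0

lemma root11 {k : Type} [Field k] [CharP k 11] {z : k}
    (h : (z ^ 2 - 1) * (z ^ 2 + 3 * z + 1) * (z ^ 2 + (3 - 1) * z + 1) + z ^ 3 = 0)
    (h2 : (z ^ 11) ^ 11 = z) : z = 9 := by
  have h0 : (11 : k) = 0 := by exact_mod_cast CharP.cast_eq_zero k 11
  by_contra hne
  have hq : ∀ w : k, (w ^ 2 - 1) * (w ^ 2 + 3 * w + 1) * (w ^ 2 + (3 - 1) * w + 1) + w ^ 3
      = (w - 9) * (5 - 5 * w - w ^ 2 + w ^ 3 + 3 * w ^ 4 + w ^ 5) := fun w => by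
    linear_combination (4 - 5 * w - w ^ 2 + w ^ 3 + 3 * w ^ 4 + w ^ 5) * h0
  have h3 : 5 - 5 * z - z ^ 2 + z ^ 3 + 3 * z ^ 4 + z ^ 5 = 0 := by
    rw [hq] at h
    exact (mul_eq_zero.mp h).resolve_left (sub_ne_zero.mpr hne)
  have hA : ∀ w : k, 5 - 5 * w - w ^ 2 + w ^ 3 + 3 * w ^ 4 + w ^ 5 = 0 →
      w ^ 11 = -4 + 4 * w - 3 * w ^ 2 + 4 * w ^ 3 + 4 * w ^ 4 := fun w hw => by
    linear_combination (3 - w ^ 2 + 2 * w ^ 3 - 3 * w ^ 4 - 3 * w ^ 5 + w ^ 6) * hw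
      + (-1 + w + w ^ 2 - 2 * w ^ 3 + w ^ 4 - 2 * w ^ 6 + w ^ 8 + w ^ 9) * h0
  have : Fact (Nat.Prime 11) := ⟨by norm_num⟩
  have h4 : 5 - 5 * z ^ 11 - (z ^ 11) ^ 2 + (z ^ 11) ^ 3 + 3 * (z ^ 11) ^ 4 + (z ^ 11) ^ 5 = 0 := by
    have := congrArg (frobenius k 11) h3
    simp only [map_add, map_sub, map_mul, map_pow, map_ofNat, map_zero, frobenius_def] at this
    simpa only [map_ofNat] using this
  have h5 := hA _ h4
  rw [h2, hA z h3] at h5
  have h6 : z = -2 - 4 * z + 2 * z ^ 2 + 2 * z ^ 3 - z ^ 4 := by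
    linear_combination h5 + (4 + 4 * z - 3 * z ^ 2 + z ^ 3 - 4 * z ^ 4 - 3 * z ^ 5 + 2 * z ^ 6
      - 5 * z ^ 7 + 2 * z ^ 8 - z ^ 9 + z ^ 10 + z ^ 11) * h3
      + (62 - 292 * z + 707 * z ^ 2 - 1370 * z ^ 3 + 1828 * z ^ 4 - 1675 * z ^ 5 + 1113 * z ^ 6
      + 284 * z ^ 7 - 1037 * z ^ 8 + 927 * z ^ 9 - 850 * z ^ 10 - 418 * z ^ 11 + 338 * z ^ 12
      - 93 * z ^ 13 + 279 * z ^ 14 + 372 * z ^ 15 + 93 * z ^ 16) * h0
  have h7 : (1 : k) = 0 := by
    linear_combination (-(-2 + 2 * z - z ^ 3 + 2 * z ^ 4)) * h6 + (-5 - 4 * z + 2 * z ^ 3) * h3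
      - (-2 + z + z ^ 2 + z ^ 3 - 2 * z ^ 4 - 3 * z ^ 5 + z ^ 7) * h0
  exact one_ne_zero h7

lemma root43_aux : ∀ a : ZMod 43,
    (a ^ 2 - 1) * (a ^ 2 + 7 * a + 1) * (a ^ 2 + (7 - 1) * a + 1) + a ^ 3 = 0
      → a = 14 ∨ a = 17 ∨ a = 25 ∨ a = 33 := by decide +kernel

lemma root43 {k : Type} [Field k] [CharP k 43] {z : k}
    (h : (z ^ 2 - 1) * (z ^ 2 + 7 * z + 1) * (z ^ 2 + (7 - 1) * z + 1) + z ^ 3 = 0)
    (h2 : z ^ 43 = z) : z = 14 ∨ z = 17 ∨ z = 25 ∨ z = 33 := by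
  have : Fact (Nat.Prime 43) := ⟨by norm_num⟩
  have h3 := (Subfield.mem_bot_iff_pow_eq_self k 43).mpr h2
  rw [← ZMod.fieldRange_castHom_eq_bot 43] at h3
  obtain ⟨a, rfl⟩ := h3
  set φ := ZMod.castHom (dvd_refl 43) k
  have h4 : (a ^ 2 - 1) * (a ^ 2 + 7 * a + 1) * (a ^ 2 + (7 - 1) * a + 1) + a ^ 3 = 0 := by
    apply φ.injective
    simpa only [map_add, map_sub, map_mul, map_pow, map_ofNat, map_zero, map_one] using h
  rcases root43_aux a h4 with rfl | rfl | rfl | rfl <;> simp only [map_ofNat, true_or, or_true]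

theorem galois_aux {n : ℤ} (h11 : n ≡ 3 [ZMOD (11 : ℕ)]) (h43 : n ≡ 7 [ZMOD (43 : ℕ)])
    (L : Type) [Field L] [NumberField L] [IsGalois ℚ L]
    (hs : ((PP n).map (algebraMap ℤ L)).Splits) :
    Nat.card ((PP n).rootSet L) = 6 ∧
      Function.Surjective (MulAction.toPermHom (L ≃ₐ[ℚ] L) ((PP n).rootSet L)) := by
  classical
  have : Fact (Nat.Prime 11) := ⟨by norm_num⟩
  have : Fact (Nat.Prime 43) := ⟨by norm_num⟩
  obtain ⟨k, _, _, π, σ, hinj, hσ, hroot, hsurj, hcard⟩ :=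
    exists_frob (PP n) (PP_monic n) L hs 11 (sep11 h11)
  obtain ⟨k', _, _, π', τ, hinj', hτ, hroot', hsurj', -⟩ :=
    exists_frob (PP n) (PP_monic n) L hs 43 (sep43 h43)
  rw [PP_natDegree] at hcard
  refine ⟨hcard, ?_⟩
  have e11 : (n : k) = 3 := by simpa using cast_eq_of_modEq (k := k) 11 h11
  have e43 : (n : k') = 7 := by simpa using cast_eq_of_modEq (k := k') 43 h43
  have z11 : (11 : k) = 0 := by exact_mod_cast CharP.cast_eq_zero k 11
  have z43 : (43 : k') = 0 := by exact_mod_cast CharP.cast_eq_zero k' 43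
  set ρ := MulAction.toPermHom (L ≃ₐ[ℚ] L) ((PP n).rootSet L)
  have hρ : ∀ g r, ρ g r = g • r := fun _ _ => rfl
  obtain ⟨r, hr⟩ := hsurj 9 (by rw [aeval_PP, e11]; linear_combination 79339 * z11)
  have hr0 : ρ σ r = r := by
    apply hinj
    rw [hρ, hσ, hr]
    exact map_ofNat (frobenius k 11) 9
  have hr1 : ∀ x, x ≠ r → ρ σ (ρ σ x) ≠ x := by
    intro x hx h
    have h1 := congrArg π h
    rw [hρ, hρ, hσ, hσ] at h1
    have h2 := hroot x
    rw [aeval_PP, e11] at h2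
    exact hx (hinj ((root11 h2 h1).trans hr.symm))
  have hg : ∃ g, ρ g r ≠ r := by
    by_contra! hall
    have hint : IsIntegral ℤ (r : L) :=
      ⟨PP n, PP_monic n, by simpa [aeval_def] using aeval_eq_zero_of_mem_rootSet r.2⟩
    obtain ⟨j, hj⟩ := Algebra.IsInvariant.isInvariant (A := ℤ) (B := 𝓞 L) (G := L ≃ₐ[ℚ] L)
      (⟨r, hint⟩ : 𝓞 L) (fun g => by
        have := congrArg Subtype.val (hall g)
        exact Subtype.ext this)
    have hj' : ((j : ℤ) : L) = r := by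
      have := congrArg (algebraMap (𝓞 L) L) hj
      rw [algebraMap_int_eq, eq_intCast, map_intCast] at this
      exact this
    have h1 := aeval_eq_zero_of_mem_rootSet r.2
    rw [aeval_PP, ← hj'] at h1
    have h2 : (j ^ 2 - 1) * (j ^ 2 + n * j + 1) * (j ^ 2 + (n - 1) * j + 1) + j ^ 3 = 0 := by
      exact_mod_cast h1
    have h3 : j * (j ^ 5 + (2 * n - 1) * j ^ 4 + (n ^ 2 - n + 1) * j ^ 3 + j ^ 2
        - (n ^ 2 - n + 1) * j - (2 * n - 1)) = 1 := by linear_combination h2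
    rcases Int.eq_one_or_neg_one_of_mul_eq_one h3 with rfl | rfl <;> norm_num at h2
  obtain ⟨g, hg⟩ := hg
  obtain ⟨a1, ha1⟩ := hsurj' 14 (by rw [aeval_PP, e43]; linear_combination 375983 * z43)
  obtain ⟨a2, ha2⟩ := hsurj' 17 (by rw [aeval_PP, e43]; linear_combination 1073939 * z43)
  obtain ⟨a3, ha3⟩ := hsurj' 25 (by rw [aeval_PP, e43]; linear_combination 9020443 * z43)
  obtain ⟨a4, ha4⟩ := hsurj' 33 (by rw [aeval_PP, e43]; linear_combination 43051427 * z43)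
  have hne : ∀ a b : ℕ, a < 43 → b < 43 → a ≠ b → (a : k') ≠ b := fun a b ha hb hab h =>
    hab (((CharP.natCast_eq_natCast k' 43).mp h).eq_of_lt_of_lt ha hb)
  have hfix : ∀ x, ρ τ x = x ↔ x ∈ ({a1, a2, a3, a4} : Finset _) := by
    intro x
    constructor
    · intro h
      have h1 := congrArg π' h
      rw [hρ, hτ] at h1
      have h2 := hroot' x
      rw [aeval_PP, e43] at h2
      simp only [Finset.mem_insert, Finset.mem_singleton]
      rcases root43 h2 h1 with h | h | h | h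
      · exact Or.inl (hinj' (h.trans ha1.symm))
      · exact Or.inr (Or.inl (hinj' (h.trans ha2.symm)))
      · exact Or.inr (Or.inr (Or.inl (hinj' (h.trans ha3.symm))))
      · exact Or.inr (Or.inr (Or.inr (hinj' (h.trans ha4.symm))))
    · intro h
      apply hinj'
      rw [hρ, hτ]
      simp only [Finset.mem_insert, Finset.mem_singleton] at h
      rcases h with rfl | rfl | rfl | rfl
      · rw [ha1]; exact map_ofNat (frobenius k' 43) 14
      · rw [ha2]; exact map_ofNat (frobenius k' 43) 17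
      · rw [ha3]; exact map_ofNat (frobenius k' 43) 25
      · rw [ha4]; exact map_ofNat (frobenius k' 43) 33
  have hd : ∀ {x y : (PP n).rootSet L} {a b : ℕ}, π' x = a → π' y = b → a < 43 → b < 43 → a ≠ b →
      x ≠ y := fun hx hy ha hb hab h => hne _ _ ha hb hab (by rw [← hx, ← hy, h])
  have hc4 : ({a1, a2, a3, a4} : Finset _).card = 4 := by
    have n12 : a1 ≠ a2 := hd (a := 14) (b := 17) (by simpa) (by simpa) (by norm_num) (by norm_num)
      (by norm_num)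
    have n13 : a1 ≠ a3 := hd (a := 14) (b := 25) (by simpa) (by simpa) (by norm_num) (by norm_num)
      (by norm_num)
    have n14 : a1 ≠ a4 := hd (a := 14) (b := 33) (by simpa) (by simpa) (by norm_num) (by norm_num)
      (by norm_num)
    have n23 : a2 ≠ a3 := hd (a := 17) (b := 25) (by simpa) (by simpa) (by norm_num) (by norm_num)
      (by norm_num)
    have n24 : a2 ≠ a4 := hd (a := 17) (b := 33) (by simpa) (by simpa) (by norm_num) (by norm_num)
      (by norm_num)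
    have n34 : a3 ≠ a4 := hd (a := 25) (b := 33) (by simpa) (by simpa) (by norm_num) (by norm_num)
      (by norm_num)
    rw [Finset.card_insert_of_notMem (by simp [n12, n13, n14]),
      Finset.card_insert_of_notMem (by simp [n23, n24]), Finset.card_pair n34]
  have hsw : (ρ τ).IsSwap := by
    rw [← Equiv.Perm.card_support_eq_two]
    have : (ρ τ).support = ({a1, a2, a3, a4} : Finset _)ᶜ := by
      ext x; rw [Equiv.Perm.mem_support, Finset.mem_compl, ← hfix]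
    rw [this, Finset.card_compl, hc4, ← Nat.card_eq_fintype_card, hcard]
  rw [← MonoidHom.range_eq_top]
  exact eq_top_of_five_cycle hcard ρ.range ⟨σ, rfl⟩ ⟨τ, rfl⟩ ⟨g, rfl⟩ r hr0 hr1 hsw hg

theorem galois_gen {n : ℤ} (h11 : n ≡ 3 [ZMOD (11 : ℕ)]) (h43 : n ≡ 7 [ZMOD (43 : ℕ)])
    (L : Type) [Field L] [NumberField L] [hL : IsSplittingField ℚ L (PP (n : ℚ))] :
    Irreducible (PP (n : ℚ)) ∧ Nonempty ((L ≃ₐ[ℚ] L) ≃* Equiv.Perm (Fin 6)) := by
  classical
  have : Normal ℚ L := Normal.of_isSplittingField (PP (n : ℚ))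
  have : IsGalois ℚ L := {}
  have hmap : (PP (n : ℚ)).map (algebraMap ℚ L) = (PP n).map (algebraMap ℤ L) := by
    simp [PP_map]
  have hs : ((PP n).map (algebraMap ℤ L)).Splits := hmap ▸ hL.splits'
  obtain ⟨hcard, hsurj⟩ := galois_aux h11 h43 L hs
  have hset : (PP (n : ℚ)).rootSet L = (PP n).rootSet L := by
    simp only [rootSet_def, aroots_def, hmap]
  set ρ := MulAction.toPermHom (L ≃ₐ[ℚ] L) ((PP n).rootSet L)
  have hinj : Function.Injective ρ := by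
    intro g g' h
    apply AlgEquiv.coe_toAlgHom_injective
    refine AlgHom.ext_of_adjoin_eq_top hL.adjoin_rootSet' fun x hx => ?_
    have := congrArg Subtype.val (DFunLike.congr_fun h ⟨x, hset ▸ hx⟩)
    exact this
  refine ⟨?_, ⟨(MulEquiv.ofBijective ρ ⟨hinj, hsurj⟩).trans
    (Finite.equivFinOfCardEq hcard).permCongrHom⟩⟩
  have hne : Nonempty ((PP n).rootSet L) := by
    have : Nat.card ((PP n).rootSet L) ≠ 0 := by omega
    exact (Nat.card_ne_zero.mp this).1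
  obtain ⟨r⟩ := hne
  have hint : IsIntegral ℚ (r : L) := Algebra.IsIntegral.isIntegral _
  have hr : aeval (r : L) (PP (n : ℚ)) = 0 :=
    aeval_eq_zero_of_mem_rootSet (by rw [hset]; exact r.2)
  have hall : ∀ x : (PP n).rootSet L, (x : L) ∈ (minpoly ℚ (r : L)).rootSet L := by
    intro x
    obtain ⟨g, hg⟩ := hsurj (Equiv.swap r x)
    have h1 : g (r : L) = x := by
      have := congrArg Subtype.val (DFunLike.congr_fun hg r)
      rw [Equiv.swap_apply_left] at this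
      exact this
    rw [mem_rootSet_of_ne (minpoly.ne_zero hint), ← h1, aeval_algEquiv]
    simp
  have hdeg : 6 ≤ (minpoly ℚ (r : L)).natDegree := by
    have h1 : Nat.card ((PP n).rootSet L) ≤ Nat.card ((minpoly ℚ (r : L)).rootSet L) :=
      Nat.card_le_card_of_injective (fun x => ⟨x, hall x⟩)
        (fun x y h => Subtype.ext (by simpa using h))
    have h2 := ncard_rootSet_le (minpoly ℚ (r : L)) L
    rw [hcard] at h1
    exact h1.trans h2
  have := eq_of_monic_of_dvd_of_natDegree_le (minpoly.monic hint) (PP_monic (n : ℚ))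
    (minpoly.dvd ℚ _ hr) (by rw [PP_natDegree]; exact hdeg)
  rw [this]
  exact minpoly.irreducible hint

theorem galois {n : ℤ} (h11 : n ≡ 3 [ZMOD (11 : ℕ)]) (h43 : n ≡ 7 [ZMOD (43 : ℕ)]) :
    Irreducible (PP (n : ℚ)) ∧ Nonempty ((PP (n : ℚ)).Gal ≃* Equiv.Perm (Fin 6)) :=
  @galois_gen n h11 h43 (PP (n : ℚ)).SplittingField _ {} (IsSplittingField.splittingField _)

end Pool.Agent.Lib.MP_15b3df_nt
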