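import Pool.Agent.Lib.MP_15b3df_nt.Tame

namespace Pool.Agent.Lib.MP_15b3df_nt

open TensorProduct

/-- The subgroup of `Fˣ ⊗ Fˣ` generated by the Steinberg elements `a ⊗ b` with `a + b = 1`. -/
def steinberg (F : Type) [Field F] : Submodule ℤ (Additive Fˣ ⊗[ℤ] Additive Fˣ) :=
  Submodule.span ℤ
    {x | ∃ a b : Fˣ, (a : F) + b = 1 ∧ x = Additive.ofMul a ⊗ₜ[ℤ] Additive.ofMul b}

/-- The Milnor group `K₂(F) = Fˣ ⊗ Fˣ / ⟨a ⊗ (1 - a)⟩`. -/
def K2 (F : Type) [Field F] : Type := (Additive Fˣ ⊗[ℤ] Additive Fˣ) ⧸ steinberg F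

/-- The quotient group structure on `K₂(F)`. -/
noncomputable instance instK2 (F : Type) [Field F] : AddCommGroup (K2 F) :=
  Submodule.Quotient.addCommGroup (steinberg F)

variable {F : Type} [Field F]

/-- The symbol `{a, b}` in `K₂(F)`. -/
def symbol (a b : Fˣ) : K2 F :=
  Submodule.Quotient.mk (p := steinberg F) (Additive.ofMul a ⊗ₜ[ℤ] Additive.ofMul b)

/-- The homomorphism `K₂(F) → G` with `{a, b} ↦ c a b`, for `c` bimultiplicative and killing the
Steinberg elements. -/
noncomputable def K2lift {G : Type} [AddCommGroup G] (c : Fˣ → Fˣ → G)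
    (h1 : ∀ a a' b, c (a * a') b = c a b + c a' b) (h2 : ∀ a b b', c a (b * b') = c a b + c a b')
    (h3 : ∀ a b : Fˣ, (a : F) + b = 1 → c a b = 0) : K2 F →+ G :=
  LinearMap.toAddMonoidHom <| (steinberg F).liftQ (TensorProduct.lift (AddMonoidHom.toIntLinearMap (AddMonoidHom.mk'
    (fun a => AddMonoidHom.toIntLinearMap (AddMonoidHom.mk'
      (fun b => c (Additive.toMul a) (Additive.toMul b)) fun b b' => h2 _ _ _))
    fun a a' => LinearMap.ext fun b => h1 _ _ _)))
    (Submodule.span_le.mpr (by rintro _ ⟨a, b, h, rfl⟩; exact h3 a b h))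

lemma K2lift_symbol {G : Type} [AddCommGroup G] (c : Fˣ → Fˣ → G) (h1 h2 h3) (a b : Fˣ) :
    K2lift c h1 h2 h3 (symbol a b) = c a b := rfl

/-- The units of `F` congruent to `1` modulo the maximal ideal of `v`. -/
def oneUnits (v : Valuation F (WithZero (Multiplicative ℤ))) : Subgroup Fˣ where
  carrier := {u | v ((u : F) - 1) < 1}
  one_mem' := by simp
  mul_mem' ha hb := v_mul_sub v ha hb
  inv_mem' ha := by simpa using v_inv_sub v ha

lemma ord_mul (v : Valuation F (WithZero (Multiplicative ℤ))) (f g : Fˣ) :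
    ord v (f * g) = ord v f + ord v g := by
  simp only [ord, Units.val_mul, map_mul]
  rw [WithZero.log_mul (by simp) (by simp), neg_add]

/-- The group `Fˣ / (1 + m_v)`, written additively; it contains the unit group of the residue
field of `v`. -/
def Res (v : Valuation F (WithZero (Multiplicative ℤ))) : Type := Additive (Fˣ ⧸ oneUnits v)

/-- The quotient group structure. -/
noncomputable instance instRes (v : Valuation F (WithZero (Multiplicative ℤ))) :
    AddCommGroup (Res v) :=
  Additive.addCommGroup (α := Fˣ ⧸ oneUnits v)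

/-- The class of `(-1) ^ (ord f * ord g) * f ^ ord g / g ^ ord f` modulo `1 + m_v`. -/
noncomputable def tameVal (v : Valuation F (WithZero (Multiplicative ℤ))) (f g : Fˣ) : Res v :=
  Additive.ofMul (QuotientGroup.mk (s := oneUnits v)
    ((-1) ^ (ord v f * ord v g) * f ^ ord v g / g ^ ord v f))

lemma tameVal_left (v : Valuation F (WithZero (Multiplicative ℤ))) (a a' b : Fˣ) :
    tameVal v (a * a') b = tameVal v a b + tameVal v a' b := by
  change Additive.ofMul (QuotientGroup.mk (s := oneUnits v) _)
    = Additive.ofMul (QuotientGroup.mk (s := oneUnits v) (_ * _))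
  rw [ord_mul, add_mul, zpow_add, zpow_add, mul_zpow]
  congr 2; simp only [div_eq_mul_inv, mul_inv]; ac_rfl

lemma tameVal_right (v : Valuation F (WithZero (Multiplicative ℤ))) (a b b' : Fˣ) :
    tameVal v a (b * b') = tameVal v a b + tameVal v a b' := by
  change Additive.ofMul (QuotientGroup.mk (s := oneUnits v) _)
    = Additive.ofMul (QuotientGroup.mk (s := oneUnits v) (_ * _))
  rw [ord_mul, mul_add, zpow_add, zpow_add, mul_zpow]
  congr 2; simp only [div_eq_mul_inv, mul_inv]; ac_rfl

lemma tameVal_eq_zero {f g : Fˣ} (h : TameTrivial f g)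
    (v : Valuation F (WithZero (Multiplicative ℤ))) : tameVal v f g = 0 := by
  change Additive.ofMul (QuotientGroup.mk (s := oneUnits v) _) = Additive.ofMul 1
  rw [(QuotientGroup.eq_one_iff _).mpr]
  simpa [oneUnits] using h v

lemma tameVal_steinberg (v : Valuation F (WithZero (Multiplicative ℤ))) (a b : Fˣ)
    (h : (a : F) + b = 1) : tameVal v a b = 0 :=
  tameVal_eq_zero (tameTrivial_of_pentagon (s := 0) isIntegral_zero
    (by linear_combination (-(1 - (a : F)) * (1 - b)) * h)) v

/-- The tame symbol at `v`. -/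
noncomputable def tame (v : Valuation F (WithZero (Multiplicative ℤ))) : K2 F →+ Res v :=
  K2lift (tameVal v) (tameVal_left v) (tameVal_right v) (tameVal_steinberg v)

/-- An element of `K₂(F)` killed by the tame symbols of all discrete valuations of `F`. -/
def Unramified (a : K2 F) : Prop :=
  ∀ v : Valuation F (WithZero (Multiplicative ℤ)), tame v a = 0

lemma tame_symbol {f g : Fˣ} (h : TameTrivial f g) : Unramified (symbol f g) :=
  fun v => tameVal_eq_zero h v

/-- There are `n` loops in the complex points of `Spec A` missing all zeros and poles of rational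
functions, whose regulator pairings define homomorphisms `r i` on `K₂` of the function field, and
`n` independent everywhere unramified elements of `K₂` with nonzero regulator determinant. -/
def FullRank (A : Type) [CommRing A] [IsDomain A] (n : ℕ) : Prop :=
  ∃ (γ : Fin n → Loop A) (r : Fin n → K2 (FractionRing A) →+ ℝ)
    (α : Fin n → K2 (FractionRing A)),
    (∀ i f, Avoids (γ i) f) ∧ (∀ i f g, r i (symbol f g) = reg (γ i) f g) ∧
    (∀ j, Unramified (α j)) ∧ LinearIndependent ℤ α ∧ (Matrix.of fun i j => r i (α j)).det ≠ 0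

end Pool.Agent.Lib.MP_15b3df_nt
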