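import Pool.Agent.Lib.MP_15b3df_nt.Mono

namespace Pool.Agent.Lib.MP_15b3df_nt

open Filter Topology

section defs
variable {R : Type} [Field R]

def UU (m x : R) : R := ((1 - m ^ 2) * x - m ^ 2) / (x * (m * x + m - 1))
def WW (m x : R) : R := m * (x + 1) * (x - m) / (x * (m * x + m - 1))
def sm (m : R) : R := m * (1 + m) ^ 2 / (1 - m) ^ 2
def fA (m x : R) : R := -UU m x
def fB (m x y : R) : R := WW m x ^ 2 * WW m y / (sm m * UU m x * UU m y)
def gB (m y : R) : R := UU m y / WW m y

end defs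

variable {ι : Type} {l : Filter ι} {L : ι → ℝ} {m : ι → ℂ} {x y : ι → ℝ → ℂ}

structure Pack (l : Filter ι) (L : ι → ℝ) (m : ι → ℂ) (x y : ι → ℝ → ℂ) (A B : ℤ) : Prop where
  ne : ∀ᶠ i in l, sm (m i) ≠ 0 ∧ ∀ t, UU (m i) (x i t) ≠ 0 ∧ UU (m i) (y i t) ≠ 0 ∧
    WW (m i) (x i t) ≠ 0 ∧ WW (m i) (y i t) ≠ 0
  limA : Tendsto (fun i => etaIntegral (fun t => fA (m i) (x i t)) (fun t => fA (m i) (y i t))
    / (2 * Real.pi) / L i) l (𝓝 (A : ℝ))
  limB : Tendsto (fun i => etaIntegral (fun t => fB (m i) (x i t) (y i t))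
    (fun t => gB (m i) (y i t)) / (2 * Real.pi) / L i) l (𝓝 (B : ℝ))

lemma good_UU {a1 n1 a2 n2 a3 n3 : ℤ}
    (hN : Good l L a1 n1 fun i t => (1 - m i ^ 2) * x i t - m i ^ 2) (hx : Good l L a2 n2 x)
    (hD : Good l L a3 n3 fun i t => m i * x i t + m i - 1) :
    Good l L (a1 - (a2 + a3)) (n1 - (n2 + n3)) fun i t => UU (m i) (x i t) :=
  hN.div (hx.mul hD)

lemma good_WW {a0 a1 n1 a1' n1' a2 n2 a3 n3 : ℤ} (hm : Good l L a0 0 fun i _ => m i)
    (h1 : Good l L a1 n1 fun i t => x i t + 1) (h2 : Good l L a1' n1' fun i t => x i t - m i)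
    (hx : Good l L a2 n2 x) (hD : Good l L a3 n3 fun i t => m i * x i t + m i - 1) :
    Good l L (a0 + a1 + a1' - (a2 + a3)) (0 + n1 + n1' - (n2 + n3))
      fun i t => WW (m i) (x i t) :=
  ((hm.mul h1).mul h2).div (hx.mul hD)

lemma good_sm {a0 a1 a2 : ℤ} (hm : Good l L a0 0 fun i _ => m i)
    (h1 : Good l L a1 0 fun i _ => 1 + m i) (h2 : Good l L a2 0 fun i _ => 1 - m i) :
    Good l L (a0 + (a1 + a1) - (a2 + a2)) 0 fun i _ => sm (m i) :=
  ((hm.mul h1.sq).div h2.sq).cast rfl (by simp)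

lemma pack_of_good (hL : Tendsto L l atBot) {a1 n1 a2 n2 a3 n3 a4 n4 a5 A B : ℤ}
    (h1 : Good l L a1 n1 fun i t => UU (m i) (x i t))
    (h2 : Good l L a2 n2 fun i t => UU (m i) (y i t))
    (h3 : Good l L a3 n3 fun i t => WW (m i) (x i t))
    (h4 : Good l L a4 n4 fun i t => WW (m i) (y i t))
    (h5 : Good l L a5 0 fun i _ => sm (m i))
    (hA : a1 * n2 - a2 * n1 = A)
    (hB : (a3 + a3 + a4 - (a5 + a1 + a2)) * (n2 - n4)
      - (a2 - a4) * (n3 + n3 + n4 - (0 + n1 + n2)) = B) :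
    Pack l L m x y A B := by
  refine ⟨?_, ?_, ?_⟩
  · filter_upwards [h1.ne, h2.ne, h3.ne, h4.ne, h5.ne] with i e1 e2 e3 e4 e5
    exact ⟨e5 0, fun t => ⟨e1 t, e2 t, e3 t, e4 t⟩⟩
  · rw [← hA]; exact Good.eta hL h1.neg h2.neg
  · rw [← hB]
    exact Good.eta hL ((h3.sq.mul h4).div ((h5.mul h1).mul h2)) (h2.div h4)

lemma good_one : Good l L 0 0 fun _ _ => (1 : ℂ) := Good.const 1 one_ne_zero

lemma good_one_sub_sq {a1 a2 : ℤ} (h1 : Good l L a1 0 fun i _ => 1 + m i)
    (h2 : Good l L a2 0 fun i _ => 1 - m i) : Good l L (a1 + a2) 0 fun i _ => 1 - m i ^ 2 :=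
  ((h1.mul h2).cast rfl (by simp)).congr (Eventually.of_forall fun i t => by ring)

lemma good_N1 {a n : ℤ} (h : Good l L a n fun i t => (1 - m i ^ 2) * (x i t + 1) - 1) :
    Good l L a n fun i t => (1 - m i ^ 2) * x i t - m i ^ 2 :=
  h.congr (Eventually.of_forall fun i t => by ring)

lemma good_D1 {a n : ℤ} (h : Good l L a n fun i t => m i * (x i t + 1) - 1) :
    Good l L a n fun i t => m i * x i t + m i - 1 :=
  h.congr (Eventually.of_forall fun i t => by ring)

lemma good_D2 {a n : ℤ} (h : Good l L a n fun i t => m i * x i t - (1 - m i)) :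
    Good l L a n fun i t => m i * x i t + m i - 1 :=
  h.congr (Eventually.of_forall fun i t => by ring)

theorem pack_Ia (hL : Tendsto L l atBot) (hx : Good l L 1 1 x) (hy : Good l L (-3) 1 y)
    (hm : Good l L 0 0 fun i _ => m i) (hp : Good l L 0 0 fun i _ => 1 + m i)
    (hn : Good l L 4 0 fun i _ => 1 - m i) : Pack l L m x y 16 0 := by
  have hq := good_one_sub_sq hp hn
  have Dx := good_D2 ((hm.mul hx).sub_left hL hn (by norm_num))
  have Dy := good_D2 ((hm.mul hy).sub_left hL hn (by norm_num))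
  exact pack_of_good hL
    (good_UU ((hq.mul hx).sub_right hL hm.sq (by norm_num)) hx Dx)
    (good_UU ((hq.mul hy).sub_right hL hm.sq (by norm_num)) hy Dy)
    (good_WW hm (hx.add_right hL good_one (by norm_num)) (hx.sub_right hL hm (by norm_num)) hx Dx)
    (good_WW hm (hy.add_left hL good_one (by norm_num)) (hy.sub_left hL hm (by norm_num)) hy Dy)
    (good_sm hm hp hn) (by norm_num) (by norm_num)

theorem pack_Ib (hL : Tendsto L l atBot) (hx : Good l L 1 1 x) (hy : Good l L (-3) 1 y)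
    (hm : Good l L 2 0 fun i _ => m i) (hp : Good l L 0 0 fun i _ => 1 + m i)
    (hn : Good l L 0 0 fun i _ => 1 - m i) : Pack l L m x y 0 (-2) := by
  have hq := good_one_sub_sq hp hn
  have Dx := good_D2 ((hm.mul hx).sub_right hL hn (by norm_num))
  have Dy := good_D2 ((hm.mul hy).sub_left hL hn (by norm_num))
  exact pack_of_good hL
    (good_UU ((hq.mul hx).sub_left hL hm.sq (by norm_num)) hx Dx)
    (good_UU ((hq.mul hy).sub_left hL hm.sq (by norm_num)) hy Dy)
    (good_WW hm (hx.add_right hL good_one (by norm_num)) (hx.sub_left hL hm (by norm_num)) hx Dx)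
    (good_WW hm (hy.add_left hL good_one (by norm_num)) (hy.sub_left hL hm (by norm_num)) hy Dy)
    (good_sm hm hp hn) (by norm_num) (by norm_num)

theorem pack_IIa (hL : Tendsto L l atBot) (hx1 : Good l L 1 1 fun i t => x i t + 1)
    (hy1 : Good l L (-1) (-1) fun i t => y i t + 1)
    (hm : Good l L 0 0 fun i _ => m i) (hp : Good l L 4 0 fun i _ => 1 + m i)
    (hn : Good l L 0 0 fun i _ => 1 - m i) : Pack l L m x y 0 (-16) := by
  have hq := good_one_sub_sq hp hn
  have hx : Good l L 0 0 x := by simpa using hx1.sub_right hL good_one (by norm_num)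
  have hy : Good l L (-1) (-1) y := by simpa using hy1.sub_left hL good_one (by norm_num)
  have Dx := good_D1 ((hm.mul hx1).sub_right hL good_one (by norm_num))
  have Dy := good_D1 ((hm.mul hy1).sub_left hL good_one (by norm_num))
  have hxm : Good l L 1 1 fun i t => x i t - m i :=
    (hx1.sub_left hL hp (by norm_num)).congr (Eventually.of_forall fun i t => by ring)
  exact pack_of_good hL
    (good_UU ((hq.mul hx).sub_right hL hm.sq (by norm_num)) hx Dx)
    (good_UU ((hq.mul hy).sub_right hL hm.sq (by norm_num)) hy Dy)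
    (good_WW hm hx1 hxm hx Dx)
    (good_WW hm hy1 (hy.sub_left hL hm (by norm_num)) hy Dy)
    (good_sm hm hp hn) (by norm_num) (by norm_num)

theorem pack_IIb (hL : Tendsto L l atBot) (hx1 : Good l L 1 1 fun i t => x i t + 1)
    (hy1 : Good l L (-1) (-1) fun i t => y i t + 1)
    (hm : Good l L (-2) 0 fun i _ => m i) (hp : Good l L (-2) 0 fun i _ => 1 + m i)
    (hn : Good l L (-2) 0 fun i _ => 1 - m i) : Pack l L m x y (-2) 0 := by
  have hq := good_one_sub_sq hp hn
  have hx : Good l L 0 0 x := by simpa using hx1.sub_right hL good_one (by norm_num)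
  have hy : Good l L (-1) (-1) y := by simpa using hy1.sub_left hL good_one (by norm_num)
  have Dx := good_D1 ((hm.mul hx1).sub_left hL good_one (by norm_num))
  have Dy := good_D1 ((hm.mul hy1).sub_left hL good_one (by norm_num))
  exact pack_of_good hL
    (good_UU (good_N1 ((hq.mul hx1).sub_left hL good_one (by norm_num))) hx Dx)
    (good_UU (good_N1 ((hq.mul hy1).sub_left hL good_one (by norm_num))) hy Dy)
    (good_WW hm hx1 (hx.sub_right hL hm (by norm_num)) hx Dx)
    (good_WW hm hy1 (hy.sub_right hL hm (by norm_num)) hy Dy)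
    (good_sm hm hp hn) (by norm_num) (by norm_num)

/-- the circle of radius `exp L`. -/
noncomputable def circ (L t : ℝ) : ℂ := Complex.exp (L + 2 * Real.pi * Complex.I * t)

/-- the large root `z` of `p z² - q z + r = 0`. -/
noncomputable def bigRoot (p q r : ℂ) : ℂ := q * (1 + Good.sqrtOne (-4 * p * r / q ^ 2)) / (2 * p)

lemma bigRoot_eq {p q r : ℂ} (hp : p ≠ 0) (hq : q ≠ 0) (h : 1 + -4 * p * r / q ^ 2 ≠ 0) :
    p * bigRoot p q r ^ 2 - q * bigRoot p q r + r = 0 := by
  have h1 := Good.sqrtOne_sq h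
  rw [bigRoot]
  set w := Good.sqrtOne (-4 * p * r / q ^ 2)
  have h2 : q ^ 2 * w ^ 2 = q ^ 2 - 4 * p * r := by rw [h1]; field_simp; ring
  field_simp
  linear_combination h2

lemma good_bigRoot (hL : Tendsto L l atBot) {p q r : ι → ℝ → ℂ} {a1 n1 a2 n2 a3 n3 : ℤ}
    (hp : Good l L a1 n1 p) (hq : Good l L a2 n2 q) (hr : Good l L a3 n3 r)
    (h : a2 + a2 < a1 + a3) :
    Good l L (a2 - a1) (n2 - n1) (fun i t => bigRoot (p i t) (q i t) (r i t)) ∧
    ∀ᶠ i in l, ∀ t, p i t * bigRoot (p i t) (q i t) (r i t) ^ 2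
      - q i t * bigRoot (p i t) (q i t) (r i t) + r i t = 0 := by
  have h1 := (((Good.const (-4) (by norm_num)).mul hp).mul hr).div hq.sq
  constructor
  · exact ((hq.mul (h1.one_add_sqrtOne hL (by omega))).div
      ((Good.const 2 (by norm_num)).mul hp)).cast (by ring) (by ring)
  · filter_upwards [hp.ne, hq.ne, (h1.one_add hL (by omega)).ne] with i e1 e2 e3 t
    exact bigRoot_eq (e1 t) (e2 t) (e3 t)

/-- second coordinate of the loop when `s` is large. -/
noncomputable def yI (s : ℂ) (L t : ℝ) : ℂ :=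
  bigRoot ((circ L t + 1) ^ 2) (s * circ L t - (circ L t + 1) * (2 * circ L t + 1))
    (circ L t * (circ L t + 1))

/-- second coordinate of the loop when `s` is small. -/
noncomputable def yII (s : ℂ) (L t : ℝ) : ℂ :=
  bigRoot (circ L t ^ 2) (circ L t + s * (circ L t - 1)) (s * (circ L t - 1)) - 1

theorem loop_I (hL : Tendsto L l atBot) {s : ι → ℂ} (hs : Good l L (-4) 0 fun i _ => s i) :
    Good l L 1 1 (fun i t => circ (L i) t) ∧ Good l L (-3) 1 (fun i t => yI (s i) (L i) t) ∧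
    ∀ᶠ i in l, ∀ t, (circ (L i) t + 1) * (yI (s i) (L i) t + 1) *
      (circ (L i) t * yI (s i) (L i) t + circ (L i) t + yI (s i) (L i) t)
        = s i * circ (L i) t * yI (s i) (L i) t := by
  have hx : Good l L 1 1 (fun i t => circ (L i) t) := Good.circle
  have h1 := hx.add_right hL good_one (by norm_num)
  have h2 := ((Good.const 2 (by norm_num)).mul hx).add_right hL good_one (by norm_num)
  have h3 := (hs.mul hx).sub_left hL (h1.mul h2) (by norm_num)
  obtain ⟨h4, h5⟩ := good_bigRoot hL h1.sq h3 (hx.mul h1) (by norm_num)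
  refine ⟨hx, h4.cast (by norm_num) (by norm_num), ?_⟩
  filter_upwards [h5] with i e t
  have := e t
  unfold yI
  linear_combination this

theorem loop_II (hL : Tendsto L l atBot) {s : ι → ℂ} (hs : Good l L 4 0 fun i _ => s i) :
    Good l L 1 1 (fun i t => (circ (L i) t - 1) + 1) ∧
    Good l L (-1) (-1) (fun i t => yII (s i) (L i) t + 1) ∧
    ∀ᶠ i in l, ∀ t, ((circ (L i) t - 1) + 1) * (yII (s i) (L i) t + 1) *
      ((circ (L i) t - 1) * yII (s i) (L i) t + (circ (L i) t - 1) + yII (s i) (L i) t)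
        = s i * (circ (L i) t - 1) * yII (s i) (L i) t := by
  have hx : Good l L 1 1 (fun i t => circ (L i) t) := Good.circle
  have h1 := hs.mul (hx.sub_right hL good_one (by norm_num))
  have h3 := hx.add_left hL h1 (by norm_num)
  obtain ⟨h4, h5⟩ := good_bigRoot hL hx.sq h3 h1 (by norm_num)
  refine ⟨by simpa using hx, ?_, ?_⟩
  · simpa [yII] using h4
  filter_upwards [h5] with i e t
  have := e t
  unfold yII
  linear_combination this

end Pool.Agent.Lib.MP_15b3df_nt
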