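import Pool.Agent.Lib.MP_15b3df_nt.K2
import Pool.Agent.Lib.MP_15b3df_nt.Dilog
import Pool.Agent.Lib.MP_15b3df_nt.Curve

namespace Pool.Agent.Lib.MP_15b3df_nt

open Polynomial

section eta
variable {f g h : ℝ → ℂ}

lemma cont_eta (hf : ContDiff ℝ 1 f) (hg : ContDiff ℝ 1 g) (f0 : ∀ t, f t ≠ 0)
    (g0 : ∀ t, g t ≠ 0) : Continuous fun t =>
      Real.log ‖f t‖ * (deriv g t / g t).im - Real.log ‖g t‖ * (deriv f t / f t).im :=
  ((hf.continuous.norm.log fun t => norm_ne_zero_iff.mpr (f0 t)).mul (Complex.continuous_im.comp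
    ((hg.continuous_deriv le_rfl).div hg.continuous g0))).sub
    ((hg.continuous.norm.log fun t => norm_ne_zero_iff.mpr (g0 t)).mul
      (Complex.continuous_im.comp ((hf.continuous_deriv le_rfl).div hf.continuous f0)))

lemma eta_swap (f g : ℝ → ℂ) : etaIntegral f g = -etaIntegral g f := by
  rw [etaIntegral, etaIntegral, ← intervalIntegral.integral_neg]
  simp only [neg_sub]

lemma eta_mul (hf : ContDiff ℝ 1 f) (hg : ContDiff ℝ 1 g) (hh : ContDiff ℝ 1 h)
    (f0 : ∀ t, f t ≠ 0) (g0 : ∀ t, g t ≠ 0) (h0 : ∀ t, h t ≠ 0) :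
    etaIntegral (fun t => f t * g t) h = etaIntegral f h + etaIntegral g h := by
  rw [etaIntegral, etaIntegral, etaIntegral, ← intervalIntegral.integral_add
    ((cont_eta hf hh f0 h0).intervalIntegrable _ _) ((cont_eta hg hh g0 h0).intervalIntegrable _ _)]
  congr 1
  funext t
  have hd : deriv (fun t => f t * g t) t / (f t * g t) = deriv f t / f t + deriv g t / g t := by
    rw [deriv_fun_mul (hf.differentiable (by simp) t) (hg.differentiable (by simp) t)]
    have := f0 t; have := g0 t
    field_simp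
  rw [hd, norm_mul, Real.log_mul (norm_ne_zero_iff.mpr (f0 t)) (norm_ne_zero_iff.mpr (g0 t)),
    Complex.add_im]
  ring

end eta

variable {A : Type} [CommRing A] [IsDomain A]

lemma hasValue_of_inj {φ : A →+* ℂ} (hφ : Function.Injective φ) (f : FractionRing A) :
    ∃ a b : A, φ b ≠ 0 ∧ f = algebraMap A _ a / algebraMap A _ b ∧ HasValue φ f (φ a / φ b) := by
  obtain ⟨a, b, hb, rfl⟩ := IsFractionRing.div_surjective (A := A) f
  have h1 : φ b ≠ 0 := fun h => nonZeroDivisors.ne_zero hb (hφ (by simpa using h))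
  exact ⟨a, b, h1, rfl, (HasValue.of φ a).div (HasValue.of φ b) h1⟩

lemma hasValue_value {φ : A →+* ℂ} (hφ : Function.Injective φ) (f : FractionRing A) :
    HasValue φ f (value φ f) := by
  obtain ⟨a, b, -, -, h⟩ := hasValue_of_inj hφ f
  rwa [h.value_eq]

lemma avoids_of_inj {γ : Loop A} (h : ∀ t, Function.Injective (γ.pt t))
    (f : (FractionRing A)ˣ) : Avoids γ f := by
  intro t
  obtain ⟨a, b, hb, e, hv⟩ := hasValue_of_inj (h t) (f : FractionRing A)
  rw [hv.value_eq]
  refine div_ne_zero (fun h0 => f.ne_zero ?_) hb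
  have : a = 0 := h t (by simpa using h0)
  rw [e, this, map_zero, zero_div]

lemma smooth_value {γ : Loop A} (h : ∀ t, Function.Injective (γ.pt t)) (f : FractionRing A) :
    ContDiff ℝ 1 fun t => value (γ.pt t) f := by
  obtain ⟨a, b, hb, rfl⟩ := IsFractionRing.div_surjective (A := A) f
  have h1 : ∀ t, γ.pt t b ≠ 0 := fun t h0 =>
    nonZeroDivisors.ne_zero hb (h t (by simpa using h0))
  have : (fun t => value (γ.pt t) (algebraMap A (FractionRing A) a / algebraMap A _ b))
      = fun t => γ.pt t a / γ.pt t b :=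
    funext fun t => ((HasValue.of _ a).div (HasValue.of _ b) (h1 t)).value_eq
  rw [this]
  simp only [div_eq_mul_inv]
  exact (γ.smooth a).mul ((γ.smooth b).inv h1)

theorem exists_regK2 {γ : Loop A} (h : ∀ t, Function.Injective (γ.pt t)) :
    ∃ r : K2 (FractionRing A) →+ ℝ, ∀ f g, r (symbol f g) = reg γ f g := by
  have hm : ∀ a a' b : (FractionRing A)ˣ, reg γ (a * a') b = reg γ a b + reg γ a' b := by
    intro a a' b
    have : (fun t => value (γ.pt t) ((a * a' : (FractionRing A)ˣ) : FractionRing A))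
        = fun t => value (γ.pt t) a * value (γ.pt t) a' :=
      funext fun t => ((hasValue_value (h t) _).mul (hasValue_value (h t) _)).value_eq
    rw [reg, reg, reg, this, eta_mul (smooth_value h _) (smooth_value h _) (smooth_value h _)
      (avoids_of_inj h a) (avoids_of_inj h a') (avoids_of_inj h b), add_div]
  have hs : ∀ a b : (FractionRing A)ˣ, reg γ a b = -reg γ b a := fun a b => by
    rw [reg, reg, eta_swap, neg_div]
  refine ⟨K2lift (reg γ) hm (fun a b b' => by rw [hs, hm, hs b, hs b']; ring) fun a b e => ?_,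
    fun f g => K2lift_symbol _ _ _ _ _ _⟩
  have e1 : ∀ t, value (γ.pt t) b = 1 - value (γ.pt t) a := fun t => by
    rw [eq_sub_of_add_eq' e]
    exact (HasValue.one.sub (hasValue_value (h t) _)).value_eq
  rw [reg, funext e1, eta_steinberg (smooth_value h _) (by rw [γ.closed]) (avoids_of_inj h a)
    (fun t => e1 t ▸ avoids_of_inj h b t), zero_div]

lemma point_inj {K : Type} [Field K] [NumberField K] {s : K} (hs : s ≠ 0) (σ : K →+* ℂ)
    {x y : ℂ} (h) (hx : Transcendental ℚ x) : Function.Injective (point s σ x y h) := by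
  let : Algebra K ℂ := σ.toAlgebra
  have : IsScalarTower ℚ K ℂ := IsScalarTower.of_algebraMap_eq fun q => by
    simp [RingHom.algebraMap_toAlgebra]
  have h1 : Transcendental K (-σ s * x) := by
    intro h2
    apply hx
    have h3 : IsAlgebraic K (algebraMap K ℂ (-s)⁻¹ * (-σ s * x)) :=
      (isAlgebraic_algebraMap _).mul h2
    have h4 : σ s ≠ 0 := (_root_.map_ne_zero _).mpr hs
    have e : algebraMap K ℂ (-s)⁻¹ * (-σ s * x) = x := by
      simp only [RingHom.algebraMap_toAlgebra, map_inv₀, map_neg]; field_simp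
    rw [e] at h3
    exact h3.restrictScalars ℚ
  rw [RingHom.injective_iff_ker_eq_bot]
  have : Module.Finite K[X] (CR s) :=
    Module.Finite.of_basis (WeierstrassCurve.Affine.CoordinateRing.basis (curve s).toAffine)
  refine Ideal.eq_bot_of_comap_eq_bot (R := K[X]) ?_
  rw [eq_bot_iff]
  intro p hp
  rw [Ideal.mem_comap, RingHom.mem_ker] at hp
  have e : algebraMap K[X] (CR s) p = WeierstrassCurve.Affine.CoordinateRing.mk _ (C p) := rfl
  rw [e, point_mk, eval₂_C, coe_eval₂RingHom] at hp
  exact (transcendental_iff.mp h1) p hp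

lemma linIndep_of_det {M : Type} [AddCommGroup M] {n : ℕ} (r : Fin n → M →+ ℝ) (α : Fin n → M)
    (h : (Matrix.of fun i j => r i (α j)).det ≠ 0) : LinearIndependent ℤ α := by
  rw [Fintype.linearIndependent_iff]
  intro c hc j
  have h1 : (Matrix.of fun i j => r i (α j)).mulVec (fun j => (c j : ℝ)) = 0 := by
    funext i
    have := congrArg (r i) hc
    simp only [map_sum, map_zsmul, map_zero, zsmul_eq_mul] at this
    simpa [Matrix.mulVec, dotProduct, mul_comm] using this
  have := congrFun (Matrix.eq_zero_of_mulVec_eq_zero h h1) j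
  simpa using this

end Pool.Agent.Lib.MP_15b3df_nt
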