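import Pool.Agent.Lib.MP_15b3df_nt.Param

namespace Pool.Agent.Lib.MP_15b3df_nt

open Filter Topology

lemma pp_div {N a b : ℝ} (hb : b ≠ 0) : pp N (a / b) =
    ((a ^ 2 - b ^ 2) * (a ^ 2 + N * a * b + b ^ 2) * (a ^ 2 + (N - 1) * a * b + b ^ 2)
      + a ^ 3 * b ^ 3) / b ^ 6 := by
  rw [pp]; field_simp

lemma sign_a0 {N : ℝ} (h : 10 ≤ N) : 0 < pp N ((-(N + 1)) / (1)) := by
  have h0 : 0 ≤ N - 10 := by linarith
  have hb : (0 : ℝ) < 1 := by linarith
  have e : ((-(N + 1)) ^ 2 - (1) ^ 2) * ((-(N + 1)) ^ 2 + N * (-(N + 1)) * (1) + (1) ^ 2)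
      * ((-(N + 1)) ^ 2 + (N - 1) * (-(N + 1)) * (1) + (1) ^ 2) + (-(N + 1)) ^ 3 * (1) ^ 3
      = (31789 * (N - 10) ^ 0 + 11349 * (N - 10) ^ 1 + 1517 * (N - 10) ^ 2 + 90 * (N - 10) ^ 3 + 2 * (N - 10) ^ 4) := by ring
  rw [pp_div hb.ne', e]
  positivity

lemma sign_a1 {N : ℝ} (h : 10 ≤ N) : pp N ((-(2 * N - 1)) / (2)) < 0 := by
  have h0 : 0 ≤ N - 10 := by linarith
  have hb : (0 : ℝ) < 2 := by linarith
  have e : ((-(2 * N - 1)) ^ 2 - (2) ^ 2) * ((-(2 * N - 1)) ^ 2 + N * (-(2 * N - 1)) * (2) + (2) ^ 2)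
      * ((-(2 * N - 1)) ^ 2 + (N - 1) * (-(2 * N - 1)) * (2) + (2) ^ 2) + (-(2 * N - 1)) ^ 3 * (2) ^ 3
      = -(178037 * (N - 10) ^ 0 + 70680 * (N - 10) ^ 1 + 10408 * (N - 10) ^ 2 + 672 * (N - 10) ^ 3 + 16 * (N - 10) ^ 4) := by ring
  rw [pp_div hb.ne', e]
  rw [neg_div, neg_lt_zero]; positivity

lemma sign_a2 {N : ℝ} (h : 10 ≤ N) : 0 < pp N ((-(N - 2)) / (1)) := by
  have h0 : 0 ≤ N - 10 := by linarith
  have hb : (0 : ℝ) < 1 := by linarith
  have e : ((-(N - 2)) ^ 2 - (1) ^ 2) * ((-(N - 2)) ^ 2 + N * (-(N - 2)) * (1) + (1) ^ 2)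
      * ((-(N - 2)) ^ 2 + (N - 1) * (-(N - 2)) * (1) + (1) ^ 2) + (-(N - 2)) ^ 3 * (1) ^ 3
      = (6103 * (N - 10) ^ 0 + 3315 * (N - 10) ^ 1 + 671 * (N - 10) ^ 2 + 60 * (N - 10) ^ 3 + 2 * (N - 10) ^ 4) := by ring
  rw [pp_div hb.ne', e]
  positivity

lemma sign_a3 {N : ℝ} (h : 10 ≤ N) : 0 < pp N ((-(N + 1)) / (N)) := by
  have h0 : 0 ≤ N - 10 := by linarith
  have hb : (0 : ℝ) < N := by linarith
  have e : ((-(N + 1)) ^ 2 - (N) ^ 2) * ((-(N + 1)) ^ 2 + N * (-(N + 1)) * (N) + (N) ^ 2)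
      * ((-(N + 1)) ^ 2 + (N - 1) * (-(N + 1)) * (N) + (N) ^ 2) + (-(N + 1)) ^ 3 * (N) ^ 3
      = (12863971 * (N - 10) ^ 0 + 9822987 * (N - 10) ^ 1 + 3183079 * (N - 10) ^ 2 + 568182 * (N - 10) ^ 3 + 60404 * (N - 10) ^ 4 + 3828 * (N - 10) ^ 5 + 134 * (N - 10) ^ 6 + 2 * (N - 10) ^ 7) := by ring
  rw [pp_div hb.ne', e]
  positivity

lemma sign_b2 {N : ℝ} (h : 10 ≤ N) : pp N ((-1) / (N - 2)) < 0 := by
  have h0 : 0 ≤ N - 10 := by linarith
  have hb : (0 : ℝ) < N - 2 := by linarith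
  have e : ((-1) ^ 2 - (N - 2) ^ 2) * ((-1) ^ 2 + N * (-1) * (N - 2) + (N - 2) ^ 2)
      * ((-1) ^ 2 + (N - 1) * (-1) * (N - 2) + (N - 2) ^ 2) + (-1) ^ 3 * (N - 2) ^ 3
      = -(7127 * (N - 10) ^ 0 + 3699 * (N - 10) ^ 1 + 719 * (N - 10) ^ 2 + 62 * (N - 10) ^ 3 + 2 * (N - 10) ^ 4) := by ring
  rw [pp_div hb.ne', e]
  rw [neg_div, neg_lt_zero]; positivity

lemma sign_b1 {N : ℝ} (h : 10 ≤ N) : 0 < pp N ((-2) / (2 * N - 1)) := by
  have h0 : 0 ≤ N - 10 := by linarith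
  have hb : (0 : ℝ) < 2 * N - 1 := by linarith
  have e : ((-2) ^ 2 - (2 * N - 1) ^ 2) * ((-2) ^ 2 + N * (-2) * (2 * N - 1) + (2 * N - 1) ^ 2)
      * ((-2) ^ 2 + (N - 1) * (-2) * (2 * N - 1) + (2 * N - 1) ^ 2) + (-2) ^ 3 * (2 * N - 1) ^ 3
      = (68293 * (N - 10) ^ 0 + 36024 * (N - 10) ^ 1 + 6760 * (N - 10) ^ 2 + 544 * (N - 10) ^ 3 + 16 * (N - 10) ^ 4) := by ring
  rw [pp_div hb.ne', e]
  positivity

lemma sign_b0 {N : ℝ} (h : 10 ≤ N) : pp N ((-1) / (N + 1)) < 0 := by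
  have h0 : 0 ≤ N - 10 := by linarith
  have hb : (0 : ℝ) < N + 1 := by linarith
  have e : ((-1) ^ 2 - (N + 1) ^ 2) * ((-1) ^ 2 + N * (-1) * (N + 1) + (N + 1) ^ 2)
      * ((-1) ^ 2 + (N - 1) * (-1) * (N + 1) + (N + 1) ^ 2) + (-1) ^ 3 * (N + 1) ^ 3
      = -(34451 * (N - 10) ^ 0 + 12075 * (N - 10) ^ 1 + 1583 * (N - 10) ^ 2 + 92 * (N - 10) ^ 3 + 2 * (N - 10) ^ 4) := by ring
  rw [pp_div hb.ne', e]
  rw [neg_div, neg_lt_zero]; positivity

lemma sign_c0 {N : ℝ} (h : 10 ≤ N) : pp N ((N - 1) / (N)) < 0 := by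
  have h0 : 0 ≤ N - 10 := by linarith
  have hb : (0 : ℝ) < N := by linarith
  have e : ((N - 1) ^ 2 - (N) ^ 2) * ((N - 1) ^ 2 + N * (N - 1) * (N) + (N) ^ 2)
      * ((N - 1) ^ 2 + (N - 1) * (N - 1) * (N) + (N) ^ 2) + (N - 1) ^ 3 * (N) ^ 3
      = -(19625149 * (N - 10) ^ 0 + 13809625 * (N - 10) ^ 1 + 4161371 * (N - 10) ^ 2 + 696086 * (N - 10) ^ 3 + 69802 * (N - 10) ^ 4 + 4196 * (N - 10) ^ 5 + 140 * (N - 10) ^ 6 + 2 * (N - 10) ^ 7) := by ring
  rw [pp_div hb.ne', e]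
  rw [neg_div, neg_lt_zero]; positivity


lemma cont_pp (N : ℝ) : Continuous fun m => pp N m := by unfold pp; fun_prop

lemma root_up {N a b : ℝ} (hab : a ≤ b) (h1 : pp N a < 0) (h2 : 0 < pp N b) :
    ∃ μ, a < μ ∧ μ < b ∧ pp N μ = 0 := by
  obtain ⟨μ, ⟨h3, h4⟩, h5⟩ := intermediate_value_Ioo hab (cont_pp N).continuousOn ⟨h1, h2⟩
  exact ⟨μ, h3, h4, h5⟩

lemma root_down {N a b : ℝ} (hab : a ≤ b) (h1 : 0 < pp N a) (h2 : pp N b < 0) :
    ∃ μ, a < μ ∧ μ < b ∧ pp N μ = 0 := by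
  obtain ⟨μ, ⟨h3, h4⟩, h5⟩ := intermediate_value_Ioo' hab (cont_pp N).continuousOn ⟨h2, h1⟩
  exact ⟨μ, h3, h4, h5⟩

lemma choose_root {a b : ℝ → ℝ} (h : ∀ N : ℝ, 10 ≤ N → ∃ μ, a N < μ ∧ μ < b N ∧ pp N μ = 0) :
    ∃ μ : ℝ → ℝ, ∀ᶠ N in atTop, 10 ≤ N ∧ a N < μ N ∧ μ N < b N ∧ pp N (μ N) = 0 := by
  choose! μ hμ using h
  exact ⟨μ, (eventually_ge_atTop 10).mono fun N hN => ⟨hN, hμ N hN⟩⟩

variable {μ : ℝ → ℝ}

lemma mm1_eq {N m : ℝ} (h : pp N m = 0) : mm N m 1 = m / ((1 + m) * (kap N m - 1)) := by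
  have h1 := kap_eq h
  have h2 := pp_ne_neg_one h
  have h3 : kap N m - 1 ≠ 0 := by
    intro h0; rw [h0] at h1; exact pp_ne_zero h (by linarith)
  simp only [mm, Matrix.cons_val_one, Matrix.cons_val_zero]
  field_simp
  linear_combination h1

lemma mm2_eq {N m : ℝ} (h : pp N m = 0) : mm N m 2 = -m / ((1 + m) * kap N m) := by
  have h1 := kap_eq h
  have h2 := pp_ne_neg_one h
  have h3 : kap N m ≠ 0 := by
    intro h0; rw [h0] at h1; exact pp_ne_zero h (by linarith)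
  simp only [mm, Matrix.cons_val]
  field_simp
  linear_combination -h1

lemma kap_top {c : ℝ} (hc : c ≠ 0) (h : Tendsto μ atTop (𝓝 c)) :
    Tendsto (fun N => kap N (μ N)) atTop atTop := by
  have := (h.add (h.inv₀ hc)).add_atTop tendsto_id
  refine this.congr fun N => ?_
  simp [kap]; ring

lemma tendsto_of_mul_sub {k : ℝ → ℝ} (h : Tendsto (fun N => k N * (k N - 1)) atTop (𝓝 0))
    (h1 : ∀ᶠ N in atTop, k N ≤ 1 / 2) : Tendsto k atTop (𝓝 0) := by
  refine squeeze_zero_norm' ?_ (by simpa using h.norm.const_mul 2)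
  filter_upwards [h1] with N hN
  have : 1 / 2 ≤ |k N - 1| := by rw [abs_sub_comm]; exact le_trans (by linarith) (le_abs_self _)
  have := abs_nonneg (k N)
  rw [Real.norm_eq_abs]
  nlinarith

lemma tendsto_of_mul_sub' {k : ℝ → ℝ} (h : Tendsto (fun N => k N * (k N - 1)) atTop (𝓝 0))
    (h1 : ∀ᶠ N in atTop, 1 / 4 ≤ k N) : Tendsto k atTop (𝓝 1) := by
  rw [← tendsto_sub_nhds_zero_iff]
  refine squeeze_zero_norm' ?_ (by simpa using h.norm.const_mul 4)
  filter_upwards [h1] with N hN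
  have : 1 / 4 ≤ |k N| := le_trans hN (le_abs_self _)
  have := abs_nonneg (k N - 1)
  rw [Real.norm_eq_abs]
  nlinarith

lemma kk_small (hp : ∀ᶠ N in atTop, pp N (μ N) = 0) (h : Tendsto μ atTop (𝓝 0)) :
    Tendsto (fun N => kap N (μ N) * (kap N (μ N) - 1)) atTop (𝓝 0) := by
  have := h.div ((h.pow 2).const_sub 1) (by norm_num)
  rw [zero_div] at this
  refine this.congr' ?_
  filter_upwards [hp] with N hN
  have h1 := kap_eq hN
  have h2 : 1 - μ N ^ 2 ≠ 0 := by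
    intro h0; rw [h0] at h1; exact pp_ne_zero hN (by linarith)
  simp only [Pi.div_apply]
  rw [div_eq_iff h2, h1]

lemma kk_big (hp : ∀ᶠ N in atTop, pp N (μ N) = 0) (h : Tendsto (fun N => (μ N)⁻¹) atTop (𝓝 0)) :
    Tendsto (fun N => kap N (μ N) * (kap N (μ N) - 1)) atTop (𝓝 0) := by
  have := h.div ((h.pow 2).sub_const 1) (by norm_num)
  rw [zero_div] at this
  refine this.congr' ?_
  filter_upwards [hp] with N hN
  have h1 := kap_eq hN
  have h0 := pp_ne_zero hN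
  have h2 : 1 - μ N ^ 2 ≠ 0 := by
    intro h0; rw [h0] at h1; exact pp_ne_zero hN (by linarith)
  have h3 : (μ N)⁻¹ ^ 2 - 1 = (1 - μ N ^ 2) / μ N ^ 2 := by field_simp
  simp only [Pi.div_apply]
  rw [h3]
  field_simp
  linear_combination -h1

lemma ss_small (hp : ∀ᶠ N in atTop, pp N (μ N) = 0) (h : Tendsto μ atTop (𝓝 0)) :
    Tendsto (fun N => ss (μ N)) atTop atTop := by
  have h1 : Tendsto (fun N => μ N ^ 2) atTop (𝓝[>] 0) :=
    tendsto_nhdsWithin_iff.mpr ⟨by simpa using h.pow 2, hp.mono fun N hN =>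
      Set.mem_Ioi.mpr (pow_pos_of_ne (pp_ne_zero hN))⟩
  have h2 := (h.const_add 1).div (h.const_sub 1) (by norm_num)
  have := h2.pos_mul_atTop (by norm_num) (tendsto_inv_nhdsGT_zero.comp h1)
  refine this.congr fun N => ?_
  simp only [ss, Pi.div_apply, Function.comp]
  rw [div_mul_eq_mul_div, ← div_eq_mul_inv, div_div]
where pow_pos_of_ne {x : ℝ} (hx : x ≠ 0) : 0 < x ^ 2 := by positivity

lemma ss_neg {m : ℝ} (h : m < -1) : ss m < 0 :=
  div_neg_of_neg_of_pos (by linarith) (mul_pos (by nlinarith) (by linarith))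

lemma ss_big (hp : ∀ᶠ N in atTop, pp N (μ N) = 0) (h : Tendsto (fun N => (μ N)⁻¹) atTop (𝓝 0)) :
    Tendsto (fun N => ss (μ N)) atTop (𝓝 0) := by
  have := ((h.pow 2).mul (h.add_const 1)).div (h.sub_const 1) (by norm_num)
  simp only [ne_eq, OfNat.ofNat_ne_zero, not_false_eq_true, zero_pow, zero_mul, zero_div] at this
  refine this.congr' ?_
  filter_upwards [hp] with N hN
  have h0 := pp_ne_zero hN
  have h1 := pp_ne_one hN
  simp only [ss, Pi.div_apply]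
  field_simp

lemma inv_small {c : ℝ} (h : ∀ᶠ N in atTop, μ N < -(N - c)) :
    Tendsto (fun N => (μ N)⁻¹) atTop (𝓝 0) :=
  tendsto_inv_atBot_zero.comp (tendsto_atBot_mono' _ (h.mono fun _ hN => hN.le)
    (tendsto_neg_atTop_atBot.comp (tendsto_atTop_add_const_right _ (-c) tendsto_id)))

lemma small_of {c : ℝ} (h : ∀ᶠ N in atTop, -1 / (N - c) < μ N ∧ μ N < 0) :
    Tendsto μ atTop (𝓝 0) := by
  have h1 : Tendsto (fun N : ℝ => -1 / (N - c)) atTop (𝓝 0) :=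
    tendsto_const_nhds.div_atTop (tendsto_atTop_add_const_right _ (-c) tendsto_id)
  exact tendsto_of_tendsto_of_tendsto_of_le_of_le' h1 tendsto_const_nhds
    (h.mono fun _ hN => hN.1.le) (h.mono fun _ hN => hN.2.le)

abbrev RowI (μ : ℝ → ℝ) (k : Fin 3) : Prop :=
  (∀ᶠ N in atTop, pp N (μ N) = 0) ∧ Tendsto (fun N => ss (μ N)) atTop atTop ∧
    Row atTop id μ (fun j => if j = k then 16 else 0) (fun j => if j = k then 0 else -2)

abbrev RowII (μ : ℝ → ℝ) (k : Fin 3) : Prop :=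
  (∀ᶠ N in atTop, pp N (μ N) = 0) ∧
    Row atTop id μ (fun j => if j = k then 0 else -2) (fun j => if j = k then -16 else 0)

theorem row1 : ∃ μ, RowI μ 0 := by
  obtain ⟨μ, hμ⟩ := choose_root (a := fun N => (N - 1) / N) (b := fun _ => 1) fun N hN =>
    root_up (by rw [div_le_one (by linarith)]; linarith) (sign_c0 hN) (by norm_num [pp])
  have hp := hμ.mono fun N hN => hN.2.2.2
  have h1 : Tendsto μ atTop (𝓝 1) := by
    have h2 : Tendsto (fun N : ℝ => 1 - N⁻¹) atTop (𝓝 1) := by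
      simpa using tendsto_inv_atTop_zero.const_sub (1 : ℝ)
    refine tendsto_of_tendsto_of_tendsto_of_le_of_le' h2 tendsto_const_nhds ?_
      (hμ.mono fun N hN => hN.2.2.1.le)
    filter_upwards [hμ] with N ⟨e1, e2, _⟩
    have : 1 - N⁻¹ = (N - 1) / N := by field_simp
    linarith
  have hk := kap_top one_ne_zero h1
  have hs : Tendsto (fun N => ss (μ N)) atTop atTop := by
    have h2 : Tendsto (fun N => 1 - μ N) atTop (𝓝[>] 0) :=
      tendsto_nhdsWithin_iff.mpr ⟨by simpa using h1.const_sub 1, hμ.mono fun N hN =>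
        Set.mem_Ioi.mpr (by linarith [hN.2.2.1])⟩
    have h3 := (h1.const_add 1).div (h1.pow 2) (by norm_num)
    have := h3.pos_mul_atTop (by norm_num) (tendsto_inv_nhdsGT_zero.comp h2)
    refine this.congr fun N => ?_
    simp only [ss, Pi.div_apply, Function.comp]
    rw [← div_eq_mul_inv, div_div]
  refine ⟨μ, hp, hs, rowI hp hs 0 fun j => ?_⟩
  fin_cases j
  · simpa [mm] using h1
  · have := h1.div_atTop ((h1.const_add 1).pos_mul_atTop (by norm_num)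
      (tendsto_atTop_add_const_right _ (-1) hk))
    exact this.congr' (hp.mono fun N hN => (mm1_eq hN).symm)
  · have := h1.neg.div_atTop ((h1.const_add 1).pos_mul_atTop (by norm_num) hk)
    exact this.congr' (hp.mono fun N hN => (mm2_eq hN).symm)

theorem row2 : ∃ μ, RowII μ 0 := by
  obtain ⟨μ, hμ⟩ := choose_root (a := fun N => -(N + 1) / N) (b := fun _ => -1) fun N hN =>
    root_down (by rw [div_le_iff₀ (by linarith)]; linarith) (sign_a3 hN) (by norm_num [pp])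
  have hp := hμ.mono fun N hN => hN.2.2.2
  have h1 : Tendsto μ atTop (𝓝 (-1)) := by
    have h2 : Tendsto (fun N : ℝ => -1 - N⁻¹) atTop (𝓝 (-1)) := by
      simpa using tendsto_inv_atTop_zero.const_sub (-1 : ℝ)
    refine tendsto_of_tendsto_of_tendsto_of_le_of_le' h2 tendsto_const_nhds ?_
      (hμ.mono fun N hN => hN.2.2.1.le)
    filter_upwards [hμ] with N ⟨e1, e2, _⟩
    have : -1 - N⁻¹ = -(N + 1) / N := by field_simp; ring
    linarith
  have hk := kap_top (by norm_num) h1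
  have hs : Tendsto (fun N => ss (μ N)) atTop (𝓝 0) := by
    have := (h1.const_add 1).div ((h1.pow 2).mul (h1.const_sub 1)) (by norm_num)
    rw [add_neg_cancel, zero_div] at this
    exact this
  refine ⟨μ, hp, rowII hp hs (hμ.mono fun N hN => ss_neg hN.2.2.1) 0 fun j => ?_⟩
  fin_cases j
  · simpa [mm] using h1.inv₀ (by norm_num)
  · exact tendsto_inv_atTop_zero.comp ((h1.const_sub 1).pos_mul_atTop (by norm_num) hk)
  · exact tendsto_inv_atBot_zero.comp ((h1.const_sub 1).pos_mul_atBot (by norm_num)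
      (tendsto_atBot_add_const_left _ 1 (tendsto_neg_atTop_atBot.comp hk)))

theorem row3 : ∃ μ, RowI μ 2 := by
  obtain ⟨μ, hμ⟩ := choose_root (a := fun N => -2 / (2 * N - 1)) (b := fun N => -1 / (N + 1))
    fun N hN => root_down (by rw [div_le_div_iff₀ (by linarith) (by linarith)]; linarith)
      (sign_b1 hN) (sign_b0 hN)
  have hp := hμ.mono fun N hN => hN.2.2.2
  have hneg : ∀ᶠ N in atTop, μ N < 0 := hμ.mono fun N hN =>
    hN.2.2.1.trans (div_neg_of_neg_of_pos (by norm_num) (by linarith [hN.1]))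
  have h1 : Tendsto μ atTop (𝓝 0) := by
    refine small_of (c := 1) ?_
    filter_upwards [hμ, hneg] with N ⟨e1, e2, _⟩ e3
    exact ⟨lt_trans (by rw [div_lt_div_iff₀ (by linarith) (by linarith)]; linarith) e2, e3⟩
  have hk : Tendsto (fun N => kap N (μ N)) atTop (𝓝 0) := by
    refine tendsto_of_mul_sub (kk_small hp h1) ?_
    filter_upwards [hμ, hneg] with N ⟨e1, e2, _⟩ e3
    rw [div_lt_iff₀ (by linarith)] at e2
    have : (μ N)⁻¹ < -(N - 1 / 2) := by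
      rw [inv_eq_one_div, div_lt_iff_of_neg e3]; linarith
    rw [kap]; linarith
  have hs := ss_small hp h1
  refine ⟨μ, hp, hs, rowI hp hs 2 fun j => ?_⟩
  fin_cases j
  · simpa [mm] using h1
  · simpa [mm] using (h1.const_sub 1).mul hk
  · simpa [mm] using (h1.const_sub 1).mul (hk.const_sub 1)

theorem row4 : ∃ μ, RowI μ 1 := by
  obtain ⟨μ, hμ⟩ := choose_root (a := fun N => -1 / (N - 2)) (b := fun N => -2 / (2 * N - 1))
    fun N hN => root_up (by rw [div_le_div_iff₀ (by linarith) (by linarith)]; linarith)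
      (sign_b2 hN) (sign_b1 hN)
  have hp := hμ.mono fun N hN => hN.2.2.2
  have hneg : ∀ᶠ N in atTop, μ N < 0 := hμ.mono fun N hN =>
    hN.2.2.1.trans (div_neg_of_neg_of_pos (by norm_num) (by linarith [hN.1]))
  have h1 : Tendsto μ atTop (𝓝 0) := by
    refine small_of (c := 2) ?_
    filter_upwards [hμ, hneg] with N ⟨e1, e2, _⟩ e3 using ⟨e2, e3⟩
  have hk : Tendsto (fun N => kap N (μ N)) atTop (𝓝 1) := by
    refine tendsto_of_mul_sub' (kk_small hp h1) ?_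
    filter_upwards [hμ, hneg] with N ⟨e1, e2, e4, _⟩ e3
    rw [lt_div_iff₀ (by linarith)] at e4
    rw [div_lt_iff₀ (by linarith)] at e2
    have : -(N - 1 / 2) < (μ N)⁻¹ := by
      rw [inv_eq_one_div, lt_div_iff_of_neg e3]; linarith
    have : -1 / 4 < μ N := by nlinarith
    rw [kap]; linarith
  have hs := ss_small hp h1
  refine ⟨μ, hp, hs, rowI hp hs 1 fun j => ?_⟩
  fin_cases j
  · simpa [mm] using h1
  · simpa [mm] using (h1.const_sub 1).mul hk
  · simpa [mm] using (h1.const_sub 1).mul (hk.const_sub 1)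

theorem row5 : ∃ μ, RowII μ 1 := by
  obtain ⟨μ, hμ⟩ := choose_root (a := fun N => -(N + 1) / 1) (b := fun N => -(2 * N - 1) / 2)
    fun N hN => root_down (by linarith) (sign_a0 hN) (sign_a1 hN)
  have hp := hμ.mono fun N hN => hN.2.2.2
  have h1 : Tendsto (fun N => (μ N)⁻¹) atTop (𝓝 0) :=
    inv_small (c := 1) (hμ.mono fun N hN => by linarith [hN.2.2.1])
  have hk : Tendsto (fun N => kap N (μ N)) atTop (𝓝 0) := by
    refine tendsto_of_mul_sub (kk_big hp h1) ?_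
    filter_upwards [hμ] with N ⟨e1, _, e2, _⟩
    have : (μ N)⁻¹ < 0 := inv_lt_zero.mpr (by linarith)
    rw [kap]; linarith
  refine ⟨μ, hp, rowII hp (ss_big hp h1)
    (hμ.mono fun N hN => ss_neg (by linarith [hN.1, hN.2.2.1])) 1 fun j => ?_⟩
  fin_cases j
  · simpa [mm] using h1
  · have := (h1.add_const 1).mul (hk.sub_const 1)
    simp only [zero_add, zero_sub, one_mul] at this
    refine this.congr' (hp.mono fun N hN => ?_)
    have := pp_ne_zero hN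
    simp only [Fin.mk_one, mm1_eq hN]
    field_simp
  · have := h1.div ((h1.sub_const 1).mul (hk.const_sub 1)) (by norm_num)
    rw [zero_div] at this
    refine this.congr' (hp.mono fun N hN => ?_)
    have := pp_ne_zero hN
    simp only [Pi.div_apply, mm, Fin.reduceFinMk, Matrix.cons_val]
    field_simp

theorem row6 : ∃ μ, RowII μ 2 := by
  obtain ⟨μ, hμ⟩ := choose_root (a := fun N => -(2 * N - 1) / 2) (b := fun N => -(N - 2) / 1)
    fun N hN => root_up (by linarith) (sign_a1 hN) (sign_a2 hN)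
  have hp := hμ.mono fun N hN => hN.2.2.2
  have h1 : Tendsto (fun N => (μ N)⁻¹) atTop (𝓝 0) :=
    inv_small (c := 2) (hμ.mono fun N hN => by linarith [hN.2.2.1])
  have hk : Tendsto (fun N => kap N (μ N)) atTop (𝓝 1) := by
    refine tendsto_of_mul_sub' (kk_big hp h1) ?_
    filter_upwards [hμ] with N ⟨e1, e3, e2, _⟩
    have e4 : μ N < 0 := by linarith
    have : -1 / 4 < (μ N)⁻¹ := by
      rw [inv_eq_one_div, lt_div_iff_of_neg e4]; linarith
    rw [kap]; linarith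
  refine ⟨μ, hp, rowII hp (ss_big hp h1)
    (hμ.mono fun N hN => ss_neg (by linarith [hN.1, hN.2.2.1])) 2 fun j => ?_⟩
  fin_cases j
  · simpa [mm] using h1
  · have := h1.div ((h1.sub_const 1).mul hk) (by norm_num)
    rw [zero_div] at this
    refine this.congr' (hp.mono fun N hN => ?_)
    have := pp_ne_zero hN
    simp only [Pi.div_apply, mm, Fin.mk_one, Matrix.cons_val_one, Matrix.cons_val_zero]
    field_simp
  · have := ((h1.add_const 1).mul hk).neg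
    simp only [zero_add, one_mul] at this
    refine this.congr' (hp.mono fun N hN => ?_)
    have := pp_ne_zero hN
    simp only [Fin.reduceFinMk, mm2_eq hN]
    field_simp

end Pool.Agent.Lib.MP_15b3df_nt
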