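import Pool.Agent.Lib.MP_15b3df_nt.Disc
import Pool.Agent.Lib.MP_15b3df_nt.Roots
import Pool.Agent.Lib.MP_15b3df_nt.Reg

namespace Pool.Agent.Lib.MP_15b3df_nt

open Filter Topology Polynomial
open scoped IntermediateField

def idx : Fin 6 → Fin 3 := ![0, 1, 2, 0, 1, 2]
def isA : Fin 6 → Bool := ![true, true, true, false, false, false]

def ff {R : Type} [Field R] (b : Bool) (m x y : R) : R := if b then fA m x else fB m x y
def gg {R : Type} [Field R] (b : Bool) (m y : R) : R := if b then fA m y else gB m y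

def NZ {R : Type} [Field R] (m x y : R) : Prop :=
  sm m ≠ 0 ∧ UU m x ≠ 0 ∧ UU m y ≠ 0 ∧ WW m x ≠ 0 ∧ WW m y ≠ 0

lemma NZ.ff_ne {R : Type} [Field R] {m x y : R} (h : NZ m x y) (b : Bool) : ff b m x y ≠ 0 := by
  obtain ⟨h1, h2, h3, h4, h5⟩ := h
  cases b <;> simp [ff, fA, fB, *]

lemma NZ.gg_ne {R : Type} [Field R] {m x y : R} (h : NZ m x y) (b : Bool) : gg b m y ≠ 0 := by
  obtain ⟨h1, h2, h3, h4, h5⟩ := h
  cases b <;> simp [gg, fA, gB, *]

lemma NZ.add_one_ne {m x y : ℂ} (h : NZ m x y) : x + 1 ≠ 0 := by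
  intro h0; apply h.2.2.2.1; rw [WW, h0]; simp

section
variable {A : Type} [CommRing A] [IsDomain A] {φ : A →+* ℂ} {m x y : FractionRing A} {μ z w : ℂ}

lemma NZ.hasValue_ff (h : NZ μ z w) (hm : HasValue φ m μ) (hx : HasValue φ x z)
    (hy : HasValue φ y w) (b : Bool) : HasValue φ (ff b m x y) (ff b μ z w) := by
  obtain ⟨h1, h2, h3, h4, h5⟩ := h
  cases b
  · exact ((hm.WW hx h4).sq.mul (hm.WW hy h5)).div
      (((hm.sm h1).mul (hm.UU hx h2)).mul (hm.UU hy h3)) (mul_ne_zero (mul_ne_zero h1 h2) h3)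
  · exact (hm.UU hx h2).neg

lemma NZ.hasValue_gg (h : NZ μ z w) (hm : HasValue φ m μ)
    (hy : HasValue φ y w) (b : Bool) : HasValue φ (gg b m y) (gg b μ w) := by
  obtain ⟨h1, h2, h3, h4, h5⟩ := h
  cases b
  · exact (hm.UU hy h3).div (hm.WW hy h5) h5
  · exact (hm.UU hy h3).neg

lemma NZ.lift (h : NZ μ z w) (hm : HasValue φ m μ) (hx : HasValue φ x z)
    (hy : HasValue φ y w) : NZ m x y := by
  obtain ⟨h1, h2, h3, h4, h5⟩ := h
  exact ⟨(hm.sm h1).ne_zero h1, (hm.UU hx h2).ne_zero h2, (hm.UU hy h3).ne_zero h3,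
    (hm.WW hx h4).ne_zero h4, (hm.WW hy h5).ne_zero h5⟩

end

lemma tame_ff_gg {F : Type} [Field F] {m x y s : F} (hs : s * m ^ 2 * (1 - m) = 1 + m)
    (h : (x + 1) * (y + 1) * (x * y + x + y) = s * x * y) (hz : NZ m x y) (hi : IU (sm m))
    (b : Bool) : TameTrivial (Units.mk0 _ (hz.ff_ne b)) (Units.mk0 _ (hz.gg_ne b)) := by
  obtain ⟨h1, h2, h3, h4, h5⟩ := id hz
  cases b
  · exact tameTrivial_of_pentagon hi.2.neg (pentagon_B hs h h1 h2 h3 h4 h5)
  · exact tameTrivial_of_pentagon hi.1 (pentagon_A hs h h1 h2 h3)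

def limA : Fin 6 → Fin 3 → ℤ :=
  ![![16, 0, 0], ![0, 16, 0], ![0, 0, 16], ![0, -2, -2], ![-2, 0, -2], ![-2, -2, 0]]
def limB : Fin 6 → Fin 3 → ℤ :=
  ![![0, -2, -2], ![-2, 0, -2], ![-2, -2, 0], ![-16, 0, 0], ![0, -16, 0], ![0, 0, -16]]

noncomputable def limM : Matrix (Fin 6) (Fin 6) ℝ :=
  Matrix.of fun k j => ((if isA j then limA k (idx j) else limB k (idx j) : ℤ) : ℝ)

lemma limM_det : limM.det ≠ 0 := by
  apply det_ne_zero_of_sum_row_lt_diag
  intro k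
  rw [Finset.sum_erase_eq_sub (Finset.mem_univ k), Fin.sum_univ_six]
  fin_cases k <;> simp [limM, isA, idx, limA, limB] <;> norm_num

/-- The analytic data for one large value `N` of the parameter. -/
def Data (N : ℝ) : Prop :=
  ∃ (μ : Fin 6 → ℝ) (x y : Fin 6 → ℝ → ℂ), 12 < ss (μ 0) ∧ (∀ k, pp N (μ k) = 0) ∧
    (∀ k t, Transcendental ℚ (x k t)) ∧
    (∀ k, (ContDiff ℝ 1 (x k) ∧ x k 0 = x k 1) ∧ (ContDiff ℝ 1 (y k) ∧ y k 0 = y k 1) ∧
      ∀ t, (x k t + 1) * (y k t + 1) * (x k t * y k t + x k t + y k t)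
        = (ss (μ k) : ℝ) * x k t * y k t) ∧
    (∀ k j t, NZ ((mm N (μ k) j : ℝ) : ℂ) (x k t) (y k t)) ∧
    (Matrix.of fun k j => etaIntegral
      (fun t => ff (isA j) ((mm N (μ k) (idx j) : ℝ) : ℂ) (x k t) (y k t))
      (fun t => gg (isA j) ((mm N (μ k) (idx j) : ℝ) : ℂ) (y k t)) / (2 * Real.pi)).det ≠ 0

theorem eventually_data : ∀ᶠ N in atTop, Data N := by
  obtain ⟨μ1, p1, s1, r1⟩ := row1
  obtain ⟨μ2, p2, r2⟩ := row2
  obtain ⟨μ3, p3, -, r3⟩ := row3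
  obtain ⟨μ4, p4, -, r4⟩ := row4
  obtain ⟨μ5, p5, r5⟩ := row5
  obtain ⟨μ6, p6, r6⟩ := row6
  let μ : Fin 6 → ℝ → ℝ := ![μ1, μ4, μ3, μ2, μ5, μ6]
  have hp : ∀ k, ∀ᶠ N in atTop, pp N (μ k N) = 0 := by
    intro k; fin_cases k
    exacts [p1, p4, p3, p2, p5, p6]
  have hr : ∀ k, Row atTop id (μ k) (limA k) (limB k) := by
    have hc : ∀ {ν : ℝ → ℝ} {A B A' B' : Fin 3 → ℤ}, Row atTop id ν A B → A = A' → B = B' →
        Row atTop id ν A' B' := fun h e1 e2 => e1 ▸ e2 ▸ h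
    intro k; fin_cases k
    exacts [hc r1 (by decide) (by decide), hc r4 (by decide) (by decide),
      hc r3 (by decide) (by decide), hc r2 (by decide) (by decide),
      hc r5 (by decide) (by decide), hc r6 (by decide) (by decide)]
  choose L x y h0 h1 h2 using hr
  let R : ℝ → Matrix (Fin 6) (Fin 6) ℝ := fun N => Matrix.of fun k j => etaIntegral
      (fun t => ff (isA j) ((mm N (μ k N) (idx j) : ℝ) : ℂ) (x k N t) (y k N t))
      (fun t => gg (isA j) ((mm N (μ k N) (idx j) : ℝ) : ℂ) (y k N t)) / (2 * Real.pi)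
  have hlim : Tendsto (fun N => Matrix.of fun k j => (L k N)⁻¹ * R N k j) atTop (𝓝 limM) := by
    refine tendsto_pi_nhds.mpr fun k => tendsto_pi_nhds.mpr fun j => ?_
    simp only [Matrix.of_apply, R, limM, ← div_eq_inv_mul]
    cases hb : isA j
    · simpa [ff, gg] using (h2 k (idx j)).limB
    · simpa [ff, gg] using (h2 k (idx j)).limA
  have hdet := ((continuous_id.matrix_det.tendsto limM).comp hlim).eventually_ne limM_det
  filter_upwards [hdet, eventually_all.mpr hp, eventually_all.mpr h1,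
    eventually_all.mpr fun k => eventually_all.mpr fun j => (h2 k j).ne,
    s1.eventually_gt_atTop 12] with N e1 e2 e3 e4 e5
  refine ⟨fun k => μ k N, fun k => x k N, fun k => y k N, e5, e2, fun k => h0 k N, e3,
    fun k j t => ⟨(e4 k j).1, (e4 k j).2 t⟩, fun h => e1 ?_⟩
  simp only [Function.comp, id]
  rw [Matrix.det_mul_column]
  exact mul_eq_zero_of_right _ h

theorem main_field {K : Type} [Field K] [NumberField K] (pb : PowerBasis ℚ K) {n : ℤ}
    (hθ : minpoly ℚ pb.gen = PP (n : ℚ)) (hD : Data n) :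
    ∃ E : WeierstrassCurve K, E.IsElliptic ∧
      ∃ (f g : Fin 6 → (E.toAffine.FunctionField)ˣ) (γ : Fin 6 → Loop E.toAffine.CoordinateRing),
        (∀ j, TameTrivial (f j) (g j)) ∧ (∀ i t, Function.Injective ((γ i).pt t)) ∧
        (Matrix.of fun i j => reg (γ i) (f j) (g j)).det ≠ 0 := by
  obtain ⟨μ, x, y, h12, hp, htr, hl, hz, hdet⟩ := hD
  set θ := pb.gen
  have hroot : pp (n : K) θ = 0 := by
    have := minpoly.aeval ℚ θ
    rw [hθ] at this
    simpa [PP, pp] using this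
  have hint : IsIntegral ℤ θ := ⟨PP n, PP_monic n, by
    rw [← aeval_def, aeval_PP]; exact hroot⟩
  let σ : Fin 6 → K →+* ℂ := fun k => (pb.lift (μ k : ℂ) (by
    rw [hθ]
    have := congrArg Complex.ofReal (hp k)
    simpa [PP, pp] using this)).toRingHom
  have hσ : ∀ k, σ k θ = μ k := fun k => pb.lift_gen _ _
  have hσs : ∀ k, σ k (ss θ) = (ss (μ k) : ℝ) := fun k => by
    rw [map_ss, hσ]; exact (map_ss Complex.ofRealHom (μ k)).symm
  have hσm : ∀ k j, σ k (mm (n : K) θ j) = (mm (n : ℝ) (μ k) j : ℝ) := fun k j => by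
    rw [map_mm, hσ, map_intCast]
    have := map_mm Complex.ofRealHom (n : ℝ) (μ k) j
    rw [map_intCast] at this
    exact this.symm
  set s := ss θ
  have hs : s ≠ 0 := ss_ne_zero hroot
  have heq : ∀ k t, (x k t + 1) * (y k t + 1) * (x k t * y k t + x k t + y k t)
      = σ k s * x k t * y k t := fun k t => by rw [hσs]; exact (hl k).2.2 t
  let γ : Fin 6 → Loop (CR s) := fun k => mkLoop s (σ k) (x k) (y k) (hl k).1 (hl k).2.1 (heq k)
  have vm : ∀ k t j, HasValue ((γ k).pt t) (fC s (mm (n : K) θ j)) (mm (n : ℝ) (μ k) j : ℝ) :=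
    fun k t j => hσm k j ▸ hasValue_C s (σ k) _ _ (heq k t) _
  have vx : ∀ k t, HasValue ((γ k).pt t) (xiF s) (x k t) :=
    fun k t => hasValue_xi s hs (σ k) _ _ (heq k t)
  have vy : ∀ k t, HasValue ((γ k).pt t) (etaF s) (y k t) :=
    fun k t => hasValue_eta s hs (σ k) _ _ (heq k t) (hz k 0 t).add_one_ne
  have hzF : ∀ j, NZ (fC s (mm (n : K) θ j)) (xiF s) (etaF s) :=
    fun j => (hz 0 j 0).lift (vm 0 0 j) (vx 0 0) (vy 0 0)
  have hbi := biquad s hs (((vx 0 0).add HasValue.one).ne_zero (hz 0 0 0).add_one_ne)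
  have vf := fun k t j => ((hz k (idx j) t).hasValue_ff (vm k t _) (vx k t) (vy k t)
    (isA j)).value_eq
  have vg := fun k t j => ((hz k (idx j) t).hasValue_gg (vm k t _) (vy k t) (isA j)).value_eq
  refine ⟨curve s, ⟨?_⟩, fun j => Units.mk0 _ ((hzF (idx j)).ff_ne (isA j)),
    fun j => Units.mk0 _ ((hzF (idx j)).gg_ne (isA j)), γ, fun j => ?_,
    fun i t => point_inj hs (σ i) (heq i t) (htr i t), ?_⟩
  · have e : (curve s).Δ = s ^ 5 * (s ^ 2 - 11 * s - 1) := by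
      simp only [curve, WeierstrassCurve.Δ, WeierstrassCurve.b₂, WeierstrassCurve.b₄,
        WeierstrassCurve.b₆, WeierstrassCurve.b₈]
      ring
    rw [e, isUnit_iff_ne_zero]
    refine mul_ne_zero (pow_ne_zero _ hs) fun h => ?_
    have h1 := congrArg (σ 0) h
    simp only [map_sub, map_mul, map_pow, map_one, map_zero, map_ofNat, hσs] at h1
    have h2 : ss (μ 0) ^ 2 - 11 * ss (μ 0) - 1 = 0 := by exact_mod_cast h1
    nlinarith
  · refine tame_ff_gg (s := fC s s) ?_ hbi (hzF _) ?_ _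
    · have := congrArg (fC s) (ss_rel hroot (idx j))
      simpa only [map_sub, map_mul, map_pow, map_one, map_add] using this
    · have := iu_sm hroot hint (idx j)
      rw [← map_sm]
      exact ⟨map_isIntegral_int _ this.1, by rw [← map_inv₀]; exact map_isIntegral_int _ this.2⟩
  · simp only [reg, Units.val_mk0, vf, vg]
    exact hdet

theorem main (B : ℝ) : ∃ (K : Type) (_ : Field K) (_ : NumberField K) (θ : K)
    (E : WeierstrassCurve K),
    Module.finrank ℚ K = 6 ∧ ℚ⟮θ⟯ = ⊤ ∧ Nonempty ((minpoly ℚ θ).Gal ≃* Equiv.Perm (Fin 6)) ∧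
    B < |(NumberField.discr K : ℝ)| ∧ E.IsElliptic ∧
    FullRank E.toAffine.CoordinateRing 6 := by
  obtain ⟨N₀, hN₀⟩ := eventually_atTop.mp eventually_data
  obtain ⟨p, n₀, a, hp, hB, hpn⟩ := exists_prime_double_root (⌈B⌉₊ + 43)
  have hcop : IsCoprime ((p : ℤ) ^ 2) 473 := by
    have h1 : Nat.Coprime p 11 := (Nat.coprime_primes hp (by norm_num)).mpr (by omega)
    have h2 : Nat.Coprime p 43 := (Nat.coprime_primes hp (by norm_num)).mpr (by omega)
    have h3 := Nat.isCoprime_iff_coprime.mpr (Nat.Coprime.pow_left 2 (Nat.Coprime.mul_right h1 h2))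
    exact_mod_cast h3
  obtain ⟨u, v, huv⟩ := hcop
  obtain ⟨n₁, hn₁⟩ : ∃ n₁ : ℤ, n₁ = n₀ * v * 473 + 179 * u * (p : ℤ) ^ 2 := ⟨_, rfl⟩
  obtain ⟨k, hk⟩ : ∃ k : ℤ, k = |n₁| + |⌈N₀⌉| := ⟨_, rfl⟩
  obtain ⟨n, hn⟩ : ∃ n : ℤ, n = n₁ + (p : ℤ) ^ 2 * 473 * k := ⟨_, rfl⟩
  have hnN : N₀ ≤ (n : ℝ) := by
    have h1 : (1 : ℤ) ≤ (p : ℤ) ^ 2 * 473 := by
      have : (1 : ℤ) ≤ p := by exact_mod_cast hp.one_le
      nlinarith
    have h2 : 0 ≤ k := by rw [hk]; positivity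
    have h3 : ⌈N₀⌉ ≤ n := by
      have := neg_abs_le n₁
      have := le_abs_self ⌈N₀⌉
      nlinarith
    exact (Int.le_ceil N₀).trans (by exact_mod_cast h3)
  have m1 : n ≡ n₀ [ZMOD (p : ℤ) ^ 2] :=
    Int.modEq_iff_dvd.mpr ⟨n₀ * u - 179 * u - 473 * k, by
      rw [hn, hn₁]; linear_combination (-n₀) * huv⟩
  have m2 : n ≡ 3 [ZMOD (11 : ℕ)] :=
    Int.modEq_iff_dvd.mpr ⟨-16 + 43 * (179 * v - n₀ * v - (p : ℤ) ^ 2 * k), by
      rw [hn, hn₁]; push_cast; linear_combination (-179) * huv⟩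
  have m3 : n ≡ 7 [ZMOD (43 : ℕ)] :=
    Int.modEq_iff_dvd.mpr ⟨-4 + 11 * (179 * v - n₀ * v - (p : ℤ) ^ 2 * k), by
      rw [hn, hn₁]; push_cast; linear_combination (-179) * huv⟩
  obtain ⟨hirr, hgal⟩ := galois m2 m3
  have : Fact (Irreducible (PP (n : ℚ))) := ⟨hirr⟩
  obtain ⟨K, _, _, pb, hθ⟩ : ∃ (K : Type) (_ : Field K) (_ : NumberField K) (pb : PowerBasis ℚ K),
      minpoly ℚ pb.gen = PP (n : ℚ) :=
    ⟨AdjoinRoot (PP (n : ℚ)), inferInstance, inferInstance, AdjoinRoot.powerBasis hirr.ne_zero,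
      AdjoinRoot.minpoly_powerBasis_gen_of_monic (PP_monic _)⟩
  obtain ⟨E, hE, f, g, γ, ht, hi, hdet⟩ := main_field pb hθ (hN₀ n hnN)
  choose r hr using fun i => exists_regK2 (hi i)
  have hdet' : (Matrix.of fun i j => r i (symbol (f j) (g j))).det ≠ 0 := by
    simpa only [hr] using hdet
  obtain ⟨d1, d2, d3⟩ := hpn n m1
  refine ⟨K, inferInstance, inferInstance, pb.gen, E, ?_, ?_, hθ ▸ hgal, ?_, hE, γ, r,
    fun j => symbol (f j) (g j), fun i => avoids_of_inj (hi i), hr,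
    fun j => tame_symbol (ht j), linIndep_of_det r _ hdet', hdet'⟩
  · rw [pb.finrank, ← pb.natDegree_minpoly, hθ, PP_natDegree]
  · exact IntermediateField.adjoin_eq_top_of_algebra _ _ pb.adjoin_gen_eq_top
  · have h1 := Int.le_of_dvd (abs_pos.mpr (NumberField.discr_ne_zero K))
      ((dvd_abs _ _).mpr (dvd_discr_of_double_root hθ hp d1 d2 d3))
    have h2 : ((p : ℤ) : ℝ) ≤ |(NumberField.discr K : ℝ)| := by exact_mod_cast h1
    have h3 : ((⌈B⌉₊ + 43 : ℕ) : ℝ) < (p : ℝ) := by exact_mod_cast hB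
    have h4 := Nat.le_ceil B
    push_cast at h2 h3
    linarith

end Pool.Agent.Lib.MP_15b3df_nt
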