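import Pool.Agent.Lib.MP_15b3df_nt.Defs

namespace Pool.Agent.Lib.MP_15b3df_nt

open Filter Topology

/-- `f` is a closed path in `ℂˣ` of size about `exp (a L)` and winding number `n`. -/
structure IsMono (M L : ℝ) (a n : ℤ) (f : ℝ → ℂ) : Prop where
  smooth : ContDiff ℝ 1 f
  closed : f 0 = f 1
  ne : ∀ t, f t ≠ 0
  size : ∀ t, |Real.log ‖f t‖ - a * L| ≤ M
  dlog : ∀ t, ‖deriv f t / f t‖ ≤ M
  wind : ∫ t in (0 : ℝ)..1, (deriv f t / f t).im = 2 * Real.pi * n

namespace IsMono

variable {M M' L : ℝ} {a n b m : ℤ} {f g : ℝ → ℂ}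

lemma diff (h : IsMono M L a n f) (t : ℝ) : DifferentiableAt ℝ f t :=
  h.smooth.differentiable (by simp) t

lemma cont_dlog (h : IsMono M L a n f) : Continuous fun t => deriv f t / f t :=
  (h.smooth.continuous_deriv le_rfl).div h.smooth.continuous h.ne

lemma cont_im (h : IsMono M L a n f) : Continuous fun t => (deriv f t / f t).im :=
  Complex.continuous_im.comp h.cont_dlog

lemma cont_log (h : IsMono M L a n f) : Continuous fun t => Real.log ‖f t‖ :=
  h.smooth.continuous.norm.log (fun t => norm_ne_zero_iff.mpr (h.ne t))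

lemma nonneg (h : IsMono M L a n f) : 0 ≤ M := (norm_nonneg _).trans (h.dlog 0)

lemma mul (hf : IsMono M L a n f) (hg : IsMono M' L b m g) :
    IsMono (M + M') L (a + b) (n + m) (fun t => f t * g t) := by
  have hd : ∀ t, deriv (fun t => f t * g t) t / (f t * g t)
      = deriv f t / f t + deriv g t / g t := by
    intro t
    rw [deriv_fun_mul (hf.diff t) (hg.diff t)]
    have := hf.ne t; have := hg.ne t
    field_simp
  refine ⟨hf.smooth.mul hg.smooth, by simp [hf.closed, hg.closed],
    fun t => mul_ne_zero (hf.ne t) (hg.ne t), fun t => ?_, fun t => ?_, ?_⟩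
  · rw [norm_mul, Real.log_mul (norm_ne_zero_iff.mpr (hf.ne t)) (norm_ne_zero_iff.mpr (hg.ne t))]
    have e : Real.log ‖f t‖ + Real.log ‖g t‖ - ((a + b : ℤ) : ℝ) * L
        = (Real.log ‖f t‖ - a * L) + (Real.log ‖g t‖ - b * L) := by push_cast; ring
    rw [e]
    exact (abs_add_le _ _).trans (add_le_add (hf.size t) (hg.size t))
  · rw [hd]; exact (norm_add_le _ _).trans (add_le_add (hf.dlog t) (hg.dlog t))
  · simp only [hd, Complex.add_im]
    rw [intervalIntegral.integral_add (hf.cont_im.intervalIntegrable _ _)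
      (hg.cont_im.intervalIntegrable _ _), hf.wind, hg.wind]
    push_cast; ring

lemma inv (hf : IsMono M L a n f) : IsMono M L (-a) (-n) (fun t => (f t)⁻¹) := by
  have hd : ∀ t, deriv (fun t => (f t)⁻¹) t / (f t)⁻¹ = -(deriv f t / f t) := by
    intro t
    rw [deriv_fun_inv'' (hf.diff t) (hf.ne t)]
    have := hf.ne t
    field_simp
  refine ⟨hf.smooth.inv hf.ne, by simp [hf.closed], fun t => inv_ne_zero (hf.ne t),
    fun t => ?_, fun t => ?_, ?_⟩
  · rw [norm_inv, Real.log_inv]
    have e : -Real.log ‖f t‖ - ((-a : ℤ) : ℝ) * L = -(Real.log ‖f t‖ - a * L) := by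
      push_cast; ring
    rw [e, abs_neg]; exact hf.size t
  · rw [hd, norm_neg]; exact hf.dlog t
  · simp only [hd, Complex.neg_im]
    rw [intervalIntegral.integral_neg, hf.wind]; push_cast; ring

lemma const {c : ℂ} (hc : c ≠ 0) (h : |Real.log ‖c‖ - a * L| ≤ M) :
    IsMono M L a 0 (fun _ => c) :=
  ⟨contDiff_const, rfl, fun _ => hc, fun _ => h,
    fun t => by simpa using (abs_nonneg _).trans h, by simp⟩

lemma near (hs : ContDiff ℝ 1 f) (hc : f 0 = f 1) (h1 : ∀ t, ‖f t - 1‖ ≤ 1 / 2)
    (h2 : ∀ t, ‖deriv f t‖ ≤ M) : IsMono (2 * M + 1) L 0 0 f := by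
  have hM : 0 ≤ M := (norm_nonneg _).trans (h2 0)
  have hlo : ∀ t, 1 / 2 ≤ ‖f t‖ := by
    intro t
    have := norm_sub_norm_le (1 : ℂ) (f t)
    rw [norm_sub_rev] at this
    have := h1 t
    simp at *; linarith
  have hhi : ∀ t, ‖f t‖ ≤ 2 := by
    intro t
    have := norm_sub_norm_le (f t) (1 : ℂ)
    have := h1 t
    simp at *; linarith
  have hne : ∀ t, f t ≠ 0 := fun t h => by
    have := hlo t; rw [h] at this; norm_num at this
  have hslit : ∀ t, f t ∈ Complex.slitPlane := by
    intro t
    left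
    have := Complex.abs_re_le_norm (f t - 1)
    have h3 := h1 t
    have := (abs_le.mp (this.trans h3)).1
    simp at this; linarith
  have hdiff : ∀ t, DifferentiableAt ℝ f t := fun t => hs.differentiable (by simp) t
  refine ⟨hs, hc, hne, fun t => ?_, fun t => ?_, ?_⟩
  · have h2 : Real.log ‖f t‖ ≤ 1 := by
      have := Real.log_le_sub_one_of_pos (lt_of_lt_of_le (by norm_num) (hlo t))
      linarith [hhi t]
    have h3 : -1 ≤ Real.log ‖f t‖ := by
      have hp : 0 < ‖f t‖ := lt_of_lt_of_le (by norm_num) (hlo t)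
      have := Real.log_le_sub_one_of_pos (inv_pos.mpr hp)
      rw [Real.log_inv] at this
      have : ‖f t‖⁻¹ ≤ 2 := by
        rw [inv_le_comm₀ hp (by norm_num)]; simpa using hlo t
      linarith
    simp only [Int.cast_zero, zero_mul, sub_zero]
    rw [abs_le]; constructor <;> linarith
  · rw [norm_div, div_le_iff₀ (lt_of_lt_of_le (by norm_num) (hlo t))]
    have := hlo t; have := h2 t
    nlinarith
  · have hder : ∀ t, HasDerivAt (fun t => (Complex.log (f t)).im) (deriv f t / f t).im t := by
      intro t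
      have := ((hdiff t).hasDerivAt.clog_real (hslit t))
      exact Complex.imCLM.hasFDerivAt.comp_hasDerivAt t this
    have hcont : Continuous fun t => (deriv f t / f t).im :=
      Complex.continuous_im.comp ((hs.continuous_deriv le_rfl).div hs.continuous hne)
    rw [intervalIntegral.integral_eq_sub_of_hasDerivAt (fun t _ => hder t)
      (hcont.intervalIntegrable _ _), hc]
    simp

lemma norm_le (hf : IsMono M L a n f) (t : ℝ) : ‖f t‖ ≤ Real.exp (a * L + M) := by
  have hp : 0 < ‖f t‖ := norm_pos_iff.mpr (hf.ne t)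
  rw [← Real.exp_log hp, Real.exp_le_exp]
  linarith [(abs_le.mp (hf.size t)).2]

lemma norm_deriv_le (hf : IsMono M L a n f) (t : ℝ) : ‖deriv f t‖ ≤ M * ‖f t‖ := by
  have hp : 0 < ‖f t‖ := norm_pos_iff.mpr (hf.ne t)
  have := hf.dlog t
  rwa [norm_div, div_le_iff₀ hp] at this

lemma eta (hf : IsMono M L a n f) (hg : IsMono M' L b m g) :
    |etaIntegral f g - 2 * Real.pi * (a * m - b * n) * L| ≤ 2 * (M * M') := by
  have e : etaIntegral f g - 2 * Real.pi * (a * m - b * n) * L
      = ∫ t in (0 : ℝ)..1, ((Real.log ‖f t‖ - a * L) * (deriv g t / g t).im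
        - (Real.log ‖g t‖ - b * L) * (deriv f t / f t).im) := by
    have e1 : (fun t => (Real.log ‖f t‖ - a * L) * (deriv g t / g t).im
        - (Real.log ‖g t‖ - b * L) * (deriv f t / f t).im) = fun t =>
        (Real.log ‖f t‖ * (deriv g t / g t).im - Real.log ‖g t‖ * (deriv f t / f t).im)
        - ((a * L) * (deriv g t / g t).im - (b * L) * (deriv f t / f t).im) := by
      funext t; ring
    have c1 : Continuous fun t => Real.log ‖f t‖ * (deriv g t / g t).im
        - Real.log ‖g t‖ * (deriv f t / f t).im :=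
      (hf.cont_log.mul hg.cont_im).sub (hg.cont_log.mul hf.cont_im)
    have c2 : Continuous fun t => (a * L) * (deriv g t / g t).im :=
      continuous_const.mul hg.cont_im
    have c3 : Continuous fun t => (b * L) * (deriv f t / f t).im :=
      continuous_const.mul hf.cont_im
    have c4 : Continuous fun t => (a * L) * (deriv g t / g t).im
        - (b * L) * (deriv f t / f t).im := c2.sub c3
    rw [e1, intervalIntegral.integral_sub (c1.intervalIntegrable _ _) (c4.intervalIntegrable _ _),
      intervalIntegral.integral_sub (c2.intervalIntegrable _ _) (c3.intervalIntegrable _ _),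
      intervalIntegral.integral_const_mul, intervalIntegral.integral_const_mul, hf.wind, hg.wind,
      etaIntegral]
    ring
  rw [e]
  have := intervalIntegral.norm_integral_le_of_norm_le_const (a := (0 : ℝ)) (b := 1)
    (f := fun t => (Real.log ‖f t‖ - a * L) * (deriv g t / g t).im
        - (Real.log ‖g t‖ - b * L) * (deriv f t / f t).im) (C := 2 * (M * M')) (by
      intro t _
      have h1 := hf.size t
      have h2 := hg.size t
      have h3 := (Complex.abs_im_le_norm _).trans (hf.dlog t)
      have h4 := (Complex.abs_im_le_norm _).trans (hg.dlog t)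
      rw [Real.norm_eq_abs]
      refine (abs_sub _ _).trans ?_
      rw [abs_mul, abs_mul]
      have h5 := mul_le_mul h1 h4 (abs_nonneg _) hf.nonneg
      have h6 := mul_le_mul h2 h3 (abs_nonneg _) hg.nonneg
      linarith)
  simpa using this

end IsMono

/-- a family of paths that is eventually uniformly `IsMono`. -/
def Good {ι : Type} (l : Filter ι) (L : ι → ℝ) (a n : ℤ) (f : ι → ℝ → ℂ) : Prop :=
  ∃ M, ∀ᶠ i in l, IsMono M (L i) a n (f i)

namespace Good

variable {ι : Type} {l : Filter ι} {L : ι → ℝ} {a n b m : ℤ} {f g : ι → ℝ → ℂ}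

lemma congr (h : Good l L a n f) (e : ∀ᶠ i in l, ∀ t, f i t = g i t) : Good l L a n g := by
  obtain ⟨M, hM⟩ := h
  refine ⟨M, ?_⟩
  filter_upwards [hM, e] with i h1 h2
  have : g i = f i := funext fun t => (h2 t).symm
  rwa [this]

lemma cast (h : Good l L a n f) (e1 : a = b) (e2 : n = m) : Good l L b m f := e1 ▸ e2 ▸ h

lemma ne (h : Good l L a n f) : ∀ᶠ i in l, ∀ t, f i t ≠ 0 := by
  obtain ⟨M, hM⟩ := h
  filter_upwards [hM] with i h1 using h1.ne

lemma smooth (h : Good l L a n f) : ∀ᶠ i in l, ContDiff ℝ 1 (f i) ∧ f i 0 = f i 1 := by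
  obtain ⟨M, hM⟩ := h
  filter_upwards [hM] with i h1 using ⟨h1.smooth, h1.closed⟩

lemma mul (hf : Good l L a n f) (hg : Good l L b m g) :
    Good l L (a + b) (n + m) (fun i t => f i t * g i t) := by
  obtain ⟨M, hM⟩ := hf
  obtain ⟨M', hM'⟩ := hg
  exact ⟨M + M', by filter_upwards [hM, hM'] with i h1 h2 using h1.mul h2⟩

lemma inv (hf : Good l L a n f) : Good l L (-a) (-n) (fun i t => (f i t)⁻¹) := by
  obtain ⟨M, hM⟩ := hf
  exact ⟨M, by filter_upwards [hM] with i h1 using h1.inv⟩

lemma div (hf : Good l L a n f) (hg : Good l L b m g) :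
    Good l L (a - b) (n - m) (fun i t => f i t / g i t) := by
  simpa only [div_eq_mul_inv, sub_eq_add_neg] using hf.mul hg.inv

lemma sq (hf : Good l L a n f) : Good l L (a + a) (n + n) (fun i t => f i t ^ 2) := by
  simpa only [pow_two] using hf.mul hf

lemma const (c : ℂ) (hc : c ≠ 0) : Good l L 0 0 (fun _ _ => c) :=
  ⟨|Real.log ‖c‖|, Eventually.of_forall fun _ => IsMono.const hc (by simp)⟩

lemma neg (hf : Good l L a n f) : Good l L a n (fun i t => -f i t) := by
  simpa using (const (-1) (by simp)).mul hf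

lemma of_tendsto {c : ι → ℂ} {c₀ : ℂ} (h : Tendsto c l (𝓝 c₀)) (h0 : c₀ ≠ 0) :
    Good l L 0 0 (fun i _ => c i) := by
  have h1 : Tendsto (fun i => Real.log ‖c i‖) l (𝓝 (Real.log ‖c₀‖)) :=
    h.norm.log (norm_ne_zero_iff.mpr h0)
  refine ⟨|Real.log ‖c₀‖| + 1, ?_⟩
  filter_upwards [h.eventually_ne h0, h1.abs.eventually_le_const (lt_add_one _)] with i h2 h3
  exact IsMono.const h2 (by simpa using h3)

lemma of_sq {c : ι → ℂ} (h : Good l L (a + a) 0 (fun i _ => c i ^ 2)) :
    Good l L a 0 (fun i _ => c i) := by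
  obtain ⟨M, hM⟩ := h
  refine ⟨M, ?_⟩
  filter_upwards [hM] with i h1
  have h2 : c i ≠ 0 := fun h => h1.ne 0 (by simp [h])
  refine IsMono.const h2 ?_
  have h3 := h1.size 0
  rw [norm_pow, Real.log_pow] at h3
  have e : ((2 : ℕ) : ℝ) * Real.log ‖c i‖ - ((a + a : ℤ) : ℝ) * L i
      = 2 * (Real.log ‖c i‖ - a * L i) := by push_cast; ring
  rw [e, abs_mul, abs_two] at h3
  linarith [abs_nonneg (Real.log ‖c i‖ - a * L i)]

/-- the circle of radius `exp (L i)`. -/
lemma circle : Good l L 1 1 (fun i t => Complex.exp (L i + 2 * Real.pi * Complex.I * t)) := by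
  refine ⟨2 * Real.pi, Eventually.of_forall fun i => ?_⟩
  have hd : ∀ t : ℝ, HasDerivAt (fun t : ℝ => Complex.exp (L i + 2 * Real.pi * Complex.I * t))
      (Complex.exp (L i + 2 * Real.pi * Complex.I * t) * (2 * Real.pi * Complex.I)) t := by
    intro t
    have h1 : HasDerivAt (fun t : ℝ => (L i + 2 * Real.pi * Complex.I * t : ℂ))
        (2 * Real.pi * Complex.I) t := by
      simpa using ((Complex.ofRealCLM.hasDerivAt (x := t)).const_mul
        (2 * Real.pi * Complex.I)).const_add (L i : ℂ)
    exact h1.cexp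
  have hq : ∀ t : ℝ, deriv (fun t : ℝ => Complex.exp (L i + 2 * Real.pi * Complex.I * t)) t /
      Complex.exp (L i + 2 * Real.pi * Complex.I * t) = 2 * Real.pi * Complex.I := by
    intro t
    rw [(hd t).deriv]; field_simp
  refine ⟨?_, ?_, fun t => Complex.exp_ne_zero _, fun t => ?_, fun t => ?_, ?_⟩
  · exact (contDiff_const.add (contDiff_const.mul Complex.ofRealCLM.contDiff)).cexp
  · simp [Complex.exp_add]
  · simp [Complex.norm_exp, Real.pi_pos.le]
  · rw [hq]; simp [abs_of_pos Real.pi_pos]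
  · simp only [hq]; simp

lemma scale (a : ℤ) : Good l L a 0 (fun i _ => ((Real.exp (a * L i) : ℝ) : ℂ)) :=
  ⟨0, Eventually.of_forall fun i => IsMono.const (by simp) (by
    rw [Complex.norm_real, Real.norm_eq_abs, abs_of_pos (Real.exp_pos _), Real.log_exp]; simp)⟩

lemma small (hL : Tendsto L l atBot) (hf : Good l L a n f) (ha : 0 < a) :
    ∃ M, ∀ᶠ i in l, ContDiff ℝ 1 (f i) ∧ f i 0 = f i 1 ∧ (∀ t, ‖f i t‖ ≤ 1 / 2) ∧
      ∀ t, ‖deriv (f i) t‖ ≤ M := by
  obtain ⟨M, hM⟩ := hf
  have h1 : Tendsto (fun i => Real.exp (a * L i + M)) l (𝓝 0) :=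
    Real.tendsto_exp_atBot.comp
      (tendsto_atBot_add_const_right _ _ (hL.const_mul_atBot (by exact_mod_cast ha)))
  refine ⟨M, ?_⟩
  filter_upwards [hM, h1.eventually_le_const (by norm_num : (0 : ℝ) < 1 / 2)] with i h2 h3
  have h4 : ∀ t, ‖f i t‖ ≤ 1 / 2 := fun t => (h2.norm_le t).trans h3
  refine ⟨h2.smooth, h2.closed, h4, fun t => (h2.norm_deriv_le t).trans ?_⟩
  have := h2.nonneg; have := h4 t
  nlinarith

lemma one_add (hL : Tendsto L l atBot) (hf : Good l L a n f) (ha : 0 < a) :
    Good l L 0 0 (fun i t => 1 + f i t) := by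
  obtain ⟨M, hM⟩ := hf.small hL ha
  refine ⟨2 * M + 1, ?_⟩
  filter_upwards [hM] with i ⟨h1, h2, h3, h4⟩
  refine IsMono.near (contDiff_const.add h1) (by simp [h2]) (by simpa using h3) fun t => ?_
  rw [deriv_const_add]; exact h4 t

/-- the first term dominates. -/
lemma add_left (hL : Tendsto L l atBot) (hf : Good l L a n f) (hg : Good l L b m g) (h : a < b) :
    Good l L a n (fun i t => f i t + g i t) := by
  have h1 := (hf.mul ((hg.div hf).one_add hL (by omega))).cast (add_zero a) (add_zero n)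
  refine h1.congr ?_
  filter_upwards [hf.ne] with i h2 t
  have := h2 t
  field_simp

lemma add_right (hL : Tendsto L l atBot) (hf : Good l L a n f) (hg : Good l L b m g) (h : b < a) :
    Good l L b m (fun i t => f i t + g i t) := by
  simpa only [add_comm] using hg.add_left hL hf h

lemma sub_left (hL : Tendsto L l atBot) (hf : Good l L a n f) (hg : Good l L b m g) (h : a < b) :
    Good l L a n (fun i t => f i t - g i t) := by
  simpa only [sub_eq_add_neg] using hf.add_left hL hg.neg h

lemma sub_right (hL : Tendsto L l atBot) (hf : Good l L a n f) (hg : Good l L b m g) (h : b < a) :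
    Good l L b m (fun i t => f i t - g i t) := by
  simpa only [sub_eq_add_neg] using hf.add_right hL hg.neg h

/-- the principal square root of `1 + z`. -/
noncomputable def sqrtOne (z : ℂ) : ℂ := Complex.exp (Complex.log (1 + z) / 2)

lemma sqrtOne_sq {z : ℂ} (h : 1 + z ≠ 0) : sqrtOne z ^ 2 = 1 + z := by
  rw [sqrtOne, ← Complex.exp_nat_mul]
  have : ((2 : ℕ) : ℂ) * (Complex.log (1 + z) / 2) = Complex.log (1 + z) := by push_cast; ring
  rw [this, Complex.exp_log h]

lemma sqrtOne_re (z : ℂ) : 0 ≤ (sqrtOne z).re := by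
  rw [sqrtOne, Complex.exp_re]
  refine mul_nonneg (Real.exp_pos _).le (Real.cos_nonneg_of_neg_pi_div_two_le_of_le ?_ ?_)
  · have := Complex.neg_pi_lt_arg (1 + z)
    simp [Complex.log_im]; linarith
  · have := Complex.arg_le_pi (1 + z)
    simp [Complex.log_im]; linarith

lemma one_add_sqrtOne (hL : Tendsto L l atBot) (hf : Good l L a n f) (ha : 0 < a) :
    Good l L 0 0 (fun i t => 1 + sqrtOne (f i t)) := by
  obtain ⟨M, hM⟩ := hf.small hL ha
  have key : Good l L 0 0 (fun i t => (1 + sqrtOne (f i t)) / 2) := by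
    refine ⟨2 * M + 1, ?_⟩
    filter_upwards [hM] with i ⟨h1, h2, h3, h4⟩
    have hslit : ∀ t, 1 + f i t ∈ Complex.slitPlane := by
      intro t
      left
      have := (abs_le.mp ((Complex.abs_re_le_norm (f i t)).trans (h3 t))).1
      simp; linarith
    have hne : ∀ t, 1 + f i t ≠ 0 := fun t => Complex.slitPlane_ne_zero (hslit t)
    have hsm : ContDiff ℝ 1 fun t => sqrtOne (f i t) := by
      refine ContDiff.cexp (ContDiff.div_const ?_ _)
      rw [contDiff_iff_contDiffAt]
      intro t
      exact ((Complex.contDiffAt_log (hslit t)).restrict_scalars ℝ).comp t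
        (contDiff_const.add h1).contDiffAt
    have hw1 : ∀ t, 1 ≤ ‖sqrtOne (f i t) + 1‖ := by
      intro t
      refine le_trans ?_ (Complex.re_le_norm _)
      simpa using sqrtOne_re _
    have hw2 : ∀ t, ‖sqrtOne (f i t) - 1‖ ≤ 1 / 2 := by
      intro t
      have e : (sqrtOne (f i t) - 1) * (sqrtOne (f i t) + 1) = f i t := by
        linear_combination sqrtOne_sq (hne t)
      have h5 := congrArg norm e
      rw [norm_mul] at h5
      have := hw1 t; have := h3 t
      nlinarith [norm_nonneg (sqrtOne (f i t) - 1)]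
    have hw3 : ∀ t, 1 / 2 ≤ ‖sqrtOne (f i t)‖ := by
      intro t
      have := norm_sub_norm_le (1 : ℂ) (sqrtOne (f i t))
      rw [norm_sub_rev] at this
      have := hw2 t
      simp at *; linarith
    have hder : ∀ t, ‖deriv (fun t => sqrtOne (f i t)) t‖ ≤ M := by
      intro t
      have hd := (hsm.differentiable (by simp) t).hasDerivAt
      have hd2 := hd.mul hd
      have e : ((fun t => sqrtOne (f i t)) * fun t => sqrtOne (f i t)) = fun t => 1 + f i t := by
        funext t; simp only [Pi.mul_apply]; rw [← pow_two, sqrtOne_sq (hne t)]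
      rw [e] at hd2
      have hd3 := ((h1.differentiable (by simp) t).hasDerivAt.const_add 1).unique hd2
      have h5 : deriv (f i) t = 2 * sqrtOne (f i t) * deriv (fun t => sqrtOne (f i t)) t := by
        rw [hd3]; ring
      have h6 := h4 t
      rw [h5, norm_mul, norm_mul] at h6
      have := hw3 t
      simp only [Complex.norm_ofNat] at h6
      nlinarith [norm_nonneg (deriv (fun t => sqrtOne (f i t)) t)]
    refine IsMono.near ((contDiff_const.add hsm).div_const _) (by simp [h2]) (fun t => ?_)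
      fun t => ?_
    · have e : (1 + sqrtOne (f i t)) / 2 - 1 = (sqrtOne (f i t) - 1) / 2 := by ring
      rw [e, norm_div]; have := hw2 t; simp at *; linarith
    · rw [deriv_div_const, deriv_const_add, norm_div]
      have := hder t
      have := norm_nonneg (deriv (fun t => sqrtOne (f i t)) t)
      simp; linarith
  have := (key.mul (const 2 (by norm_num))).cast (add_zero 0) (add_zero 0)
  simpa using this

lemma eta (hL : Tendsto L l atBot) (hf : Good l L a n f) (hg : Good l L b m g) :
    Tendsto (fun i => etaIntegral (f i) (g i) / (2 * Real.pi) / L i) l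
      (𝓝 ((a * m - b * n : ℤ) : ℝ)) := by
  obtain ⟨M, hM⟩ := hf
  obtain ⟨M', hM'⟩ := hg
  have h0 : Tendsto (fun i => (2 * (M * M')) / (2 * Real.pi) * |(L i)⁻¹|) l (𝓝 0) := by
    have := (tendsto_inv_atBot_zero.comp hL).abs.const_mul ((2 * (M * M')) / (2 * Real.pi))
    simpa using this
  rw [tendsto_iff_norm_sub_tendsto_zero]
  refine squeeze_zero' (Eventually.of_forall fun _ => norm_nonneg _) ?_ h0
  filter_upwards [hM, hM', hL.eventually_lt_atBot 0] with i h1 h2 h3
  have h4 := h1.eta h2
  have hp := Real.pi_pos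
  have e : etaIntegral (f i) (g i) / (2 * Real.pi) / L i - ((a * m - b * n : ℤ) : ℝ)
      = (etaIntegral (f i) (g i) - 2 * Real.pi * (a * m - b * n) * L i) / (2 * Real.pi)
        * (L i)⁻¹ := by
    have := h3.ne
    push_cast; field_simp
  rw [e, Real.norm_eq_abs, abs_mul, abs_div, abs_of_pos (by positivity : 0 < 2 * Real.pi)]
  gcongr

end Good

end Pool.Agent.Lib.MP_15b3df_nt
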