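import Pool.Agent.Lib.MP_15b3df_nt.Loops

namespace Pool.Agent.Lib.MP_15b3df_nt

open Filter Topology

section alg
variable {R : Type} [Field R]

def pp (n m : R) : R := (m ^ 2 - 1) * (m ^ 2 + n * m + 1) * (m ^ 2 + (n - 1) * m + 1) + m ^ 3
def kap (n m : R) : R := m + n + m⁻¹
def ss (m : R) : R := (1 + m) / (m ^ 2 * (1 - m))
def mm (n m : R) : Fin 3 → R := ![m, (1 - m) * kap n m, (1 - m) * (1 - kap n m)]

lemma map_ss {S : Type} [Field S] (φ : R →+* S) (m : R) : φ (ss m) = ss (φ m) := by simp [ss]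

lemma map_mm {S : Type} [Field S] (φ : R →+* S) (n m : R) (j : Fin 3) :
    φ (mm n m j) = mm (φ n) (φ m) j := by
  fin_cases j <;> simp [mm, kap]

lemma map_sm {S : Type} [Field S] (φ : R →+* S) (m : R) : φ (sm m) = sm (φ m) := by simp [sm]

variable {n m : R}

lemma pp_ne_zero (h : pp n m = 0) : m ≠ 0 := by rintro rfl; simp [pp] at h
lemma pp_ne_one (h : pp n m = 0) : 1 - m ≠ 0 := by
  intro h1; rw [← sub_eq_zero.mp h1] at h; simp [pp] at h
lemma pp_ne_neg_one (h : pp n m = 0) : 1 + m ≠ 0 := by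
  intro h1
  have : m = -1 := by linear_combination h1
  rw [this] at h; norm_num [pp] at h

lemma kap_eq (h : pp n m = 0) : kap n m * (kap n m - 1) * (1 - m ^ 2) = m := by
  have := pp_ne_zero h
  rw [kap]; rw [pp] at h
  field_simp
  linear_combination -h

lemma ss_ne_zero (h : pp n m = 0) : ss m ≠ 0 :=
  div_ne_zero (pp_ne_neg_one h) (mul_ne_zero (pow_ne_zero 2 (pp_ne_zero h)) (pp_ne_one h))

lemma ss_rel (h : pp n m = 0) (j : Fin 3) :
    ss m * mm n m j ^ 2 * (1 - mm n m j) = 1 + mm n m j := by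
  have h0 := pp_ne_zero h
  have h1 := pp_ne_one h
  have h2 := kap_eq h
  fin_cases j
  · simp only [mm, ss, Fin.zero_eta, Matrix.cons_val_zero]; field_simp
  · simp only [mm, ss, Fin.mk_one, Matrix.cons_val_one, Matrix.cons_val_zero]
    set k := kap n m
    field_simp
    linear_combination (-(k - m * k - m)) * h2
  · simp only [mm, ss, Fin.reduceFinMk, Matrix.cons_val]
    set k := kap n m
    field_simp
    linear_combination (-((1 - k) - m * (1 - k) - m)) * h2

def IU (u : R) : Prop := IsIntegral ℤ u ∧ IsIntegral ℤ u⁻¹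

lemma IU.mul {a b : R} (ha : IU a) (hb : IU b) : IU (a * b) :=
  ⟨ha.1.mul hb.1, by rw [mul_inv]; exact ha.2.mul hb.2⟩
lemma IU.inv {a : R} (ha : IU a) : IU a⁻¹ := ⟨ha.2, by rw [inv_inv]; exact ha.1⟩
lemma IU.neg {a : R} (ha : IU a) : IU (-a) := ⟨ha.1.neg, by rw [inv_neg]; exact ha.2.neg⟩
lemma IU.pow {a : R} (ha : IU a) (k : ℕ) : IU (a ^ k) :=
  ⟨ha.1.pow k, by rw [← inv_pow]; exact ha.2.pow k⟩
lemma IU.of_mul {a b : R} (ha : IsIntegral ℤ a) (hb : IsIntegral ℤ b) (h : a * b = 1) : IU a :=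
  ⟨ha, by rw [inv_eq_of_mul_eq_one_right h]; exact hb⟩

lemma iu_sm {n : ℤ} {m : R} (h : pp (n : R) m = 0) (hm : IsIntegral ℤ m) (j : Fin 3) :
    IU (sm (mm (n : R) m j)) := by
  have hn : IsIntegral ℤ (n : R) := isIntegral_algebraMap
  have h1 : IsIntegral ℤ (1 : R) := isIntegral_one
  have h0 := pp_ne_zero h
  have um : IU m := by
    refine IU.of_mul hm (b := m ^ 5 + (n + n - 1) * m ^ 4 + (n * n - n + 1) * m ^ 3 + m ^ 2
      - (n * n - n + 1) * m - (n + n - 1)) ?_ (by rw [pp] at h; linear_combination h)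
    have c1 := (hn.add hn).sub h1
    have c2 := ((hn.mul hn).sub hn).add h1
    exact (((((hm.pow 5).add (c1.mul (hm.pow 4))).add (c2.mul (hm.pow 3))).add (hm.pow 2)).sub
      (c2.mul hm)).sub c1
  have hk : IsIntegral ℤ (kap (n : R) m) := (hm.add hn).add um.2
  have hk1 := hk.sub h1
  have hp := h1.add hm
  have hq := h1.sub hm
  have e : kap (n : R) m * (kap (n : R) m - 1) * (1 + m) * (1 - m) * m⁻¹ = 1 := by
    have := kap_eq h
    field_simp
    linear_combination this
  have u1 : IU (kap (n : R) m) := IU.of_mul hk (((hk1.mul hp).mul hq).mul um.2)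
    (by linear_combination e)
  have u2 : IU (kap (n : R) m - 1) := IU.of_mul hk1 (((hk.mul hp).mul hq).mul um.2)
    (by linear_combination e)
  have u3 : IU (1 + m) := IU.of_mul hp (((hk.mul hk1).mul hq).mul um.2) (by linear_combination e)
  have u4 : IU (1 - m) := IU.of_mul hq (((hk.mul hk1).mul hp).mul um.2) (by linear_combination e)
  have us : IU (ss m) := by
    rw [ss, div_eq_mul_inv]; exact u3.mul ((um.pow 2).mul u4).inv
  have uj : IU (mm (n : R) m j) := by
    fin_cases j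
    · exact um
    · exact u4.mul u1
    · have := u4.mul u2.neg
      rwa [neg_sub] at this
  have hr := ss_rel h j
  set w := mm (n : R) m j
  by_cases hw : 1 - w = 0
  · have : sm w = 0 := by rw [sm, hw]; simp
    rw [this]; exact ⟨isIntegral_zero, by simpa using isIntegral_zero⟩
  have e2 : sm w = ss m ^ 2 * w ^ 5 := by
    rw [sm, ← hr]; field_simp
  rw [e2]; exact (us.pow 2).mul (uj.pow 5)

end alg

variable {ι : Type} {l : Filter ι} {s m : ι → ℝ}

lemma exists_gen (r : ℝ) : ∃ r' : ℝ, |r' - r| ≤ 1 ∧ ∀ t, Transcendental ℚ (circ r' t) := by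
  have hc : ((fun z : ℂ => Real.log ‖z‖) '' {z | IsAlgebraic ℚ z}).Countable :=
    (Algebraic.countable ℚ ℂ).image _
  obtain ⟨r', h1, h2, h3⟩ := (hc.dense_compl ℝ).exists_between (lt_add_one r)
  refine ⟨r', by rw [abs_le]; constructor <;> linarith, fun t ht => h1 ⟨_, ht, ?_⟩⟩
  simp [circ, Complex.norm_exp]

noncomputable def gen (r : ℝ) : ℝ := (exists_gen r).choose

lemma gen_near (r : ℝ) : |gen r - r| ≤ 1 := (exists_gen r).choose_spec.1

lemma gen_trans (r t : ℝ) : Transcendental ℚ (circ (gen r) t) := (exists_gen r).choose_spec.2 t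

lemma gen_tendsto {r : ι → ℝ} (h : Tendsto r l atBot) : Tendsto (fun i => gen (r i)) l atBot :=
  tendsto_atBot_mono (fun i => by linarith [(abs_le.mp (gen_near (r i))).2])
    (tendsto_atBot_add_const_right _ 1 h)

noncomputable def LI (s : ι → ℝ) (i : ι) : ℝ := gen (-Real.log (s i) / 4)
noncomputable def LII (s : ι → ℝ) (i : ι) : ℝ := gen (Real.log (-s i) / 4)

lemma LI_tendsto (hs : Tendsto s l atTop) : Tendsto (LI s) l atBot :=
  gen_tendsto ((tendsto_neg_atTop_atBot.comp (Real.tendsto_log_atTop.comp hs)).atBot_div_const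
    (by norm_num))

lemma LII_tendsto (hs : Tendsto s l (𝓝 0)) (h0 : ∀ᶠ i in l, s i < 0) : Tendsto (LII s) l atBot := by
  have h1 : Tendsto (fun i => -s i) l (𝓝[>] 0) :=
    tendsto_nhdsWithin_iff.mpr ⟨by simpa using hs.neg, h0.mono fun i hi => by simpa using hi⟩
  exact gen_tendsto ((Real.tendsto_log_nhdsGT_zero.comp h1).atBot_div_const (by norm_num))

lemma good_sI (hs : Tendsto s l atTop) : Good l (LI s) (-4) 0 fun i _ => (s i : ℂ) := by
  refine ⟨4, ?_⟩
  filter_upwards [hs.eventually_gt_atTop 0] with i hi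
  refine IsMono.const (by simpa using hi.ne') ?_
  have := abs_le.mp (gen_near (-Real.log (s i) / 4))
  rw [Complex.norm_real, Real.norm_eq_abs, Real.log_abs, LI, abs_le]
  push_cast
  constructor <;> linarith [this.1, this.2]

lemma good_sII (h0 : ∀ᶠ i in l, s i < 0) : Good l (LII s) 4 0 fun i _ => (s i : ℂ) := by
  refine ⟨4, ?_⟩
  filter_upwards [h0] with i hi
  refine IsMono.const (by simpa using hi.ne) ?_
  have := abs_le.mp (gen_near (Real.log (-s i) / 4))
  rw [Complex.norm_real, Real.norm_eq_abs, Real.log_abs, LII, abs_le, ← Real.log_neg_eq_log (s i)]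
  push_cast
  constructor <;> linarith [this.1, this.2]

lemma tendsto_ofReal {a : ℝ} (h : Tendsto m l (𝓝 a)) : Tendsto (fun i => (m i : ℂ)) l (𝓝 a) :=
  (Complex.continuous_ofReal.tendsto a).comp h

lemma rel_ofReal (hr : ∀ᶠ i in l, s i * m i ^ 2 * (1 - m i) = 1 + m i) :
    ∀ᶠ i in l, (s i : ℂ) * m i ^ 2 * (1 - m i) = 1 + m i :=
  hr.mono fun i hi => by exact_mod_cast hi

variable {L : ι → ℝ} {x y : ι → ℝ → ℂ}

lemma packIa (hL : Tendsto L l atBot) (hs : Good l L (-4) 0 fun i _ => (s i : ℂ))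
    (hx : Good l L 1 1 x) (hy : Good l L (-3) 1 y)
    (hr : ∀ᶠ i in l, s i * m i ^ 2 * (1 - m i) = 1 + m i) (hm : Tendsto m l (𝓝 1)) :
    Pack l L (fun i => (m i : ℂ)) x y 16 0 := by
  have h := tendsto_ofReal hm
  have h1 : Good l L 0 0 fun i _ => (m i : ℂ) := Good.of_tendsto h (by simp)
  have h2 : Good l L 0 0 fun i _ => 1 + (m i : ℂ) :=
    Good.of_tendsto (h.const_add 1) (by norm_num)
  refine pack_Ia hL hx hy h1 h2 (((h2.div (hs.mul h1.sq)).cast (by norm_num) (by norm_num)).congr ?_)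
  filter_upwards [rel_ofReal hr, hs.ne, h1.ne] with i e1 e2 e3 t
  have := e2 t; have := e3 t
  rw [← e1]; field_simp

lemma packIb (hL : Tendsto L l atBot) (hs : Good l L (-4) 0 fun i _ => (s i : ℂ))
    (hx : Good l L 1 1 x) (hy : Good l L (-3) 1 y)
    (hr : ∀ᶠ i in l, s i * m i ^ 2 * (1 - m i) = 1 + m i) (hm : Tendsto m l (𝓝 0)) :
    Pack l L (fun i => (m i : ℂ)) x y 0 (-2) := by
  have h := tendsto_ofReal hm
  have h1 : Good l L 0 0 fun i _ => 1 - (m i : ℂ) :=
    Good.of_tendsto (h.const_sub 1) (by norm_num)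
  have h2 : Good l L 0 0 fun i _ => 1 + (m i : ℂ) :=
    Good.of_tendsto (h.const_add 1) (by norm_num)
  refine pack_Ib hL hx hy (Good.of_sq
    (((h2.div (hs.mul h1)).cast (by norm_num) (by norm_num)).congr ?_)) h2 h1
  filter_upwards [rel_ofReal hr, hs.ne, h1.ne] with i e1 e2 e3 t
  have := e2 t; have := e3 t
  rw [← e1]; field_simp

lemma packIIa (hL : Tendsto L l atBot) (hs : Good l L 4 0 fun i _ => (s i : ℂ))
    (hx : Good l L 1 1 fun i t => x i t + 1) (hy : Good l L (-1) (-1) fun i t => y i t + 1)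
    (hr : ∀ᶠ i in l, s i * m i ^ 2 * (1 - m i) = 1 + m i) (hm : Tendsto m l (𝓝 (-1))) :
    Pack l L (fun i => (m i : ℂ)) x y 0 (-16) := by
  have h := tendsto_ofReal hm
  have h1 : Good l L 0 0 fun i _ => (m i : ℂ) := Good.of_tendsto h (by simp)
  have h2 : Good l L 0 0 fun i _ => 1 - (m i : ℂ) :=
    Good.of_tendsto (h.const_sub 1) (by norm_num)
  refine pack_IIa hL hx hy h1 ((((hs.mul h1.sq).mul h2).cast (by norm_num) (by norm_num)).congr ?_) h2
  filter_upwards [rel_ofReal hr] with i e1 t using e1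

lemma packIIb (hL : Tendsto L l atBot) (hs : Good l L 4 0 fun i _ => (s i : ℂ))
    (hx : Good l L 1 1 fun i t => x i t + 1) (hy : Good l L (-1) (-1) fun i t => y i t + 1)
    (hr : ∀ᶠ i in l, s i * m i ^ 2 * (1 - m i) = 1 + m i)
    (hm : Tendsto (fun i => (m i)⁻¹) l (𝓝 0)) :
    Pack l L (fun i => (m i : ℂ)) x y (-2) 0 := by
  have h : Tendsto (fun i => ((m i : ℂ))⁻¹) l (𝓝 0) := by simpa using tendsto_ofReal hm
  have h0 : ∀ᶠ i in l, (m i : ℂ) ≠ 0 := (rel_ofReal hr).mono fun i hi h => by simp [h] at hi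
  have h1 : Good l L 0 0 fun i _ => (m i : ℂ)⁻¹ - 1 :=
    Good.of_tendsto (h.sub_const 1) (by norm_num)
  have h2 : Good l L 0 0 fun i _ => (m i : ℂ)⁻¹ + 1 :=
    Good.of_tendsto (h.add_const 1) (by norm_num)
  have h3 : Good l L (-2) 0 fun i _ => (m i : ℂ) := by
    refine Good.of_sq (((h2.div (hs.mul h1)).cast (by norm_num) (by norm_num)).congr ?_)
    filter_upwards [rel_ofReal hr, hs.ne, h1.ne, h0] with i e1 e2 e3 e4 t
    rw [div_eq_iff (mul_ne_zero (e2 t) (e3 t))]
    field_simp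
    linear_combination -e1
  refine pack_IIb hL hx hy h3 (((h3.mul h2).cast (by norm_num) (by norm_num)).congr ?_)
    (((h3.mul h1).cast (by norm_num) (by norm_num)).congr ?_)
  · filter_upwards [h0] with i e t
    field_simp
  · filter_upwards [h0] with i e t
    field_simp

/-- The data attached to one real root: a loop and the limits of the six regulators. -/
def Row (l : Filter ι) (N μ : ι → ℝ) (A B : Fin 3 → ℤ) : Prop :=
  ∃ (L : ι → ℝ) (x y : ι → ℝ → ℂ), (∀ i t, Transcendental ℚ (x i t)) ∧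
    (∀ᶠ i in l, (ContDiff ℝ 1 (x i) ∧ x i 0 = x i 1) ∧ (ContDiff ℝ 1 (y i) ∧ y i 0 = y i 1) ∧
      ∀ t, (x i t + 1) * (y i t + 1) * (x i t * y i t + x i t + y i t)
        = (ss (μ i) : ℝ) * x i t * y i t) ∧
    ∀ j, Pack l L (fun i => ((mm (N i) (μ i) j : ℝ) : ℂ)) x y (A j) (B j)

variable {N μ : ι → ℝ}

lemma rowI (hp : ∀ᶠ i in l, pp (N i) (μ i) = 0) (hs : Tendsto (fun i => ss (μ i)) l atTop)
    (k : Fin 3) (h : ∀ j, Tendsto (fun i => mm (N i) (μ i) j) l (𝓝 (if j = k then 1 else 0))) :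
    Row l N μ (fun j => if j = k then 16 else 0) (fun j => if j = k then 0 else -2) := by
  have hL := LI_tendsto hs
  have hg := good_sI hs
  obtain ⟨hx, hy, he⟩ := loop_I hL hg
  refine ⟨LI fun i => ss (μ i), fun i t => circ (LI (fun i => ss (μ i)) i) t,
    fun i t => yI (ss (μ i) : ℝ) (LI (fun i => ss (μ i)) i) t, fun i t => gen_trans _ t, ?_,
    fun j => ?_⟩
  · filter_upwards [hx.smooth, hy.smooth, he] with i e1 e2 e3 using ⟨e1, e2, e3⟩
  · have hr := hp.mono fun i hi => ss_rel hi j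
    have hj := h j
    by_cases e : j = k
    · simp only [e, if_true] at hj hr ⊢; exact packIa hL hg hx hy hr hj
    · simp only [e, if_false] at hj ⊢; exact packIb hL hg hx hy hr hj

lemma rowII (hp : ∀ᶠ i in l, pp (N i) (μ i) = 0) (hs : Tendsto (fun i => ss (μ i)) l (𝓝 0))
    (h0 : ∀ᶠ i in l, ss (μ i) < 0) (k : Fin 3)
    (h : ∀ j, Tendsto (fun i => (mm (N i) (μ i) j)⁻¹) l (𝓝 (if j = k then -1 else 0))) :
    Row l N μ (fun j => if j = k then 0 else -2) (fun j => if j = k then -16 else 0) := by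
  have hL := LII_tendsto hs h0
  have hg := good_sII h0
  obtain ⟨hx, hy, he⟩ := loop_II hL hg
  refine ⟨LII fun i => ss (μ i), fun i t => circ (LII (fun i => ss (μ i)) i) t - 1,
    fun i t => yII (ss (μ i) : ℝ) (LII (fun i => ss (μ i)) i) t,
    fun i t h => gen_trans _ t (by
      have := h.add isAlgebraic_one
      rw [sub_add_cancel] at this
      exact this), ?_, fun j => ?_⟩
  · filter_upwards [hx.smooth, hy.smooth, he] with i e1 e2 e3
    refine ⟨⟨?_, ?_⟩, ⟨?_, ?_⟩, e3⟩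
    · simpa using e1.1.sub (contDiff_const (c := (1 : ℂ)))
    · simpa using e1.2
    · simpa using e2.1.sub (contDiff_const (c := (1 : ℂ)))
    · simpa using e2.2
  · have hr := hp.mono fun i hi => ss_rel hi j
    have hj := h j
    by_cases e : j = k
    · simp only [e, if_true] at hj hr ⊢
      refine packIIa hL hg hx hy hr ?_
      simpa using hj.inv₀ (by norm_num)
    · simp only [e, if_false] at hj ⊢; exact packIIb hL hg hx hy hr hj

end Pool.Agent.Lib.MP_15b3df_nt
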