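import Mathlib

/-! Double q-series `∑ α(m) β(n) exp(-π y m n)` with polynomially bounded coefficients. -/

open Real Filter Topology MeasureTheory Set

namespace RV6

/-- polynomially bounded families -/
def PBF (β : ℝ → ℕ+ → ℝ) : Prop :=
  ∃ (C : ℝ) (r : ℕ), ∀ (s : ℝ) (m : ℕ+), |β s m| ≤ C * ((m : ℕ) : ℝ) ^ r

/-- polynomially bounded sequences -/
def PB (α : ℕ+ → ℝ) : Prop := PBF (fun _ => α)

lemma one_le_c (m : ℕ+) : (1 : ℝ) ≤ ((m : ℕ) : ℝ) := by exact_mod_cast m.pos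

lemma c_pos (m : ℕ+) : (0 : ℝ) < ((m : ℕ) : ℝ) := by exact_mod_cast m.pos

lemma PBF.pb {β : ℝ → ℕ+ → ℝ} (h : PBF β) (s : ℝ) : PB (β s) := by
  obtain ⟨C, r, h⟩ := h
  exact ⟨C, r, fun _ m => h s m⟩

lemma PBF.of_le {β : ℝ → ℕ+ → ℝ} (C : ℝ) (h : ∀ s m, |β s m| ≤ C) : PBF β :=
  ⟨C, 0, fun s m => by simpa using h s m⟩

lemma PBF.const (c : ℝ) : PBF (fun _ _ => c) := PBF.of_le |c| fun _ _ => le_rfl

lemma PBF.nonneg {β : ℝ → ℕ+ → ℝ} (h : PBF β) :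
    ∃ (C : ℝ) (r : ℕ), 0 ≤ C ∧ ∀ (s : ℝ) (m : ℕ+), |β s m| ≤ C * ((m : ℕ) : ℝ) ^ r := by
  obtain ⟨C, r, h⟩ := h
  refine ⟨C, r, ?_, h⟩
  have := h 0 1
  simp at this
  exact (abs_nonneg _).trans this

lemma PBF.mul {β γ : ℝ → ℕ+ → ℝ} (h1 : PBF β) (h2 : PBF γ) :
    PBF (fun s m => β s m * γ s m) := by
  obtain ⟨C, r, hC, h1⟩ := h1.nonneg
  obtain ⟨C', r', hC', h2⟩ := h2.nonneg
  refine ⟨C * C', r + r', fun s m => ?_⟩
  rw [abs_mul, pow_add]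
  calc _ ≤ (C * ((m : ℕ) : ℝ) ^ r) * (C' * ((m : ℕ) : ℝ) ^ r') :=
        mul_le_mul (h1 s m) (h2 s m) (abs_nonneg _) (by positivity)
    _ = _ := by ring

lemma PBF.add {β γ : ℝ → ℕ+ → ℝ} (h1 : PBF β) (h2 : PBF γ) :
    PBF (fun s m => β s m + γ s m) := by
  obtain ⟨C, r, hC, h1⟩ := h1.nonneg
  obtain ⟨C', r', hC', h2⟩ := h2.nonneg
  refine ⟨C + C', r + r', fun s m => ?_⟩
  have a1 : ((m : ℕ) : ℝ) ^ r ≤ ((m : ℕ) : ℝ) ^ (r + r') :=
    pow_le_pow_right₀ (one_le_c m) (by omega)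
  have a2 : ((m : ℕ) : ℝ) ^ r' ≤ ((m : ℕ) : ℝ) ^ (r + r') :=
    pow_le_pow_right₀ (one_le_c m) (by omega)
  calc _ ≤ |β s m| + |γ s m| := abs_add_le _ _
    _ ≤ C * ((m : ℕ) : ℝ) ^ (r + r') + C' * ((m : ℕ) : ℝ) ^ (r + r') :=
        add_le_add ((h1 s m).trans (by gcongr)) ((h2 s m).trans (by gcongr))
    _ = _ := by ring

lemma PBF.neg {β : ℝ → ℕ+ → ℝ} (h1 : PBF β) : PBF (fun s m => -β s m) := by
  obtain ⟨C, r, h1⟩ := h1
  exact ⟨C, r, fun s m => by simpa using h1 s m⟩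

lemma PBF.sub {β γ : ℝ → ℕ+ → ℝ} (h1 : PBF β) (h2 : PBF γ) :
    PBF (fun s m => β s m - γ s m) := by
  simpa [sub_eq_add_neg] using h1.add h2.neg

lemma PBF.id : PBF (fun _ m => ((m : ℕ) : ℝ)) :=
  ⟨1, 1, fun _ m => by simp⟩

lemma PBF.pow (k : ℕ) : PBF (fun _ m => ((m : ℕ) : ℝ) ^ k) :=
  ⟨1, k, fun _ m => by simp⟩

lemma PBF.div {β : ℝ → ℕ+ → ℝ} (h1 : PBF β) (k : ℕ) :
    PBF (fun s m => β s m / ((m : ℕ) : ℝ) ^ k) := by
  obtain ⟨C, r, h1⟩ := h1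
  refine ⟨C, r, fun s m => le_trans ?_ (h1 s m)⟩
  rw [abs_div, abs_of_pos (pow_pos (c_pos m) k)]
  exact div_le_self (abs_nonneg _) (one_le_pow₀ (one_le_c m))

lemma PBF.div1 {β : ℝ → ℕ+ → ℝ} (h1 : PBF β) :
    PBF (fun s m => β s m / ((m : ℕ) : ℝ)) := by
  simpa using h1.div 1

lemma PBF.sgn : PBF (fun _ m => (-1 : ℝ) ^ (m : ℕ)) := PBF.of_le 1 fun _ m => by simp

lemma PBF.cos (f : ℝ → ℕ+ → ℝ) : PBF (fun s m => cos (f s m)) :=
  PBF.of_le 1 fun _ _ => abs_cos_le_one _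

lemma PBF.sin (f : ℝ → ℕ+ → ℝ) : PBF (fun s m => sin (f s m)) :=
  PBF.of_le 1 fun _ _ => abs_sin_le_one _

lemma PBF.dil {β : ℝ → ℕ+ → ℝ} (h1 : PBF β) (d : ℕ+) : PBF (fun s m => β s (d * m)) := by
  obtain ⟨C, r, h1⟩ := h1
  refine ⟨C * ((d : ℕ) : ℝ) ^ r, r, fun s m => (h1 s (d * m)).trans (le_of_eq ?_)⟩
  push_cast
  ring

/-- indicator of divisibility -/
def ind (d : ℕ+) (n : ℕ+) : ℝ := if (d : ℕ) ∣ (n : ℕ) then 1 else 0

lemma PBF.ind (d : ℕ+) : PBF (fun _ m => ind d m) :=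
  PBF.of_le 1 fun _ m => by unfold RV6.ind; split_ifs <;> simp

lemma PB.pbf {α : ℕ+ → ℝ} (h : PB α) : PBF (fun _ m => α m) := h
lemma PB.const (c : ℝ) : PB (fun _ => c) := PBF.const c
lemma PB.id : PB (fun m => ((m : ℕ) : ℝ)) := PBF.id
lemma PB.pow (k : ℕ) : PB (fun m => ((m : ℕ) : ℝ) ^ k) := PBF.pow k
lemma PB.sgn : PB (fun m => (-1 : ℝ) ^ (m : ℕ)) := PBF.sgn
lemma PB.ind (d : ℕ+) : PB (fun m => ind d m) := PBF.ind d
lemma PB.mul {α β : ℕ+ → ℝ} (h1 : PB α) (h2 : PB β) : PB (fun m => α m * β m) :=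
  PBF.mul h1.pbf h2.pbf
lemma PB.add {α β : ℕ+ → ℝ} (h1 : PB α) (h2 : PB β) : PB (fun m => α m + β m) :=
  PBF.add h1.pbf h2.pbf
lemma PB.sub {α β : ℕ+ → ℝ} (h1 : PB α) (h2 : PB β) : PB (fun m => α m - β m) :=
  PBF.sub h1.pbf h2.pbf
lemma PB.neg {α : ℕ+ → ℝ} (h1 : PB α) : PB (fun m => -α m) := PBF.neg h1.pbf
lemma PB.div {α : ℕ+ → ℝ} (h1 : PB α) (k : ℕ) : PB (fun m => α m / ((m : ℕ) : ℝ) ^ k) :=
  PBF.div h1.pbf k
lemma PB.div1 {α : ℕ+ → ℝ} (h1 : PB α) : PB (fun m => α m / ((m : ℕ) : ℝ)) := PBF.div1 h1.pbf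
lemma PB.dil {α : ℕ+ → ℝ} (h1 : PB α) (d : ℕ+) : PB (fun m => α (d * m)) := PBF.dil h1.pbf d
lemma PB.of_le {α : ℕ+ → ℝ} (C : ℝ) (h : ∀ m, |α m| ≤ C) : PB α := PBF.of_le C fun _ => h

/-- the exponential weight -/
noncomputable def ew (y : ℝ) (p : ℕ+ × ℕ+) : ℝ :=
  exp (-(π * y * (((p.1 : ℕ) : ℝ) * ((p.2 : ℕ) : ℝ))))

lemma ew_pos (y : ℝ) (p : ℕ+ × ℕ+) : 0 < ew y p := exp_pos _

lemma ew_anti {y y' : ℝ} (h : y ≤ y') (p : ℕ+ × ℕ+) : ew y' p ≤ ew y p := by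
  unfold ew
  have := c_pos p.1
  have := c_pos p.2
  gcongr

noncomputable def DS (α β : ℕ+ → ℝ) (y : ℝ) : ℝ := ∑' p : ℕ+ × ℕ+, α p.1 * β p.2 * ew y p

lemma summable_pow_geo (r : ℕ) {x : ℝ} (hx0 : 0 ≤ x) (hx : x < 1) :
    Summable fun m : ℕ+ => ((m : ℕ) : ℝ) ^ r * x ^ (m : ℕ) := by
  have := summable_pow_mul_geometric_of_norm_lt_one r (r := x) (by rwa [Real.norm_of_nonneg hx0])
  exact (summable_pnat_iff_summable_nat (f := fun m : ℕ => (m : ℝ) ^ r * x ^ m)).mpr this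

lemma summable_maj (r r' : ℕ) {y : ℝ} (hy : 0 < y) :
    Summable fun p : ℕ+ × ℕ+ => ((p.1 : ℕ) : ℝ) ^ r * ((p.2 : ℕ) : ℝ) ^ r' * ew y p := by
  have hx : exp (-(π * y)) < 1 := by
    rw [exp_lt_one_iff]; have := pi_pos; nlinarith [mul_pos this hy]
  have h1 := summable_pow_geo r (exp_pos _).le hx
  have h2 := summable_pow_geo r' (exp_pos _).le hx
  have h3 := (h1.mul_of_nonneg h2 (fun m => by positivity) (fun m => by positivity)).mul_left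
    (exp (π * y))
  refine Summable.of_nonneg_of_le (fun p => by have := ew_pos y p; positivity) (fun p => ?_) h3
  have a1 := one_le_c p.1
  have a2 := one_le_c p.2
  have : ew y p ≤ exp (π * y) * (exp (-(π * y)) ^ (p.1 : ℕ) * exp (-(π * y)) ^ (p.2 : ℕ)) := by
    rw [← exp_nat_mul, ← exp_nat_mul, ← exp_add, ← exp_add]
    unfold ew
    apply exp_le_exp.mpr
    have hpy : 0 < π * y := mul_pos pi_pos hy
    nlinarith [mul_nonneg hpy.le (mul_nonneg (sub_nonneg.2 a1) (sub_nonneg.2 a2))]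
  calc _ ≤ ((p.1 : ℕ) : ℝ) ^ r * ((p.2 : ℕ) : ℝ) ^ r' *
        (exp (π * y) * (exp (-(π * y)) ^ (p.1 : ℕ) * exp (-(π * y)) ^ (p.2 : ℕ))) := by gcongr
    _ = _ := by ring

/-- a uniform summable majorant -/
lemma exists_maj {α β : ℝ → ℕ+ → ℝ} (hα : PBF α) (hβ : PBF β) :
    ∃ M : ℝ → ℕ+ × ℕ+ → ℝ, (∀ y, 0 < y → Summable (M y)) ∧
      (∀ y y' c p, y' = y + c → M y' p = M y p * ew c p) ∧ (∀ y p, 0 ≤ M y p) ∧
      ∀ s t y y' p, y ≤ y' → |α s p.1 * β t p.2 * ew y' p| ≤ M y p := by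
  obtain ⟨C, r, hC, h1⟩ := hα.nonneg
  obtain ⟨C', r', hC', h2⟩ := hβ.nonneg
  refine ⟨fun y p => C * C' * (((p.1 : ℕ) : ℝ) ^ r * ((p.2 : ℕ) : ℝ) ^ r' * ew y p),
    fun y hy => (summable_maj r r' hy).mul_left _, ?_, ?_, ?_⟩
  · rintro y y' c p rfl
    have : ew (y + c) p = ew y p * ew c p := by
      unfold ew; rw [← exp_add]; ring_nf
    simp only [this]; ring
  · intro y p
    have := ew_pos y p
    positivity
  · intro s t y y' p hyy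
    rw [abs_mul, abs_mul, abs_of_pos (ew_pos _ _)]
    have := ew_pos y' p
    calc _ ≤ (C * ((p.1 : ℕ) : ℝ) ^ r) * (C' * ((p.2 : ℕ) : ℝ) ^ r') * ew y p := by
          gcongr
          · exact h1 s p.1
          · exact h2 t p.2
          · exact ew_anti hyy p
      _ = _ := by ring

lemma DS_summable {α β : ℕ+ → ℝ} (hα : PB α) (hβ : PB β) {y : ℝ} (hy : 0 < y) :
    Summable fun p : ℕ+ × ℕ+ => α p.1 * β p.2 * ew y p := by
  obtain ⟨M, h1, -, -, h2⟩ := exists_maj hα hβ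
  exact Summable.of_norm_bounded (h1 y hy) fun p => h2 0 0 y y p le_rfl

lemma DS_hasSum {α β : ℕ+ → ℝ} (hα : PB α) (hβ : PB β) {y : ℝ} (hy : 0 < y) :
    HasSum (fun p : ℕ+ × ℕ+ => α p.1 * β p.2 * ew y p) (DS α β y) :=
  (DS_summable hα hβ hy).hasSum

lemma DS_swap (α β : ℕ+ → ℝ) (y : ℝ) : DS α β y = DS β α y := by
  unfold DS
  rw [← (Equiv.prodComm ℕ+ ℕ+).tsum_eq]
  refine tsum_congr fun p => ?_
  simp only [Equiv.prodComm_apply, Prod.fst_swap, Prod.snd_swap, ew]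
  ring_nf

lemma hasDerivAt_DS {α β : ℕ+ → ℝ} (hα : PB α) (hβ : PB β) {y : ℝ} (hy : 0 < y) :
    HasDerivAt (DS α β)
      (-π * DS (fun m => ((m : ℕ) : ℝ) * α m) (fun n => ((n : ℕ) : ℝ) * β n) y) y := by
  obtain ⟨M, h1, -, -, h2⟩ := exists_maj (PBF.id.mul hα) (PBF.id.mul hβ)
  have hy2 : 0 < y / 2 := by linarith
  have := hasDerivAt_tsum_of_isPreconnected (u := fun p => π * M (y / 2) p)
    (g := fun (p : ℕ+ × ℕ+) y => α p.1 * β p.2 * ew y p)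
    (g' := fun (p : ℕ+ × ℕ+) y =>
      -π * ((((p.1 : ℕ) : ℝ) * α p.1) * (((p.2 : ℕ) : ℝ) * β p.2) * ew y p))
    (t := Ioi (y / 2)) (y₀ := y) (y := y) ((h1 _ hy2).mul_left π) isOpen_Ioi
    isPreconnected_Ioi ?_ ?_ (by simp [hy]) (DS_summable hα hβ hy) (by simp [hy])
  · rw [tsum_mul_left] at this
    exact this
  · intro p z _
    unfold ew
    have : HasDerivAt (fun z => -(π * z * (((p.1 : ℕ) : ℝ) * ((p.2 : ℕ) : ℝ))))
        (-(π * 1 * (((p.1 : ℕ) : ℝ) * ((p.2 : ℕ) : ℝ)))) z :=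
      (((hasDerivAt_id z).const_mul π).mul_const _).neg
    refine (this.exp.const_mul (α p.1 * β p.2)).congr_deriv ?_
    ring
  · intro p z hz
    rw [norm_mul, norm_neg, Real.norm_of_nonneg pi_pos.le]
    have := h2 0 0 (y / 2) z p (le_of_lt hz)
    have := pi_pos
    gcongr
    exact h2 0 0 (y / 2) z p (le_of_lt hz)

lemma hasDerivAt_DS_s {α : ℕ+ → ℝ} {β β' : ℝ → ℕ+ → ℝ} (hα : PB α) (hβ : PBF β) (hβ' : PBF β')
    (hd : ∀ s n, HasDerivAt (fun s => β s n) (β' s n) s) {y : ℝ} (hy : 0 < y) (s : ℝ) :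
    HasDerivAt (fun s => DS α (β s) y) (DS α (β' s) y) s := by
  obtain ⟨M, h1, -, -, h2⟩ := exists_maj hα hβ'
  refine hasDerivAt_tsum (u := M y) (g := fun (p : ℕ+ × ℕ+) s => α p.1 * β s p.2 * ew y p)
    (g' := fun (p : ℕ+ × ℕ+) s => α p.1 * β' s p.2 * ew y p) (y₀ := s) (h1 y hy) ?_ ?_
    (DS_summable hα (hβ.pb s) hy) s
  · intro p z
    exact ((hd z p.2).const_mul _).mul_const _
  · intro p z
    exact h2 0 z y y p le_rfl

lemma continuousOn_DS {α : ℕ+ → ℝ} {β : ℝ → ℕ+ → ℝ} (hα : PB α) (hβ : PBF β)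
    (hc : ∀ n, Continuous fun s => β s n) :
    ContinuousOn (fun z : ℝ × ℝ => DS α (β z.1) z.2) {z | 0 < z.2} := by
  obtain ⟨M, h1, -, -, h2⟩ := exists_maj hα hβ
  intro z hz
  have hz' : 0 < z.2 := hz
  have hy2 : 0 < z.2 / 2 := by linarith
  have : ContinuousOn (fun w : ℝ × ℝ => DS α (β w.1) w.2) {w | z.2 / 2 < w.2} := by
    refine continuousOn_tsum (u := M (z.2 / 2)) (fun p => ?_) (h1 _ hy2) ?_
    · have := hc p.2
      unfold ew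
      fun_prop
    · intro p w hw
      exact h2 0 w.1 _ _ p (le_of_lt hw)
  refine (this.continuousAt ?_).continuousWithinAt
  exact (isOpen_lt continuous_const continuous_snd).mem_nhds (by simp; linarith)

lemma continuousOn_DS_y {α β : ℕ+ → ℝ} (hα : PB α) (hβ : PB β) :
    ContinuousOn (DS α β) (Ioi 0) := fun _ hy =>
  (hasDerivAt_DS hα hβ hy).continuousAt.continuousWithinAt

lemma DS_decay {α : ℕ+ → ℝ} {β : ℝ → ℕ+ → ℝ} (hα : PB α) (hβ : PBF β) :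
    ∃ C, ∀ s y, 1 ≤ y → |DS α (β s) y| ≤ C * exp (-(π * y)) := by
  obtain ⟨M, h1, h3, h4, h2⟩ := exists_maj hα hβ
  refine ⟨exp π * ∑' p, M 1 p, fun s y hy => ?_⟩
  have hb : ∀ p, ‖α p.1 * β s p.2 * ew y p‖ ≤ M 1 p * (exp π * exp (-(π * y))) := by
    intro p
    refine (h2 0 s y y p le_rfl).trans ?_
    rw [h3 1 y (y - 1) p (by ring)]
    refine mul_le_mul_of_nonneg_left ?_ (h4 _ _)
    rw [← exp_add]
    unfold ew
    apply exp_le_exp.mpr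
    have a1 := one_le_c p.1
    have a2 := one_le_c p.2
    have a3 : 1 ≤ ((p.1 : ℕ) : ℝ) * ((p.2 : ℕ) : ℝ) := by nlinarith
    have : 0 ≤ π * (y - 1) := mul_nonneg pi_pos.le (by linarith)
    nlinarith
  have := tsum_of_norm_bounded ((h1 1 one_pos).mul_right (exp π * exp (-(π * y)))).hasSum hb
  rw [tsum_mul_right] at this
  calc _ ≤ _ := this
    _ = _ := by ring

lemma tendsto_exp_neg_pi : Tendsto (fun y : ℝ => exp (-(π * y))) atTop (𝓝 0) :=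
  tendsto_exp_atBot.comp (tendsto_neg_atTop_atBot.comp (tendsto_id.const_mul_atTop pi_pos))

lemma DS_tendsto {α β : ℕ+ → ℝ} (hα : PB α) (hβ : PB β) :
    Tendsto (DS α β) atTop (𝓝 0) := by
  obtain ⟨C, hC⟩ := DS_decay hα hβ
  have := tendsto_exp_neg_pi.const_mul C
  rw [mul_zero] at this
  refine squeeze_zero_norm' ?_ this
  filter_upwards [eventually_ge_atTop 1] with y hy using hC 0 y hy

lemma DS_congr {α β α' β' : ℕ+ → ℝ} (h1 : ∀ m, α m = α' m) (h2 : ∀ m, β m = β' m) (y : ℝ) :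
    DS α β y = DS α' β' y := by
  rw [funext h1, funext h2]

lemma DS_add_right {α β γ : ℕ+ → ℝ} (hα : PB α) (hβ : PB β) (hγ : PB γ) {y : ℝ} (hy : 0 < y) :
    DS α (fun n => β n + γ n) y = DS α β y + DS α γ y := by
  unfold DS
  rw [← (DS_summable hα hβ hy).tsum_add (DS_summable hα hγ hy)]
  exact tsum_congr fun p => by ring

lemma DS_smul_right (α β : ℕ+ → ℝ) (c y : ℝ) : DS α (fun n => c * β n) y = c * DS α β y := by
  unfold DS
  rw [← tsum_mul_left]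
  exact tsum_congr fun p => by ring

lemma DS_add_left {α β γ : ℕ+ → ℝ} (hα : PB α) (hβ : PB β) (hγ : PB γ) {y : ℝ} (hy : 0 < y) :
    DS (fun n => β n + γ n) α y = DS β α y + DS γ α y := by
  rw [DS_swap, DS_add_right hα hβ hγ hy, DS_swap α, DS_swap α]

lemma DS_smul_left (α β : ℕ+ → ℝ) (c y : ℝ) : DS (fun n => c * β n) α y = c * DS β α y := by
  rw [DS_swap, DS_smul_right, DS_swap]

lemma DS_ind_right (α β : ℕ+ → ℝ) (d : ℕ+) (y : ℝ) :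
    DS α (fun n => ind d n * β n) y = DS α (fun n => β (d * n)) (((d : ℕ) : ℝ) * y) := by
  unfold DS
  have hinj : Function.Injective (fun p : ℕ+ × ℕ+ => (p.1, d * p.2)) := by
    intro p p' h
    simp only [Prod.mk.injEq, mul_right_inj] at h
    exact Prod.ext h.1 h.2
  rw [← hinj.tsum_eq]
  · refine tsum_congr fun p => ?_
    simp only [ind, PNat.mul_coe, dvd_mul_right, if_true, one_mul, ew]
    push_cast
    ring_nf
  · intro p hp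
    have : (d : ℕ) ∣ (p.2 : ℕ) := by
      by_contra h
      apply hp
      simp [ind, h]
    obtain ⟨k, hk⟩ := PNat.dvd_iff.mpr this
    exact ⟨(p.1, k), by simp [← hk]⟩

lemma DS_ind_left (α β : ℕ+ → ℝ) (d : ℕ+) (y : ℝ) :
    DS (fun n => ind d n * β n) α y = DS (fun n => β (d * n)) α (((d : ℕ) : ℝ) * y) := by
  rw [DS_swap, DS_ind_right, DS_swap]

/-- sum over `m` first -/
lemma DS_hasSum_right {α β : ℕ+ → ℝ} (hα : PB α) (hβ : PB β) {y : ℝ} (hy : 0 < y)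
    {F : ℕ+ → ℝ}
    (hF : ∀ n : ℕ+, HasSum (fun m : ℕ+ => α m * (exp (-(π * y)) ^ (n : ℕ)) ^ (m : ℕ)) (F n)) :
    HasSum (fun n : ℕ+ => β n * F n) (DS α β y) := by
  rw [DS_swap]
  refine HasSum.prod_fiberwise (DS_hasSum hβ hα hy) fun n => ?_
  refine ((hF n).mul_left (β n)).congr_fun fun m => ?_
  simp only [ew]
  rw [← pow_mul, ← exp_nat_mul]
  push_cast
  ring_nf

end RV6
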