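import Pool.Agent.Lib.MP_15b3df_nt.RV02

/-! Theta function identities proved with the Liouville lemma. -/

open Complex Filter Topology Set

namespace RV6

variable {p q ρ : ℂ}

lemma th_ne_zero (hp : ‖p‖ < 1) {w : ℂ} (h1 : ‖p‖ < ‖w‖) (h2 : ‖w‖ * ‖p‖ < 1) (h3 : w ≠ 1) :
    th p w ≠ 0 := by
  have hw : 0 < ‖w‖ := lt_of_le_of_lt (norm_nonneg _) h1
  unfold th
  rw [poch_succ hp w]
  refine mul_ne_zero (mul_ne_zero (sub_ne_zero.mpr h3.symm) (poch_ne_zero' hp ?_))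
    (poch_ne_zero' hp ?_)
  · rwa [norm_mul]
  · rwa [norm_div, div_lt_one hw]

lemma rho_cube (hρ : ρ ^ 2 + ρ + 1 = 0) : ρ ^ 3 = 1 := by linear_combination (ρ - 1) * hρ

lemma rho_ne (hρ : ρ ^ 2 + ρ + 1 = 0) : ρ ≠ 0 := by
  rintro rfl; simp at hρ

lemma rho_inv (hρ : ρ ^ 2 + ρ + 1 = 0) : ρ⁻¹ = ρ ^ 2 := by
  have := rho_ne hρ
  field_simp
  exact (rho_cube hρ).symm

lemma th_cube (hp : ‖p‖ < 1) (hρ : ρ ^ 2 + ρ + 1 = 0) (w : ℂ) :
    th p w * th p (ρ * w) * th p (ρ ^ 2 * w) = th (p ^ 3) (w ^ 3) := by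
  unfold th
  have h1 : p / (ρ * w) = ρ ^ 2 * (p / w) := by
    rw [← rho_inv hρ, div_mul_eq_div_div_swap, div_eq_mul_inv (p / w), mul_comm]
  have h2 : p / (ρ ^ 2 * w) = ρ * (p / w) := by
    rw [← rho_inv hρ, div_mul_eq_div_div_swap, div_inv_eq_mul, mul_comm]
  rw [h1, h2, ← div_pow, ← poch_cube hp hρ, ← poch_cube hp hρ]
  ring

lemma th_two (hq : ‖q‖ < 1) (hq0 : q ≠ 0) (w : ℂ) :
    th q w = th (q ^ 2) w * th (q ^ 2) (q * w) := by
  unfold th
  rw [poch_two hq w, poch_two hq (q / w), show q ^ 2 / (q * w) = q / w by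
    rw [div_mul_eq_div_div, pow_two, mul_div_cancel_left₀ _ hq0],
    show q / w * q = q ^ 2 / w by ring, mul_comm w q]
  ring

/-- Liouville lemma with denominator `θ(w)θ(ρw)θ(ρ²w)` -/
lemma cube_div (hp : ‖p‖ < 1) (hp0 : p ≠ 0) (hρ : ρ ^ 2 + ρ + 1 = 0) {F : ℂ → ℂ}
    (hF : DifferentiableOn ℂ F {0}ᶜ) (hFm : ∀ w, w ≠ 0 → F (p * w) = -(w ^ 3)⁻¹ * F w)
    (hFρ : ∀ w, F (ρ * w) = F w) (h1 : F 1 = 0) :
    ∃ c, ∀ w, w ≠ 0 → F w = c * (th p w * th p (ρ * w) * th p (ρ ^ 2 * w)) := by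
  have hρ0 := rho_ne hρ
  have hp3 := norm_pow_lt hp three_ne_zero
  simp only [th_cube hp hρ]
  have hd : ∀ w : ℂ, w ≠ 0 → HasDerivAt (fun w => th (p ^ 3) (w ^ 3))
      (deriv (th (p ^ 3)) (w ^ 3) * (3 * w ^ 2)) w := fun w hw =>
    HasDerivAt.comp (h₂ := th (p ^ 3)) (h := fun w => w ^ 3) w
      (differentiableAt_th hp3 (pow_ne_zero 3 hw)).hasDerivAt
      (by simpa using hasDerivAt_pow 3 w)
  refine theta_div hp hp0 (m := fun w => -(w ^ 3)⁻¹) hF
    (fun w hw => (hd w hw).differentiableAt.differentiableWithinAt)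
    (fun w hw => by simp [hw]) hFm (fun w hw => ?_) (fun w hw h0 => ⟨?_, ?_⟩)
  · rw [mul_pow, th_mul hp3 (pow_ne_zero 3 hp0) (pow_ne_zero 3 hw)]
  · have key : ∀ w, w ≠ 0 → th p w = 0 → F w = 0 := by
      intro w hw h
      obtain ⟨n, rfl⟩ := th_eq_zero hp hp0 hw h
      have := zpow_induct hp0 (Q := fun w => F w = 0)
        (fun w hw => by simp [hFm w hw, hw]) one_ne_zero h1 n
      simpa using this
    rw [← th_cube hp hρ] at h0
    rcases mul_eq_zero.mp h0 with h0 | h0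
    · rcases mul_eq_zero.mp h0 with h0 | h0
      · exact key w hw h0
      · rw [← hFρ]; exact key _ (mul_ne_zero hρ0 hw) h0
    · rw [← hFρ, ← hFρ, ← mul_assoc, ← pow_two]
      exact key _ (mul_ne_zero (pow_ne_zero 2 hρ0) hw) h0
  · rw [(hd w hw).deriv]
    exact mul_ne_zero (deriv_th_ne hp3 (pow_ne_zero 3 hp0) (pow_ne_zero 3 hw) h0) (by simp [hw])

lemma diffOn_th_mul (hp : ‖p‖ < 1) {c : ℂ} (hc : c ≠ 0) :
    DifferentiableOn ℂ (fun w => th p (c * w)) {0}ᶜ := fun w hw =>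
  ((differentiableAt_th hp (mul_ne_zero hc hw)).comp w (by fun_prop)).differentiableWithinAt

lemma th_mul' (hp : ‖p‖ < 1) (hp0 : p ≠ 0) {c w : ℂ} (hc : c ≠ 0) (hw : w ≠ 0) :
    th p (c * (p * w)) = -(c * w)⁻¹ * th p (c * w) := by
  rw [← th_mul hp hp0 (mul_ne_zero hc hw), mul_left_comm]

theorem theta_I1 (hq : ‖q‖ < 1) (hq0 : q ≠ 0) (hρ : ρ ^ 2 + ρ + 1 = 0) {w : ℂ} (hw : w ≠ 0) :
    w * (th (q ^ 2) w * th (q ^ 2) (q * ρ * w) * th (q ^ 2) (q * ρ ^ 2 * w)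
      + ρ * th (q ^ 2) (ρ * w) * th (q ^ 2) (q * ρ ^ 2 * w) * th (q ^ 2) (q * w)
      + ρ ^ 2 * th (q ^ 2) (ρ ^ 2 * w) * th (q ^ 2) (q * w) * th (q ^ 2) (q * ρ * w))
      * (th (q ^ 2) (q * ρ) * th (q ^ 2) (q * ρ ^ 2))
    = q * (th (q ^ 2) ρ * th (q ^ 2) (ρ ^ 2)) *
      (th (q ^ 2) w * th (q ^ 2) (ρ * w) * th (q ^ 2) (ρ ^ 2 * w)) := by
  set p := q ^ 2 with hpq
  have hp : ‖p‖ < 1 := norm_pow_lt hq two_ne_zero
  have hp0 : p ≠ 0 := pow_ne_zero 2 hq0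
  have hρ0 := rho_ne hρ
  have h3 := rho_cube hρ
  have hρ2 := pow_ne_zero 2 hρ0
  refine Exists.elim (cube_div hp hp0 hρ (F := fun w => w *
    (th p w * th p (q * ρ * w) * th p (q * ρ ^ 2 * w)
      + ρ * th p (ρ * w) * th p (q * ρ ^ 2 * w) * th p (q * w)
      + ρ ^ 2 * th p (ρ ^ 2 * w) * th p (q * w) * th p (q * ρ * w))) ?_ ?_ ?_ ?_)
    fun c hc => ?_
  rotate_right
  · have h1 := hc q hq0
    have e1 : th p (q * q) = 0 := by
      rw [show q * q = p * 1 by rw [hpq]; ring, th_mul hp hp0 one_ne_zero, th_one hp, mul_zero]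
    have e2 : th p (q * ρ * q) = -ρ⁻¹ * th p ρ := by
      rw [← th_mul hp hp0 hρ0]; congr 1; rw [hpq]; ring
    have e3 : th p (q * ρ ^ 2 * q) = -(ρ ^ 2)⁻¹ * th p (ρ ^ 2) := by
      rw [← th_mul hp hp0 hρ2]; congr 1; rw [hpq]; ring
    have e4 : th p q ≠ 0 := by
      have : 0 < ‖q‖ := norm_pos_iff.mpr hq0
      refine th_ne_zero hp ?_ ?_ ?_
      · rw [hpq, norm_pow]; nlinarith
      · nlinarith [norm_nonneg p]
      · rintro rfl; simp at hq
    simp only [e1, e2, e3, mul_comm ρ q, mul_comm (ρ ^ 2) q] at h1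
    have h2 : c * (th p (q * ρ) * th p (q * ρ ^ 2)) = q * (th p ρ * th p (ρ ^ 2)) := by
      apply mul_left_cancel₀ e4
      field_simp at h1
      rw [h3] at h1
      linear_combination -h1
    rw [hc w hw, ← h2]
    ring
  · have a0 := differentiableOn_th hp
    have a1 := diffOn_th_mul hp hρ0
    have a2 := diffOn_th_mul hp hρ2
    have a3 := diffOn_th_mul hp hq0
    have a4 := diffOn_th_mul hp (mul_ne_zero hq0 hρ0)
    have a5 := diffOn_th_mul hp (mul_ne_zero hq0 hρ2)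
    exact differentiableOn_id.mul ((((a0.mul a4).mul a5).add
      (((a1.const_mul ρ).mul a5).mul a3)).add (((a2.const_mul (ρ ^ 2)).mul a3).mul a4))
  · intro w hw
    rw [th_mul hp hp0 hw, th_mul' hp hp0 hρ0 hw, th_mul' hp hp0 hρ2 hw, th_mul' hp hp0 hq0 hw,
      th_mul' hp hp0 (mul_ne_zero hq0 hρ0) hw, th_mul' hp hp0 (mul_ne_zero hq0 hρ2) hw, hpq]
    field_simp
    rw [h3]
    ring
  · intro w
    rw [show q * ρ * (ρ * w) = q * ρ ^ 2 * w by ring,
      show q * ρ ^ 2 * (ρ * w) = q * w by linear_combination (q * w) * h3,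
      show ρ * (ρ * w) = ρ ^ 2 * w by ring,
      show ρ ^ 2 * (ρ * w) = w by linear_combination w * h3, ← mul_assoc q ρ w]
    linear_combination (w * th p w * th p (q * ρ * w) * th p (q * ρ ^ 2 * w)) * h3
  · simp only [mul_one, one_mul, th_one hp]
    have e1 : th p (ρ ^ 2) = -ρ ^ 2 * th p ρ := by rw [← rho_inv hρ, th_inv hp hp0 hρ0]
    have e2 : th p (q * ρ ^ 2) = th p (q * ρ) := by
      rw [← th_refl hp0 (mul_ne_zero hq0 hρ0), ← rho_inv hρ, hpq]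
      congr 1
      field_simp
    rw [e1, e2]
    linear_combination (-ρ * th p ρ * th p q * th p (q * ρ)) * h3

theorem theta_I2 (hp : ‖p‖ < 1) (hp0 : p ≠ 0) (hρ : ρ ^ 2 + ρ + 1 = 0) {w : ℂ} (hw : w ≠ 0) :
    (th p w * th p (-ρ * w) * th p (-ρ ^ 2 * w) + th p (ρ * w) * th p (-ρ ^ 2 * w) * th p (-w)
      + th p (ρ ^ 2 * w) * th p (-w) * th p (-ρ * w)) * (th p (-ρ) * th p (-ρ ^ 2))
    = (th p ρ * th p (ρ ^ 2)) * (th p w * th p (ρ * w) * th p (ρ ^ 2 * w)) := by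
  have hρ0 := rho_ne hρ
  have h3 := rho_cube hρ
  have hρ2 := pow_ne_zero 2 hρ0
  have hm : (-1 : ℂ) ≠ 0 := by simp
  refine Exists.elim (cube_div hp hp0 hρ (F := fun w =>
    th p w * th p (-ρ * w) * th p (-ρ ^ 2 * w) + th p (ρ * w) * th p (-ρ ^ 2 * w) * th p (-1 * w)
      + th p (ρ ^ 2 * w) * th p (-1 * w) * th p (-ρ * w)) ?_ ?_ ?_ ?_) fun c hc => ?_
  rotate_right
  · have h1 := hc (-1) hm
    have e4 : th p (-1) ≠ 0 := by
      refine th_ne_zero hp (by simpa) (by simpa) (by norm_num)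
    simp only [mul_neg, mul_one, neg_neg, th_one hp] at h1
    have h2 : c * (th p (-ρ) * th p (-ρ ^ 2)) = th p ρ * th p (ρ ^ 2) := by
      apply mul_left_cancel₀ e4
      linear_combination -h1
    simp only [neg_mul, one_mul] at hc ⊢
    rw [hc w hw, ← h2]
    ring
  · have a0 := differentiableOn_th hp
    have a1 := diffOn_th_mul hp hρ0
    have a2 := diffOn_th_mul hp hρ2
    have a3 := diffOn_th_mul hp hm
    have a4 := diffOn_th_mul hp (neg_ne_zero.mpr hρ0)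
    have a5 := diffOn_th_mul hp (neg_ne_zero.mpr hρ2)
    exact (((a0.mul a4).mul a5).add ((a1.mul a5).mul a3)).add ((a2.mul a3).mul a4)
  · intro w hw
    rw [th_mul hp hp0 hw, th_mul' hp hp0 hρ0 hw, th_mul' hp hp0 hρ2 hw, th_mul' hp hp0 hm hw,
      th_mul' hp hp0 (neg_ne_zero.mpr hρ0) hw, th_mul' hp hp0 (neg_ne_zero.mpr hρ2) hw]
    field_simp
    rw [h3]
    ring
  · intro w
    rw [show -ρ * (ρ * w) = -ρ ^ 2 * w by ring,
      show -ρ ^ 2 * (ρ * w) = -1 * w by linear_combination (-w) * h3,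
      show ρ * (ρ * w) = ρ ^ 2 * w by ring,
      show ρ ^ 2 * (ρ * w) = w by linear_combination w * h3,
      show -1 * (ρ * w) = -ρ * w by ring]
    ring
  · simp only [mul_one, th_one hp]
    have e1 : th p (ρ ^ 2) = -ρ ^ 2 * th p ρ := by rw [← rho_inv hρ, th_inv hp hp0 hρ0]
    have e2 : th p (-ρ ^ 2) = ρ ^ 2 * th p (-ρ) := by
      rw [← rho_inv hρ, ← inv_neg, th_inv hp hp0 (neg_ne_zero.mpr hρ0), inv_neg, neg_neg]
    rw [e1, e2]
    ring

/-- the Euler operator -/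
noncomputable def dd (F : ℂ → ℂ) (w : ℂ) : ℂ := w * deriv F w

lemma dd_diffOn {F : ℂ → ℂ} (hF : DifferentiableOn ℂ F {0}ᶜ) : DifferentiableOn ℂ (dd F) {0}ᶜ :=
  differentiableOn_id.mul (hF.deriv isOpen_ne)

lemma dd_of_hasDerivAt {F G : ℂ → ℂ} {w G' : ℂ} (hw : w ≠ 0) (h : ∀ z, z ≠ 0 → F z = G z)
    (hG : HasDerivAt G G' w) : HasDerivAt F G' w := by
  refine hG.congr_of_eventuallyEq ?_
  filter_upwards [isOpen_ne.mem_nhds hw] with z hz using h z hz

lemma hasDerivAt_dd {F : ℂ → ℂ} (hF : DifferentiableOn ℂ F {0}ᶜ) {w : ℂ} (hw : w ≠ 0) :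
    HasDerivAt F (dd F w / w) w := by
  unfold dd
  rw [mul_div_cancel_left₀ _ hw]
  exact (hF.differentiableAt (isOpen_ne.mem_nhds hw)).hasDerivAt

lemma dd_mul_rule {F G : ℂ → ℂ} (hF : DifferentiableOn ℂ F {0}ᶜ) (hG : DifferentiableOn ℂ G {0}ᶜ)
    {c : ℂ} (hc : c ≠ 0) (h : ∀ z, z ≠ 0 → F (c * z) = -z⁻¹ * G z) {w : ℂ} (hw : w ≠ 0) :
    dd F (c * w) = -w⁻¹ * (dd G w - G w) := by
  have h1 := (hasDerivAt_dd hF (mul_ne_zero hc hw)).comp w ((hasDerivAt_id w).const_mul c)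
  have h2 := dd_of_hasDerivAt hw h ((hasDerivAt_inv hw).neg.mul (hasDerivAt_dd hG hw))
  have := h1.unique h2
  simp only [Pi.neg_apply] at this
  field_simp at this ⊢
  linear_combination this

lemma dd_inv_rule {F G : ℂ → ℂ} (hF : DifferentiableOn ℂ F {0}ᶜ) (hG : DifferentiableOn ℂ G {0}ᶜ)
    (h : ∀ z, z ≠ 0 → F z⁻¹ = -z⁻¹ * G z) {w : ℂ} (hw : w ≠ 0) :
    dd F w⁻¹ = -w⁻¹ * (G w - dd G w) := by
  have h1 := (hasDerivAt_dd hF (inv_ne_zero hw)).comp w (hasDerivAt_inv hw)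
  have h2 := dd_of_hasDerivAt hw h ((hasDerivAt_inv hw).neg.mul (hasDerivAt_dd hG hw))
  have := h1.unique h2
  simp only [Pi.neg_apply] at this
  field_simp at this ⊢
  linear_combination -this

lemma dd_sub {F G : ℂ → ℂ} (hF : DifferentiableOn ℂ F {0}ᶜ) (hG : DifferentiableOn ℂ G {0}ᶜ)
    {w : ℂ} (hw : w ≠ 0) : dd (fun z => F z - G z) w = dd F w - dd G w := by
  unfold dd
  rw [deriv_fun_sub (hF.differentiableAt (isOpen_ne.mem_nhds hw))
    (hG.differentiableAt (isOpen_ne.mem_nhds hw))]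
  ring

lemma dd_th_mul (hp : ‖p‖ < 1) (hp0 : p ≠ 0) {w : ℂ} (hw : w ≠ 0) :
    dd (th p) (p * w) = -w⁻¹ * (dd (th p) w - th p w) :=
  dd_mul_rule (differentiableOn_th hp) (differentiableOn_th hp) hp0
    (fun _ hz => th_mul hp hp0 hz) hw

lemma dd_th_inv (hp : ‖p‖ < 1) (hp0 : p ≠ 0) {w : ℂ} (hw : w ≠ 0) :
    dd (th p) w⁻¹ = -w⁻¹ * (th p w - dd (th p) w) :=
  dd_inv_rule (differentiableOn_th hp) (differentiableOn_th hp)
    (fun _ hz => th_inv hp hp0 hz) hw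

theorem theta_I3 (hq : ‖q‖ < 1) (hq0 : q ≠ 0) : ∃ C : ℂ, ∀ w, w ≠ 0 →
    dd (th (q ^ 2)) w * th (q ^ 2) (q * w) - th (q ^ 2) w * dd (th (q ^ 2)) (q * w)
      - th (q ^ 2) w * th (q ^ 2) (q * w) / 2 = C * th q (-w) := by
  set p := q ^ 2 with hpq
  have hp : ‖p‖ < 1 := norm_pow_lt hq two_ne_zero
  have hp0 : p ≠ 0 := pow_ne_zero 2 hq0
  have hm : (-1 : ℂ) ≠ 0 := by simp
  have a0 := differentiableOn_th hp
  have a1 := dd_diffOn a0
  have a2 := diffOn_th_mul hp hq0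
  have a3 : DifferentiableOn ℂ (fun w => dd (th p) (q * w)) {0}ᶜ := fun w hw =>
    ((a1.differentiableAt (isOpen_ne.mem_nhds (mul_ne_zero hq0 hw))).comp w
      (by fun_prop)).differentiableWithinAt
  have hFm : ∀ w, w ≠ 0 → dd (th p) (q * w) * th p (q * (q * w))
      - th p (q * w) * dd (th p) (q * (q * w)) - th p (q * w) * th p (q * (q * w)) / 2
      = w⁻¹ * (dd (th p) w * th p (q * w) - th p w * dd (th p) (q * w)
        - th p w * th p (q * w) / 2) := by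
    intro w hw
    rw [← mul_assoc q q, ← pow_two, ← hpq, th_mul hp hp0 hw, dd_th_mul hp hp0 hw]
    ring
  have hd : ∀ w : ℂ, w ≠ 0 → HasDerivAt (fun w => th q (-w)) (deriv (th q) (-w) * (-1)) w :=
    fun w hw => (differentiableAt_th hq (neg_ne_zero.mpr hw)).hasDerivAt.comp w
      (hasDerivAt_neg w)
  refine theta_div hq hq0 (m := fun w => w⁻¹)
    (F := fun w => dd (th p) w * th p (q * w) - th p w * dd (th p) (q * w)
      - th p w * th p (q * w) / 2) (G := fun w => th q (-w))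
    (((a1.mul a2).sub (a0.mul a3)).sub ((a0.mul a2).div_const 2))
    (fun w hw => (hd w hw).differentiableAt.differentiableWithinAt)
    (fun w hw => inv_ne_zero hw) hFm (fun w hw => ?_) (fun w hw h0 => ⟨?_, ?_⟩)
  · rw [← mul_neg, th_mul hq hq0 (neg_ne_zero.mpr hw), inv_neg, neg_neg]
  · obtain ⟨n, hn⟩ := th_eq_zero hq hq0 (neg_ne_zero.mpr hw) h0
    have := zpow_induct hq0 (Q := fun w => dd (th p) w * th p (q * w) - th p w * dd (th p) (q * w)
      - th p w * th p (q * w) / 2 = 0) (fun w hw => by simp only [hFm w hw]; simp [hw]) hm ?_ n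
    · rwa [← hn, mul_neg, mul_one, neg_neg] at this
    · have e1 := dd_th_inv hp hp0 hm
      have e2 := dd_th_mul hp hp0 (w := (q * -1)⁻¹) (by simp [hq0])
      rw [dd_th_inv hp hp0 (by simp [hq0]), th_inv hp hp0 (by simp [hq0]),
        show p * (q * -1)⁻¹ = q * -1 by rw [hpq]; field_simp] at e2
      rw [inv_neg, inv_one] at e1
      have e3 : dd (th p) (q * -1) = 0 := by
        generalize dd (th p) (q * -1) = A at e2
        generalize th p (q * -1) = B at e2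
        field_simp at e2
        linear_combination e2 / 2
      rw [e3]
      linear_combination (th p (q * -1) / 2) * e1
  · rw [(hd w hw).deriv]
    simpa using deriv_th_ne hq hq0 (neg_ne_zero.mpr hw) h0

/-- numerator of the second logarithmic derivative -/
noncomputable def NN (p w : ℂ) : ℂ := dd (th p) w ^ 2 - th p w * dd (dd (th p)) w

lemma NN_mul (hp : ‖p‖ < 1) (hp0 : p ≠ 0) {w : ℂ} (hw : w ≠ 0) :
    NN p (p * w) = (w ^ 2)⁻¹ * NN p w := by
  have a0 := differentiableOn_th hp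
  have a1 := dd_diffOn a0
  have := dd_mul_rule a1 (a1.sub a0) hp0 (fun z hz => dd_th_mul hp hp0 hz) hw
  unfold NN
  rw [this, show dd (th p) - th p = fun z => dd (th p) z - th p z from rfl, dd_sub a1 a0 hw,
    th_mul hp hp0 hw, dd_th_mul hp hp0 hw]
  field_simp
  ring

lemma NN_inv (hp : ‖p‖ < 1) (hp0 : p ≠ 0) {w : ℂ} (hw : w ≠ 0) :
    NN p w⁻¹ = (w ^ 2)⁻¹ * NN p w := by
  have a0 := differentiableOn_th hp
  have a1 := dd_diffOn a0
  have := dd_inv_rule a1 (a0.sub a1) (fun z hz => dd_th_inv hp hp0 hz) hw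
  unfold NN
  rw [this, show th p - dd (th p) = fun z => th p z - dd (th p) z from rfl, dd_sub a0 a1 hw,
    th_inv hp hp0 hw, dd_th_inv hp hp0 hw]
  field_simp
  ring

theorem theta_wp (hp : ‖p‖ < 1) (hp0 : p ≠ 0) {b : ℂ} (hb : b ≠ 0) (hb1 : th p b ≠ 0)
    (hb2 : th p (b ^ 2) ≠ 0) {a : ℂ} (ha : a ≠ 0) :
    NN p a * th p b ^ 2 - NN p b * th p a ^ 2 =
      -b * poch p p ^ 4 * (th p (b * a) * th p (b⁻¹ * a)) := by
  have a0 := differentiableOn_th hp
  have a1 := dd_diffOn a0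
  have a2 := dd_diffOn a1
  have aN : DifferentiableOn ℂ (NN p) {0}ᶜ := (a1.pow 2).sub (a0.mul a2)
  have hbi := inv_ne_zero hb
  have hFm : ∀ w, w ≠ 0 → NN p (p * w) * th p b ^ 2 - NN p b * th p (p * w) ^ 2 =
      (w ^ 2)⁻¹ * (NN p w * th p b ^ 2 - NN p b * th p w ^ 2) := by
    intro w hw
    rw [NN_mul hp hp0 hw, th_mul hp hp0 hw]
    ring
  have hd : ∀ c w : ℂ, c ≠ 0 → w ≠ 0 →
      HasDerivAt (fun w => th p (c * w)) (deriv (th p) (c * w) * (c * 1)) w :=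
    fun c w hc hw => (differentiableAt_th hp (mul_ne_zero hc hw)).hasDerivAt.comp w
      ((hasDerivAt_id w).const_mul c)
  have hQ : ∀ c : ℂ, c ≠ 0 → NN p c * th p b ^ 2 - NN p b * th p c ^ 2 = 0 → ∀ n : ℤ,
      NN p (p ^ n * c) * th p b ^ 2 - NN p b * th p (p ^ n * c) ^ 2 = 0 := fun c hc h n =>
    zpow_induct hp0 (Q := fun w => NN p w * th p b ^ 2 - NN p b * th p w ^ 2 = 0)
      (fun w hw => by simp only [hFm w hw]; simp [hw]) hc h n
  have hR : ∀ c : ℂ, c ≠ 0 → th p c ≠ 0 → ∀ n : ℤ, th p (p ^ n * c) ≠ 0 := fun c hc h n =>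
    zpow_induct hp0 (Q := fun w => th p w ≠ 0)
      (fun w hw => by simp [th_mul hp hp0 hw, hw]) hc h n
  obtain ⟨c, hc⟩ := theta_div hp hp0 (m := fun w => (w ^ 2)⁻¹)
    (F := fun a => NN p a * th p b ^ 2 - NN p b * th p a ^ 2)
    (G := fun a => th p (b * a) * th p (b⁻¹ * a))
    ((aN.mul_const _).sub ((a0.pow 2).const_mul _))
    ((diffOn_th_mul hp hb).mul (diffOn_th_mul hp hbi))
    (fun w hw => by simp [hw]) hFm (fun w hw => by
      rw [th_mul' hp hp0 hb hw, th_mul' hp hp0 hbi hw]; field_simp) (fun w hw h0 => by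
      rw [((hd b w hb hw).fun_mul (hd b⁻¹ w hbi hw)).deriv]
      rcases mul_eq_zero.mp h0 with h0 | h0
      · obtain ⟨n, hn⟩ := th_eq_zero hp hp0 (mul_ne_zero hb hw) h0
        have e : w = p ^ n * b⁻¹ := by rw [← hn]; field_simp
        constructor
        · rw [e]
          refine hQ _ hbi ?_ n
          rw [NN_inv hp hp0 hb, th_inv hp hp0 hb]
          ring
        · rw [h0, zero_mul, add_zero]
          refine mul_ne_zero (mul_ne_zero (deriv_th_ne hp hp0 (mul_ne_zero hb hw) h0)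
            (by simpa)) ?_
          rw [e, show b⁻¹ * (p ^ n * b⁻¹) = p ^ n * (b ^ 2)⁻¹ by ring]
          refine hR _ (by simpa) ?_ n
          rw [th_inv hp hp0 (pow_ne_zero 2 hb)]
          exact mul_ne_zero (by simpa) hb2
      · obtain ⟨n, hn⟩ := th_eq_zero hp hp0 (mul_ne_zero hbi hw) h0
        have e : w = p ^ n * b := by rw [← hn]; field_simp
        constructor
        · rw [e]
          exact hQ _ hb (sub_self _) n
        · rw [h0, mul_zero, zero_add]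
          refine mul_ne_zero ?_ (mul_ne_zero (deriv_th_ne hp hp0 (mul_ne_zero hbi hw) h0)
            (by simpa))
          rw [e, show b * (p ^ n * b) = p ^ n * b ^ 2 by ring]
          exact hR _ (by simpa) hb2 n)
  have h1 := hc 1 one_ne_zero
  simp only [mul_one, th_one hp, th_inv hp hp0 hb, NN, dd, (hasDerivAt_th_one hp).deriv] at h1
  have h2 : c = -b * poch p p ^ 4 := by
    apply mul_left_cancel₀ (pow_ne_zero 2 hb1)
    field_simp at h1
    linear_combination h1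
  rw [← h2]
  exact hc a ha

end RV6
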