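import Pool.Agent.Lib.MP_15b3df_nt.RV01
import Pool.Agent.Lib.MP_15b3df_nt.RV03

/-! Fourier expansions of theta quotients on circles. -/

open Real Filter Topology Set
open Complex (I normSq)

namespace RV6

noncomputable def ee (t : ℝ) : ℂ := Complex.exp (((2 * π * t : ℝ) : ℂ) * I)

lemma ee_add (s t : ℝ) : ee (s + t) = ee s * ee t := by
  unfold ee; rw [← Complex.exp_add]; congr 1; push_cast; ring

lemma ee_ne (t : ℝ) : ee t ≠ 0 := Complex.exp_ne_zero _

lemma ee_zero : ee 0 = 1 := by simp [ee]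

lemma ee_neg (t : ℝ) : ee (-t) = (ee t)⁻¹ := by
  unfold ee; rw [← Complex.exp_neg]; congr 1; push_cast; ring

lemma ee_pow (t : ℝ) (k : ℕ) : ee t ^ k = ee (k * t) := by
  unfold ee; rw [← Complex.exp_nat_mul]; congr 1; push_cast; ring

lemma ee_eq (t : ℝ) : ee t = (cos (2 * π * t) : ℝ) + (sin (2 * π * t) : ℝ) * I := by
  unfold ee; rw [Complex.exp_mul_I, Complex.ofReal_cos, Complex.ofReal_sin]

lemma ee_inv_eq (t : ℝ) : (ee t)⁻¹ = (cos (2 * π * t) : ℝ) - (sin (2 * π * t) : ℝ) * I := by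
  rw [← ee_neg, ee_eq, mul_neg, cos_neg, sin_neg]; push_cast; ring

lemma norm_ee (t : ℝ) : ‖ee t‖ = 1 := Complex.norm_exp_ofReal_mul_I _

lemma ee_half : ee (1 / 2) = -1 := by
  rw [ee_eq, show 2 * π * (1 / 2) = π by ring]; simp

lemma ee_one : ee 1 = 1 := by rw [ee_eq]; simp

lemma conj_ee (t : ℝ) : (starRingEnd ℂ) (ee t) = (ee t)⁻¹ := by
  rw [ee_inv_eq, ee_eq]; simp only [map_add, map_mul, Complex.conj_ofReal, Complex.conj_I]; ring

lemma hasDerivAt_ee (t : ℝ) : HasDerivAt ee (2 * π * I * ee t) t := by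
  have h1 : HasDerivAt (fun t : ℝ => ((2 * π * t : ℝ) : ℂ) * I) (((2 * π * 1 : ℝ) : ℂ) * I) t :=
    (((hasDerivAt_id t).const_mul (2 * π)).ofReal_comp).mul_const I
  refine h1.cexp.congr_deriv ?_
  unfold ee; push_cast; ring

lemma ee_third : ee (1 / 3) ^ 2 + ee (1 / 3) + 1 = 0 := by
  have h1 : ee (1 / 3) ^ 3 = 1 := by rw [ee_pow]; norm_num [ee_one]
  have h2 : ee (1 / 3) - 1 ≠ 0 := by
    intro h
    have := congrArg Complex.re h
    rw [ee_eq, show 2 * π * (1 / 3) = π - π / 3 by ring, cos_pi_sub, cos_pi_div_three] at this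
    norm_num at this
  apply mul_left_cancel₀ h2
  linear_combination h1

noncomputable def rr (y : ℝ) : ℝ := exp (-(π * y / 2))

lemma rr_pos (y : ℝ) : 0 < rr y := exp_pos _

lemma rr_lt {y : ℝ} (hy : 0 < y) : rr y < 1 := by
  unfold rr; rw [exp_lt_one_iff]; nlinarith [mul_pos pi_pos hy]

lemma rr_sq (y : ℝ) : rr y ^ 2 = exp (-(π * y)) := by
  unfold rr; rw [← exp_nat_mul]; congr 1; push_cast; ring

noncomputable def ck (y : ℝ) (k : ℕ+) : ℝ := rr y ^ (k : ℕ) / (1 + (rr y ^ (k : ℕ)) ^ 2)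

lemma ck_pos (y : ℝ) (k : ℕ+) : 0 < ck y k := by
  unfold ck; have := rr_pos y; positivity

lemma ck_summable {y : ℝ} (hy : 0 < y) : Summable (ck y) := by
  have := summable_pow_geo 0 (rr_pos y).le (rr_lt hy)
  refine Summable.of_nonneg_of_le (fun k => (ck_pos y k).le) (fun k => ?_) this
  unfold ck
  rw [pow_zero, one_mul]
  have := rr_pos y
  exact div_le_self (by positivity) (by nlinarith [sq_nonneg (rr y ^ (k : ℕ))])

lemma ck_summable_mul {y : ℝ} (hy : 0 < y) {b : ℕ+ → ℝ} (C : ℝ) (hb : ∀ k, |b k| ≤ C) :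
    Summable fun k => ck y k * b k := by
  refine Summable.of_norm_bounded ((ck_summable hy).mul_right C) fun k => ?_
  rw [norm_mul, Real.norm_of_nonneg (ck_pos y k).le]
  exact mul_le_mul_of_nonneg_left (hb k) (ck_pos y k).le

lemma abs_div_c_le {a : ℝ} (k : ℕ+) : |a / ((k : ℕ) : ℝ)| ≤ |a| := by
  rw [abs_div, abs_of_pos (c_pos k)]
  exact div_le_self (abs_nonneg _) (one_le_c k)

noncomputable def del (y t : ℝ) : ℝ :=
  -2 * ∑' k : ℕ+, ck y k * (sin (2 * π * ((k : ℕ) * t)) / ((k : ℕ) : ℝ))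

noncomputable def Dn (y t : ℝ) : ℝ := 1 + 4 * ∑' k : ℕ+, ck y k * cos (2 * π * ((k : ℕ) * t))

lemma del_summable {y : ℝ} (hy : 0 < y) (t : ℝ) :
    Summable fun k : ℕ+ => ck y k * (sin (2 * π * ((k : ℕ) * t)) / ((k : ℕ) : ℝ)) :=
  ck_summable_mul hy 1 fun k => (abs_div_c_le k).trans (abs_sin_le_one _)

lemma hasDerivAt_sin_div (k : ℕ+) (t : ℝ) :
    HasDerivAt (fun t => sin (2 * π * ((k : ℕ) * t)) / ((k : ℕ) : ℝ))
      (2 * π * cos (2 * π * ((k : ℕ) * t))) t := by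
  have h : HasDerivAt (fun t : ℝ => 2 * π * (((k : ℕ) : ℝ) * t)) (2 * π * ((k : ℕ) * 1)) t :=
    ((hasDerivAt_id t).const_mul _).const_mul _
  refine (h.sin.div_const _).congr_deriv ?_
  have := (c_pos k).ne'
  field_simp

lemma hasDerivAt_cos_div (k : ℕ+) (t : ℝ) :
    HasDerivAt (fun t => cos (2 * π * ((k : ℕ) * t)) / ((k : ℕ) : ℝ))
      (-(2 * π) * sin (2 * π * ((k : ℕ) * t))) t := by
  have h : HasDerivAt (fun t : ℝ => 2 * π * (((k : ℕ) : ℝ) * t)) (2 * π * ((k : ℕ) * 1)) t :=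
    ((hasDerivAt_id t).const_mul _).const_mul _
  refine (h.cos.div_const _).congr_deriv ?_
  have := (c_pos k).ne'
  field_simp

lemma hasDerivAt_del {y : ℝ} (hy : 0 < y) (t : ℝ) :
    HasDerivAt (del y) (-π * (Dn y t - 1)) t := by
  have := hasDerivAt_tsum (u := fun k => ck y k * (2 * π))
    (g := fun (k : ℕ+) t => ck y k * (sin (2 * π * ((k : ℕ) * t)) / ((k : ℕ) : ℝ)))
    (g' := fun (k : ℕ+) t => 2 * π * (ck y k * cos (2 * π * ((k : ℕ) * t)))) (y₀ := t)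
    ((ck_summable hy).mul_right _)
    (fun k z => ((hasDerivAt_sin_div k z).const_mul _).congr_deriv (by ring)) ?_
    (del_summable hy t) t
  · refine (this.const_mul (-2)).congr_deriv ?_
    rw [tsum_mul_left, Dn]; ring
  · intro k z
    have h1 := ck_pos y k
    have h2 := abs_cos_le_one (2 * π * ((k : ℕ) * z))
    rw [Real.norm_eq_abs, abs_mul, abs_mul (ck y k), abs_of_pos h1, abs_of_pos two_pi_pos]
    nlinarith [mul_pos two_pi_pos h1]

lemma continuous_Dn {y : ℝ} (hy : 0 < y) : Continuous (Dn y) := by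
  unfold Dn
  refine continuous_const.add (continuous_const.mul (continuous_tsum (fun k => by fun_prop)
    (ck_summable hy) fun k t => ?_))
  rw [norm_mul, Real.norm_of_nonneg (ck_pos y k).le]
  exact mul_le_of_le_one_right (ck_pos y k).le (abs_cos_le_one _)

lemma continuous_del {y : ℝ} (hy : 0 < y) : Continuous (del y) :=
  continuous_iff_continuousAt.mpr fun t => (hasDerivAt_del hy t).continuousAt

lemma del_neg (y t : ℝ) : del y (-t) = -del y t := by
  unfold del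
  rw [← mul_neg, ← tsum_neg]
  congr 1
  exact tsum_congr fun k => by simp [neg_div]

lemma del_add_one (y t : ℝ) : del y (t + 1) = del y t := by
  unfold del
  congr 1
  refine tsum_congr fun k => ?_
  rw [show 2 * π * (((k : ℕ) : ℝ) * (t + 1)) = 2 * π * ((k : ℕ) * t) + (k : ℕ) * (2 * π) by ring,
    sin_add_nat_mul_two_pi]

lemma del_zero (y : ℝ) : del y 0 = 0 := by simp [del]

lemma del_half (y : ℝ) : del y (1 / 2) = 0 := by
  have h1 := del_add_one y (-(1 / 2))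
  rw [del_neg] at h1
  norm_num at h1 ⊢
  linarith

/-- the complex nome -/
noncomputable def qc (y : ℝ) : ℂ := ((rr y : ℝ) : ℂ) ^ 2

lemma qc_eq (y : ℝ) : qc y = ((exp (-(π * y)) : ℝ) : ℂ) := by
  rw [qc, ← rr_sq]; push_cast; rfl

lemma norm_rr (y : ℝ) : ‖((rr y : ℝ) : ℂ)‖ = rr y := by
  rw [Complex.norm_real, Real.norm_of_nonneg (rr_pos y).le]

lemma norm_qc (y : ℝ) : ‖qc y‖ = rr y ^ 2 := by rw [qc, norm_pow, norm_rr]

lemma norm_qc_lt {y : ℝ} (hy : 0 < y) : ‖qc y‖ < 1 := by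
  rw [norm_qc]; exact pow_lt_one₀ (rr_pos y).le (rr_lt hy) two_ne_zero

lemma rr_ne (y : ℝ) : ((rr y : ℝ) : ℂ) ≠ 0 := by exact_mod_cast (rr_pos y).ne'

lemma qc_ne (y : ℝ) : qc y ≠ 0 := pow_ne_zero 2 (rr_ne y)

lemma one_add_sq_ne (x : ℝ) : (1 : ℂ) + (x : ℂ) ^ 2 ≠ 0 := by
  exact_mod_cast (by positivity : (1 : ℝ) + x ^ 2 ≠ 0)

lemma th_circle {y : ℝ} (hy : 0 < y) (t : ℝ) :
    th (qc y ^ 2) (rr y * ee t) =
      Complex.exp (del y t * I) * th (qc y ^ 2) (qc y * (rr y * ee t)) := by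
  have hq := norm_qc_lt hy
  have hp := norm_pow_lt hq two_ne_zero
  have hr := rr_ne y
  have he := ee_ne t
  have h0 := rr_pos y
  have h1 := rr_lt hy
  have e2 : qc y ^ 2 / (rr y * ee t) = (rr y : ℂ) ^ 3 * (ee t)⁻¹ := by unfold qc; field_simp
  have e3 : qc y * (rr y * ee t) = (rr y : ℂ) ^ 3 * ee t := by unfold qc; ring
  have e4 : qc y ^ 2 / ((rr y : ℂ) ^ 3 * ee t) = rr y * (ee t)⁻¹ := by unfold qc; field_simp
  have n3 : rr y ^ 3 < 1 := pow_lt_one₀ h0.le h1 three_ne_zero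
  unfold th
  rw [e2, e3, e4]
  obtain ⟨S1, s1, p1⟩ := poch_exp hp (x := rr y * ee t) (by simpa [norm_ee, abs_of_pos h0])
  obtain ⟨S2, s2, p2⟩ := poch_exp hp (x := (rr y : ℂ) ^ 3 * (ee t)⁻¹)
    (by simpa [norm_ee, abs_of_pos h0])
  obtain ⟨S3, s3, p3⟩ := poch_exp hp (x := (rr y : ℂ) ^ 3 * ee t)
    (by simpa [norm_ee, abs_of_pos h0])
  obtain ⟨S4, s4, p4⟩ := poch_exp hp (x := rr y * (ee t)⁻¹) (by simpa [norm_ee, abs_of_pos h0])
  rw [p1, p2, p3, p4, ← Complex.exp_add, ← Complex.exp_add, ← Complex.exp_add]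
  congr 1
  have h5 := (Complex.hasSum_ofReal.mpr ((del_summable hy t).hasSum.mul_left (-2))).mul_right I
  have := h5.unique ((((s3.add s4).sub s1).sub s2).congr_fun fun k => ?_)
  · unfold del; linear_combination -this
  · have a1 := one_sub_pow_ne hp k
    have a2 : ((k : ℕ) : ℂ) ≠ 0 := by exact_mod_cast k.ne_zero
    simp only [mul_pow, inv_pow, ee_pow, ck]
    rw [ee_inv_eq, ee_eq]
    have a3 := one_add_sq_ne (rr y ^ (k : ℕ))
    have a4 : (qc y ^ 2) ^ (k : ℕ) = (((rr y : ℂ) ^ (k : ℕ)) ^ 2) ^ 2 := by unfold qc; ring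
    have a5 : ((rr y : ℂ) ^ 3) ^ (k : ℕ) = ((rr y : ℂ) ^ (k : ℕ)) ^ 3 := by ring
    rw [a4] at a1
    rw [a4, a5]
    push_cast at a3 ⊢
    generalize (rr y : ℂ) ^ (k : ℕ) = x at a1 a3 ⊢
    rw [show 1 - (x ^ 2) ^ 2 = (1 - x ^ 2) * (1 + x ^ 2) by ring] at a1 ⊢
    have a6 := left_ne_zero_of_mul a1
    field_simp
    ring

/-- the sign sequence `(-1)^(m+1)` -/
def sg (m : ℕ+) : ℝ := -(-1) ^ (m : ℕ)

lemma PB_sg : PB sg := PBF.sgn.neg

lemma hasSum_sg {x : ℝ} (h0 : 0 ≤ x) (h1 : x < 1) :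
    HasSum (fun m : ℕ+ => sg m * x ^ (m : ℕ)) (x / (1 + x)) := by
  have := (hasSum_geometric_of_norm_lt_one (ξ := -x) (by simpa [abs_of_nonneg h0])).neg
  have h2 := (hasSum_pnat_iff (f := fun n : ℕ => -(-x) ^ n) (a := x / (1 + x))).mpr (by
    convert this using 1
    rw [sub_neg_eq_add]
    field_simp
    ring)
  refine h2.congr_fun fun m => ?_
  rw [sg, neg_pow x]; ring

lemma hasSum_sg_mul {x : ℝ} (h0 : 0 ≤ x) (h1 : x < 1) :
    HasSum (fun m : ℕ+ => (m : ℕ) * sg m * x ^ (m : ℕ)) (x / (1 + x) ^ 2) := by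
  have := (hasSum_coe_mul_geometric_of_norm_lt_one (r := -x) (by simpa [abs_of_nonneg h0])).neg
  have h2 := (hasSum_pnat_iff (f := fun n : ℕ => -(n * (-x) ^ n)) (a := x / (1 + x) ^ 2)).mpr (by
    convert this using 1
    rw [sub_neg_eq_add]
    simp [neg_div])
  refine h2.congr_fun fun m => ?_
  rw [sg, neg_pow x]; ring

lemma q_pow_lt {y : ℝ} (hy : 0 < y) (n : ℕ+) : exp (-(π * y)) ^ (n : ℕ) < 1 := by
  refine pow_lt_one₀ (exp_pos _).le ?_ n.ne_zero
  rw [exp_lt_one_iff]; nlinarith [mul_pos pi_pos hy]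

/-- half of the oscillating part of `ell` -/
noncomputable def uu (s y : ℝ) : ℝ :=
  2 * DS sg (fun n => cos (2 * π * ((n : ℕ) * s)) / ((n : ℕ) : ℝ)) y

lemma PBF_cos : PBF fun s n => cos (2 * π * ((n : ℕ) * s)) := PBF.cos _
lemma PBF_sin : PBF fun s n => sin (2 * π * ((n : ℕ) * s)) := PBF.sin _

lemma th_unit {y : ℝ} (hy : 0 < y) (s : ℝ) :
    th (qc y ^ 2) (ee s) =
      (1 - ee s) * Complex.exp (uu s y) * th (qc y ^ 2) (qc y * ee s) := by
  have hq := norm_qc_lt hy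
  have hp := norm_pow_lt hq two_ne_zero
  have hq0 := qc_ne y
  have he := ee_ne s
  have e4 : qc y ^ 2 / (qc y * ee s) = qc y * (ee s)⁻¹ := by field_simp
  unfold th
  rw [e4, poch_succ hp (ee s), div_eq_mul_inv, mul_comm (ee s)]
  obtain ⟨S1, s1, p1⟩ := poch_exp hp (x := qc y ^ 2 * ee s) (by rwa [norm_mul, norm_ee, mul_one])
  obtain ⟨S2, s2, p2⟩ := poch_exp hp (x := qc y ^ 2 * (ee s)⁻¹)
    (by rwa [norm_mul, norm_inv, norm_ee, inv_one, mul_one])
  obtain ⟨S3, s3, p3⟩ := poch_exp hp (x := qc y * ee s) (by rwa [norm_mul, norm_ee, mul_one])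
  obtain ⟨S4, s4, p4⟩ := poch_exp hp (x := qc y * (ee s)⁻¹)
    (by rwa [norm_mul, norm_inv, norm_ee, inv_one, mul_one])
  rw [p1, p2, p3, p4, mul_assoc, mul_assoc, ← Complex.exp_add, ← Complex.exp_add,
    ← Complex.exp_add]
  congr 2
  have h4 := DS_hasSum_right PB_sg (PBF_cos.div1.pb s) hy
    (fun n => hasSum_sg (by positivity) (q_pow_lt hy n))
  have h5 := Complex.hasSum_ofReal.mpr (h4.mul_left 2)
  have := h5.unique ((((s3.add s4).sub s1).sub s2).congr_fun fun k => ?_)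
  · unfold uu; linear_combination -this
  · have a1 := one_sub_pow_ne hp k
    have a2 : ((k : ℕ) : ℂ) ≠ 0 := by exact_mod_cast k.ne_zero
    simp only [mul_pow, inv_pow, ee_pow]
    rw [ee_inv_eq, ee_eq]
    have a3 : (1 : ℂ) + ((exp (-(π * y)) ^ (k : ℕ) : ℝ) : ℂ) ≠ 0 := by
      exact_mod_cast (by positivity : (1 : ℝ) + exp (-(π * y)) ^ (k : ℕ) ≠ 0)
    have a4 : (qc y ^ 2) ^ (k : ℕ) = (qc y ^ (k : ℕ)) ^ 2 := by ring
    have a5 : qc y ^ (k : ℕ) = ((exp (-(π * y)) ^ (k : ℕ) : ℝ) : ℂ) := by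
      rw [qc_eq, Complex.ofReal_pow]
    rw [a4, a5] at a1
    rw [a4, a5]
    generalize exp (-(π * y)) ^ (k : ℕ) = x at a1 a3 ⊢
    push_cast
    field_simp
    ring

/-- squared modulus of a q-product on a circle -/
noncomputable def Nq (y a t : ℝ) : ℝ := normSq (poch (a * ee t) (qc y))

lemma poch_conj {y : ℝ} (hy : 0 < y) (a t : ℝ) :
    poch (a * (ee t)⁻¹) (qc y) = (starRingEnd ℂ) (poch (a * ee t) (qc y)) := by
  have h := (poch_hasProd (norm_qc_lt hy) (a * ee t)).map (starRingEnd ℂ) Complex.continuous_conj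
  refine (poch_hasProd (norm_qc_lt hy) _).unique (h.congr_fun fun n => ?_)
  simp [qc, conj_ee]

lemma poch_mul_conj {y : ℝ} (hy : 0 < y) (a t : ℝ) :
    poch (a * ee t) (qc y) * poch (a * (ee t)⁻¹) (qc y) = Nq y a t := by
  rw [poch_conj hy, Complex.mul_conj, Nq]

lemma Nq_pos {y : ℝ} (hy : 0 < y) {a : ℝ} (h0 : 0 ≤ a) (h1 : a < 1) (t : ℝ) : 0 < Nq y a t :=
  Complex.normSq_pos.mpr (poch_ne_zero' (norm_qc_lt hy) (by simpa [norm_ee, abs_of_nonneg h0]))

lemma Nq_anti {y : ℝ} (hy : 0 < y) {a : ℝ} (h0 : 0 ≤ a) {u v : ℝ}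
    (h : cos (2 * π * u) ≤ cos (2 * π * v)) : Nq y a v ≤ Nq y a u := by
  have key : ∀ t, Tendsto (fun N => ∏ n ∈ Finset.range N, normSq (1 - a * ee t * qc y ^ n)) atTop
      (𝓝 (Nq y a t)) := fun t =>
    ((poch_hasProd (norm_qc_lt hy) (a * ee t)).map normSq
      Complex.continuous_normSq).tendsto_prod_nat
  refine le_of_tendsto_of_tendsto' (key v) (key u) fun N =>
    Finset.prod_le_prod (fun _ _ => Complex.normSq_nonneg _) fun n _ => ?_
  have e : ∀ t, normSq (1 - a * ee t * qc y ^ n) =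
      1 - 2 * (a * (rr y ^ 2) ^ n) * cos (2 * π * t) + (a * (rr y ^ 2) ^ n) ^ 2 := by
    intro t
    have : 1 - a * ee t * qc y ^ n = ((1 - a * (rr y ^ 2) ^ n * cos (2 * π * t) : ℝ) : ℂ) +
        ((-(a * (rr y ^ 2) ^ n * sin (2 * π * t)) : ℝ) : ℂ) * I := by
      rw [ee_eq, qc]; push_cast; ring
    rw [this, Complex.normSq_add_mul_I]
    nlinarith [sin_sq_add_cos_sq (2 * π * t)]
  rw [e, e]
  have : 0 ≤ a * (rr y ^ 2) ^ n := by positivity
  nlinarith

lemma hasDerivAt_th_ee {p : ℂ} (hp : ‖p‖ < 1) {c : ℂ} (hc : c ≠ 0) (t : ℝ) :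
    HasDerivAt (fun t => th p (c * ee t)) (2 * π * I * dd (th p) (c * ee t)) t := by
  have he := ee_ne t
  have h := (hasDerivAt_dd (differentiableOn_th hp) (mul_ne_zero hc he)).scomp t
    ((hasDerivAt_ee t).const_mul c)
  refine h.congr_deriv ?_
  rw [smul_eq_mul]
  field_simp

lemma two_pi_I_ne : (2 * π * I : ℂ) ≠ 0 := Complex.two_pi_I_ne_zero

lemma cos_add_half (t : ℝ) : cos (2 * π * (t + 1 / 2)) = -cos (2 * π * t) := by
  rw [show 2 * π * (t + 1 / 2) = 2 * π * t + π by ring, cos_add_pi]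

noncomputable def ells (s y : ℝ) : ℝ :=
  2 * π * (cos (π * s) / sin (π * s)) - 8 * π * DS sg (fun n => sin (2 * π * ((n : ℕ) * s))) y

lemma hasDerivAt_uu {y : ℝ} (hy : 0 < y) (s : ℝ) : HasDerivAt (fun s => uu s y)
    (-4 * π * DS sg (fun n => sin (2 * π * ((n : ℕ) * s))) y) s := by
  have := hasDerivAt_DS_s PB_sg PBF_cos.div1 ((PBF.const (-(2 * π))).mul PBF_sin)
    (fun s n => hasDerivAt_cos_div n s) hy s
  refine (this.const_mul 2).congr_deriv ?_
  rw [DS_smul_right]; ring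

theorem product_formulas {y : ℝ} (hy : 0 < y) : ∃ c : ℝ, 0 < c ∧
    (∀ t, Dn y t * Nq y (rr y) t = c * Nq y (rr y) (t + 1 / 2)) ∧
    ∀ s, sin (π * s) ≠ 0 → sin (π * s) * ells s y * Nq y (rr y ^ 2) s =
      2 * π * c * cos (π * s) * Nq y (rr y ^ 2) (s + 1 / 2) := by
  have hq := norm_qc_lt hy
  have hp := norm_pow_lt hq two_ne_zero
  have hq0 := qc_ne y
  have hr := rr_ne y
  obtain ⟨C, hC⟩ := theta_I3 hq hq0
  have hN : ∀ t, th (qc y) (rr y * ee t) = Nq y (rr y) t := fun t => by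
    rw [← poch_mul_conj hy, th]
    congr 2
    have := ee_ne t
    unfold qc; field_simp
  have h1 : ∀ t, ((Dn y t * Nq y (rr y) t : ℝ) : ℂ) = -2 * C * Nq y (rr y) (t + 1 / 2) := by
    intro t
    have he := ee_ne t
    have d1 := hasDerivAt_th_ee hp hr t
    have d2 := (((hasDerivAt_del hy t).ofReal_comp.mul_const I).cexp).mul
      (hasDerivAt_th_ee hp (mul_ne_zero hq0 hr) t)
    have d3 := d1.unique (d2.congr_of_eventuallyEq (.of_forall fun t => by
      simp only [Pi.mul_apply, th_circle hy t, mul_assoc]))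
    have d4 := hC _ (mul_ne_zero hr he)
    have d5 := th_two hq hq0 (rr y * ee t)
    have d6 := th_circle hy t
    rw [show -((rr y : ℂ) * ee t) = rr y * ee (t + 1 / 2) by rw [ee_add, ee_half]; ring, hN] at d4
    rw [hN] at d5
    rw [mul_assoc (qc y)] at d3
    push_cast at d3 ⊢
    apply mul_left_cancel₀ two_pi_I_ne
    rw [d5, mul_assoc (-2 : ℂ), ← d4, d6] at *
    linear_combination (2 * th (qc y ^ 2) (qc y * (rr y * ee t))) * d3
  have h0 := rr_pos y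
  have h2 : C = ((-(Dn y 0 * Nq y (rr y) 0) / (2 * Nq y (rr y) (0 + 1 / 2)) : ℝ) : ℂ) := by
    have := h1 0
    have a : ((Nq y (rr y) (0 + 1 / 2) : ℝ) : ℂ) ≠ 0 := by
      exact_mod_cast (Nq_pos hy h0.le (rr_lt hy) _).ne'
    push_cast at this ⊢
    rw [eq_div_iff (mul_ne_zero two_ne_zero a)]
    linear_combination this
  have hD0 : 0 < Dn y 0 := by
    unfold Dn
    have : 0 ≤ ∑' k : ℕ+, ck y k * cos (2 * π * ((k : ℕ) * 0)) :=
      tsum_nonneg fun k => by simpa using (ck_pos y k).le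
    linarith
  have hc : 0 < Dn y 0 * Nq y (rr y) 0 / Nq y (rr y) (0 + 1 / 2) :=
    div_pos (mul_pos hD0 (Nq_pos hy h0.le (rr_lt hy) _)) (Nq_pos hy h0.le (rr_lt hy) _)
  have h3 : C = -((Dn y 0 * Nq y (rr y) 0 / Nq y (rr y) (0 + 1 / 2) : ℝ) : ℂ) / 2 := by
    rw [h2]; push_cast; ring
  generalize Dn y 0 * Nq y (rr y) 0 / Nq y (rr y) (0 + 1 / 2) = c at hc h3
  refine ⟨c, hc, fun t => ?_, fun s hs => ?_⟩
  · have := h1 t
    rw [h3] at this
    exact_mod_cast (by push_cast at this ⊢; linear_combination this :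
      ((Dn y t * Nq y (rr y) t : ℝ) : ℂ) = ((c * Nq y (rr y) (t + 1 / 2) : ℝ) : ℂ))
  · have hM : ∀ s, th (qc y) (ee s) = (1 - ee s) * Nq y (rr y ^ 2) s := fun s => by
      rw [← poch_mul_conj hy, th, poch_succ hq (ee s), mul_assoc]
      congr 3
      · unfold qc; push_cast; ring
      · unfold qc; push_cast; rw [div_eq_mul_inv]
    have he := ee_ne s
    have d1 := hasDerivAt_th_ee hp one_ne_zero s
    have d2 := (((hasDerivAt_ee s).const_sub 1).mul ((hasDerivAt_uu hy s).ofReal_comp.cexp)).mul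
      (hasDerivAt_th_ee hp hq0 s)
    have d3 := d1.unique (d2.congr_of_eventuallyEq (.of_forall fun t => by
      simp only [Pi.mul_apply, th_unit hy t, one_mul]))
    have d4 := hC _ he
    have d5 := th_two hq hq0 (ee s)
    have d6 := th_unit hy s
    rw [show -ee s = ee (s + 1 / 2) by rw [ee_add, ee_half]; ring, hM, ee_add, ee_half] at d4
    rw [hM] at d5
    simp only [Pi.mul_apply, one_mul] at d3
    have e0 : ee s = ee (s / 2) ^ 2 := by rw [ee_pow]; congr 1; push_cast; ring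
    have e1 := ee_eq (s / 2)
    have e2 := ee_inv_eq (s / 2)
    rw [show 2 * π * (s / 2) = π * s by ring] at e1 e2
    have e3 := ee_ne (s / 2)
    have e2' : 1 = ee (s / 2) * ((cos (π * s) : ℝ) - (sin (π * s) : ℝ) * I) := by
      rw [← e2, mul_inv_cancel₀ e3]
    have e4 : 1 - ee s = -2 * I * (sin (π * s) : ℝ) * ee (s / 2) := by
      rw [e0]; linear_combination e2' - ee (s / 2) * e1
    have e5 : 1 + ee s = 2 * (cos (π * s) : ℝ) * ee (s / 2) := by
      rw [e0]; linear_combination e2' + ee (s / 2) * e1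
    have hs' : ((sin (π * s) : ℝ) : ℂ) ≠ 0 := by exact_mod_cast hs
    have e6 : 1 - ee s ≠ 0 := by
      rw [e4]; exact mul_ne_zero (mul_ne_zero (by simp) hs') e3
    have d7 : Complex.exp (uu s y) * th (qc y ^ 2) (qc y * ee s) ^ 2 = Nq y (rr y ^ 2) s := by
      apply mul_left_cancel₀ e6
      rw [d5, d6]; ring
    have d8 : (Nq y (rr y ^ 2) s : ℂ) * (-(2 * π * I) * (1 + ee s) / 2 + (1 - ee s) *
        ((-4 * π * DS sg (fun n => sin (2 * π * ((n : ℕ) * s))) y : ℝ) : ℂ)) =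
        2 * π * I * (C * ((1 + ee s) * Nq y (rr y ^ 2) (s + 1 / 2))) := by
      rw [← d7, show 1 + ee s = 1 - ee s * -1 by ring, ← d4, d6] at *
      linear_combination (-th (qc y ^ 2) (qc y * ee s)) * d3
    rw [e4, e5, h3] at d8
    have goal : ((sin (π * s) * ells s y * Nq y (rr y ^ 2) s : ℝ) : ℂ) =
        ((2 * π * c * cos (π * s) * Nq y (rr y ^ 2) (s + 1 / 2) : ℝ) : ℂ) := by
      unfold ells
      apply mul_left_cancel₀ (mul_ne_zero Complex.I_ne_zero e3)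
      simp only [Complex.ofReal_mul, Complex.ofReal_sub, Complex.ofReal_div, Complex.ofReal_neg,
        Complex.ofReal_ofNat] at d8 ⊢
      have hss := mul_div_cancel₀ ((cos (π * s) : ℝ) : ℂ) hs'
      linear_combination -d8 / 1 + (I * ee (s / 2) * 2 * π * Nq y (rr y ^ 2) s) * hss
    exact_mod_cast goal

lemma Dn_pos {y : ℝ} (hy : 0 < y) (t : ℝ) : 0 < Dn y t := by
  obtain ⟨c, hc, h, -⟩ := product_formulas hy
  have h1 := Nq_pos hy (rr_pos y).le (rr_lt hy) t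
  have h2 := Nq_pos hy (rr_pos y).le (rr_lt hy) (t + 1 / 2)
  have := h t
  by_contra hn
  nlinarith [mul_pos hc h2]

lemma Dn_mono {y : ℝ} (hy : 0 < y) {u v : ℝ} (huv : cos (2 * π * u) ≤ cos (2 * π * v)) :
    Dn y u ≤ Dn y v := by
  obtain ⟨c, hc, h, -⟩ := product_formulas hy
  have h1 := Nq_pos hy (rr_pos y).le (rr_lt hy) v
  have h2 := Nq_anti hy (rr_pos y).le huv
  have h3 := Nq_anti hy (rr_pos y).le (u := v + 1 / 2) (v := u + 1 / 2)
    (by rw [cos_add_half, cos_add_half]; linarith)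
  have h4 := Dn_pos hy u
  have h5 := h u
  have h6 := h v
  by_contra hn
  nlinarith [mul_le_mul_of_nonneg_left h3 hc.le, mul_le_mul_of_nonneg_left h2 h4.le]

lemma ells_nonneg {y : ℝ} (hy : 0 < y) {s : ℝ} (h0 : 0 < s) (h1 : s ≤ 1 / 2) : 0 ≤ ells s y := by
  obtain ⟨c, hc, -, h⟩ := product_formulas hy
  have a0 : 0 < sin (π * s) := sin_pos_of_pos_of_lt_pi (by positivity) (by nlinarith [pi_pos])
  have a1 : 0 ≤ cos (π * s) :=
    cos_nonneg_of_neg_pi_div_two_le_of_le (by nlinarith [pi_pos]) (by nlinarith [pi_pos])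
  have a2 : rr y ^ 2 < 1 := pow_lt_one₀ (rr_pos y).le (rr_lt hy) two_ne_zero
  have h2 := Nq_pos hy (sq_nonneg (rr y)) a2 s
  have h3 := Nq_pos hy (sq_nonneg (rr y)) a2 (s + 1 / 2)
  have h4 := h s a0.ne'
  have h5 : 0 ≤ 2 * π * c * cos (π * s) * Nq y (rr y ^ 2) (s + 1 / 2) := by positivity
  by_contra hn
  have : sin (π * s) * ells s y < 0 := mul_neg_of_pos_of_neg a0 (not_le.mp hn)
  nlinarith

end RV6
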