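import Pool.Agent.Lib.MP_15b3df_nt.RV04

/-! The curve `|a+b+c| = x` parametrized by theta quotients; Parseval computations. -/

open Real Filter Topology Set MeasureTheory
open Complex (I normSq)

namespace RV6

noncomputable def ell (s y : ℝ) : ℝ := log (4 * sin (π * s) ^ 2) - π * y / 2 + 2 * uu s y

noncomputable def x1 (y : ℝ) : ℝ := exp (ell (1 / 3) y)

noncomputable def x2 (y : ℝ) : ℝ := exp (ell (1 / 3) y - ell (1 / 6) y)

noncomputable def PP (s y : ℝ) : ℝ :=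
  6 / π * DS (fun m => (m : ℕ) * sg m) (fun n => sin (2 * π * ((n : ℕ) * s)) / ((n : ℕ) : ℝ)) y

lemma uu_neg (s y : ℝ) : uu (-s) y = uu s y := by simp [uu]

lemma uu_add_one (s y : ℝ) : uu (s + 1) y = uu s y := by
  unfold uu
  congr 2
  funext k
  rw [show 2 * π * (((k : ℕ) : ℝ) * (s + 1)) = 2 * π * ((k : ℕ) * s) + (k : ℕ) * (2 * π) by ring,
    cos_add_nat_mul_two_pi]

lemma uu_56 (y : ℝ) : uu (5 / 6) y = uu (1 / 6) y := by
  rw [← uu_neg (1 / 6), ← uu_add_one (-(1 / 6))]; norm_num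

lemma exp_ell_third (y : ℝ) : exp (ell (1 / 3) y) = 3 * rr y * exp (uu (1 / 3) y) ^ 2 := by
  unfold ell rr
  rw [show π * (1 / 3) = π / 3 by ring, sin_pi_div_three, sub_eq_add_neg, exp_add, exp_add,
    exp_log (by positivity), ← exp_nat_mul, div_pow, sq_sqrt (by norm_num)]
  norm_num

lemma exp_ell_sixth (y : ℝ) : exp (ell (1 / 6) y) = rr y * exp (uu (1 / 6) y) ^ 2 := by
  unfold ell rr
  rw [show π * (1 / 6) = π / 6 by ring, sin_pi_div_six, sub_eq_add_neg, exp_add, exp_add,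
    exp_log (by positivity), ← exp_nat_mul]
  norm_num

lemma exp_ell_half (y : ℝ) : exp (ell (1 / 2) y) = 4 * rr y * exp (uu (1 / 2) y) ^ 2 := by
  unfold ell rr
  rw [show π * (1 / 2) = π / 2 by ring, sin_pi_div_two, sub_eq_add_neg, exp_add, exp_add,
    exp_log (by positivity), ← exp_nat_mul]
  norm_num

lemma thq_ne {y : ℝ} (hy : 0 < y) {w : ℂ} (h1 : rr y ≤ ‖w‖) (h2 : ‖w‖ ≤ 1) :
    th (qc y ^ 2) (qc y * w) ≠ 0 := by
  have hq := norm_qc_lt hy
  have hp := norm_pow_lt hq two_ne_zero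
  have h0 := rr_pos y
  have h3 := rr_lt hy
  have h4 : ‖qc y * w‖ < 1 := by
    rw [norm_mul]; nlinarith [norm_nonneg (qc y), norm_nonneg w]
  refine th_ne_zero hp ?_ ?_ ?_
  · rw [norm_mul, norm_pow, norm_qc]
    have : rr y ^ 2 < ‖w‖ := by nlinarith
    nlinarith [pow_pos h0 2]
  · nlinarith [norm_nonneg (qc y * w), norm_nonneg (qc y ^ 2)]
  · intro h; rw [h] at h4; simp at h4

lemma thq_ne_r {y : ℝ} (hy : 0 < y) (t : ℝ) : th (qc y ^ 2) (qc y * (rr y * ee t)) ≠ 0 :=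
  thq_ne hy (by rw [norm_mul, norm_rr, norm_ee, mul_one])
    (by rw [norm_mul, norm_rr, norm_ee, mul_one]; exact (rr_lt hy).le)

lemma thq_ne_u {y : ℝ} (hy : 0 < y) (t : ℝ) : th (qc y ^ 2) (qc y * ee t) ≠ 0 :=
  thq_ne hy (by rw [norm_ee]; exact (rr_lt hy).le) (norm_ee t).le

lemma ee_third_sq : ee (1 / 3) ^ 2 = ee (-(1 / 3)) := by
  rw [ee_neg, rho_inv ee_third]

lemma normSq_three (α μ η : ℝ) :
    normSq (Complex.exp (α * I) + Complex.exp ((μ + η : ℝ) * I) + Complex.exp ((μ - η : ℝ) * I))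
      = 1 + 4 * cos η ^ 2 + 4 * cos η * cos (μ - α) := by
  have : Complex.exp (α * I) + Complex.exp ((μ + η : ℝ) * I) + Complex.exp ((μ - η : ℝ) * I) =
      ((cos α + 2 * cos η * cos μ : ℝ) : ℂ) + ((sin α + 2 * cos η * sin μ : ℝ) : ℂ) * I := by
    simp only [Complex.exp_mul_I, ← Complex.ofReal_cos, ← Complex.ofReal_sin, cos_add, cos_sub,
      sin_add, sin_sub]
    push_cast
    ring
  rw [this, Complex.normSq_add_mul_I, cos_sub]
  nlinarith [sin_sq_add_cos_sq α, sin_sq_add_cos_sq μ]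

lemma normSq_expI (α : ℝ) : normSq (Complex.exp (α * I)) = 1 := by
  rw [Complex.normSq_eq_norm_sq, Complex.norm_exp_ofReal_mul_I]; norm_num

lemma normSq_ee (t : ℝ) : normSq (ee t) = 1 := normSq_expI _

noncomputable def xi1 (y t : ℝ) : ℝ := π / 3 - (del y (t + 1 / 3) - del y (t - 1 / 3)) / 2

noncomputable def la1 (y t : ℝ) : ℝ := (del y (t + 1 / 3) + del y (t - 1 / 3)) / 2 - del y t

theorem curve1 {y : ℝ} (hy : 0 < y) (t : ℝ) :
    1 + 4 * cos (xi1 y t) ^ 2 - 4 * cos (xi1 y t) * cos (la1 y t) = x1 y ^ 2 := by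
  have hr := rr_ne y
  have h := theta_I1 (norm_qc_lt hy) (qc_ne y) ee_third (mul_ne_zero hr (ee_ne t))
  have e1 : ee (1 / 3) * (rr y * ee t) = rr y * ee (t + 1 / 3) := by rw [ee_add]; ring
  have e2 : ee (-(1 / 3)) * (rr y * ee t) = rr y * ee (t - 1 / 3) := by
    rw [sub_eq_add_neg, ee_add]; ring
  rw [ee_third_sq, mul_assoc (qc y), mul_assoc (qc y), e1, e2, th_circle hy, th_circle hy,
    th_circle hy, th_unit hy, th_unit hy, uu_neg] at h
  have t0 := thq_ne_r hy t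
  have t1 := thq_ne_r hy (t + 1 / 3)
  have t2 := thq_ne_r hy (t - 1 / 3)
  have t3 := thq_ne_u hy (1 / 3)
  have t4 := thq_ne_u hy (-(1 / 3))
  have h3 : (1 - ee (1 / 3)) * (1 - ee (-(1 / 3))) = 3 := by
    rw [← ee_third_sq]; linear_combination (ee (1 / 3) - 2) * ee_third
  have h2 : ee t * (Complex.exp (del y t * I) + ee (1 / 3) * Complex.exp (del y (t + 1 / 3) * I)
      + ee (-(1 / 3)) * Complex.exp (del y (t - 1 / 3) * I)) =
      (x1 y : ℝ) * (Complex.exp (del y t * I) * Complex.exp (del y (t + 1 / 3) * I) *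
        Complex.exp (del y (t - 1 / 3) * I)) := by
    apply mul_left_cancel₀ (mul_ne_zero (mul_ne_zero (mul_ne_zero (mul_ne_zero
      (mul_ne_zero t0 t1) t2) t3) t4) hr)
    rw [x1, exp_ell_third]
    push_cast
    rw [← h3]
    have : qc y = (rr y : ℂ) ^ 2 := rfl
    linear_combination h + (th (qc y ^ 2) (qc y * (rr y * ee t)) *
      th (qc y ^ 2) (qc y * (rr y * ee (t + 1 / 3))) *
      th (qc y ^ 2) (qc y * (rr y * ee (t - 1 / 3))) * th (qc y ^ 2) (qc y * ee (1 / 3)) *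
      th (qc y ^ 2) (qc y * ee (-(1 / 3))) * (1 - ee (1 / 3)) * (1 - ee (-(1 / 3))) *
      Complex.exp (uu (1 / 3) y) ^ 2 * (Complex.exp (del y t * I) *
      Complex.exp (del y (t + 1 / 3) * I) * Complex.exp (del y (t - 1 / 3) * I))) * this
  have h4 := congrArg normSq h2
  simp only [map_mul, normSq_ee, normSq_expI, Complex.normSq_ofReal, one_mul, mul_one] at h4
  have h5 := normSq_three (del y t) ((del y (t + 1 / 3) + del y (t - 1 / 3)) / 2) (π - xi1 y t)
  rw [cos_pi_sub] at h5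
  have h6 : ∀ a b c : ℝ, c = 2 * π * a + b →
      ee a * Complex.exp (b * I) = Complex.exp (c * I) := by
    rintro a b c rfl
    unfold ee; rw [← Complex.exp_add]; congr 1; push_cast; ring
  rw [h6 _ _ ((del y (t + 1 / 3) + del y (t - 1 / 3)) / 2 + (π - xi1 y t)) (by unfold xi1; ring),
    h6 _ _ ((del y (t + 1 / 3) + del y (t - 1 / 3)) / 2 - (π - xi1 y t)) (by unfold xi1; ring),
    h5] at h4
  unfold la1
  linear_combination h4

theorem half_rel {y : ℝ} (hy : 0 < y) :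
    exp (ell (1 / 2) y) * (1 + x1 y * exp (ell (1 / 6) y)) ^ 2 = 4 * exp (ell (1 / 6) y) := by
  have h := theta_I1 (norm_qc_lt hy) (qc_ne y) ee_third (ee_ne (1 / 2))
  rw [ee_third_sq, mul_assoc (qc y), mul_assoc (qc y), ← ee_add, ← ee_add, th_unit hy,
    th_unit hy, th_unit hy, th_unit hy (1 / 3), th_unit hy (-(1 / 3)), uu_neg,
    show (1 / 3 + 1 / 2 : ℝ) = 5 / 6 by norm_num, uu_56,
    show (-(1 / 3) + 1 / 2 : ℝ) = 1 / 6 by norm_num] at h
  have t0 := thq_ne_u hy (1 / 2)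
  have t1 := thq_ne_u hy (5 / 6)
  have t2 := thq_ne_u hy (1 / 6)
  have t3 := thq_ne_u hy (1 / 3)
  have t4 := thq_ne_u hy (-(1 / 3))
  have e1 : ee (5 / 6) = -ee (1 / 3) := by
    rw [show (5 / 6 : ℝ) = 1 / 3 + 1 / 2 by norm_num, ee_add, ee_half]; ring
  have e2 : ee (1 / 6) = -ee (1 / 3) ^ 2 := by
    rw [show (1 / 6 : ℝ) = -(1 / 3) + 1 / 2 by norm_num, ee_add, ee_half, ee_third_sq]; ring
  have h2 : ((exp (uu (1 / 6) y) : ℝ) : ℂ) = ((exp (uu (1 / 2) y) *
      (1 + 3 * rr y ^ 2 * exp (uu (1 / 3) y) ^ 2 * exp (uu (1 / 6) y) ^ 2) : ℝ) : ℂ) := by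
    generalize th (qc y ^ 2) (qc y * ee (1 / 2)) = T0 at h t0
    generalize th (qc y ^ 2) (qc y * ee (5 / 6)) = T1 at h t1
    generalize th (qc y ^ 2) (qc y * ee (1 / 6)) = T2 at h t2
    generalize th (qc y ^ 2) (qc y * ee (1 / 3)) = T3 at h t3
    generalize th (qc y ^ 2) (qc y * ee (-(1 / 3))) = T4 at h t4
    rw [e1, e2, ← ee_third_sq, ee_half, qc] at h
    apply mul_left_cancel₀ (mul_ne_zero (mul_ne_zero (mul_ne_zero (mul_ne_zero
      (mul_ne_zero t0 t1) t2) t3) t4) two_ne_zero)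
    have hρ := ee_third
    have h3 := rho_cube hρ
    push_cast
    generalize ee (1 / 3) = ρ at h hρ h3
    have a1 : (1 - ρ) * (1 - ρ ^ 2) = 3 := by linear_combination (ρ - 2) * hρ
    have a2 : (1 + ρ) * (1 + ρ ^ 2) = 1 := by linear_combination ρ * hρ
    have a3 : ρ * (1 + ρ) + ρ ^ 2 * (1 + ρ ^ 2) = -2 := by
      linear_combination (ρ ^ 2 - ρ + 2) * hρ
    generalize Complex.exp (uu (1 / 6) y) = A at h
    generalize Complex.exp (uu (1 / 2) y) = B at h
    generalize Complex.exp (uu (1 / 3) y) = C at h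
    linear_combination h + (T0 * T1 * T2 * T3 * T4 * A) * a3 +
      (2 * T0 * T1 * T2 * T3 * T4 * (rr y : ℂ) ^ 2 * C ^ 2 * B * A ^ 2) *
        (((1 + ρ) * (1 + ρ ^ 2)) * a1 + 3 * a2)
  have h3 := Complex.ofReal_injective h2
  rw [x1, exp_ell_third, exp_ell_sixth, exp_ell_half]
  have h4 := congrArg (fun z => z ^ 2) h3
  linear_combination (-4 * rr y) * h4

noncomputable def del2 (y t : ℝ) : ℝ := del y t - del y (t + 1 / 2)

noncomputable def xi2 (y t : ℝ) : ℝ := (del2 y (t + 1 / 3) - del2 y (t - 1 / 3)) / 2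

noncomputable def la2 (y t : ℝ) : ℝ := (del2 y (t + 1 / 3) + del2 y (t - 1 / 3)) / 2 - del2 y t

theorem curve2 {y : ℝ} (hy : 0 < y) (t : ℝ) :
    1 + 4 * cos (xi2 y t) ^ 2 + 4 * cos (xi2 y t) * cos (la2 y t) = x2 y ^ 2 := by
  have hr := rr_ne y
  have hq : ‖-qc y‖ < 1 := by rw [norm_neg]; exact norm_qc_lt hy
  have hq0 : -qc y ≠ 0 := neg_ne_zero.mpr (qc_ne y)
  have h := theta_I2 hq hq0 ee_third (mul_ne_zero hr (ee_ne t))
  have e0 : ∀ t, -ee t = ee (t + 1 / 2) := fun t => by rw [ee_add, ee_half]; ring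
  have c1 : ∀ t, th (-qc y) (rr y * ee t) =
      Complex.exp (del2 y t * I) * th (-qc y) (-(rr y * ee t)) := by
    intro t
    rw [th_two hq hq0, th_two hq hq0 (-_), neg_sq, neg_mul_neg, neg_mul, ← mul_neg (qc y),
      ← mul_neg (rr y : ℂ), e0, th_circle hy t, th_circle hy (t + 1 / 2)]
    have : Complex.exp (del y t * I) =
        Complex.exp (del2 y t * I) * Complex.exp (del y (t + 1 / 2) * I) := by
      rw [← Complex.exp_add, del2]; congr 1; push_cast; ring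
    rw [this]; ring
  have c2 : ∀ t, th (-qc y) (-(rr y * ee t)) ≠ 0 := by
    intro t
    rw [th_two hq hq0 (-_), neg_sq, neg_mul_neg, ← mul_neg (rr y : ℂ), e0, th_circle hy]
    exact mul_ne_zero (mul_ne_zero (Complex.exp_ne_zero _) (thq_ne_r hy _)) (thq_ne_r hy _)
  have c3 : ∀ s, th (-qc y) (ee s) = (1 - ee s) * Complex.exp (uu s y) *
      (th (qc y ^ 2) (qc y * ee s) * th (qc y ^ 2) (qc y * ee (s + 1 / 2))) := by
    intro s
    rw [th_two hq hq0, neg_sq, neg_mul, ← mul_neg (qc y), e0, th_unit hy]; ring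
  have c4 : ∀ s, th (-qc y) (-ee s) = (1 + ee s) * Complex.exp (uu (s + 1 / 2) y) *
      (th (qc y ^ 2) (qc y * ee s) * th (qc y ^ 2) (qc y * ee (s + 1 / 2))) := by
    intro s
    rw [th_two hq hq0, neg_sq, neg_mul_neg, e0, th_unit hy, ← e0]; ring
  have e1 : ee (1 / 3) * (rr y * ee t) = rr y * ee (t + 1 / 3) := by rw [ee_add]; ring
  have e2 : ee (-(1 / 3)) * (rr y * ee t) = rr y * ee (t - 1 / 3) := by
    rw [sub_eq_add_neg, ee_add]; ring
  rw [ee_third_sq, neg_mul, neg_mul, e1, e2, c1 t, c1 (t + 1 / 3), c1 (t - 1 / 3), c3, c3, c4, c4,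
    uu_neg, show (1 / 3 + 1 / 2 : ℝ) = 5 / 6 by norm_num, uu_56,
    show (-(1 / 3) + 1 / 2 : ℝ) = 1 / 6 by norm_num] at h
  have t0 := c2 t
  have t1 := c2 (t + 1 / 3)
  have t2 := c2 (t - 1 / 3)
  have t3 := mul_ne_zero (thq_ne_u hy (1 / 3)) (thq_ne_u hy (5 / 6))
  have t4 := mul_ne_zero (thq_ne_u hy (-(1 / 3))) (thq_ne_u hy (1 / 6))
  have h2 : Complex.exp (del2 y t * I) + Complex.exp (del2 y (t + 1 / 3) * I)
      + Complex.exp (del2 y (t - 1 / 3) * I) =
      (x2 y : ℝ) * (Complex.exp (del2 y t * I) * Complex.exp (del2 y (t + 1 / 3) * I) *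
        Complex.exp (del2 y (t - 1 / 3) * I)) := by
    generalize th (-qc y) (-(rr y * ee t)) = T0 at h t0
    generalize th (-qc y) (-(rr y * ee (t + 1 / 3))) = T1 at h t1
    generalize th (-qc y) (-(rr y * ee (t - 1 / 3))) = T2 at h t2
    generalize th (qc y ^ 2) (qc y * ee (1 / 3)) * th (qc y ^ 2) (qc y * ee (5 / 6)) = T3 at h t3
    generalize th (qc y ^ 2) (qc y * ee (-(1 / 3))) * th (qc y ^ 2) (qc y * ee (1 / 6)) = T4
      at h t4
    have hA := Complex.exp_ne_zero (uu (1 / 6) y)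
    rw [x2, exp_sub, exp_ell_third, exp_ell_sixth]
    push_cast
    rw [← ee_third_sq] at h
    have hρ := ee_third
    generalize ee (1 / 3) = ρ at h hρ
    have a1 : (1 - ρ) * (1 - ρ ^ 2) = 3 := by linear_combination (ρ - 2) * hρ
    have a2 : (1 + ρ) * (1 + ρ ^ 2) = 1 := by linear_combination ρ * hρ
    generalize Complex.exp (uu (1 / 6) y) = A at h hA
    generalize Complex.exp (uu (1 / 3) y) = C at h
    generalize Complex.exp (del2 y t * I) = E0 at h
    generalize Complex.exp (del2 y (t + 1 / 3) * I) = E1 at h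
    generalize Complex.exp (del2 y (t - 1 / 3) * I) = E2 at h
    field_simp
    apply mul_left_cancel₀ (mul_ne_zero (mul_ne_zero (mul_ne_zero (mul_ne_zero t0 t1) t2) t3) t4)
    linear_combination h - (T0 * T1 * T2 * T3 * T4 * A ^ 2 * (E0 + E1 + E2)) * a2 +
      (T0 * T1 * T2 * T3 * T4 * C ^ 2 * E0 * E1 * E2) * a1
  have h4 := congrArg normSq h2
  simp only [map_mul, normSq_expI, Complex.normSq_ofReal, mul_one] at h4
  have h5 := normSq_three (del2 y t) ((del2 y (t + 1 / 3) + del2 y (t - 1 / 3)) / 2) (xi2 y t)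
  rw [show (del2 y (t + 1 / 3) + del2 y (t - 1 / 3)) / 2 + xi2 y t = del2 y (t + 1 / 3) by
    unfold xi2; ring, show (del2 y (t + 1 / 3) + del2 y (t - 1 / 3)) / 2 - xi2 y t =
      del2 y (t - 1 / 3) by unfold xi2; ring, h4] at h5
  unfold la2
  linear_combination -h5

lemma integral_cos_int (j : ℤ) :
    ∫ t in (0 : ℝ)..(1 / 2), cos (2 * π * (j * t)) = if j = 0 then 1 / 2 else 0 := by
  split_ifs with h
  · simp [h]
  · have hj : (2 * π * j : ℝ) ≠ 0 := mul_ne_zero two_pi_pos.ne' (by exact_mod_cast h)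
    simp_rw [← mul_assoc]
    rw [intervalIntegral.integral_comp_mul_left (fun x => cos x) hj, integral_cos,
      show 2 * π * j * (1 / 2) = j * π by ring, sin_int_mul_pi]
    simp

lemma integral_sin_sin (k l : ℕ+) :
    ∫ t in (0 : ℝ)..(1 / 2), sin (2 * π * ((k : ℕ) * t)) * sin (2 * π * ((l : ℕ) * t)) =
      if k = l then 1 / 4 else 0 := by
  have h : ∀ t : ℝ, sin (2 * π * ((k : ℕ) * t)) * sin (2 * π * ((l : ℕ) * t)) =
      (cos (2 * π * ((((k : ℕ) : ℤ) - (l : ℕ) : ℤ) * t)) -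
        cos (2 * π * ((((k : ℕ) : ℤ) + (l : ℕ) : ℤ) * t))) / 2 := by
    intro t
    push_cast
    rw [sub_mul, add_mul, mul_sub, mul_add, cos_sub, cos_add]; ring
  simp_rw [h]
  rw [intervalIntegral.integral_div, intervalIntegral.integral_sub
    (Continuous.intervalIntegrable (by fun_prop) _ _)
    (Continuous.intervalIntegrable (by fun_prop) _ _), integral_cos_int, integral_cos_int]
  have h1 : ((k : ℕ) : ℤ) + (l : ℕ) ≠ 0 := by have := k.pos; omega
  rw [if_neg h1]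
  by_cases hkl : k = l
  · simp [hkl]; norm_num
  · have : ((k : ℕ) : ℤ) - (l : ℕ) ≠ 0 := fun h => hkl (PNat.eq (by omega))
    simp [hkl, this]

lemma parseval {a b : ℕ+ → ℝ} (ha : Summable a) (hb : Summable b) {f g : ℝ → ℝ}
    (hf : ∀ t, HasSum (fun k : ℕ+ => a k * sin (2 * π * ((k : ℕ) * t))) (f t))
    (hg : ∀ t, HasSum (fun k : ℕ+ => b k * sin (2 * π * ((k : ℕ) * t))) (g t)) :
    HasSum (fun k => a k * b k / 4) (∫ t in (0 : ℝ)..(1 / 2), f t * g t) := by
  have hab := ha.norm.mul_of_nonneg hb.norm (fun _ => norm_nonneg _) (fun _ => norm_nonneg _)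
  have key := hasSum_integral_of_summable_integral_norm (μ := volume.restrict (Ioc (0 : ℝ) (1 / 2)))
    (F := fun (p : ℕ+ × ℕ+) t => (a p.1 * sin (2 * π * ((p.1 : ℕ) * t))) *
      (b p.2 * sin (2 * π * ((p.2 : ℕ) * t))))
    (fun p => (Continuous.integrableOn_Ioc (by fun_prop))) (by
      refine Summable.of_nonneg_of_le (fun p => integral_nonneg fun t => norm_nonneg _)
        (fun p => ?_) (hab.mul_left (1 / 2))
      refine (Real.le_norm_self _).trans ((norm_setIntegral_le_of_norm_le_const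
        (C := ‖a p.1‖ * ‖b p.2‖) measure_Ioc_lt_top fun t _ => ?_).trans (le_of_eq ?_))
      · rw [norm_norm, norm_mul, norm_mul, norm_mul]
        have h1 : ‖sin (2 * π * ((p.1 : ℕ) * t))‖ ≤ 1 := abs_sin_le_one _
        have h2 : ‖sin (2 * π * ((p.2 : ℕ) * t))‖ ≤ 1 := abs_sin_le_one _
        exact mul_le_mul (mul_le_of_le_one_right (norm_nonneg _) h1)
          (mul_le_of_le_one_right (norm_nonneg _) h2) (by positivity) (norm_nonneg _)
      · simp; ring)
  have e1 : ∀ t, ∑' p : ℕ+ × ℕ+, (a p.1 * sin (2 * π * ((p.1 : ℕ) * t))) *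
      (b p.2 * sin (2 * π * ((p.2 : ℕ) * t))) = f t * g t := fun t => by
    rw [← (hf t).tsum_eq, ← (hg t).tsum_eq,
      tsum_mul_tsum_of_summable_norm (hf t).summable.norm (hg t).summable.norm]
  simp_rw [e1] at key
  rw [intervalIntegral.integral_of_le (by norm_num)]
  have hinj : Function.Injective fun k : ℕ+ => (k, k) := fun k l h => (Prod.mk.inj h).1
  have e2 : ∀ p : ℕ+ × ℕ+, ∫ t in Ioc (0 : ℝ) (1 / 2), (a p.1 * sin (2 * π * ((p.1 : ℕ) * t))) *
      (b p.2 * sin (2 * π * ((p.2 : ℕ) * t))) =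
      a p.1 * b p.2 * if p.1 = p.2 then 1 / 4 else 0 := fun p => by
    rw [← integral_sin_sin, ← intervalIntegral.integral_of_le (by norm_num),
      ← intervalIntegral.integral_const_mul]
    congr 1; funext t; ring
  simp_rw [e2] at key
  refine ((hinj.hasSum_iff fun p hp => ?_).mpr key).congr_fun fun k => ?_
  · rw [if_neg, mul_zero]
    intro h
    exact hp ⟨p.1, Prod.ext rfl h⟩
  · simp; ring

lemma hasSum_PP {y : ℝ} (hy : 0 < y) (s : ℝ) :
    HasSum (fun k : ℕ+ => 6 / π * (sin (2 * π * ((k : ℕ) * s)) / ((k : ℕ) : ℝ) * ck y k ^ 2))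
      (PP s y) := by
  have h4 := DS_hasSum_right (PB.id.mul PB_sg) (PBF_sin.div1.pb s) hy
    (fun n => hasSum_sg_mul (by positivity) (q_pow_lt hy n))
  refine (h4.mul_left (6 / π)).congr_fun fun k => ?_
  rw [ck, ← rr_sq, div_pow, ← pow_mul, ← pow_mul, mul_comm 2 (k : ℕ)]

lemma hasSum_del_add {y : ℝ} (hy : 0 < y) (h t : ℝ) :
    HasSum (fun k : ℕ+ => ck y k * (-4 * (cos (2 * π * ((k : ℕ) * h)) / ((k : ℕ) : ℝ))) *
      sin (2 * π * ((k : ℕ) * t))) (del y (t + h) + del y (t - h)) := by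
  refine (((del_summable hy (t + h)).hasSum.mul_left (-2)).add
    ((del_summable hy (t - h)).hasSum.mul_left (-2))).congr_fun fun k => ?_
  rw [mul_add, mul_sub, mul_add, mul_sub, sin_add, sin_sub]; ring

lemma hasSum_Dn_sub {y : ℝ} (hy : 0 < y) (h t : ℝ) :
    HasSum (fun k : ℕ+ => ck y k * (-8 * sin (2 * π * ((k : ℕ) * h))) *
      sin (2 * π * ((k : ℕ) * t))) (Dn y (t + h) - Dn y (t - h)) := by
  have hs : ∀ t, Summable fun k : ℕ+ => ck y k * cos (2 * π * ((k : ℕ) * t)) := fun t =>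
    ck_summable_mul hy 1 fun k => abs_cos_le_one _
  have := ((hs (t + h)).hasSum.mul_left 4).sub ((hs (t - h)).hasSum.mul_left 4)
  unfold Dn
  rw [add_sub_add_left_eq_sub]
  refine this.congr_fun fun k => ?_
  rw [mul_add, mul_sub, mul_add, mul_sub, cos_add, cos_sub]; ring

theorem JJ {y : ℝ} (hy : 0 < y) (h h' : ℝ) :
    ∫ t in (0 : ℝ)..(1 / 2), (del y (t + h) + del y (t - h)) * (Dn y (t + h') - Dn y (t - h')) =
      2 * π / 3 * (PP (h' + h) y + PP (h' - h) y) := by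
  have h1 := parseval (ck_summable_mul hy 4 fun k => ?_) (ck_summable_mul hy 8 fun k => ?_)
    (hasSum_del_add hy h) (hasSum_Dn_sub hy h')
  · refine h1.unique ((((hasSum_PP hy (h' + h)).add (hasSum_PP hy (h' - h))).mul_left
      (2 * π / 3)).congr_fun fun k => ?_)
    rw [mul_add ((k : ℕ) : ℝ), mul_sub, mul_add (2 * π), mul_sub, sin_add, sin_sub]
    have := pi_pos.ne'
    field_simp
    ring
  · have := (abs_div_c_le (a := cos (2 * π * ((k : ℕ) * h))) k).trans (abs_cos_le_one _)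
    rw [abs_mul]; norm_num; linarith
  · have := abs_sin_le_one (2 * π * ((k : ℕ) * h'))
    rw [abs_mul]; norm_num; linarith

lemma PP_neg (s y : ℝ) : PP (-s) y = -PP s y := by
  unfold PP
  rw [← mul_neg, ← neg_one_mul (DS _ _ _), ← DS_smul_right _ _ (-1)]
  congr 2
  funext k
  simp [neg_div]

lemma PP_add_one (s y : ℝ) : PP (s + 1) y = PP s y := by
  unfold PP
  congr 2
  funext k
  rw [show 2 * π * (((k : ℕ) : ℝ) * (s + 1)) = 2 * π * ((k : ℕ) * s) + (k : ℕ) * (2 * π) by ring,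
    sin_add_nat_mul_two_pi]

lemma PP_one_sub (s y : ℝ) : PP (1 - s) y = -PP s y := by
  rw [← PP_neg, ← PP_add_one (-s)]; ring_nf

lemma PP_zero (y : ℝ) : PP 0 y = 0 := by
  have := PP_neg 0 y
  rw [neg_zero] at this
  linarith

lemma PP_half (y : ℝ) : PP (1 / 2) y = 0 := by
  have := PP_one_sub (1 / 2) y
  norm_num at this ⊢
  linarith

end RV6
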