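import Pool.Agent.Lib.MP_15b3df_nt.RV05

/-! The distribution function of the three-step walk along the theta parametrizations. -/

open Real Filter Topology Set MeasureTheory

namespace RV6

noncomputable def hh (x ξ : ℝ) : ℝ := (1 + 4 * cos ξ ^ 2 - x ^ 2) / (4 * cos ξ)

/-- distribution function of `|1+a+b|` -/
noncomputable def P3 (x : ℝ) : ℝ := 1 / π ^ 2 * ∫ ξ in (-(π / 2))..(π / 2), arccos (hh x ξ)

lemma measurable_hh (x : ℝ) : Measurable (hh x) := by unfold hh; fun_prop

lemma ii_arccos {f : ℝ → ℝ} (hf : Measurable f) (a b : ℝ) :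
    IntervalIntegrable (fun ξ => arccos (f ξ)) volume a b := by
  refine (intervalIntegrable_const (c := π)).mono_fun
    (continuous_arccos.measurable.comp hf).aestronglyMeasurable (.of_forall fun ξ => ?_)
  simp only [Real.norm_eq_abs, abs_of_nonneg (arccos_nonneg _), abs_of_pos pi_pos]
  exact arccos_le_pi _

lemma continuousOn_hh (x : ℝ) : ContinuousOn (hh x) (Ioo (-(π / 2)) (π / 2)) := by
  unfold hh
  refine ContinuousOn.div (by fun_prop) (by fun_prop) fun ξ hξ => ?_
  have := cos_pos_of_mem_Ioo hξ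
  positivity

lemma mono_aux {g E : ℝ → ℝ} (hg : ∀ t, HasDerivAt g (-π * E t) t)
    (hE : ∀ u v, cos (2 * π * u) ≤ cos (2 * π * v) → E u ≤ E v) {t : ℝ} (ht : t ∈ Icc 0 (1 / 2)) :
    MonotoneOn (fun h => g (h + t) - g (h - t)) (Icc 0 (1 / 2)) := by
  have hd : ∀ h, HasDerivAt (fun h => g (h + t) - g (h - t)) (-π * E (h + t) - -π * E (h - t)) h :=
    fun h => ((hg (h + t)).comp_add_const h t).sub ((hg (h - t)).comp_sub_const h t)
  refine monotoneOn_of_deriv_nonneg (convex_Icc _ _)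
    (fun h _ => (hd h).continuousAt.continuousWithinAt)
    (fun h _ => (hd h).differentiableAt.differentiableWithinAt) fun h hh => ?_
  rw [interior_Icc] at hh
  rw [(hd h).deriv]
  have : E (h + t) ≤ E (h - t) := by
    apply hE
    rw [mul_add, mul_sub, cos_add, cos_sub]
    have a1 : 0 ≤ sin (2 * π * h) :=
      sin_nonneg_of_nonneg_of_le_pi (by nlinarith [pi_pos, hh.1]) (by nlinarith [pi_pos, hh.2])
    have a2 : 0 ≤ sin (2 * π * t) :=
      sin_nonneg_of_nonneg_of_le_pi (by nlinarith [pi_pos, ht.1]) (by nlinarith [pi_pos, ht.2])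
    nlinarith [mul_nonneg a1 a2]
  nlinarith [pi_pos]

variable {y : ℝ}

lemma del_mono (hy : 0 < y) {t : ℝ} (ht : t ∈ Icc 0 (1 / 2)) :
    MonotoneOn (fun h => del y (h + t) - del y (h - t)) (Icc 0 (1 / 2)) :=
  mono_aux (hasDerivAt_del hy) (fun _ _ h => sub_le_sub_right (Dn_mono hy h) 1) ht

lemma hasDerivAt_del2 (hy : 0 < y) (t : ℝ) :
    HasDerivAt (del2 y) (-π * (Dn y t - Dn y (t + 1 / 2))) t :=
  ((hasDerivAt_del hy t).sub ((hasDerivAt_del hy (t + 1 / 2)).comp_add_const t (1 / 2))).congr_deriv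
    (by ring)

lemma del2_mono (hy : 0 < y) {t : ℝ} (ht : t ∈ Icc 0 (1 / 2)) :
    MonotoneOn (fun h => del2 y (h + t) - del2 y (h - t)) (Icc 0 (1 / 2)) :=
  mono_aux (hasDerivAt_del2 hy) (fun _ _ h => sub_le_sub (Dn_mono hy h)
    (Dn_mono hy (by rw [cos_add_half, cos_add_half]; linarith))) ht

lemma phi_anti (hy : 0 < y) : StrictAnti fun t => del y t - π * t := by
  refine strictAnti_of_hasDerivAt_neg (f' := fun t => -π * (Dn y t - 1) - π * 1)
    (fun t => (hasDerivAt_del hy t).sub ((hasDerivAt_id t).const_mul π)) fun t => ?_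
  nlinarith [mul_pos pi_pos (Dn_pos hy t)]

lemma del_lt (hy : 0 < y) {a b : ℝ} (h : a < b) : del y b - del y a < π * (b - a) := by
  have := phi_anti hy h
  simp only at this
  linarith

lemma del_gt (hy : 0 < y) {a b : ℝ} (h : b < a + 1) : π * (b - a) - π < del y b - del y a := by
  have := del_lt hy h
  rw [del_add_one] at this
  linarith

lemma del_le (hy : 0 < y) {a b : ℝ} (h : a ≤ b) : del y b - del y a ≤ π * (b - a) := by
  rcases h.eq_or_lt with rfl | h
  · simp
  · exact (del_lt hy h).le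

lemma del_ge (hy : 0 < y) {a b : ℝ} (h : b ≤ a + 1) : π * (b - a) - π ≤ del y b - del y a := by
  have := del_le hy h
  rw [del_add_one] at this
  linarith

lemma del_one_sub (y t : ℝ) : del y (1 - t) = -del y t := by
  rw [← del_neg, ← del_add_one y (-t)]; ring_nf

lemma del_sub_comm (y a b : ℝ) : del y (a - b) = -del y (b - a) := by
  rw [← del_neg, neg_sub]

lemma xi1_mem (hy : 0 < y) (t : ℝ) : 0 < xi1 y t ∧ xi1 y t < π / 2 := by
  have h1 := del_lt hy (a := t - 1 / 3) (b := t + 1 / 3) (by linarith)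
  have h2 := del_gt hy (a := t - 1 / 3) (b := t + 1 / 3) (by linarith)
  unfold xi1
  constructor <;> nlinarith

lemma la1_mem (hy : 0 < y) {t : ℝ} (ht : t ∈ Icc 0 (1 / 2)) : 0 ≤ la1 y t ∧ la1 y t ≤ π := by
  have h1 := del_mono hy ht (a := 0) (b := 1 / 3) (by norm_num) (by norm_num) (by norm_num)
  have h2 := del_le hy (a := 1 / 3 - t) (b := 1 / 3 + t) (by linarith [ht.1])
  have h3 := del_ge hy (a := -t) (b := t) (by linarith [ht.2])
  simp only [zero_add, zero_sub, del_neg] at h1 h3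
  unfold la1
  rw [del_sub_comm, add_comm t]
  constructor <;> nlinarith [pi_pos]

lemma xi1_zero (y : ℝ) : xi1 y 0 = π / 3 - del y (1 / 3) := by
  simp only [xi1, zero_add, zero_sub, del_neg]; ring

lemma xi1_half (y : ℝ) : xi1 y (1 / 2) = π / 3 + del y (1 / 6) := by
  have := del_one_sub y (1 / 6)
  unfold xi1
  norm_num at this ⊢
  linarith

lemma del_third_nonpos (hy : 0 < y) : del y (1 / 3) ≤ 0 := by
  have h1 := del_mono hy (t := 1 / 3) (by norm_num) (a := 0) (b := 1 / 3) (by norm_num)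
    (by norm_num) (by norm_num)
  have := del_one_sub y (1 / 3)
  simp only [zero_add, zero_sub, del_neg, sub_self, del_zero] at h1
  norm_num at this h1 ⊢
  linarith

lemma del_sixth_nonpos (hy : 0 < y) : del y (1 / 6) ≤ 0 := by
  have h1 := del_mono hy (t := 1 / 3) (by norm_num) (a := 1 / 6) (b := 1 / 2) (by norm_num)
    (by norm_num) (by norm_num)
  have h2 := del_one_sub y (1 / 6)
  have h3 := del_half y
  have h4 := del_neg y (1 / 6)
  norm_num at h1 h2 h3 h4 ⊢
  linarith

lemma x1_pos (y : ℝ) : 0 < x1 y := exp_pos _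
lemma x2_pos (y : ℝ) : 0 < x2 y := exp_pos _

lemma x1_eq (hy : 0 < y) : x1 y = 1 - 2 * cos (xi1 y 0) := by
  have h := curve1 hy 0
  have h0 : la1 y 0 = 0 := by simp [la1, del_neg, del_zero]
  have h1 : cos (xi1 y 0) ≤ 1 / 2 := by
    rw [← cos_pi_div_three]
    refine cos_le_cos_of_nonneg_of_le_pi (by positivity) (by linarith [(xi1_mem hy 0).2, pi_pos]) ?_
    rw [xi1_zero]; linarith [del_third_nonpos hy]
  rw [h0, cos_zero] at h
  exact (pow_left_inj₀ (x1_pos y).le (by linarith) two_ne_zero).mp (by linarith)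

lemma x1_eq' (hy : 0 < y) : x1 y = 2 * cos (xi1 y (1 / 2)) - 1 := by
  have h := curve1 hy (1 / 2)
  have h0 : la1 y (1 / 2) = 0 := by
    have h2 := del_one_sub y (1 / 6)
    have h3 := del_half y
    unfold la1
    norm_num at h2 h3 ⊢
    linarith
  have h1 : 1 / 2 ≤ cos (xi1 y (1 / 2)) := by
    refine cos_pi_div_three.symm.le.trans ?_
    refine cos_le_cos_of_nonneg_of_le_pi (xi1_mem hy _).1.le (by linarith [pi_pos]) ?_
    rw [xi1_half]; linarith [del_sixth_nonpos hy]
  rw [h0, cos_zero] at h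
  exact (pow_left_inj₀ (x1_pos y).le (by linarith) two_ne_zero).mp (by linarith)

lemma hasDerivAt_xi1 (hy : 0 < y) (t : ℝ) :
    HasDerivAt (xi1 y) (π / 2 * (Dn y (t + 1 / 3) - Dn y (t - 1 / 3))) t :=
  (((((hasDerivAt_del hy _).comp_add_const t (1 / 3)).sub
    ((hasDerivAt_del hy _).comp_sub_const t (1 / 3))).div_const 2).const_sub (π / 3)).congr_deriv
    (by ring)

lemma ae_ne (c : ℝ) : ∀ᵐ x : ℝ, x ≠ c := by
  rw [ae_iff]; simp

lemma ii_J (hy : 0 < y) (h h' : ℝ) : IntervalIntegrable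
    (fun t => (del y (t + h) + del y (t - h)) * (Dn y (t + h') - Dn y (t - h'))) volume 0 (1 / 2) := by
  have := continuous_del hy
  have := continuous_Dn hy
  exact Continuous.intervalIntegrable (by fun_prop) _ _

theorem P3_x1 (hy : 0 < y) : P3 (x1 y) = PP (1 / 3) y := by
  set x := x1 y with hx
  have hx0 : 0 < x := x1_pos y
  have ii := ii_arccos (measurable_hh x)
  have hD := continuous_Dn hy
  have h1 : ∫ ξ in (-(π / 2))..0, arccos (hh x ξ) = ∫ ξ in (0 : ℝ)..(π / 2), arccos (hh x ξ) := by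
    have := intervalIntegral.integral_comp_neg (a := 0) (b := π / 2) fun ξ => arccos (hh x ξ)
    simp only [neg_zero] at this
    rw [← this]
    simp [hh]
  have h2 : ∫ ξ in (0 : ℝ)..(xi1 y (1 / 2)), arccos (hh x ξ) = 0 := by
    refine intervalIntegral.integral_zero_ae (.of_forall fun ξ hξ => ?_)
    have m := xi1_mem hy (1 / 2)
    rw [uIoc_of_le m.1.le] at hξ
    have a1 := cos_le_cos_of_nonneg_of_le_pi hξ.1.le (by linarith [pi_pos]) hξ.2
    have a2 := x1_eq' hy
    refine arccos_eq_zero.mpr ?_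
    unfold hh
    rw [le_div_iff₀ (by linarith)]
    nlinarith
  have h3 : ∫ ξ in (xi1 y 0)..(π / 2), arccos (hh x ξ) = 0 := by
    refine intervalIntegral.integral_zero_ae ?_
    filter_upwards [ae_ne (π / 2)] with ξ hne hξ
    have m := xi1_mem hy 0
    rw [uIoc_of_le m.2.le] at hξ
    have a1 := cos_le_cos_of_nonneg_of_le_pi m.1.le (by linarith [pi_pos, hξ.2]) hξ.1.le
    have a2 := x1_eq hy
    have a3 : 0 < cos ξ := cos_pos_of_mem_Ioo ⟨by linarith [hξ.1], lt_of_le_of_ne hξ.2 hne⟩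
    refine arccos_eq_zero.mpr ?_
    unfold hh
    rw [le_div_iff₀ (by linarith)]
    nlinarith
  have h4 := intervalIntegral.integral_comp_mul_deriv' (a := 0) (b := 1 / 2)
    (g := fun ξ => arccos (hh x ξ)) (fun t _ => hasDerivAt_xi1 hy t)
    (Continuous.continuousOn (by fun_prop)) (continuous_arccos.comp_continuousOn
      ((continuousOn_hh x).mono (by
        rintro _ ⟨t, -, rfl⟩
        exact ⟨by linarith [(xi1_mem hy t).1, pi_pos], (xi1_mem hy t).2⟩)))
  have h5 : ∫ t in (0 : ℝ)..(1 / 2), ((fun ξ => arccos (hh x ξ)) ∘ xi1 y) t *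
      (π / 2 * (Dn y (t + 1 / 3) - Dn y (t - 1 / 3))) = ∫ t in (0 : ℝ)..(1 / 2), π / 4 *
      ((del y (t + 1 / 3) + del y (t - 1 / 3)) * (Dn y (t + 1 / 3) - Dn y (t - 1 / 3)) -
        (del y (t + 0) + del y (t - 0)) * (Dn y (t + 1 / 3) - Dn y (t - 1 / 3))) := by
    refine intervalIntegral.integral_congr fun t ht => ?_
    rw [uIcc_of_le (by norm_num)] at ht
    have m := xi1_mem hy t
    have a3 : 0 < cos (xi1 y t) := cos_pos_of_mem_Ioo ⟨by linarith [pi_pos], m.2⟩
    have : hh x (xi1 y t) = cos (la1 y t) := by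
      unfold hh
      rw [div_eq_iff (by positivity), hx, ← curve1 hy t]; ring
    simp only [Function.comp, this, arccos_cos (la1_mem hy ht).1 (la1_mem hy ht).2, add_zero,
      sub_zero]
    unfold la1
    ring
  rw [h5, intervalIntegral.integral_const_mul, intervalIntegral.integral_sub (ii_J hy _ _)
    (ii_J hy _ _), JJ hy, JJ hy] at h4
  have h6 := PP_one_sub (1 / 3) y
  have h7 := intervalIntegral.integral_add_adjacent_intervals (ii (-(π / 2)) 0) (ii 0 (π / 2))
  have h8 := intervalIntegral.integral_add_adjacent_intervals (ii 0 (xi1 y (1 / 2)))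
    (ii (xi1 y (1 / 2)) (xi1 y 0))
  have h9 := intervalIntegral.integral_add_adjacent_intervals (ii 0 (xi1 y 0))
    (ii (xi1 y 0) (π / 2))
  rw [intervalIntegral.integral_symm] at h4
  rw [P3, ← h7, h1, ← h9, ← h8, h2, h3]
  norm_num [PP_zero] at h4 h6 ⊢
  rw [h6] at h4
  have := pi_pos
  field_simp
  linarith

lemma del2_neg (y t : ℝ) : del2 y (-t) = -del2 y t := by
  unfold del2
  rw [del_neg, show -t + 1 / 2 = 1 - (t + 1 / 2) by ring, del_one_sub]; ring

lemma xi2_mem (hy : 0 < y) (t : ℝ) : xi2 y t ∈ Ioo (-(π / 2)) (π / 2) := by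
  have h1 := del_lt hy (a := t - 1 / 3) (b := t + 1 / 3) (by linarith)
  have h2 := del_gt hy (a := t - 1 / 3) (b := t + 1 / 3) (by linarith)
  have h3 := del_lt hy (a := t - 1 / 3 + 1 / 2) (b := t + 1 / 3 + 1 / 2) (by linarith)
  have h4 := del_gt hy (a := t - 1 / 3 + 1 / 2) (b := t + 1 / 3 + 1 / 2) (by linarith)
  unfold xi2 del2
  constructor <;> nlinarith

lemma la2_mem (hy : 0 < y) {t : ℝ} (ht : t ∈ Icc 0 (1 / 2)) : 0 ≤ la2 y t ∧ la2 y t ≤ π := by
  have h1 := del2_mono hy ht (a := 0) (b := 1 / 3) (by norm_num) (by norm_num) (by norm_num)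
  have e : del2 y (t - 1 / 3) = -del2 y (1 / 3 - t) := by rw [← del2_neg, neg_sub]
  simp only [zero_add, zero_sub, del2_neg] at h1
  unfold la2
  rw [e, add_comm t]
  refine ⟨by linarith, ?_⟩
  have e2 := del2_neg y t
  have h2 := del_le hy (a := 1 / 3 - t) (b := 1 / 3 + t) (by linarith [ht.1])
  have h3 := del_ge hy (a := -t) (b := t) (by linarith [ht.2])
  have h4 := del_ge hy (a := 1 / 3 - t + 1 / 2) (b := 1 / 3 + t + 1 / 2) (by linarith [ht.2])
  have h5 := del_le hy (a := -t + 1 / 2) (b := t + 1 / 2) (by linarith [ht.1])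
  unfold del2 at *
  nlinarith

lemma xi2_zero (y : ℝ) : xi2 y 0 = del y (1 / 3) + del y (1 / 6) := by
  have := del_one_sub y (1 / 6)
  simp only [xi2, zero_add, zero_sub, del2_neg]
  unfold del2
  norm_num at this ⊢
  linarith

lemma xi2_half (y : ℝ) : xi2 y (1 / 2) = -xi2 y 0 := by
  have h1 := del_one_sub y (1 / 6)
  have h2 := del_one_sub y (1 / 3)
  have h3 := del_add_one y (1 / 3)
  rw [xi2_zero]
  unfold xi2 del2
  norm_num at h1 h2 h3 ⊢
  linarith

lemma x2_eq (hy : 0 < y) : x2 y = 1 + 2 * cos (xi2 y 0) := by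
  have h := curve2 hy 0
  have h0 : la2 y 0 = 0 := by
    have := del2_neg y 0
    simp only [la2, zero_add, zero_sub, del2_neg]
    rw [neg_zero] at this
    linarith
  have h1 := cos_pos_of_mem_Ioo (xi2_mem hy 0)
  rw [h0, cos_zero] at h
  exact (pow_left_inj₀ (x2_pos y).le (by linarith) two_ne_zero).mp (by linarith)

lemma Dn_add_one (y t : ℝ) : Dn y (t + 1) = Dn y t := by
  unfold Dn
  congr 2
  refine tsum_congr fun k => ?_
  rw [show 2 * π * (((k : ℕ) : ℝ) * (t + 1)) = 2 * π * ((k : ℕ) * t) + (k : ℕ) * (2 * π) by ring,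
    cos_add_nat_mul_two_pi]

lemma hasDerivAt_xi2 (hy : 0 < y) (t : ℝ) :
    HasDerivAt (xi2 y) (-(π / 2) * ((Dn y (t + 1 / 3) - Dn y (t - 1 / 3)) +
      (Dn y (t + 1 / 6) - Dn y (t - 1 / 6)))) t := by
  refine ((((hasDerivAt_del2 hy _).comp_add_const t (1 / 3)).sub
    ((hasDerivAt_del2 hy _).comp_sub_const t (1 / 3))).div_const 2).congr_deriv ?_
  rw [show t + 1 / 3 + 1 / 2 = t - 1 / 6 + 1 by ring, Dn_add_one,
    show t - 1 / 3 + 1 / 2 = t + 1 / 6 by ring]
  ring

theorem P3_x2 (hy : 0 < y) : 1 - P3 (x2 y) = PP (1 / 3) y + PP (1 / 6) y := by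
  set x := x2 y with hx
  have hx0 : 0 < x := x2_pos y
  have ii := ii_arccos (measurable_hh x).neg
  have hD := continuous_Dn hy
  have m := xi2_mem hy 0
  have hle : xi2 y 0 ≤ 0 := by
    rw [xi2_zero]; linarith [del_third_nonpos hy, del_sixth_nonpos hy]
  have h0 : ∀ ξ, 0 < cos ξ → cos ξ ≤ cos (xi2 y 0) → arccos (-hh x ξ) = 0 := by
    intro ξ a1 a2
    have a3 := x2_eq hy
    refine arccos_eq_zero.mpr ?_
    unfold hh
    rw [← neg_div, le_div_iff₀ (by linarith)]
    nlinarith
  have h2 : ∫ ξ in (-(π / 2))..(xi2 y 0), arccos (-hh x ξ) = 0 := by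
    refine intervalIntegral.integral_zero_ae (.of_forall fun ξ hξ => ?_)
    rw [uIoc_of_le m.1.le] at hξ
    refine h0 ξ (cos_pos_of_mem_Ioo ⟨hξ.1, by linarith [hξ.2, m.2]⟩) ?_
    rw [← cos_neg ξ, ← cos_neg (xi2 y 0)]
    exact cos_le_cos_of_nonneg_of_le_pi (by linarith) (by linarith [hξ.1, pi_pos])
      (by linarith [hξ.2])
  have h3 : ∫ ξ in (-xi2 y 0)..(π / 2), arccos (-hh x ξ) = 0 := by
    refine intervalIntegral.integral_zero_ae ?_
    filter_upwards [ae_ne (π / 2)] with ξ hne hξ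
    rw [uIoc_of_le (by linarith [m.1])] at hξ
    refine h0 ξ (cos_pos_of_mem_Ioo ⟨by linarith [hξ.1, pi_pos], lt_of_le_of_ne hξ.2 hne⟩) ?_
    rw [← cos_neg (xi2 y 0)]
    exact cos_le_cos_of_nonneg_of_le_pi (by linarith) (by linarith [hξ.2, pi_pos]) hξ.1.le
  have h4 := intervalIntegral.integral_comp_mul_deriv' (a := 0) (b := 1 / 2)
    (g := fun ξ => arccos (-hh x ξ)) (fun t _ => hasDerivAt_xi2 hy t)
    (Continuous.continuousOn (by fun_prop)) (continuous_arccos.comp_continuousOn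
      ((continuousOn_hh x).neg.mono (by
        rintro _ ⟨t, -, rfl⟩
        exact xi2_mem hy t)))
  have h5 : ∫ t in (0 : ℝ)..(1 / 2), ((fun ξ => arccos (-hh x ξ)) ∘ xi2 y) t *
      (-(π / 2) * ((Dn y (t + 1 / 3) - Dn y (t - 1 / 3)) +
      (Dn y (t + 1 / 6) - Dn y (t - 1 / 6)))) = ∫ t in (0 : ℝ)..(1 / 2), -(π / 4) *
      (((del y (t + 1 / 3) + del y (t - 1 / 3)) * (Dn y (t + 1 / 3) - Dn y (t - 1 / 3)) -
        (del y (t + 1 / 6) + del y (t - 1 / 6)) * (Dn y (t + 1 / 3) - Dn y (t - 1 / 3)) -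
        (del y (t + 0) + del y (t - 0)) * (Dn y (t + 1 / 3) - Dn y (t - 1 / 3)) +
        (del y (t + 1 / 2) + del y (t - 1 / 2)) * (Dn y (t + 1 / 3) - Dn y (t - 1 / 3))) +
       ((del y (t + 1 / 3) + del y (t - 1 / 3)) * (Dn y (t + 1 / 6) - Dn y (t - 1 / 6)) -
        (del y (t + 1 / 6) + del y (t - 1 / 6)) * (Dn y (t + 1 / 6) - Dn y (t - 1 / 6)) -
        (del y (t + 0) + del y (t - 0)) * (Dn y (t + 1 / 6) - Dn y (t - 1 / 6)) +
        (del y (t + 1 / 2) + del y (t - 1 / 2)) * (Dn y (t + 1 / 6) - Dn y (t - 1 / 6)))) := by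
    refine intervalIntegral.integral_congr fun t ht => ?_
    rw [uIcc_of_le (by norm_num)] at ht
    have a3 : 0 < cos (xi2 y t) := cos_pos_of_mem_Ioo (xi2_mem hy t)
    have : -hh x (xi2 y t) = cos (la2 y t) := by
      unfold hh
      rw [← neg_div, div_eq_iff (by positivity), hx, ← curve2 hy t]; ring
    simp only [Function.comp, this, arccos_cos (la2_mem hy ht).1 (la2_mem hy ht).2, add_zero,
      sub_zero]
    unfold la2 del2
    rw [show t + 1 / 3 + 1 / 2 = t - 1 / 6 + 1 by ring, del_add_one,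
      show t - 1 / 3 + 1 / 2 = t + 1 / 6 by ring, show t + 1 / 2 = t - 1 / 2 + 1 by ring,
      del_add_one]
    ring
  have j := ii_J hy
  rw [h5, intervalIntegral.integral_const_mul, intervalIntegral.integral_add
    ((((j _ _).sub (j _ _)).sub (j _ _)).add (j _ _))
    ((((j _ _).sub (j _ _)).sub (j _ _)).add (j _ _)),
    intervalIntegral.integral_add (((j _ _).sub (j _ _)).sub (j _ _)) (j _ _),
    intervalIntegral.integral_add (((j _ _).sub (j _ _)).sub (j _ _)) (j _ _),
    intervalIntegral.integral_sub ((j _ _).sub (j _ _)) (j _ _),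
    intervalIntegral.integral_sub ((j _ _).sub (j _ _)) (j _ _),
    intervalIntegral.integral_sub (j _ _) (j _ _),
    intervalIntegral.integral_sub (j _ _) (j _ _)] at h4
  simp only [JJ hy] at h4
  have p1 := PP_one_sub (1 / 3) y
  have p2 := PP_one_sub (1 / 6) y
  have p3 := PP_neg (1 / 3) y
  have p4 := PP_neg (1 / 6) y
  have p5 := PP_half y
  have h7 := intervalIntegral.integral_add_adjacent_intervals (ii (-(π / 2)) (xi2 y 0))
    (ii (xi2 y 0) (-xi2 y 0))
  have h8 := intervalIntegral.integral_add_adjacent_intervals (ii (-(π / 2)) (-xi2 y 0))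
    (ii (-xi2 y 0) (π / 2))
  have h9 : ∫ ξ in (-(π / 2))..(π / 2), arccos (-hh x ξ) =
      π ^ 2 - ∫ ξ in (-(π / 2))..(π / 2), arccos (hh x ξ) := by
    simp_rw [arccos_neg]
    rw [intervalIntegral.integral_sub intervalIntegrable_const (ii_arccos (measurable_hh x) _ _)]
    simp
    ring
  simp only [Pi.neg_apply] at h7 h8
  rw [xi2_half] at h4
  rw [← h7, h2, h3, ← h4, h9] at h8
  rw [P3]
  norm_num [PP_zero] at h8 p1 p2 p3 p4 p5 ⊢
  rw [p1, p2, p3, p4, p5] at h8
  have := pi_pos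
  field_simp
  linarith

lemma abs_del_le (hy : 0 < y) {t : ℝ} (h0 : -1 ≤ t) (h1 : t ≤ 1) : |del y t| ≤ π := by
  have key : ∀ t, 0 ≤ t → t ≤ 1 → |del y t| ≤ π := by
    intro t h0 h1
    have a1 := del_le hy h0
    have a2 := del_ge hy (a := 0) (b := t) (by linarith)
    rw [del_zero] at a1 a2
    rw [abs_le]
    constructor <;> nlinarith [pi_pos]
  rcases le_total 0 t with h | h
  · exact key t h h1
  · rw [← abs_neg, ← del_neg]; exact key _ (by linarith) (by linarith)

theorem abs_PP_le (hy : 0 < y) {s : ℝ} (hs : s ∈ Icc 0 (1 / 2)) : |PP s y| ≤ 6 := by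
  have h1 := JJ hy 0 s
  have hD := continuous_Dn hy
  have hd : ∀ t, HasDerivAt (fun t => 2 * (del y (t + s) - del y (t - s)))
      (2 * π * (Dn y (t - s) - Dn y (t + s))) t := fun t =>
    ((((hasDerivAt_del hy _).comp_add_const t s).sub
      ((hasDerivAt_del hy _).comp_sub_const t s)).const_mul 2).congr_deriv (by ring)
  have h2 := intervalIntegral.integral_eq_sub_of_hasDerivAt (a := 0) (b := 1 / 2)
    (fun t _ => hd t) (Continuous.intervalIntegrable (by fun_prop) _ _)
  have h3 := intervalIntegral.norm_integral_le_of_norm_le (a := 0) (b := 1 / 2) (μ := volume)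
    (f := fun t => (del y (t + 0) + del y (t - 0)) * (Dn y (t + s) - Dn y (t - s)))
    (g := fun t => 2 * π * (Dn y (t - s) - Dn y (t + s))) (by norm_num)
    (.of_forall fun t ht => by
      have a0 : Dn y (t + s) ≤ Dn y (t - s) := by
        apply Dn_mono hy
        rw [mul_add, mul_sub, cos_add, cos_sub]
        have a1 : 0 ≤ sin (2 * π * s) :=
          sin_nonneg_of_nonneg_of_le_pi (by nlinarith [pi_pos, hs.1]) (by nlinarith [pi_pos, hs.2])
        have a2 : 0 ≤ sin (2 * π * t) :=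
          sin_nonneg_of_nonneg_of_le_pi (by nlinarith [pi_pos, ht.1]) (by nlinarith [pi_pos, ht.2])
        nlinarith [mul_nonneg a1 a2]
      have a3 := abs_del_le hy (t := t) (by linarith [ht.1]) (by linarith [ht.2])
      rw [add_zero, sub_zero, ← two_mul, norm_mul, norm_mul, Real.norm_eq_abs (_ - _),
        abs_sub_comm, abs_of_nonneg (by linarith), Real.norm_eq_abs (del y t), Real.norm_ofNat]
      gcongr)
    (Continuous.intervalIntegrable (by fun_prop) _ _)
  rw [h1, h2, add_zero, sub_zero, ← two_mul, norm_mul, norm_mul, Real.norm_of_nonneg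
    (by positivity), Real.norm_ofNat, Real.norm_eq_abs] at h3
  have b1 := abs_le.mp (abs_del_le hy (t := 1 / 2 + s) (by linarith [hs.1]) (by linarith [hs.2]))
  have b2 := abs_le.mp (abs_del_le hy (t := 1 / 2 - s) (by linarith [hs.2]) (by linarith [hs.1]))
  have b3 := abs_le.mp (abs_del_le hy (t := 0 + s) (by linarith [hs.1]) (by linarith [hs.2]))
  have b4 := abs_le.mp (abs_del_le hy (t := 0 - s) (by linarith [hs.2]) (by linarith [hs.1]))
  by_contra hn
  nlinarith [pi_pos]

lemma integral_del_sin (hy : 0 < y) :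
    ∫ u in (0 : ℝ)..(1 / 2), (del y u - π * u + π / 2) * sin (2 * π * u) = 1 / 4 - ck y 1 / 2 := by
  classical
  have h1 := parseval (a := fun k => ck y k * (-2 / ((k : ℕ) : ℝ)))
    (b := fun k => if k = 1 then 1 else 0) (f := del y) (g := fun u => sin (2 * π * u))
    (ck_summable_mul hy 2 fun k => (abs_div_c_le k).trans (by norm_num))
    (hasSum_ite_eq (1 : ℕ+) (1 : ℝ)).summable
    (fun t => ((del_summable hy t).hasSum.mul_left (-2)).congr_fun fun k => by ring)
    (fun t => (hasSum_ite_eq (1 : ℕ+) (sin (2 * π * t))).congr_fun fun k => by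
      split_ifs with h <;> simp [h])
  have h2 : ∫ t in (0 : ℝ)..(1 / 2), del y t * sin (2 * π * t) = -ck y 1 / 2 :=
    h1.unique ((hasSum_ite_eq (1 : ℕ+) (-ck y 1 / 2)).congr_fun fun k => by
      split_ifs with h <;> simp [h]; ring)
  have hd : ∀ u, HasDerivAt (fun u => (u - 1 / 2) / 2 * cos (2 * π * u) - sin (2 * π * u) / (4 * π))
      ((-π * u + π / 2) * sin (2 * π * u)) u := by
    intro u
    have h : HasDerivAt (fun u : ℝ => 2 * π * u) (2 * π * 1) u := (hasDerivAt_id u).const_mul _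
    refine (((((hasDerivAt_id u).sub_const (1 / 2)).div_const 2).mul h.cos).sub
      (h.sin.div_const (4 * π))).congr_deriv ?_
    have := pi_pos
    simp only [id]
    field_simp
    ring
  have h3 := intervalIntegral.integral_eq_sub_of_hasDerivAt (a := 0) (b := 1 / 2)
    (fun t _ => hd t) (Continuous.intervalIntegrable (by fun_prop) _ _)
  have := continuous_del hy
  have h4 : ∀ u, (del y u - π * u + π / 2) * sin (2 * π * u) =
      del y u * sin (2 * π * u) + (-π * u + π / 2) * sin (2 * π * u) := fun u => by ring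
  simp_rw [h4]
  rw [intervalIntegral.integral_add (Continuous.intervalIntegrable (by fun_prop) _ _)
    (Continuous.intervalIntegrable (by fun_prop) _ _), h2, h3,
    show 2 * π * (1 / 2) = π by ring]
  simp
  ring

theorem tendsto_del {t : ℝ} (h0 : 0 < t) (h1 : t ≤ 1 / 2) :
    Tendsto (fun y => del y t) (𝓝[>] 0) (𝓝 (π * t - π / 2)) := by
  have hc : 0 < ∫ u in (0 : ℝ)..t, sin (2 * π * u) := by
    refine intervalIntegral.intervalIntegral_pos_of_pos_on
      (Continuous.intervalIntegrable (by fun_prop) _ _) (fun u hu => ?_) h0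
    exact sin_pos_of_pos_of_lt_pi (by nlinarith [pi_pos, hu.1]) (by nlinarith [pi_pos, hu.2])
  set c := ∫ u in (0 : ℝ)..t, sin (2 * π * u) with hcd
  have hlim : Tendsto (fun y => (1 / 4 - ck y 1 / 2) / c + (π * t - π / 2)) (𝓝[>] 0)
      (𝓝 ((1 / 4 - ck 0 1 / 2) / c + (π * t - π / 2))) := by
    refine tendsto_nhdsWithin_of_tendsto_nhds (Continuous.tendsto ?_ 0)
    unfold ck rr
    have : ∀ y : ℝ, 1 + (exp (-(π * y / 2)) ^ ((1 : ℕ+) : ℕ)) ^ 2 ≠ 0 := fun y => by positivity
    fun_prop (disch := assumption)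
  rw [show ck 0 1 = 1 / 2 by simp [ck, rr]; norm_num] at hlim
  norm_num at hlim
  refine tendsto_of_tendsto_of_tendsto_of_le_of_le' tendsto_const_nhds hlim ?_ ?_
  · filter_upwards [self_mem_nhdsWithin] with y hy
    have := del_le hy h1
    rw [del_half] at this
    linarith
  · filter_upwards [self_mem_nhdsWithin] with y hy
    have hy' : 0 < y := hy
    have hdel := continuous_del hy'
    have hs : ∀ u, 0 ≤ u → u ≤ 1 / 2 → 0 ≤ sin (2 * π * u) := fun u a b =>
      sin_nonneg_of_nonneg_of_le_pi (by nlinarith [pi_pos]) (by nlinarith [pi_pos])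
    have a1 : (del y t - π * t + π / 2) * c ≤
        ∫ u in (0 : ℝ)..t, (del y u - π * u + π / 2) * sin (2 * π * u) := by
      rw [hcd, ← intervalIntegral.integral_const_mul]
      refine intervalIntegral.integral_mono_on h0.le
        (Continuous.intervalIntegrable (by fun_prop) _ _)
        (Continuous.intervalIntegrable (by fun_prop) _ _) fun u hu => ?_
      refine mul_le_mul_of_nonneg_right ?_ (hs u hu.1 (hu.2.trans h1))
      have := del_le hy' hu.2
      linarith
    have a2 : 0 ≤ ∫ u in t..(1 / 2), (del y u - π * u + π / 2) * sin (2 * π * u) := by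
      refine intervalIntegral.integral_nonneg h1 fun u hu =>
        mul_nonneg ?_ (hs u (h0.le.trans hu.1) hu.2)
      have := del_le hy' hu.2
      rw [del_half] at this
      linarith
    have a3 := intervalIntegral.integral_add_adjacent_intervals (μ := volume) (a := 0) (b := t)
      (c := 1 / 2) (f := fun u => (del y u - π * u + π / 2) * sin (2 * π * u))
      (Continuous.intervalIntegrable (by fun_prop) _ _)
      (Continuous.intervalIntegrable (by fun_prop) _ _)
    rw [integral_del_sin hy'] at a3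
    have a4 : del y t - π * t + π / 2 ≤ (1 / 4 - ck y 1 / 2) / c := by
      rw [le_div_iff₀ hc]; linarith
    linarith

theorem tendsto_x1_zero : Tendsto x1 (𝓝[>] 0) (𝓝 1) := by
  have h := tendsto_del (t := 1 / 3) (by norm_num) (by norm_num)
  have h2 := ((continuous_cos.tendsto _).comp (h.const_sub (π / 3))).const_mul 2 |>.const_sub 1
  rw [show π / 3 - (π * (1 / 3) - π / 2) = π / 2 by ring, cos_pi_div_two, mul_zero, sub_zero] at h2
  refine h2.congr' ?_
  filter_upwards [self_mem_nhdsWithin] with y hy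
  rw [x1_eq hy, xi1_zero]; rfl

theorem tendsto_x2_zero : Tendsto x2 (𝓝[>] 0) (𝓝 1) := by
  have h := (tendsto_del (t := 1 / 3) (by norm_num) (by norm_num)).add
    (tendsto_del (t := 1 / 6) (by norm_num) (by norm_num))
  have h2 := ((continuous_cos.tendsto _).comp h).const_mul 2 |>.const_add 1
  rw [show π * (1 / 3) - π / 2 + (π * (1 / 6) - π / 2) = -(π / 2) by ring, cos_neg,
    cos_pi_div_two, mul_zero, add_zero] at h2
  refine h2.congr' ?_
  filter_upwards [self_mem_nhdsWithin] with y hy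
  rw [x2_eq hy, xi2_zero]; rfl

lemma tendsto_of_exp {f : ℝ → ℝ} {l : Filter ℝ} (h : Tendsto (fun y => exp (f y)) l (𝓝 1)) :
    Tendsto f l (𝓝 0) := by
  simpa using h.log one_ne_zero

theorem tendsto_ell_third : Tendsto (ell (1 / 3)) (𝓝[>] 0) (𝓝 0) := tendsto_of_exp tendsto_x1_zero

theorem tendsto_ell_sixth : Tendsto (ell (1 / 6)) (𝓝[>] 0) (𝓝 0) := by
  have := tendsto_ell_third.sub (tendsto_of_exp tendsto_x2_zero)
  simpa using this

theorem tendsto_ell_half : Tendsto (ell (1 / 2)) (𝓝[>] 0) (𝓝 0) := by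
  apply tendsto_of_exp
  have h6 : Tendsto (fun y => exp (ell (1 / 6) y)) (𝓝[>] 0) (𝓝 1) := by
    simpa using tendsto_ell_sixth.rexp
  have := (h6.const_mul 4).div (((tendsto_x1_zero.mul h6).const_add 1).pow 2) (by norm_num)
  norm_num at this
  refine this.congr' ?_
  filter_upwards [self_mem_nhdsWithin] with y hy
  have h := half_rel hy
  have := x1_pos y
  simp only [Pi.div_apply]
  rw [div_eq_iff (by positivity)]
  simpa using h.symm

end RV6
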