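import Pool.Agent.Lib.MP_15b3df_nt.RV06

/-! Reduction of the five-variable Mahler measure to the three-step distribution function. -/

open Real Filter Topology Set MeasureTheory
open scoped ENNReal

namespace RV6

noncomputable def nu : Measure ℝ := volume.restrict (Icc 0 1)

instance : IsProbabilityMeasure nu := ⟨by simp [nu]⟩

lemma continuous_ee : Continuous ee := by unfold ee; fun_prop

lemma measurable_ee : Measurable ee := continuous_ee.measurable

lemma lint_period {f : ℝ → ℝ≥0∞} (hf : Function.Periodic f 1) (c : ℝ) :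
    ∫⁻ t in Ioc c (c + 1), f t = ∫⁻ t, f t ∂nu := by
  have h1 := UnitAddCircle.lintegral_preimage c hf.lift
  have h2 := UnitAddCircle.lintegral_preimage 0 hf.lift
  simp only [Function.Periodic.lift_coe, zero_add] at h1 h2
  rw [h1, ← h2, nu, restrict_Ioc_eq_restrict_Icc]

lemma ee_periodic : Function.Periodic ee 1 := fun t => by rw [ee_add, ee_one, mul_one]

lemma lint_shift (h : ℂ → ℝ≥0∞) (c : ℝ) :
    ∫⁻ d, h (ee c * ee d) ∂nu = ∫⁻ d, h (ee d) ∂nu := by
  rw [← lint_period (f := fun d => h (ee d)) (ee_periodic.comp h) c]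
  have := (measurePreserving_add_left volume c).setLIntegral_comp_preimage_emb
    (measurableEmbedding_addLeft c) (fun d => h (ee d)) (Ioc c (c + 1))
  rw [← this, nu, ← restrict_Ioc_eq_restrict_Icc]
  simp [ee_add]

lemma exists_polar (B : ℂ) : ∃ β, B = ‖B‖ * ee β := by
  refine ⟨B.arg / (2 * π), ?_⟩
  unfold ee
  rw [mul_div_cancel₀ _ two_pi_pos.ne', Complex.norm_mul_exp_arg_mul_I]

noncomputable def chi (x : ℝ) (z : ℂ) : ℝ≥0∞ := if ‖z‖ ≤ x then 1 else 0

lemma measurable_chi : Measurable fun p : ℝ × ℂ => chi p.1 p.2 :=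
  Measurable.ite (measurableSet_le (by fun_prop) (by fun_prop)) measurable_const measurable_const

lemma measurable_chi' {α : Type*} [MeasurableSpace α] {f : α → ℝ} {g : α → ℂ} (hf : Measurable f)
    (hg : Measurable g) : Measurable fun a => chi (f a) (g a) :=
  measurable_chi.comp (hf.prodMk hg)

lemma lint_arc (h : ℝ) : ∫⁻ θ in Ioc (-(1 / 2) : ℝ) (-(1 / 2) + 1),
    (if h ≤ cos (2 * π * θ) then 1 else 0 : ℝ≥0∞) = ENNReal.ofReal (arccos h / π) := by
  have hm : MeasurableSet {θ : ℝ | h ≤ cos (2 * π * θ)} :=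
    measurableSet_le (by fun_prop) (by fun_prop)
  have : (fun θ : ℝ => (if h ≤ cos (2 * π * θ) then 1 else 0 : ℝ≥0∞)) =
      {θ : ℝ | h ≤ cos (2 * π * θ)}.indicator 1 := by
    funext θ; simp [indicator]
  rw [this, lintegral_indicator_one hm, Measure.restrict_apply hm]
  have e : arccos h / π = arccos h / (2 * π) - -(arccos h / (2 * π)) := by ring
  have hp := two_pi_pos
  have key : ∀ θ : ℝ, |θ| ≤ 1 / 2 → arccos (cos (2 * π * θ)) = 2 * π * |θ| := fun θ hθ => by
    rw [← cos_abs, abs_mul, abs_of_pos hp, arccos_cos (by positivity) (by nlinarith)]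
  apply le_antisymm
  · rw [e, ← Real.volume_Icc]
    refine measure_mono fun θ hθ => ?_
    have h1 := arccos_le_arccos hθ.1
    rw [key θ (abs_le.mpr ⟨hθ.2.1.le, by linarith [hθ.2.2]⟩)] at h1
    rw [mem_Icc, ← abs_le, le_div_iff₀ hp]
    linarith
  · rw [e, ← Real.volume_Ioo]
    refine measure_mono fun θ hθ => ?_
    rw [mem_Ioo, ← abs_lt, lt_div_iff₀ hp] at hθ
    have h1 : |θ| < 1 / 2 := by nlinarith [arccos_le_pi h]
    refine ⟨?_, (abs_lt.mp h1).1, by linarith [(abs_lt.mp h1).2]⟩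
    by_contra hn
    have h2 := arccos_le_arccos (not_le.mp hn).le
    rw [key θ h1.le] at h2
    linarith

lemma lint_chi {B : ℂ} (hB : B ≠ 0) {x : ℝ} (hx : 0 ≤ x) : ∫⁻ θ, chi x (B + ee θ) ∂nu =
    ENNReal.ofReal (arccos ((1 + ‖B‖ ^ 2 - x ^ 2) / (2 * ‖B‖)) / π) := by
  obtain ⟨β, hβ⟩ := exists_polar B
  have hr : 0 < ‖B‖ := norm_pos_iff.mpr hB
  rw [← lint_shift (fun z => chi x (B + z)) (β + 1 / 2), ← lint_arc, ← lint_period
    (f := fun d => chi x (B + ee (β + 1 / 2) * ee d))
    (fun t => by simp only [ee_periodic t]) (-(1 / 2))]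
  refine lintegral_congr fun θ => ?_
  generalize ‖B‖ = r at hβ hr
  have e : ‖B + ee (β + 1 / 2) * ee θ‖ ^ 2 = 1 + r ^ 2 - 2 * r * cos (2 * π * θ) := by
    rw [hβ, ee_add, ee_half, show r * ee β + ee β * -1 * ee θ = ee β * (r - ee θ) by ring,
      norm_mul, norm_ee, one_mul, ← Complex.normSq_eq_norm_sq, ee_eq,
      show (r : ℂ) - ((cos (2 * π * θ) : ℝ) + (sin (2 * π * θ) : ℝ) * Complex.I) =
        ((r - cos (2 * π * θ) : ℝ) : ℂ) + ((-sin (2 * π * θ) : ℝ) : ℂ) * Complex.I by
        push_cast; ring, Complex.normSq_add_mul_I]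
    nlinarith [sin_sq_add_cos_sq (2 * π * θ)]
  unfold chi
  refine if_congr ?_ rfl rfl
  rw [← pow_le_pow_iff_left₀ (norm_nonneg _) hx two_ne_zero, e, div_le_iff₀ (by positivity)]
  constructor <;> intro h <;> linarith

lemma norm_one_add_ee (a : ℝ) : ‖1 + ee a‖ = 2 * |cos (π * a)| := by
  have e1 := ee_eq (a / 2)
  have e2 := ee_inv_eq (a / 2)
  have e3 := ee_ne (a / 2)
  rw [show 2 * π * (a / 2) = π * a by ring] at e1 e2
  have e0 : ee a = ee (a / 2) ^ 2 := by rw [ee_pow]; congr 1; push_cast; ring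
  have e2' : 1 = ee (a / 2) * ((cos (π * a) : ℝ) - (sin (π * a) : ℝ) * Complex.I) := by
    rw [← e2, mul_inv_cancel₀ e3]
  have e5 : 1 + ee a = 2 * (cos (π * a) : ℝ) * ee (a / 2) := by
    rw [e0]; linear_combination e2' + ee (a / 2) * e1
  rw [e5, norm_mul, norm_mul, norm_ee, Complex.norm_real]
  simp

lemma P3_nonneg (x : ℝ) : 0 ≤ P3 x :=
  mul_nonneg (by positivity) (intervalIntegral.integral_nonneg (by linarith [pi_pos])
    fun _ _ => arccos_nonneg _)

/-- the three-step sum -/
noncomputable def N3 (u : ℝ × ℝ) : ℂ := 1 + ee u.1 + ee u.2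

lemma measurable_N3 : Measurable N3 := by
  have := measurable_ee
  unfold N3; fun_prop

lemma norm_N3 (u : ℝ × ℝ) : ‖N3 u‖ ≤ 3 := by
  unfold N3
  have := norm_add₃_le (a := 1) (b := ee u.1) (c := ee u.2)
  rw [norm_ee, norm_ee, norm_one] at this
  linarith

lemma lint_N3 {x : ℝ} (hx : 0 ≤ x) :
    ∫⁻ u, chi x (N3 u) ∂(nu.prod nu) = ENNReal.ofReal (P3 x) := by
  rw [lintegral_prod _ (measurable_chi' measurable_const measurable_N3).aemeasurable]
  simp only [N3]
  rw [← lint_period (f := fun a => ∫⁻ b, chi x (1 + ee a + ee b) ∂nu)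
    (fun t => by simp only [ee_periodic t]) (-(1 / 2))]
  have hm : Measurable fun a => hh x (π * a) := (measurable_hh x).comp (by fun_prop)
  have h1 : ∫⁻ a in Ioc (-(1 / 2) : ℝ) (-(1 / 2) + 1), ∫⁻ b, chi x (1 + ee a + ee b) ∂nu =
      ∫⁻ a in Ioc (-(1 / 2) : ℝ) (-(1 / 2) + 1), ENNReal.ofReal (arccos (hh x (π * a)) / π) := by
    refine setLIntegral_congr_fun_ae measurableSet_Ioc ?_
    filter_upwards [ae_ne (1 / 2)] with a h1 h2
    have h3 : a < 1 / 2 := lt_of_le_of_ne (by linarith [h2.2]) h1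
    have h4 : 0 < cos (π * a) :=
      cos_pos_of_mem_Ioo ⟨by nlinarith [pi_pos, h2.1], by nlinarith [pi_pos]⟩
    have h5 := norm_one_add_ee a
    rw [abs_of_pos h4] at h5
    rw [lint_chi (norm_pos_iff.mp (by rw [h5]; positivity)) hx, h5, hh]
    congr 4 <;> ring
  rw [h1, ← ofReal_integral_eq_lintegral_ofReal
    (((ii_arccos hm _ _).div_const π).1) (.of_forall fun a => div_nonneg (arccos_nonneg _)
      pi_pos.le), ← intervalIntegral.integral_of_le (by norm_num), intervalIntegral.integral_div,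
    intervalIntegral.integral_comp_mul_left (fun ξ => arccos (hh x ξ)) pi_pos.ne', P3,
    show π * -(1 / 2) = -(π / 2) by ring, show π * (-(1 / 2) + 1) = π / 2 by ring, smul_eq_mul]
  congr 1
  ring

lemma P3_le_one (x : ℝ) : P3 x ≤ 1 := by
  have := intervalIntegral.integral_mono_on (μ := volume) (a := -(π / 2)) (b := π / 2)
    (by linarith [pi_pos]) (ii_arccos (measurable_hh x) _ _) (intervalIntegrable_const (c := π))
    fun ξ _ => arccos_le_pi _
  rw [intervalIntegral.integral_const, smul_eq_mul] at this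
  unfold P3
  rw [one_div, inv_mul_le_iff₀ (by positivity)]
  linarith

lemma P3_le (x : ℝ) : P3 x ≤ |x| := by
  rcases le_total 1 |x| with h | h
  · exact (P3_le_one x).trans h
  have h0 := abs_nonneg x
  have h1 : arcsin |x| ≤ π / 2 * |x| := by
    have := mul_le_sin (arcsin_nonneg.mpr h0) (arcsin_le_pi_div_two _)
    rw [sin_arcsin (by linarith) h, div_mul_eq_mul_div, div_le_iff₀ pi_pos] at this
    linarith
  have := intervalIntegral.integral_mono_on_of_le_Ioo (μ := volume) (a := -(π / 2)) (b := π / 2)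
    (by linarith [pi_pos]) (ii_arccos (measurable_hh x) _ _)
    (intervalIntegrable_const (c := π / 2 * |x|)) fun ξ hξ => by
      refine le_trans ?_ h1
      rw [arcsin_eq_arccos h0]
      apply arccos_le_arccos
      have a1 := cos_pos_of_mem_Ioo hξ
      have a2 : 0 ≤ 1 - |x| ^ 2 := by nlinarith
      unfold hh
      rw [le_div_iff₀ (by positivity), ← sq_abs x]
      nlinarith [sq_sqrt a2, sq_nonneg (√(1 - |x| ^ 2) - 2 * cos ξ)]
  rw [intervalIntegral.integral_const, smul_eq_mul] at this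
  unfold P3
  rw [one_div, inv_mul_le_iff₀ (by positivity)]
  nlinarith [mul_nonneg (sq_nonneg π) h0]

lemma continuous_P3 : Continuous P3 := by
  unfold P3
  refine continuous_const.mul (intervalIntegral.continuous_of_dominated_interval
    (bound := fun _ => π) (fun x => (continuous_arccos.measurable.comp
      (measurable_hh x)).aestronglyMeasurable) (fun x => .of_forall fun ξ _ => ?_)
    intervalIntegrable_const (.of_forall fun ξ _ => ?_))
  · rw [Real.norm_of_nonneg (arccos_nonneg _)]; exact arccos_le_pi _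
  · unfold hh; fun_prop

/-- the integrand of the reduced integral -/
noncomputable def g3 (x : ℝ) : ℝ := P3 x ^ 2 / x

lemma ii_g3 (a b : ℝ) : IntervalIntegrable g3 volume a b := by
  have := continuous_P3.measurable
  refine (intervalIntegrable_const (c := (1 : ℝ))).mono_fun
    (Measurable.aestronglyMeasurable (by unfold g3; fun_prop)) (.of_forall fun x => ?_)
  simp only [g3, Real.norm_eq_abs, abs_div, abs_one, abs_of_nonneg (sq_nonneg (P3 x))]
  refine div_le_one_of_le₀ ?_ (abs_nonneg _)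
  nlinarith [P3_le x, P3_le_one x, P3_nonneg x]

lemma jensen {A B : ℂ} (hA : ‖A‖ ≤ 3) (hB : ‖B‖ ≤ 3) :
    ∫⁻ c, ENNReal.ofReal (log 6 - log ‖A + ee c * B‖) ∂nu =
      ENNReal.ofReal (log 6 - log (max ‖A‖ ‖B‖)) := by
  by_cases h0 : B = 0
  · simp [h0]
  obtain ⟨β, hβ⟩ := exists_polar B
  have hr : 0 < ‖B‖ := norm_pos_iff.mpr h0
  generalize ‖B‖ = r at hβ hr hB
  have h1 := lint_shift (fun z => ENNReal.ofReal (log 6 - log ‖A + r * z‖)) β
  simp_rw [hβ, show ∀ c, ee c * (r * ee β) = r * (ee β * ee c) from fun c => by ring]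
  rw [h1]
  have e : ∀ c, A + r * ee c = circleMap 0 r (2 * π * c) - -A := fun c => by
    simp only [circleMap, ee]; ring
  have h2 : IntervalIntegrable (fun c => log ‖A + r * ee c‖) volume 0 1 := by
    have := (circleIntegrable_log_norm_sub_const (a := -A) (c := 0) r).comp_mul_left (c := 2 * π)
    simp_rw [e]
    simpa [pi_pos.ne'] using this
  have h3 : ∫ c in (0 : ℝ)..1, log ‖A + r * ee c‖ = log (max ‖A‖ r) := by
    have := circleAverage_log_norm_sub_const_eq_log_radius_add_posLog (a := -A) (c := 0) hr.ne'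
    simp_rw [e]
    rw [intervalIntegral.integral_comp_mul_left
      (fun θ => log ‖circleMap 0 r θ - -A‖) two_pi_pos.ne', mul_zero, mul_one,
      ← circleAverage_def (f := fun z => log ‖z - -A‖), this, zero_sub, neg_neg,
      posLog_eq_log_max_one (by positivity), ← log_mul hr.ne' (by positivity),
      mul_max_of_nonneg _ _ hr.le, mul_one, mul_inv_cancel_left₀ hr.ne', max_comm]
  rw [nu, ← restrict_Ioc_eq_restrict_Icc, ← ofReal_integral_eq_lintegral_ofReal
    (intervalIntegrable_const.sub h2).1 (.of_forall fun c => ?_),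
    ← intervalIntegral.integral_of_le zero_le_one,
    intervalIntegral.integral_sub intervalIntegrable_const h2, h3]
  · simp
  · have : ‖A + r * ee c‖ ≤ 6 := by
      refine (norm_add_le _ _).trans ?_
      rw [norm_mul, norm_ee, Complex.norm_real, Real.norm_of_nonneg hr.le]; linarith
    simp only [Pi.zero_apply, sub_nonneg]
    rcases (norm_nonneg (A + r * ee c)).eq_or_lt with h | h
    · rw [← h, log_zero]; exact log_nonneg (by norm_num)
    · exact log_le_log h this

lemma layer {A B : ℂ} (hA : ‖A‖ ≤ 3) (hB : ‖B‖ ≤ 3) (h0 : A ≠ 0) :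
    ENNReal.ofReal (log 6 - log (max ‖A‖ ‖B‖)) = ENNReal.ofReal (log 2) +
      ∫⁻ x in Ioc (0 : ℝ) 3, chi x A * ENNReal.ofReal (1 / x) * chi x B := by
  have hM : 0 < max ‖A‖ ‖B‖ := lt_max_of_lt_left (norm_pos_iff.mpr h0)
  have hM3 : max ‖A‖ ‖B‖ ≤ 3 := max_le hA hB
  have e : (fun x => chi x A * ENNReal.ofReal (1 / x) * chi x B) =
      (Ici (max ‖A‖ ‖B‖)).indicator fun x => ENNReal.ofReal (1 / x) := by
    funext x
    simp only [chi, indicator, mem_Ici, max_le_iff]
    by_cases h1 : ‖A‖ ≤ x <;> by_cases h2 : ‖B‖ ≤ x <;> simp [h1, h2]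
  generalize max ‖A‖ ‖B‖ = M at hM hM3 e
  have hi : IntervalIntegrable (fun x : ℝ => 1 / x) volume M 3 :=
    intervalIntegral.intervalIntegrable_one_div (fun x hx => by
      rw [uIcc_of_le hM3] at hx; linarith [hx.1]) continuousOn_id
  rw [e, lintegral_indicator measurableSet_Ici, Measure.restrict_restrict measurableSet_Ici,
    show Ici M ∩ Ioc 0 3 = Icc M 3 from by
      ext x; simp only [mem_inter_iff, mem_Ici, mem_Ioc, mem_Icc]
      exact ⟨fun h => ⟨h.1, h.2.2⟩, fun h => ⟨h.1, by linarith [h.1], h.2⟩⟩,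
    ← restrict_Ioc_eq_restrict_Icc, ← ofReal_integral_eq_lintegral_ofReal hi.1,
    ← intervalIntegral.integral_of_le hM3, integral_one_div_of_pos hM (by norm_num),
    ← ENNReal.ofReal_add (log_nonneg (by norm_num)) (log_nonneg ((one_le_div hM).mpr hM3)),
    log_div (by norm_num) hM.ne', show (6 : ℝ) = 2 * 3 by norm_num,
    log_mul (by norm_num) (by norm_num)]
  · congr 1; ring
  · filter_upwards [ae_restrict_mem measurableSet_Ioc] with x hx
    have : 0 < x := hM.trans hx.1
    positivity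

lemma lint_fin_succ (n : ℕ) {g : ℂ → ℝ≥0∞} (hg : Measurable g) (c : ℂ) :
    ∫⁻ x : Fin (n + 1) → ℝ, g (c + ∑ j, ee (x j)) ∂Measure.pi (fun _ => nu) =
      ∫⁻ a, ∫⁻ x : Fin n → ℝ, g (c + ee a + ∑ j, ee (x j)) ∂Measure.pi (fun _ => nu) ∂nu := by
  have := measurable_ee
  have hm : Measurable fun z : ℝ × (Fin n → ℝ) => g (c + ee z.1 + ∑ j, ee (z.2 j)) :=
    hg.comp (by fun_prop)
  rw [← lintegral_prod _ hm.aemeasurable,
    ← (measurePreserving_piFinSuccAbove (fun _ : Fin (n + 1) => nu) 0).lintegral_comp hm]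
  refine lintegral_congr fun x => ?_
  simp [Fin.sum_univ_succ, add_assoc, Fin.tail]

lemma lint_five {g : ℂ → ℝ≥0∞} (hg : Measurable g) :
    ∫⁻ x : Fin 5 → ℝ, g (1 + ∑ j, ee (x j)) ∂Measure.pi (fun _ => nu) =
      ∫⁻ u, ∫⁻ v, ∫⁻ c, g (N3 u + ee c * N3 v) ∂nu ∂(nu.prod nu) ∂(nu.prod nu) := by
  have hee := measurable_ee
  have hN := measurable_N3
  have h1 : ∀ A : ℂ, ∫⁻ c, ∫⁻ d, ∫⁻ e, g (A + ee c + ee d + ee e) ∂nu ∂nu ∂nu =
      ∫⁻ v, ∫⁻ c, g (A + ee c * N3 v) ∂nu ∂(nu.prod nu) := by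
    intro A
    rw [← lintegral_lintegral_swap (f := fun c v => g (A + ee c * N3 v))
      (Measurable.aemeasurable (hg.comp (f := fun z : ℝ × (ℝ × ℝ) => A + ee z.1 * N3 z.2)
        (by fun_prop)))]
    refine lintegral_congr fun c => ?_
    rw [lintegral_prod (fun v => g (A + ee c * N3 v)) (Measurable.aemeasurable
      (hg.comp (f := fun v : ℝ × ℝ => A + ee c * N3 v) (by fun_prop))),
      ← lint_shift (fun z => ∫⁻ e, g (A + ee c + z + ee e) ∂nu) c]
    refine lintegral_congr fun d => ?_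
    rw [← lint_shift (fun z => g (A + ee c + ee c * ee d + z)) c]
    refine lintegral_congr fun e => ?_
    simp only [N3]
    congr 1; ring
  rw [lintegral_prod]
  · simp only [← h1]
    simp only [lint_fin_succ _ hg, N3]
    simp
  · refine Measurable.aemeasurable (Measurable.lintegral_prod_right' (f := fun z :
      (ℝ × ℝ) × (ℝ × ℝ) => ∫⁻ c, g (N3 z.1 + ee c * N3 z.2) ∂nu) ?_)
    exact Measurable.lintegral_prod_right' (f := fun w : ((ℝ × ℝ) × (ℝ × ℝ)) × ℝ =>
      g (N3 w.1.1 + ee w.2 * N3 w.1.2)) (hg.comp (by fun_prop))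

lemma lint_main : ∫⁻ x : Fin 5 → ℝ, ENNReal.ofReal (log 6 - log ‖1 + ∑ j, ee (x j)‖)
    ∂Measure.pi (fun _ => nu) = ENNReal.ofReal (log 2 + ∫ x in (0 : ℝ)..3, g3 x) := by
  have hN := measurable_N3
  rw [lint_five (g := fun z => ENNReal.ofReal (log 6 - log ‖z‖)) (by fun_prop)]
  simp only [jensen (norm_N3 _) (norm_N3 _)]
  have h0 : ∀ᵐ u ∂(nu.prod nu), N3 u ≠ 0 := by
    have h1 := lint_N3 le_rfl
    have h2 : P3 0 = 0 := le_antisymm (by simpa using P3_le 0) (P3_nonneg 0)
    rw [h2, ENNReal.ofReal_zero,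
      lintegral_eq_zero_iff (measurable_chi' measurable_const measurable_N3)] at h1
    filter_upwards [h1] with u hu h
    simp [chi, h] at hu
  have hP := continuous_P3.measurable
  have h1 : ∀ᵐ u ∂(nu.prod nu), ∫⁻ v, ENNReal.ofReal (log 6 - log (max ‖N3 u‖ ‖N3 v‖))
      ∂(nu.prod nu) = ENNReal.ofReal (log 2) + ∫⁻ x in Ioc (0 : ℝ) 3,
        chi x (N3 u) * (ENNReal.ofReal (1 / x) * ENNReal.ofReal (P3 x)) := by
    filter_upwards [h0] with u hu
    simp only [layer (norm_N3 _) (norm_N3 _) hu]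
    rw [lintegral_add_left measurable_const, lintegral_const, measure_univ, mul_one,
      lintegral_lintegral_swap (Measurable.aemeasurable
        (((measurable_chi' (by fun_prop) (by fun_prop)).mul (by fun_prop)).mul
          (measurable_chi' (by fun_prop) (by fun_prop))))]
    congr 1
    refine setLIntegral_congr_fun measurableSet_Ioc fun x hx => ?_
    rw [lintegral_const_mul _ (measurable_chi' measurable_const measurable_N3), lint_N3 hx.1.le,
      mul_assoc]
  rw [lintegral_congr_ae h1, lintegral_add_left measurable_const, lintegral_const, measure_univ,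
    mul_one, lintegral_lintegral_swap (Measurable.aemeasurable
        ((measurable_chi' (by fun_prop) (by fun_prop)).mul (by fun_prop)))]
  have hnn : 0 ≤ᵐ[volume.restrict (Ioc (0 : ℝ) 3)] g3 := by
    filter_upwards [ae_restrict_mem measurableSet_Ioc] with x hx
    exact div_nonneg (sq_nonneg _) hx.1.le
  rw [intervalIntegral.integral_of_le (by norm_num), ENNReal.ofReal_add (log_nonneg (by norm_num))
    (integral_nonneg_of_ae hnn), ofReal_integral_eq_lintegral_ofReal (ii_g3 0 3).1 hnn]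
  congr 1
  refine setLIntegral_congr_fun measurableSet_Ioc fun x hx => ?_
  have := hx.1
  rw [lintegral_mul_const _ (measurable_chi' measurable_const measurable_N3), lint_N3 hx.1.le,
    ← ENNReal.ofReal_mul (by positivity), ← ENNReal.ofReal_mul (P3_nonneg x), g3]
  congr 1; ring

theorem mahler_reduce : ∫ θ in Icc (0 : Fin 5 → ℝ) 1, log ‖1 + ∑ j, ee (θ j)‖ =
    log 3 - ∫ x in (0 : ℝ)..3, g3 x := by
  have hee := measurable_ee
  have e : (volume : Measure (Fin 5 → ℝ)).restrict (Icc 0 1) = Measure.pi fun _ => nu := by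
    rw [← pi_univ_Icc, volume_pi, Measure.restrict_pi_pi]; rfl
  rw [e]
  have hnn : ∀ x : Fin 5 → ℝ, 0 ≤ log 6 - log ‖1 + ∑ j, ee (x j)‖ := fun x => by
    have : ‖1 + ∑ j, ee (x j)‖ ≤ 6 := by
      refine (norm_add_le _ _).trans ?_
      have := norm_sum_le Finset.univ fun j => ee (x j)
      simp only [norm_ee] at this
      norm_num at this ⊢
      linarith
    rw [sub_nonneg]
    rcases (norm_nonneg (1 + ∑ j, ee (x j))).eq_or_lt with h | h
    · rw [← h, log_zero]; exact log_nonneg (by norm_num)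
    · exact log_le_log h this
  have hm : Measurable fun x : Fin 5 → ℝ => log 6 - log ‖1 + ∑ j, ee (x j)‖ := by fun_prop
  have hi : Integrable (fun x : Fin 5 → ℝ => log 6 - log ‖1 + ∑ j, ee (x j)‖)
      (Measure.pi fun _ => nu) := by
    refine ⟨hm.aestronglyMeasurable, ?_⟩
    rw [hasFiniteIntegral_iff_ofReal (.of_forall hnn), lint_main]
    exact ENNReal.ofReal_lt_top
  have h1 := integral_eq_lintegral_of_nonneg_ae (μ := Measure.pi fun _ => nu) (.of_forall hnn)
    hm.aestronglyMeasurable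
  rw [lint_main, ENNReal.toReal_ofReal (add_nonneg (log_nonneg (by norm_num))
    (intervalIntegral.integral_nonneg (f := g3) (by norm_num)
      fun x hx => div_nonneg (sq_nonneg _) hx.1))] at h1
  have h2 := integral_sub (integrable_const (log 6)) hi
  simp only [sub_sub_cancel, integral_const, probReal_univ, smul_eq_mul, one_mul] at h2
  rw [h2, h1, show (6 : ℝ) = 2 * 3 by norm_num, log_mul (by norm_num) (by norm_num)]
  ring

end RV6
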