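import Pool.Agent.Lib.MP_15b3df_nt.RV05

/-! Bilateral Lambert series and telescoping identities. -/

open Real Filter Topology Set
open Complex (I)

namespace RV6

noncomputable def ph (z : ℂ) : ℂ := z / (1 - z)
noncomputable def h1 (z : ℂ) : ℂ := z / (1 - z) ^ 2
noncomputable def h2 (z : ℂ) : ℂ := z * (1 + z) / (1 - z) ^ 3
noncomputable def h3 (z : ℂ) : ℂ := z * (1 + 4 * z + z ^ 2) / (1 - z) ^ 4

lemma one_sub_ne {z : ℂ} (hz : ‖z‖ < 1) : 1 - z ≠ 0 := by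
  intro h; rw [← sub_eq_zero.mp h] at hz; simp at hz

lemma hasSum_ph {z : ℂ} (hz : ‖z‖ < 1) :
    HasSum (fun m : ℕ+ => ((m : ℕ) : ℂ) ^ 0 * z ^ (m : ℕ)) (ph z) := by
  refine (hasSum_pnat_iff (f := fun m : ℕ => (m : ℂ) ^ 0 * z ^ m)).mpr ?_
  have := one_sub_ne hz
  rw [show ph z + ((0 : ℕ) : ℂ) ^ 0 * z ^ 0 = (1 - z)⁻¹ by unfold ph; field_simp; ring]
  simpa using hasSum_geometric_of_norm_lt_one hz

lemma hasSum_h1 {z : ℂ} (hz : ‖z‖ < 1) :
    HasSum (fun m : ℕ+ => ((m : ℕ) : ℂ) ^ 1 * z ^ (m : ℕ)) (h1 z) := by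
  refine (hasSum_pnat_iff (f := fun m : ℕ => (m : ℂ) ^ 1 * z ^ m)).mpr ?_
  simpa [h1] using hasSum_coe_mul_geometric_of_norm_lt_one hz

lemma choose_two (n : ℕ) : (((n + 2).choose 2 : ℕ) : ℂ) = (n + 2) * (n + 1) / 2 := by
  rw [Nat.cast_choose_two]; push_cast; ring

lemma choose_three (n : ℕ) : (((n + 3).choose 3 : ℕ) : ℂ) = (n + 3) * (n + 2) * (n + 1) / 6 := by
  induction n with
  | zero => norm_num
  | succ n ih =>
    rw [show n + 1 + 3 = (n + 3) + 1 by ring, Nat.choose_succ_succ' (n + 3) 2, Nat.cast_add, ih,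
      show n + 3 = (n + 1) + 2 by ring, choose_two]
    push_cast; ring

lemma hasSum_h2 {z : ℂ} (hz : ‖z‖ < 1) :
    HasSum (fun m : ℕ+ => ((m : ℕ) : ℂ) ^ 2 * z ^ (m : ℕ)) (h2 z) := by
  refine (hasSum_pnat_iff (f := fun m : ℕ => (m : ℂ) ^ 2 * z ^ m)).mpr ?_
  have := one_sub_ne hz
  have a0 := hasSum_choose_mul_geometric_of_norm_lt_one 0 hz
  have a1 := hasSum_choose_mul_geometric_of_norm_lt_one 1 hz
  have a2 := hasSum_choose_mul_geometric_of_norm_lt_one 2 hz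
  rw [show h2 z + ((0 : ℕ) : ℂ) ^ 2 * z ^ 0 = 2 * (1 / (1 - z) ^ (2 + 1)) - 3 * (1 / (1 - z) ^ (1 + 1))
    + 1 / (1 - z) ^ (0 + 1) by unfold h2; field_simp; ring]
  refine (((a2.mul_left 2).sub (a1.mul_left 3)).add a0).congr_fun fun n => ?_
  rw [choose_two]; simp; ring

lemma hasSum_h3 {z : ℂ} (hz : ‖z‖ < 1) :
    HasSum (fun m : ℕ+ => ((m : ℕ) : ℂ) ^ 3 * z ^ (m : ℕ)) (h3 z) := by
  refine (hasSum_pnat_iff (f := fun m : ℕ => (m : ℂ) ^ 3 * z ^ m)).mpr ?_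
  have := one_sub_ne hz
  have a0 := hasSum_choose_mul_geometric_of_norm_lt_one 0 hz
  have a1 := hasSum_choose_mul_geometric_of_norm_lt_one 1 hz
  have a2 := hasSum_choose_mul_geometric_of_norm_lt_one 2 hz
  have a3 := hasSum_choose_mul_geometric_of_norm_lt_one 3 hz
  rw [show h3 z + ((0 : ℕ) : ℂ) ^ 3 * z ^ 0 = 6 * (1 / (1 - z) ^ (3 + 1)) -
    12 * (1 / (1 - z) ^ (2 + 1)) + 7 * (1 / (1 - z) ^ (1 + 1))
    - 1 / (1 - z) ^ (0 + 1) by unfold h3; field_simp; ring]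
  refine ((((a3.mul_left 6).sub (a2.mul_left 12)).add (a1.mul_left 7)).sub a0).congr_fun fun n => ?_
  rw [choose_two, choose_three]; simp; ring

lemma norm_ee_q {y : ℝ} (hy : 0 < y) (s : ℝ) (n : ℕ+) : ‖ee s * qc y ^ (n : ℕ)‖ < 1 := by
  rw [norm_mul, norm_ee, one_mul]; exact norm_pow_lt (norm_qc_lt hy) n.ne_zero

lemma lamG {β : ℕ+ → ℝ} (hβ : PB β) (r : ℕ) {F : ℂ → ℂ}
    (hF : ∀ z : ℂ, ‖z‖ < 1 → HasSum (fun m : ℕ+ => ((m : ℕ) : ℂ) ^ r * z ^ (m : ℕ)) (F z))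
    {y : ℝ} (hy : 0 < y) (s : ℝ) :
    HasSum (fun n : ℕ+ => (β n : ℂ) * F (ee s * qc y ^ (n : ℕ)))
      (DS β (fun m => ((m : ℕ) : ℝ) ^ r * cos (2 * π * ((m : ℕ) * s))) y +
        DS β (fun m => ((m : ℕ) : ℝ) ^ r * sin (2 * π * ((m : ℕ) * s))) y * I) := by
  have a1 := Complex.hasSum_ofReal.mpr (DS_hasSum hβ ((PB.pow r).mul (PBF_cos.pb s)) hy)
  have a2 := Complex.hasSum_ofReal.mpr (DS_hasSum hβ ((PB.pow r).mul (PBF_sin.pb s)) hy)
  refine HasSum.prod_fiberwise (a1.add (a2.mul_right I)) fun n => ?_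
  refine ((hF _ (norm_ee_q hy s n)).mul_left (β n : ℂ)).congr_fun fun m => ?_
  have : ((ew y (n, m) : ℝ) : ℂ) = (qc y ^ (n : ℕ)) ^ (m : ℕ) := by
    rw [qc_eq, ← pow_mul, ← Complex.ofReal_pow, ← exp_nat_mul, ew]
    congr 2; push_cast; ring
  rw [mul_pow, ee_pow, ee_eq, ← this]
  simp only [Complex.ofReal_mul, Complex.ofReal_pow, Complex.ofReal_natCast]
  ring

/-- rapidly decaying bilateral sequences -/
def Dec (a : ℤ → ℂ) : Prop := ∀ r : ℕ, Summable fun m : ℤ => ‖(m : ℂ) ^ r * a m‖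

lemma Dec.of_bound {a : ℤ → ℂ} {x C : ℝ} (h0 : 0 ≤ x) (h1 : x < 1)
    (h : ∀ m, ‖a m‖ ≤ C * x ^ m.natAbs) : Dec a := by
  intro r
  have hs := (summable_pow_mul_geometric_of_norm_lt_one r (r := x)
    (by rwa [Real.norm_of_nonneg h0])).mul_left C
  have : Summable fun m : ℤ => C * ((m.natAbs : ℝ) ^ r * x ^ m.natAbs) :=
    Summable.of_nat_of_neg (by simpa using hs) (by simpa using hs)
  refine Summable.of_nonneg_of_le (fun _ => norm_nonneg _) (fun m => ?_) this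
  rw [norm_mul, norm_pow, Complex.norm_intCast, ← Int.cast_abs, ← Int.natCast_natAbs,
    Int.cast_natCast, mul_left_comm]
  exact mul_le_mul_of_nonneg_left (h m) (by positivity)

lemma Dec.summable {a : ℤ → ℂ} (ha : Dec a) : Summable a := by
  simpa using (ha 0).of_norm

lemma Dec.sub {a b : ℤ → ℂ} (ha : Dec a) (hb : Dec b) : Dec fun m => a m - b m := fun r =>
  Summable.of_nonneg_of_le (fun _ => norm_nonneg _)
    (fun m => by rw [mul_sub]; exact norm_sub_le _ _) ((ha r).add (hb r))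

lemma Dec.sgn {a : ℤ → ℂ} (ha : Dec a) : Dec fun m => (-1) ^ m * a m := fun r => by
  simpa [norm_zpow] using ha r

lemma shear {F : ℤ × ℤ → ℂ} {S : ℂ} (h : HasSum F S) :
    HasSum (fun j : ℤ => ∑' m, F (m + j, m)) S := by
  let e : ℤ × ℤ ≃ ℤ × ℤ := ⟨fun p => (p.2 + p.1, p.2), fun p => (p.1 - p.2, p.2),
    fun p => by simp, fun p => by simp⟩
  have h2 := e.hasSum_iff.mpr h
  exact h2.prod_fiberwise fun j => (h2.summable.prod_factor j).hasSum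

lemma hs_mul {f g : ℤ → ℂ} (hf : Summable fun m => ‖f m‖) (hg : Summable fun m => ‖g m‖) :
    HasSum (fun p : ℤ × ℤ => f p.1 * g p.2) ((∑' m, f m) * ∑' m, g m) :=
  hf.of_norm.hasSum.mul hg.of_norm.hasSum (summable_mul_of_summable_norm hf hg)

lemma conv_even (a : ℤ → ℂ) (j : ℤ) : ∑' m, a (m + -j) * a m = ∑' m, a (m + j) * a m := by
  rw [← (Equiv.addRight j).tsum_eq]
  exact tsum_congr fun m => by simp [mul_comm]

lemma conv_sq {a : ℤ → ℂ} (ha : Dec a) {B : ℕ+ → ℂ} {S : ℂ}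
    (hB : ∀ j : ℕ+, HasSum (fun m => a (m + (j : ℕ)) * a m) (B j)) (hS : HasSum B S) :
    (∑' m, a m) ^ 2 = ∑' m, a m ^ 2 + 2 * S := by
  have h0 : Summable fun m => ‖a m‖ := by simpa using ha 0
  have h := shear (hs_mul h0 h0)
  rw [pow_two, ← h.tsum_eq, tsum_int_eq_zero_add_two_mul_tsum_pnat (fun j => conv_even a j)
    h.summable, ← hS.tsum_eq]
  simp only [add_zero, pow_two, (hB _).tsum_eq, nsmul_eq_mul, Nat.cast_ofNat]

lemma conv_quad {a : ℤ → ℂ} (ha : Dec a) {B : ℕ+ → ℂ} {S : ℂ}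
    (hB : ∀ j : ℕ+, HasSum (fun m => a (m + (j : ℕ)) * a m) (B j))
    (hS : HasSum (fun j : ℕ+ => ((j : ℕ) : ℂ) ^ 2 * B j) S) :
    (∑' m : ℤ, (m : ℂ) ^ 2 * a m) * (∑' m, a m) - (∑' m : ℤ, (m : ℂ) ^ 1 * a m) ^ 2 = S := by
  have h0 : Summable fun m => ‖a m‖ := by simpa using ha 0
  have k1 := hs_mul (f := fun m => (m : ℂ) ^ 2 * a m) (ha 2) h0
  have k2 := hs_mul (f := fun m => (m : ℂ) ^ 1 * a m) (g := fun m => (m : ℂ) ^ 1 * a m) (ha 1) (ha 1)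
  have k3 := hs_mul (g := fun m => (m : ℂ) ^ 2 * a m) h0 (ha 2)
  have h := shear ((k1.sub (k2.mul_left 2)).add k3)
  have e : ∀ j : ℤ, ∑' m : ℤ, (((m + j : ℤ) : ℂ) ^ 2 * a (m + j) * a m -
      2 * (((m + j : ℤ) : ℂ) ^ 1 * a (m + j) * ((m : ℂ) ^ 1 * a m)) +
      a (m + j) * ((m : ℂ) ^ 2 * a m)) = (j : ℂ) ^ 2 * ∑' m, a (m + j) * a m := fun j => by
    rw [← tsum_mul_left]
    exact tsum_congr fun m => by push_cast; ring
  simp only [e] at h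
  have h4 := h.tsum_eq
  rw [tsum_int_eq_zero_add_two_mul_tsum_pnat (fun j => by simp only [conv_even]; simp)
    h.summable] at h4
  simp only [(hB _).tsum_eq, Int.cast_natCast, hS.tsum_eq, nsmul_eq_mul] at h4
  push_cast at h4
  linear_combination -h4 / 2

noncomputable def io (m : ℤ) : ℂ := if m < 0 then 1 else 0

noncomputable def psi (e x : ℂ) (m : ℤ) : ℂ := ph (e * x ^ m) + io m

variable {e x : ℂ}

lemma one_sub_ne' (he : ‖e‖ = 1) (hx0 : x ≠ 0) (hx : ‖x‖ < 1) {m : ℤ} (hm : m ≠ 0) :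
    1 - e * x ^ m ≠ 0 := by
  intro h
  have := congrArg norm (sub_eq_zero.mp h)
  rw [norm_one, norm_mul, he, one_mul, norm_zpow] at this
  exact hm ((zpow_eq_one_iff_right₀ (norm_nonneg _) hx.ne).mp this.symm)

lemma one_sub_ne'' (he : ‖e‖ = 1) (he1 : e ≠ 1) (hx0 : x ≠ 0) (hx : ‖x‖ < 1) (m : ℤ) :
    1 - e * x ^ m ≠ 0 := by
  by_cases hm : m = 0
  · simpa [hm, sub_eq_zero] using he1.symm
  · exact one_sub_ne' he hx0 hx hm

lemma psi_nat (n : ℕ) : psi e x n = ph (e * x ^ n) := by simp [psi, io]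

lemma psi_neg (he : ‖e‖ = 1) (hx0 : x ≠ 0) (hx : ‖x‖ < 1) {n : ℕ} (hn : n ≠ 0) :
    psi e x (-n) = -ph (e⁻¹ * x ^ n) := by
  have h1 := one_sub_ne' he hx0 hx (m := -n) (by simpa)
  have h2 := one_sub_ne' (e := e⁻¹) (by simp [he]) hx0 hx (m := n) (by simpa)
  have he0 : e ≠ 0 := by rintro rfl; simp at he
  have hp := pow_ne_zero n hx0
  have : io (-n) = 1 := by simp [io, Nat.pos_of_ne_zero hn]
  rw [psi, this]
  rw [zpow_neg, zpow_natCast] at *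
  unfold ph
  rw [show e⁻¹ * x ^ n = (e * (x ^ n)⁻¹)⁻¹ by rw [mul_inv, inv_inv]] at *
  have h3 : e * (x ^ n)⁻¹ ≠ 0 := by simp [he0, hx0]
  generalize e * (x ^ n)⁻¹ = z at *
  have h4 : z - 1 ≠ 0 := fun h => h1 (by linear_combination -h)
  field_simp
  ring

lemma h1_inv {z : ℂ} (hz : z ≠ 0) : h1 z⁻¹ = h1 z := by
  unfold h1
  by_cases h : z = 1
  · simp [h]
  have h4 : z - 1 ≠ 0 := sub_ne_zero.mpr h
  have h5 : 1 - z ≠ 0 := sub_ne_zero.mpr (Ne.symm h)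
  field_simp
  ring

lemma h3_inv {z : ℂ} (hz : z ≠ 0) : h3 z⁻¹ = h3 z := by
  unfold h3
  by_cases h : z = 1
  · simp [h]
  have h4 : z - 1 ≠ 0 := sub_ne_zero.mpr h
  have h5 : 1 - z ≠ 0 := sub_ne_zero.mpr (Ne.symm h)
  field_simp
  ring

lemma norm_one_sub_ge (he : ‖e‖ = 1) (hx : ‖x‖ < 1) {n : ℕ} (hn : n ≠ 0) :
    1 - ‖x‖ ≤ ‖1 - e * x ^ n‖ := by
  refine le_trans ?_ (norm_sub_norm_le _ _)
  rw [norm_one, norm_mul, he, one_mul, norm_pow]
  linarith [pow_le_of_le_one (norm_nonneg x) hx.le hn]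

lemma norm_div_le (he : ‖e‖ = 1) (hx : ‖x‖ < 1) {n : ℕ} (hn : n ≠ 0) (k : ℕ) :
    ‖e * x ^ n / (1 - e * x ^ n) ^ k‖ ≤ ((1 - ‖x‖) ^ k)⁻¹ * ‖x‖ ^ n := by
  rw [norm_div, norm_mul, he, one_mul, norm_pow, norm_pow, div_eq_inv_mul]
  have := norm_one_sub_ge he hx hn
  have : 0 < 1 - ‖x‖ := by linarith
  gcongr

lemma dec_of (hx : ‖x‖ < 1) {a : ℤ → ℂ} {C : ℝ} (hC : 0 ≤ C)
    (h1 : ∀ n : ℕ, n ≠ 0 → ‖a n‖ ≤ C * ‖x‖ ^ n) (h2 : ∀ n : ℕ, n ≠ 0 → ‖a (-n)‖ ≤ C * ‖x‖ ^ n) :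
    Dec a := by
  refine Dec.of_bound (C := C + ‖a 0‖) (norm_nonneg x) hx fun m => ?_
  by_cases hm : m = 0
  · simp [hm, hC]
  have h0 : 0 ≤ ‖a 0‖ * ‖x‖ ^ m.natAbs := by positivity
  obtain ⟨n, rfl | rfl⟩ := m.eq_nat_or_neg
  · have := h1 n (by simpa using hm)
    simp only [Int.natAbs_natCast] at *
    linarith
  · have := h2 n (by simpa using hm)
    simp only [Int.natAbs_neg, Int.natAbs_natCast] at *
    linarith

lemma dec_psi (he : ‖e‖ = 1) (hx0 : x ≠ 0) (hx : ‖x‖ < 1) : Dec (psi e x) := by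
  have : 0 < 1 - ‖x‖ := by linarith
  refine dec_of hx (C := ((1 - ‖x‖) ^ 1)⁻¹) (by positivity) (fun n hn => ?_) fun n hn => ?_
  · simpa [psi_nat, ph] using norm_div_le he hx hn 1
  · rw [psi_neg he hx0 hx hn, norm_neg]
    simpa [ph] using norm_div_le (e := e⁻¹) (by simp [he]) hx hn 1

lemma zpow_neg_eq (he : ‖e‖ = 1) (n : ℕ) : e * x ^ (-(n : ℤ)) = (e⁻¹ * x ^ n)⁻¹ := by
  rw [mul_inv, inv_inv, zpow_neg, zpow_natCast]

lemma dec_h1 (he : ‖e‖ = 1) (hx0 : x ≠ 0) (hx : ‖x‖ < 1) : Dec fun m => h1 (e * x ^ m) := by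
  have : 0 < 1 - ‖x‖ := by linarith
  have he0 : e ≠ 0 := by rintro rfl; simp at he
  refine dec_of hx (C := ((1 - ‖x‖) ^ 2)⁻¹) (by positivity) (fun n hn => ?_) fun n hn => ?_
  · simpa [h1] using norm_div_le he hx hn 2
  · rw [zpow_neg_eq he, h1_inv (by simp [he0, hx0])]
    exact norm_div_le (e := e⁻¹) (by simp [he]) hx hn 2

lemma hasSum_io (j : ℕ) : HasSum (fun m : ℤ => io m - io (m + j)) j := by
  have := hasSum_sum_of_ne_finset_zero (f := fun m : ℤ => io m - io (m + j))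
    (s := Finset.Ico (-(j : ℤ)) 0) (L := .unconditional ℤ) fun m hm => by
      simp only [Finset.mem_Ico, not_and_or, not_le, not_lt] at hm
      unfold io
      split_ifs <;> first | omega | simp
  rwa [Finset.sum_congr rfl (g := fun _ => 1) fun m hm => by
    simp only [Finset.mem_Ico] at hm
    unfold io
    split_ifs <;> first | omega | simp, Finset.sum_const, Int.card_Ico, nsmul_eq_mul, mul_one,
    show (0 - -(j : ℤ)).toNat = j by simp] at this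

lemma hasSum_shift {a : ℤ → ℂ} {S : ℂ} (h : HasSum a S) (j : ℤ) : HasSum (fun m => a (m + j)) S :=
  (Equiv.addRight j).hasSum_iff.mpr h

lemma tele (he : ‖e‖ = 1) (hx0 : x ≠ 0) (hx : ‖x‖ < 1) (j : ℕ) :
    HasSum (fun m : ℤ => ph (e * x ^ m) - ph (e * x ^ (m + j))) (-j) := by
  have h := (dec_psi he hx0 hx).summable.hasSum
  have := (h.sub (hasSum_shift h j)).sub (hasSum_io j)
  rw [sub_self, zero_sub] at this
  exact this.congr_fun fun m => by simp only [psi]; ring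

noncomputable def eps (M : ℤ) (j : ℕ+) : ℂ :=
  (if M < -((j : ℕ) : ℤ) then 1 else 0) - if ((j : ℕ) : ℤ) ≤ M then 1 else 0

lemma conv_psi (he : ‖e‖ = 1) (he1 : e ≠ 1) (hx0 : x ≠ 0) (hx : ‖x‖ < 1) (j : ℕ+) :
    HasSum (fun m => psi e x (m + (j : ℕ)) * psi e x m)
      (-((j : ℕ) : ℂ) * ph (x ^ (j : ℕ)) + ∑' M, eps M j * psi e x M) := by
  have h := (dec_psi he hx0 hx).summable
  have hb : ∀ (P : ℤ → Prop) [DecidablePred P],
      Summable fun M => (if P M then 1 else 0 : ℂ) * psi e x M := fun P _ =>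
    Summable.of_norm_bounded h.norm fun M => by split_ifs <;> simp
  have a1 := (hb fun M => M < -((j : ℕ) : ℤ)).hasSum
  have a2 := (hb fun M => ((j : ℕ) : ℤ) ≤ M).hasSum
  have a3 : ∑' M, eps M j * psi e x M = _ := ((a1.sub a2).congr_fun fun M => by
    rw [eps, sub_mul]).tsum_eq
  rw [a3, mul_comm]
  refine (((tele he hx0 hx j).mul_left (ph (x ^ (j : ℕ)))).add
    (a1.sub (hasSum_shift a2 (j : ℕ)))).congr_fun fun m => ?_
  have b1 := one_sub_ne'' he he1 hx0 hx m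
  have b2 := one_sub_ne'' he he1 hx0 hx (m + (j : ℕ))
  have b3 := one_sub_pow_ne hx j
  have hj : (0 : ℤ) < (j : ℕ) := by exact_mod_cast j.pos
  simp only [psi, io, ph]
  rw [zpow_add₀ hx0, zpow_natCast, ← mul_assoc] at *
  generalize e * x ^ m = z at *
  generalize x ^ (j : ℕ) = v at *
  split_ifs <;> first | omega | (field_simp; ring)

lemma hasSum_alt (N : ℕ) : HasSum (fun j : ℕ+ => ((j : ℕ) : ℂ) ^ 2 * ((-1) ^ (j : ℕ) *
    if (j : ℕ) ≤ N then 1 else 0)) ((-1) ^ N * ((N : ℂ) * (N + 1) / 2)) := by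
  refine (hasSum_pnat_iff (f := fun j : ℕ => (j : ℂ) ^ 2 * ((-1) ^ j *
    if j ≤ N then 1 else 0))).mpr ?_
  have := hasSum_sum_of_ne_finset_zero (f := fun j : ℕ => (j : ℂ) ^ 2 * ((-1) ^ j *
    if j ≤ N then 1 else 0)) (s := Finset.range (N + 1)) (L := .unconditional ℕ) fun m hm => by
      rw [if_neg (by simpa [Nat.lt_succ_iff] using hm)]; simp
  rw [Finset.sum_congr rfl (g := fun j : ℕ => (j : ℂ) ^ 2 * (-1) ^ j) fun m hm => by
    rw [if_pos (by simpa [Nat.lt_succ_iff] using hm), mul_one]] at this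
  have e : ∀ N : ℕ, ∑ j ∈ Finset.range (N + 1), (j : ℂ) ^ 2 * (-1) ^ j =
      (-1) ^ N * ((N : ℂ) * (N + 1) / 2) := by
    intro N
    induction N with
    | zero => simp
    | succ N ih => rw [Finset.sum_range_succ, ih]; push_cast; ring
  rw [e] at this
  simpa using this

lemma hasSum_eps (M : ℤ) : HasSum (fun j : ℕ+ => ((j : ℕ) : ℂ) ^ 2 * ((-1) ^ (j : ℕ) * eps M j))
    (-((-1) ^ M * (((M : ℂ) ^ 2 + M) / 2))) := by
  rcases M with N | N
  · have := (hasSum_alt N).neg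
    rw [Int.ofNat_eq_natCast, zpow_natCast, Int.cast_natCast,
      show (N : ℂ) ^ 2 + N = N * (N + 1) by ring]
    refine this.congr_fun fun j => ?_
    unfold eps
    split_ifs <;> first | omega | ring
  · have := hasSum_alt N
    rw [show -((-1 : ℂ) ^ Int.negSucc N * ((((Int.negSucc N : ℤ) : ℂ) ^ 2 + (Int.negSucc N : ℤ)) / 2))
      = (-1) ^ N * ((N : ℂ) * (N + 1) / 2) by
        rw [zpow_negSucc, ← inv_pow, inv_neg, inv_one, Int.cast_negSucc]; push_cast; ring]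
    refine this.congr_fun fun j => ?_
    unfold eps
    split_ifs <;> first | omega | ring

lemma swap_eps {a : ℤ → ℂ} (ha : Dec a) :
    HasSum (fun j : ℕ+ => ((j : ℕ) : ℂ) ^ 2 * ((-1) ^ (j : ℕ) * ∑' M, eps M j * a M))
      (-((∑' m : ℤ, (m : ℂ) ^ 2 * ((-1) ^ m * a m)) + ∑' m : ℤ, (m : ℂ) ^ 1 * ((-1) ^ m * a m)) / 2) := by
  have hz : Summable fun j : ℕ+ => 1 / ((j : ℕ) : ℝ) ^ 2 :=
    (summable_pnat_iff_summable_nat (f := fun j : ℕ => 1 / (j : ℝ) ^ 2)).mpr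
      (summable_one_div_nat_pow.mpr one_lt_two)
  have hs : Summable fun p : ℕ+ × ℤ =>
      ((p.1 : ℕ) : ℂ) ^ 2 * ((-1) ^ (p.1 : ℕ) * eps p.2 p.1) * a p.2 := by
    have h4 := hz.mul_of_nonneg (ha 4) (fun _ => by positivity) (fun _ => by positivity)
    refine Summable.of_norm_bounded h4 fun p => ?_
    rw [norm_mul, norm_mul ((p.2 : ℂ) ^ 4), ← mul_assoc (1 / _)]
    refine mul_le_mul_of_nonneg_right ?_ (norm_nonneg (a p.2))
    have hj := c_pos p.1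
    have key : ((p.1 : ℕ) : ℤ) ≤ |p.2| → ((p.1 : ℕ) : ℝ) ^ 2 ≤
        1 / ((p.1 : ℕ) : ℝ) ^ 2 * ‖(p.2 : ℂ) ^ 4‖ := by
      intro h
      rw [norm_pow, Complex.norm_intCast, one_div, le_inv_mul_iff₀ (by positivity), ← pow_add]
      exact pow_le_pow_left₀ hj.le (by exact_mod_cast h) _
    unfold eps
    split_ifs with a1 a2 a2
    · simp
    · simpa using key (le_abs.mpr (Or.inr (by omega)))
    · simpa using key (le_abs.mpr (Or.inl (by omega)))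
    · simp
  have h1 := hs.hasSum.prod_fiberwise fun j => (hs.prod_factor j).hasSum
  have h2 := ((Equiv.prodComm ℤ ℕ+).hasSum_iff.mpr hs.hasSum).prod_fiberwise
    fun M => (hasSum_eps M).mul_right (a M)
  have h3 := h2.unique (((((ha.sgn 2).of_norm.hasSum.add
    (ha.sgn 1).of_norm.hasSum).neg).div_const 2).congr_fun fun M => by ring)
  rw [← h3]
  refine h1.congr_fun fun j => ?_
  rw [← tsum_mul_left, ← tsum_mul_left]
  exact tsum_congr fun M => by ring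

lemma sgn_conv (a : ℤ → ℂ) (m : ℤ) (j : ℕ) :
    ((-1) ^ (m + j) * a (m + j)) * ((-1) ^ m * a m) = (-1) ^ j * (a (m + j) * a m) := by
  rw [zpow_add₀ (by norm_num), zpow_natCast]
  have : ((-1 : ℂ) ^ m) * (-1) ^ m = 1 := by rw [← mul_zpow]; simp
  linear_combination ((-1) ^ j * a (m + j) * a m) * this

/-- alternating moments -/
noncomputable def KK (r : ℕ) (e x : ℂ) : ℂ := ∑' m : ℤ, (m : ℂ) ^ r * ((-1) ^ m * psi e x m)

theorem key1C (he : ‖e‖ = 1) (he1 : e ≠ 1) (hx0 : x ≠ 0) (hx : ‖x‖ < 1) {S : ℂ}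
    (hS : HasSum (fun j : ℕ+ => -((-1) ^ (j : ℕ) * ((j : ℕ) : ℂ) ^ 3) * ph (x ^ (j : ℕ))) S) :
    KK 2 e x * KK 0 e x - KK 1 e x ^ 2 = S - (KK 2 e x + KK 1 e x) / 2 := by
  have hd := dec_psi he hx0 hx
  have := conv_quad hd.sgn (B := fun j => (-1) ^ (j : ℕ) *
      (-((j : ℕ) : ℂ) * ph (x ^ (j : ℕ)) + ∑' M, eps M j * psi e x M))
    (fun j => ((conv_psi he he1 hx0 hx j).mul_left _).congr_fun fun m => sgn_conv _ m j)
    ((hS.add (swap_eps hd)).congr_fun fun j => by ring)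
  simp only [KK, pow_zero, one_mul]
  rw [this]; ring

theorem key2C (he : ‖e‖ = 1) (he1 : e ^ 2 ≠ 1) (hx0 : x ≠ 0) (hx : ‖x‖ < 1) {S : ℂ}
    (hS : HasSum (fun j : ℕ+ => -((-1) ^ (j : ℕ) * ((j : ℕ) : ℂ) ^ 3) *
      (ph (x ^ (j : ℕ)) - ph ((x ^ 2) ^ (j : ℕ)))) S) :
    (KK 2 e x - KK 2 (-e) x) * (KK 0 e x - KK 0 (-e) x) - (KK 1 e x - KK 1 (-e) x) ^ 2 =
      4 * S := by
  have hd := dec_psi he hx0 hx
  have hd' := dec_psi (e := -e) (by simpa) hx0 hx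
  have hx2 := norm_pow_lt hx two_ne_zero
  have := conv_quad (hd.sub hd').sgn (B := fun j => (-1) ^ (j : ℕ) *
      (4 * (ph (x ^ (j : ℕ)) - ph ((x ^ 2) ^ (j : ℕ))) * -((j : ℕ) : ℂ)))
    (fun j => ((((tele (e := e ^ 2) (by simp [he]) (pow_ne_zero 2 hx0) hx2 j).mul_left
      _).congr_fun fun m => ?_).mul_left _).congr_fun
      fun m => sgn_conv (fun m => psi e x m - psi (-e) x m) m j)
    ((hS.mul_left 4).congr_fun fun j => by ring)
  · rw [← this]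
    have e : ∀ r, KK r e x - KK r (-e) x =
        ∑' m : ℤ, (m : ℂ) ^ r * ((-1) ^ m * (psi e x m - psi (-e) x m)) := fun r => by
      rw [KK, KK, ← (hd.sgn r).of_norm.tsum_sub (hd'.sgn r).of_norm]
      exact tsum_congr fun m => by ring
    simp only [e, pow_zero, one_mul]
  · have b1 := one_sub_ne'' (e := e ^ 2) (by simp [he]) he1 (pow_ne_zero 2 hx0) hx2 m
    have b2 := one_sub_ne'' (e := e ^ 2) (by simp [he]) he1 (pow_ne_zero 2 hx0) hx2 (m + (j : ℕ))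
    have b3 := one_sub_pow_ne hx2 j
    have c1 : ∀ k : ℤ, e ^ 2 * (x ^ 2) ^ k = (e * x ^ k) ^ 2 := fun k => by
      rw [mul_pow, ← zpow_natCast x, ← zpow_natCast (x ^ k), ← zpow_mul, ← zpow_mul, mul_comm k]
    have c2 : (x ^ 2) ^ (j : ℕ) = (x ^ (j : ℕ)) ^ 2 := by ring
    simp only [psi, ph, neg_mul]
    simp only [c1, c2] at b1 b2 b3 ⊢
    rw [zpow_add₀ hx0, zpow_natCast, ← mul_assoc] at b2 ⊢
    generalize e * x ^ m = z at *
    generalize x ^ (j : ℕ) = v at *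
    rw [show ∀ w : ℂ, 1 - w ^ 2 = (1 - w) * (1 + w) from fun w => by ring] at b1 b2 b3
    have := left_ne_zero_of_mul b1
    have := right_ne_zero_of_mul b1
    have := left_ne_zero_of_mul b2
    have := right_ne_zero_of_mul b2
    have := left_ne_zero_of_mul b3
    have := right_ne_zero_of_mul b3
    simp only [show ∀ w : ℂ, 1 - w ^ 2 = (1 - w) * (1 + w) from fun w => by ring, sub_neg_eq_add]
    field_simp
    ring

/-- defect of the fraction decomposition -/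
noncomputable def dfc (z v : ℂ) : ℂ :=
  h1 (z * v) * h1 z - (h1 v * (h1 z + h1 (z * v)) - h2 v * (ph z - ph (z * v)))

lemma dfc_eq {z v : ℂ} (a1 : 1 - z ≠ 0) (a2 : 1 - z * v ≠ 0) (a3 : 1 - v ≠ 0) : dfc z v = 0 := by
  unfold dfc h1 h2 ph
  field_simp
  ring

theorem wpC (he : ‖e‖ = 1) (hx0 : x ≠ 0) (hx : ‖x‖ < 1) {A B S : ℂ} {d : ℕ+ → ℂ}
    (hA : HasSum (fun j : ℕ+ => h1 (x ^ (j : ℕ))) A)
    (hB : HasSum (fun j : ℕ+ => ((j : ℕ) : ℂ) * h2 (x ^ (j : ℕ))) B)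
    (hd : ∀ j : ℕ+, HasSum (fun m : ℤ => dfc (e * x ^ m) (x ^ (j : ℕ))) (d j)) (hS : HasSum d S) :
    (∑' m : ℤ, h1 (e * x ^ m)) ^ 2 = ∑' m : ℤ, h1 (e * x ^ m) ^ 2 +
      2 * (2 * A * (∑' m : ℤ, h1 (e * x ^ m)) + B + S) := by
  have h0 := dec_h1 he hx0 hx
  have hs := h0.summable.hasSum
  refine conv_sq h0 (B := fun j => h1 (x ^ (j : ℕ)) * ((∑' m : ℤ, h1 (e * x ^ m)) +
    ∑' m : ℤ, h1 (e * x ^ m)) - h2 (x ^ (j : ℕ)) * -((j : ℕ) : ℂ) + d j) (fun j => ?_) ?_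
  · refine ((((hs.add (hasSum_shift hs (j : ℕ))).mul_left _).sub
      ((tele he hx0 hx j).mul_left _)).add (hd j)).congr_fun fun m => ?_
    simp only [dfc, zpow_add₀ hx0, zpow_natCast, ← mul_assoc]
    ring
  · rw [mul_comm 2 A, mul_assoc]
    exact (((hA.mul_right (2 * ∑' m : ℤ, h1 (e * x ^ m))).add hB).add hS).congr_fun
      (fun j => by ring)

end RV6
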