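import Pool.Agent.Lib.MP_15b3df_nt.RV08

/-! Real forms of the key identities and of the divisor-sum convolution identities. -/

open Real Filter Topology Set
open Complex (I)

namespace RV6

lemma hasSum_int {f : ℤ → ℂ} {A B : ℂ} (h1 : HasSum (fun n : ℕ+ => f (n : ℕ)) A)
    (h2 : HasSum (fun n : ℕ+ => f (-(n : ℕ))) B) : HasSum f (f 0 + A + B) := by
  have a1 := (hasSum_pnat_iff (f := fun n : ℕ => f n)).mp h1
  have a2 := (hasSum_pnat_iff_hasSum_succ (f := fun n : ℕ => f (-n))).mp h2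
  have := HasSum.of_nat_of_neg_add_one a1 (by simpa using a2)
  simpa [add_comm] using this

noncomputable def Dl (s y : ℝ) : ℝ :=
  1 / 2 + 4 * DS (fun m => (m : ℕ) * sg m) (fun n => cos (2 * π * ((n : ℕ) * s))) y

noncomputable def DP (s y : ℝ) : ℝ :=
  6 / π * DS (fun m => ((m : ℕ) : ℝ) ^ 2 * sg m) (fun n => sin (2 * π * ((n : ℕ) * s))) y

noncomputable def B1 (y : ℝ) : ℝ :=
  3 / 4 - 12 * DS (fun m => ((m : ℕ) : ℝ) ^ 3 * sg m) (fun _ => 1) y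

variable {y : ℝ}

lemma DS_neg_right (α β : ℕ+ → ℝ) (y : ℝ) : DS α (fun n => -β n) y = -DS α β y := by
  rw [← neg_one_mul (DS _ _ _), ← DS_smul_right]; simp

lemma lamG' {β : ℕ+ → ℝ} (hβ : PB β) (r : ℕ) {F : ℂ → ℂ}
    (hF : ∀ z : ℂ, ‖z‖ < 1 → HasSum (fun m : ℕ+ => ((m : ℕ) : ℂ) ^ r * z ^ (m : ℕ)) (F z))
    (hy : 0 < y) (s : ℝ) :
    HasSum (fun n : ℕ+ => (β n : ℂ) * F ((ee s)⁻¹ * qc y ^ (n : ℕ)))
      (DS β (fun m => ((m : ℕ) : ℝ) ^ r * cos (2 * π * ((m : ℕ) * s))) y -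
        DS β (fun m => ((m : ℕ) : ℝ) ^ r * sin (2 * π * ((m : ℕ) * s))) y * I) := by
  have := lamG hβ r hF hy (-s)
  simp only [mul_neg, cos_neg, sin_neg, ee_neg, DS_neg_right] at this
  simpa [sub_eq_add_neg] using this

lemma lamG0 {β : ℕ+ → ℝ} (hβ : PB β) (r : ℕ) {F : ℂ → ℂ}
    (hF : ∀ z : ℂ, ‖z‖ < 1 → HasSum (fun m : ℕ+ => ((m : ℕ) : ℂ) ^ r * z ^ (m : ℕ)) (F z))
    (hy : 0 < y) : HasSum (fun n : ℕ+ => (β n : ℂ) * F (qc y ^ (n : ℕ)))
      (DS β (fun m => ((m : ℕ) : ℝ) ^ r) y) := by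
  have := lamG hβ r hF hy 0
  simpa [ee_zero, DS] using this

lemma KK_eq (hy : 0 < y) (r : ℕ) (s : ℝ) : KK r (ee s) (qc y) = 0 ^ r * ph (ee s)
    - (1 - (-1) ^ r) * DS (fun m => ((m : ℕ) : ℝ) ^ r * sg m)
        (fun n => cos (2 * π * ((n : ℕ) * s))) y
    - (1 + (-1) ^ r) * DS (fun m => ((m : ℕ) : ℝ) ^ r * sg m)
        (fun n => sin (2 * π * ((n : ℕ) * s))) y * I := by
  have a1 := (lamG ((PB.pow r).mul PB_sg) 0 (fun _ => hasSum_ph) hy s).neg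
  have a2 := (lamG' ((PB.pow r).mul PB_sg) 0 (fun _ => hasSum_ph) hy s).mul_left ((-1) ^ r)
  have := hasSum_int (f := fun m : ℤ => (m : ℂ) ^ r * ((-1) ^ m * psi (ee s) (qc y) m))
    (a1.congr_fun fun n => by
      simp only [psi_nat, sg, zpow_natCast]; push_cast; ring)
    (a2.congr_fun fun n => by
      rw [psi_neg (norm_ee s) (qc_ne y) (norm_qc_lt hy) n.ne_zero, zpow_neg, zpow_natCast,
        ← inv_pow, inv_neg, inv_one, sg]
      push_cast; rw [neg_pow]; ring)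
  rw [KK, this.tsum_eq]
  simp only [pow_zero, one_mul, psi, io]
  simp
  ring

lemma one_sub_ee (s : ℝ) : 1 - ee s = -2 * I * (sin (π * s) : ℝ) * ee (s / 2) ∧
    1 + ee s = 2 * (cos (π * s) : ℝ) * ee (s / 2) ∧ ee s = ee (s / 2) ^ 2 := by
  have e0 : ee s = ee (s / 2) ^ 2 := by rw [ee_pow]; congr 1; push_cast; ring
  have e1 := ee_eq (s / 2)
  have e2 := ee_inv_eq (s / 2)
  rw [show 2 * π * (s / 2) = π * s by ring] at e1 e2
  have e3 := ee_ne (s / 2)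
  have e2' : 1 = ee (s / 2) * ((cos (π * s) : ℝ) - (sin (π * s) : ℝ) * I) := by
    rw [← e2, mul_inv_cancel₀ e3]
  refine ⟨?_, ?_, e0⟩
  · rw [e0]; linear_combination e2' - ee (s / 2) * e1
  · rw [e0]; linear_combination e2' + ee (s / 2) * e1

lemma ee_ne_one {s : ℝ} (hs : sin (π * s) ≠ 0) : 1 - ee s ≠ 0 := by
  rw [(one_sub_ee s).1]
  exact mul_ne_zero (mul_ne_zero (by simp) (by exact_mod_cast hs)) (ee_ne _)

lemma ph_ee {s : ℝ} (hs : sin (π * s) ≠ 0) :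
    ph (ee s) = -1 / 2 + ((cos (π * s) / sin (π * s) : ℝ) : ℂ) * I / 2 := by
  obtain ⟨a, b, -⟩ := one_sub_ee s
  have hs' : ((sin (π * s) : ℝ) : ℂ) ≠ 0 := by exact_mod_cast hs
  rw [ph, div_eq_iff (ee_ne_one hs), Complex.ofReal_div]
  have := mul_div_cancel₀ ((cos (π * s) : ℝ) : ℂ) hs'
  have hI := Complex.I_mul_I
  generalize ((cos (π * s) : ℝ) : ℂ) / (sin (π * s) : ℝ) = c at this
  linear_combination b / 2 - (c * I / 2) * a - ee (s / 2) * this +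
    (c * (sin (π * s) : ℝ) * ee (s / 2)) * hI

lemma h1_ee {s : ℝ} (hs : sin (π * s) ≠ 0) :
    h1 (ee s) = ((-1 / (4 * sin (π * s) ^ 2) : ℝ) : ℂ) := by
  obtain ⟨a, -, c⟩ := one_sub_ee s
  have hs' : ((sin (π * s) : ℝ) : ℂ) ≠ 0 := by exact_mod_cast hs
  have := ee_ne (s / 2)
  rw [h1, a, c, Complex.ofReal_div, Complex.ofReal_mul, Complex.ofReal_pow, mul_pow, mul_pow,
    mul_pow, Complex.I_sq]
  push_cast
  field_simp
  norm_num

lemma pi_ne : (π : ℂ) ≠ 0 := by exact_mod_cast pi_pos.ne'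

lemma KK0 (hy : 0 < y) {s : ℝ} (hs : sin (π * s) ≠ 0) :
    KK 0 (ee s) (qc y) = -1 / 2 + I / (4 * π) * ells s y := by
  rw [KK_eq hy, ph_ee hs, ells]
  have := pi_ne
  simp only [pow_zero, one_mul, Complex.ofReal_sub, Complex.ofReal_mul, Complex.ofReal_ofNat]
  field_simp
  ring

lemma KK1 (hy : 0 < y) (s : ℝ) : KK 1 (ee s) (qc y) = (1 / 2 - Dl s y) / 2 := by
  rw [KK_eq hy, Dl]
  simp only [pow_one]
  push_cast
  ring

lemma KK2 (hy : 0 < y) (s : ℝ) : KK 2 (ee s) (qc y) = -(I * π / 3) * DP s y := by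
  rw [KK_eq hy, DP]
  have := pi_ne
  push_cast
  field_simp
  ring

lemma hasSum_B1 (hy : 0 < y) :
    HasSum (fun j : ℕ+ => -((-1) ^ (j : ℕ) * ((j : ℕ) : ℂ) ^ 3) * ph (qc y ^ (j : ℕ)))
      ((3 / 4 - (B1 y : ℂ)) / 12) := by
  have := lamG0 ((PB.pow 3).mul PB_sg) 0 (fun _ => hasSum_ph) hy
  rw [B1]
  simp only [pow_zero] at this
  push_cast
  rw [show ∀ a : ℂ, (3 / 4 - (3 / 4 - 12 * a)) / 12 = a from fun a => by ring]
  exact this.congr_fun fun j => by rw [sg]; push_cast; ring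

theorem key1 (hy : 0 < y) {s : ℝ} (hs : sin (π * s) ≠ 0) :
    3 * Dl s y ^ 2 - DP s y * ells s y = B1 y := by
  have h := key1C (norm_ee s) (sub_ne_zero.mp (ee_ne_one hs)).symm (qc_ne y) (norm_qc_lt hy)
    (hasSum_B1 hy)
  rw [KK0 hy hs, KK1 hy, KK2 hy] at h
  have := pi_ne
  have hI := Complex.I_mul_I
  have h2 : (π : ℂ) * (I / (4 * π)) = I / 4 := by field_simp
  apply Complex.ofReal_injective
  push_cast
  linear_combination -12 * h - (4 * I * DP s y * ells s y) * h2 - (DP s y * ells s y : ℂ) * hI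

lemma qc_two (y : ℝ) : qc (2 * y) = qc y ^ 2 := by
  rw [qc_eq, qc_eq, ← Complex.ofReal_pow, ← exp_nat_mul]; congr 2; push_cast; ring

theorem key2 (hy : 0 < y) {s : ℝ} (hs : sin (π * s) ≠ 0) (hc : cos (π * s) ≠ 0) :
    3 * (Dl s y - Dl (s + 1 / 2) y) ^ 2 -
      (DP s y - DP (s + 1 / 2) y) * (ells s y - ells (s + 1 / 2) y) = 4 * (B1 y - B1 (2 * y)) := by
  have hs' : sin (π * (s + 1 / 2)) ≠ 0 := by
    rwa [show π * (s + 1 / 2) = π * s + π / 2 by ring, sin_add_pi_div_two]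
  have e0 : -ee s = ee (s + 1 / 2) := by rw [ee_add, ee_half]; ring
  have a1 := hasSum_B1 hy
  have a2 := hasSum_B1 (mul_pos two_pos hy)
  rw [qc_two] at a2
  have h := key2C (norm_ee s) (fun h => mul_ne_zero (ee_ne_one hs) (ee_ne_one hs') (by
    rw [← e0]; linear_combination -h)) (qc_ne y) (norm_qc_lt hy)
    ((a1.sub a2).congr_fun fun j => by ring)
  rw [e0, KK0 hy hs, KK0 hy hs', KK1 hy, KK1 hy, KK2 hy, KK2 hy] at h
  have := pi_ne
  have hI := Complex.I_mul_I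
  have h2 : (π : ℂ) * (I / (4 * π)) = I / 4 := by field_simp
  apply Complex.ofReal_injective
  push_cast
  linear_combination -12 * h - (4 * I * (DP s y - DP (s + 1 / 2) y) *
    (ells s y - ells (s + 1 / 2) y)) * h2 -
    ((DP s y - DP (s + 1 / 2) y) * (ells s y - ells (s + 1 / 2) y) : ℂ) * hI

noncomputable def S1 (y : ℝ) : ℝ := DS (fun _ => 1) (fun m => (m : ℕ)) y
noncomputable def S3 (y : ℝ) : ℝ := DS (fun _ => 1) (fun m => ((m : ℕ) : ℝ) ^ 3) y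
noncomputable def SD (y : ℝ) : ℝ := DS (fun n => (n : ℕ)) (fun m => ((m : ℕ) : ℝ) ^ 2) y
noncomputable def CC (r : ℕ) (s y : ℝ) : ℝ :=
  DS (fun _ => 1) (fun m => ((m : ℕ) : ℝ) ^ r * cos (2 * π * ((m : ℕ) * s))) y

lemma hasSum_S1 (hy : 0 < y) : HasSum (fun j : ℕ+ => h1 (qc y ^ (j : ℕ))) (S1 y) := by
  simpa [S1] using lamG0 (PB.const 1) 1 (fun _ => hasSum_h1) hy

lemma hasSum_S3 (hy : 0 < y) : HasSum (fun j : ℕ+ => h3 (qc y ^ (j : ℕ))) (S3 y) := by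
  simpa [S3] using lamG0 (PB.const 1) 3 (fun _ => hasSum_h3) hy

lemma hasSum_SD (hy : 0 < y) :
    HasSum (fun j : ℕ+ => ((j : ℕ) : ℂ) * h2 (qc y ^ (j : ℕ))) (SD y) := by
  simpa [SD] using lamG0 PB.id 2 (fun _ => hasSum_h2) hy

lemma h1_sq {z : ℂ} (hz : 1 - z ≠ 0) : h1 z ^ 2 = (h3 z - h1 z) / 6 := by
  unfold h1 h3; field_simp; ring

lemma wp_gen (hy : 0 < y) (s : ℝ) {S : ℂ} {d : ℕ+ → ℂ}
    (hd : ∀ j : ℕ+, HasSum (fun m : ℤ => dfc (ee s * qc y ^ m) (qc y ^ (j : ℕ))) (d j))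
    (hS : HasSum d S) : (h1 (ee s) + 2 * CC 1 s y) ^ 2 = h1 (ee s) ^ 2 + (CC 3 s y - CC 1 s y) / 3
      + 2 * (2 * S1 y * (h1 (ee s) + 2 * CC 1 s y) + SD y + S) := by
  have h := wpC (norm_ee s) (qc_ne y) (norm_qc_lt hy) (hasSum_S1 hy) (hasSum_SD hy) hd hS
  have a1 := lamG (PB.const 1) 1 (fun _ => hasSum_h1) hy s
  have a2 := lamG' (PB.const 1) 1 (fun _ => hasSum_h1) hy s
  have a3 := lamG (PB.const 1) 3 (fun _ => hasSum_h3) hy s
  have a4 := lamG' (PB.const 1) 3 (fun _ => hasSum_h3) hy s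
  have n0 : ∀ n : ℕ+, (ee s)⁻¹ * qc y ^ (n : ℕ) ≠ 0 := fun n =>
    mul_ne_zero (inv_ne_zero (ee_ne s)) (pow_ne_zero _ (qc_ne y))
  have b1 := hasSum_int (f := fun m : ℤ => h1 (ee s * qc y ^ m))
    (a1.congr_fun fun n => by simp)
    (a2.congr_fun fun n => by rw [zpow_neg_eq (norm_ee s), h1_inv (n0 n)]; simp)
  have b2 := hasSum_int (f := fun m : ℤ => h1 (ee s * qc y ^ m) ^ 2)
    (((a3.sub a1).div_const 6).congr_fun fun n => by
      rw [zpow_natCast, h1_sq (one_sub_ne (norm_ee_q hy s n))]; simp)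
    (((a4.sub a2).div_const 6).congr_fun fun n => by
      rw [zpow_neg_eq (norm_ee s), h1_inv (n0 n), ← ee_neg, h1_sq (one_sub_ne (norm_ee_q hy _ n))]
      simp)
  rw [b1.tsum_eq, b2.tsum_eq] at h
  simp only [zpow_zero, mul_one] at h
  unfold CC
  linear_combination h

theorem wp_real (hy : 0 < y) {s : ℝ} (hs : sin (π * s) ≠ 0) :
    4 * (-1 / (4 * sin (π * s) ^ 2)) * (CC 1 s y - S1 y) + 4 * CC 1 s y ^ 2 =
      (CC 3 s y - CC 1 s y) / 3 + 8 * S1 y * CC 1 s y + 2 * SD y := by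
  have he1 := (sub_ne_zero.mp (ee_ne_one hs)).symm
  have h := wp_gen hy s (d := fun _ => 0) (fun j => hasSum_zero.congr_fun fun m => dfc_eq
    (one_sub_ne'' (norm_ee s) he1 (qc_ne y) (norm_qc_lt hy) m) (by
      rw [mul_assoc, ← zpow_natCast, ← zpow_add₀ (qc_ne y)]
      exact one_sub_ne'' (norm_ee s) he1 (qc_ne y) (norm_qc_lt hy) _)
    (one_sub_pow_ne (norm_qc_lt hy) j)) hasSum_zero
  rw [h1_ee hs] at h
  generalize -1 / (4 * sin (π * s) ^ 2) = c at h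
  apply Complex.ofReal_injective
  push_cast
  linear_combination h

lemma CC_zero (r : ℕ) (y : ℝ) :
    CC r 0 y = DS (fun _ => 1) (fun m => ((m : ℕ) : ℝ) ^ r) y := by simp [CC]

theorem ramanujan (hy : 0 < y) : 12 * S1 y ^ 2 = 5 * S3 y + S1 y - 6 * SD y := by
  classical
  have hq := norm_qc_lt hy
  have h := wp_gen hy 0 (d := fun j => -(h3 (qc y ^ (j : ℕ)) - h1 (qc y ^ (j : ℕ))) -
    h1 (qc y ^ (j : ℕ))) (fun j => ?_) (((hasSum_S3 hy).sub (hasSum_S1 hy)).neg.sub (hasSum_S1 hy))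
  · rw [CC_zero, CC_zero, ee_zero] at h
    simp only [pow_one, h1, sub_self] at h
    apply Complex.ofReal_injective
    push_cast
    unfold S1 S3 at *
    linear_combination -3 * h
  · have hj : (0 : ℤ) ≠ -((j : ℕ) : ℤ) := by have := j.pos; omega
    have := hasSum_sum_of_ne_finset_zero
      (f := fun m : ℤ => dfc (ee 0 * qc y ^ m) (qc y ^ (j : ℕ))) (s := {0, -((j : ℕ) : ℤ)})
      (L := .unconditional ℤ) fun m hm => by
        simp only [Finset.mem_insert, Finset.mem_singleton, not_or] at hm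
        refine dfc_eq (one_sub_ne' (norm_ee 0) (qc_ne y) hq hm.1) ?_ (one_sub_pow_ne hq j)
        rw [mul_assoc, ← zpow_natCast, ← zpow_add₀ (qc_ne y)]
        exact one_sub_ne' (norm_ee 0) (qc_ne y) hq (by omega)
    rw [Finset.sum_pair hj] at this
    convert this using 1
    have a1 := one_sub_pow_ne hq j
    have a2 := pow_ne_zero (j : ℕ) (qc_ne y)
    simp only [ee_zero, zpow_zero, zpow_neg, zpow_natCast, one_mul, dfc, h1_inv a2,
      inv_mul_cancel₀ a2]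
    generalize qc y ^ (j : ℕ) = v at a1 a2
    have a3 : v - 1 ≠ 0 := fun h => a1 (by linear_combination -h)
    simp only [h1, h2, h3, ph, sub_self, div_zero, ne_eq, OfNat.ofNat_ne_zero, not_false_eq_true,
      zero_pow]
    field_simp
    ring

end RV6
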