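import Pool.Agent.Lib.MP_15b3df_nt.RV09

/-! Arithmetic of coefficient sequences, modular inversion and convolution identities. -/

open Real Filter Topology Set
open Complex (I)
open scoped MatrixGroups ModularForm

namespace RV6

lemma cos_mod (d n : ℕ) (hd : d ≠ 0) :
    cos (2 * π * (n * (1 / d))) = cos (2 * π * ((n % d : ℕ) * (1 / d))) := by
  conv_lhs => rw [← Nat.mod_add_div n d]
  have : (d : ℝ) ≠ 0 := by exact_mod_cast hd
  rw [← cos_add_nat_mul_two_pi (2 * π * ((n % d : ℕ) * (1 / d))) (n / d)]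
  congr 1
  rw [Nat.cast_add, Nat.cast_mul]
  field_simp

lemma ind_eq (d n : ℕ+) : ind d n = if (n : ℕ) % (d : ℕ) = 0 then 1 else 0 := by
  simp only [ind, Nat.dvd_iff_mod_eq_zero]

lemma cos_half (n : ℕ+) : cos (2 * π * ((n : ℕ) * (1 / 2))) = -1 + 2 * ind 2 n := by
  have := cos_mod 2 n two_ne_zero
  rw [Nat.cast_ofNat] at this
  rw [this, ind_eq, show ((2 : ℕ+) : ℕ) = 2 from rfl]
  have h : (n : ℕ) % 2 < 2 := Nat.mod_lt _ two_pos
  interval_cases (n : ℕ) % 2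
  · norm_num
  · rw [show 2 * π * (((1 : ℕ) : ℝ) * (1 / 2)) = π by push_cast; ring]; simp

lemma cos_third (n : ℕ+) : cos (2 * π * ((n : ℕ) * (1 / 3))) = -1 / 2 + 3 / 2 * ind 3 n := by
  have := cos_mod 3 n three_ne_zero
  rw [Nat.cast_ofNat] at this
  rw [this, ind_eq, show ((3 : ℕ+) : ℕ) = 3 from rfl]
  have h : (n : ℕ) % 3 < 3 := Nat.mod_lt _ three_pos
  interval_cases (n : ℕ) % 3
  · norm_num
  · rw [show 2 * π * (((1 : ℕ) : ℝ) * (1 / 3)) = π - π / 3 by push_cast; ring, cos_pi_sub,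
      cos_pi_div_three]; norm_num
  · rw [show 2 * π * (((2 : ℕ) : ℝ) * (1 / 3)) = π / 3 + π by push_cast; ring, cos_add_pi,
      cos_pi_div_three]; norm_num

lemma cos_quarter (n : ℕ+) : cos (2 * π * ((n : ℕ) * (1 / 4))) = -ind 2 n + 2 * ind 4 n := by
  have := cos_mod 4 n four_ne_zero
  rw [Nat.cast_ofNat] at this
  rw [this, ind_eq, ind_eq, show ((2 : ℕ+) : ℕ) = 2 from rfl, show ((4 : ℕ+) : ℕ) = 4 from rfl,
    ← Nat.mod_mod_of_dvd (n : ℕ) (show 2 ∣ 4 by norm_num)]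
  have h : (n : ℕ) % 4 < 4 := Nat.mod_lt _ four_pos
  interval_cases (n : ℕ) % 4
  · norm_num
  · rw [show 2 * π * (((1 : ℕ) : ℝ) * (1 / 4)) = π / 2 by push_cast; ring]; simp
  · rw [show 2 * π * (((2 : ℕ) : ℝ) * (1 / 4)) = π by push_cast; ring]; simp
  · rw [show 2 * π * (((3 : ℕ) : ℝ) * (1 / 4)) = π / 2 + π by push_cast; ring, cos_add_pi]; simp

lemma cos_sixth (n : ℕ+) : cos (2 * π * ((n : ℕ) * (1 / 6))) =
    1 / 2 - ind 2 n - 3 / 2 * ind 3 n + 3 * ind 6 n := by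
  have := cos_mod 6 n (by norm_num)
  rw [Nat.cast_ofNat] at this
  rw [this, ind_eq, ind_eq, ind_eq, show ((2 : ℕ+) : ℕ) = 2 from rfl,
    show ((3 : ℕ+) : ℕ) = 3 from rfl, show ((6 : ℕ+) : ℕ) = 6 from rfl,
    ← Nat.mod_mod_of_dvd (n : ℕ) (show 2 ∣ 6 by norm_num),
    ← Nat.mod_mod_of_dvd (n : ℕ) (show 3 ∣ 6 by norm_num)]
  have h : (n : ℕ) % 6 < 6 := Nat.mod_lt _ (by norm_num)
  interval_cases (n : ℕ) % 6
  · norm_num
  · rw [show 2 * π * (((1 : ℕ) : ℝ) * (1 / 6)) = π / 3 by push_cast; ring, cos_pi_div_three]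
    norm_num
  · rw [show 2 * π * (((2 : ℕ) : ℝ) * (1 / 6)) = π - π / 3 by push_cast; ring, cos_pi_sub,
      cos_pi_div_three]; norm_num
  · rw [show 2 * π * (((3 : ℕ) : ℝ) * (1 / 6)) = π by push_cast; ring]; simp; norm_num
  · rw [show 2 * π * (((4 : ℕ) : ℝ) * (1 / 6)) = π / 3 + π by push_cast; ring, cos_add_pi,
      cos_pi_div_three]; norm_num
  · rw [show 2 * π * (((5 : ℕ) : ℝ) * (1 / 6)) = 2 * π - π / 3 by push_cast; ring, cos_two_pi_sub,
      cos_pi_div_three]; norm_num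

lemma sg_eq (n : ℕ+) : sg n = 1 - 2 * ind 2 n := by
  unfold sg ind
  rw [show ((2 : ℕ+) : ℕ) = 2 from rfl]
  rcases Nat.even_or_odd (n : ℕ) with h | h
  · rw [h.neg_one_pow, if_pos h.two_dvd]; norm_num
  · rw [h.neg_one_pow, if_neg h.not_two_dvd_nat]; norm_num

/-- expansion of a double series along indicator functions of `2,3,4,6` -/
lemma DS_expand {α β γ : ℕ+ → ℝ} (hα : PB α) (hβ : PB β) {y : ℝ} (hy : 0 < y)
    (c1 c2 c3 c4 c6 e2 e3 e4 e6 : ℝ)
    (h : ∀ n, γ n = (c1 + c2 * ind 2 n + c3 * ind 3 n + c4 * ind 4 n + c6 * ind 6 n) * β n)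
    (h2 : ∀ n, β (2 * n) = e2 * β n) (h3 : ∀ n, β (3 * n) = e3 * β n)
    (h4 : ∀ n, β (4 * n) = e4 * β n) (h6 : ∀ n, β (6 * n) = e6 * β n) :
    DS α γ y = c1 * DS α β y + c2 * e2 * DS α β (2 * y) + c3 * e3 * DS α β (3 * y) +
      c4 * e4 * DS α β (4 * y) + c6 * e6 * DS α β (6 * y) := by
  have k : ∀ (d : ℕ+) (c : ℝ), PB fun n => c * (ind d n * β n) := fun d c =>
    (PB.const c).mul ((PB.ind d).mul hβ)
  have k1 := (PB.const c1).mul hβ
  rw [DS_congr (fun _ => rfl) (β' := fun n => c1 * β n + c2 * (ind 2 n * β n) +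
    c3 * (ind 3 n * β n) + c4 * (ind 4 n * β n) + c6 * (ind 6 n * β n)) (fun n => by rw [h]; ring),
    DS_add_right hα (((k1.add (k _ _)).add (k _ _)).add (k _ _)) (k _ _) hy,
    DS_add_right hα ((k1.add (k _ _)).add (k _ _)) (k _ _) hy,
    DS_add_right hα (k1.add (k _ _)) (k _ _) hy, DS_add_right hα k1 (k _ _) hy]
  simp only [DS_smul_right, DS_ind_right, h2, h3, h4, h6]
  norm_num
  ring

lemma DS_expand_pow {α γ : ℕ+ → ℝ} (hα : PB α) (r : ℕ) {y : ℝ} (hy : 0 < y) (c1 c2 c3 c4 c6 : ℝ)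
    (h : ∀ n, γ n =
      (c1 + c2 * ind 2 n + c3 * ind 3 n + c4 * ind 4 n + c6 * ind 6 n) * ((n : ℕ) : ℝ) ^ r) :
    DS α γ y = c1 * DS α (fun n => ((n : ℕ) : ℝ) ^ r) y +
      c2 * 2 ^ r * DS α (fun n => ((n : ℕ) : ℝ) ^ r) (2 * y) +
      c3 * 3 ^ r * DS α (fun n => ((n : ℕ) : ℝ) ^ r) (3 * y) +
      c4 * 4 ^ r * DS α (fun n => ((n : ℕ) : ℝ) ^ r) (4 * y) +
      c6 * 6 ^ r * DS α (fun n => ((n : ℕ) : ℝ) ^ r) (6 * y) :=
  DS_expand hα (PB.pow r) hy c1 c2 c3 c4 c6 _ _ _ _ h (fun n => by simp [mul_pow])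
    (fun n => by simp [mul_pow]) (fun n => by simp [mul_pow]) (fun n => by simp [mul_pow])

variable {y : ℝ}

lemma S1_eq (y : ℝ) : S1 y = DS (fun _ => 1) (fun n => ((n : ℕ) : ℝ) ^ 1) y := by simp [S1]

lemma CC1_half (hy : 0 < y) : CC 1 (1 / 2) y = -S1 y + 4 * S1 (2 * y) := by
  rw [CC, DS_expand_pow (PB.const 1) 1 hy (-1) 2 0 0 0 fun n => by rw [cos_half]; ring]
  simp only [S1_eq]; ring

lemma CC3_half (hy : 0 < y) : CC 3 (1 / 2) y = -S3 y + 16 * S3 (2 * y) := by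
  rw [CC, DS_expand_pow (PB.const 1) 3 hy (-1) 2 0 0 0 fun n => by rw [cos_half]; ring]
  simp only [S3]; ring

lemma CC1_third (hy : 0 < y) : CC 1 (1 / 3) y = -1 / 2 * S1 y + 9 / 2 * S1 (3 * y) := by
  rw [CC, DS_expand_pow (PB.const 1) 1 hy (-1 / 2) 0 (3 / 2) 0 0 fun n => by rw [cos_third]; ring]
  simp only [S1_eq]; ring

lemma CC3_third (hy : 0 < y) : CC 3 (1 / 3) y = -1 / 2 * S3 y + 81 / 2 * S3 (3 * y) := by
  rw [CC, DS_expand_pow (PB.const 1) 3 hy (-1 / 2) 0 (3 / 2) 0 0 fun n => by rw [cos_third]; ring]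
  simp only [S3]; ring

lemma CC1_quarter (hy : 0 < y) : CC 1 (1 / 4) y = -2 * S1 (2 * y) + 8 * S1 (4 * y) := by
  rw [CC, DS_expand_pow (PB.const 1) 1 hy 0 (-1) 0 2 0 fun n => by rw [cos_quarter]; ring]
  simp only [S1_eq]; ring

lemma CC3_quarter (hy : 0 < y) : CC 3 (1 / 4) y = -8 * S3 (2 * y) + 128 * S3 (4 * y) := by
  rw [CC, DS_expand_pow (PB.const 1) 3 hy 0 (-1) 0 2 0 fun n => by rw [cos_quarter]; ring]
  simp only [S3]; ring

lemma CC1_sixth (hy : 0 < y) : CC 1 (1 / 6) y =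
    1 / 2 * S1 y - 2 * S1 (2 * y) - 9 / 2 * S1 (3 * y) + 18 * S1 (6 * y) := by
  rw [CC, DS_expand_pow (PB.const 1) 1 hy (1 / 2) (-1) (-3 / 2) 0 3 fun n => by
    rw [cos_sixth]; ring]
  simp only [S1_eq]; ring

lemma conv11 (hy : 0 < y) : S1 y * S1 y = 5 / 12 * S3 y + 1 / 12 * S1 y - 1 / 2 * SD y := by
  linear_combination ramanujan hy / 12

lemma conv12 (hy : 0 < y) : S1 y * S1 (2 * y) = 1 / 12 * S3 y + 1 / 3 * S3 (2 * y) -
    1 / 8 * SD y - 1 / 2 * SD (2 * y) + 1 / 24 * (S1 y + S1 (2 * y)) := by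
  have h := wp_real hy (s := 1 / 2) (by rw [show π * (1 / 2) = π / 2 by ring]; simp)
  rw [show π * (1 / 2) = π / 2 by ring, sin_pi_div_two, CC1_half hy, CC3_half hy] at h
  linear_combination -h / 64 + ramanujan hy / 64 + ramanujan (mul_pos two_pos hy) / 12

lemma conv13 (hy : 0 < y) : S1 y * S1 (3 * y) = 1 / 24 * S3 y + 3 / 8 * S3 (3 * y) -
    1 / 12 * SD y - 3 / 4 * SD (3 * y) + 1 / 24 * (S1 y + S1 (3 * y)) := by
  have h := wp_real hy (s := 1 / 3) (by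
    rw [show π * (1 / 3) = π / 3 by ring, sin_pi_div_three]; positivity)
  rw [show π * (1 / 3) = π / 3 by ring, sin_pi_div_three, div_pow, sq_sqrt (by norm_num),
    CC1_third hy, CC3_third hy] at h
  linear_combination -h / 54 + 5 * ramanujan hy / 648 + ramanujan (mul_pos three_pos hy) / 8

lemma conv14 (hy : 0 < y) : S1 y * S1 (4 * y) = 1 / 48 * S3 y + 1 / 16 * S3 (2 * y) +
    1 / 3 * S3 (4 * y) - 1 / 16 * SD y - SD (4 * y) + 1 / 24 * (S1 y + S1 (4 * y)) := by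
  have h := wp_real hy (s := 1 / 4) (by
    rw [show π * (1 / 4) = π / 4 by ring, sin_pi_div_four]; positivity)
  rw [show π * (1 / 4) = π / 4 by ring, sin_pi_div_four, div_pow, sq_sqrt (by norm_num),
    CC1_quarter hy, CC3_quarter hy] at h
  have h2 := conv12 (mul_pos two_pos hy)
  rw [show 2 * (2 * y) = 4 * y by ring] at h2
  linear_combination -h / 64 + ramanujan (mul_pos two_pos hy) / 48 +
    ramanujan (mul_pos four_pos hy) / 3 - 2 * h2 + conv12 hy / 4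

lemma sigma_DS (k : ℕ) (hy : 0 < y) :
    ∑' e : ℕ+, (ArithmeticFunction.sigma k e : ℂ) * qc y ^ (e : ℕ) =
      DS (fun _ => 1) (fun m => ((m : ℕ) : ℝ) ^ k) y := by
  rw [← tsum_prod_pow_eq_tsum_sigma k (norm_qc_lt hy),
    ← (summable_prod_mul_pow k (norm_qc_lt hy)).tsum_prod, DS, Complex.ofReal_tsum]
  refine tsum_congr fun p => ?_
  rw [qc_eq, ← Complex.ofReal_pow, ← exp_nat_mul, ew]
  push_cast
  ring_nf

/-- the point `i y / 2` of the upper half-plane -/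
noncomputable def pt (y : ℝ) (hy : 0 < y) : UpperHalfPlane := ⟨(y / 2 : ℝ) * I, by simpa using hy⟩

lemma exp_pt (hy : 0 < y) : Complex.exp (2 * π * I * (pt y hy : ℂ)) = qc y := by
  rw [qc_eq, Complex.ofReal_exp]
  congr 1
  simp only [pt]
  push_cast
  linear_combination (π * y : ℂ) * Complex.I_mul_I

lemma S_pt (hy : 0 < y) : ModularGroup.S • pt y hy = pt (4 / y) (by positivity) := by
  rw [UpperHalfPlane.modular_S_smul]
  ext
  have : (y : ℂ) ≠ 0 := by exact_mod_cast hy.ne'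
  simp only [pt]
  push_cast
  field_simp
  linear_combination -4 * Complex.I_mul_I

theorem S1_inv (hy : 0 < y) :
    S1 (4 / y) = 1 / 24 + y ^ 2 / 96 - y ^ 2 / 4 * S1 y - y / (8 * π) := by
  have h4 : 0 < 4 / y := by positivity
  have e : ∀ y (hy : 0 < y), EisensteinSeries.G2 (pt y hy) = π ^ 2 / 3 * (1 - 24 * S1 y) := by
    intro y hy
    have := EisensteinSeries.E2_eq_tsum_cexp (pt y hy)
    rw [exp_pt, sigma_DS 1 hy, EisensteinSeries.E2, riemannZeta_two, ← S1_eq] at this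
    rw [← this]
    have := pi_ne
    simp only [Pi.smul_apply, smul_eq_mul]
    field_simp
    ring
  have h := EisensteinSeries.G2_S_transform (pt y hy)
  rw [S_pt, e, e] at h
  have := pi_ne
  have : (y : ℂ) ≠ 0 := by exact_mod_cast hy.ne'
  simp only [pt, mul_pow, Complex.I_sq] at h
  apply Complex.ofReal_injective
  push_cast at h ⊢
  field_simp at h ⊢
  linear_combination -768 * h

theorem S3_inv (hy : 0 < y) : 1 + 240 * S3 (4 / y) = y ^ 4 / 16 * (1 + 240 * S3 y) := by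
  have e : ∀ y (hy : 0 < y), ModularForm.E₄ (pt y hy) = 1 + 240 * S3 y := by
    intro y hy
    have := EisensteinSeries.q_expansion_bernoulli (k := 4) (by norm_num) (by decide) (pt y hy)
    simp only [exp_pt, zpow_natCast] at this
    rw [this, sigma_DS _ hy, bernoulli_eq_bernoulli'_of_ne_one (by norm_num), bernoulli'_four, S3]
    norm_num
  have h := SlashInvariantForm.slash_action_eqn'' (Γ := 𝒮ℒ) (k := 4) (ModularForm.E₄)
    (γ := ModularGroup.S) ⟨ModularGroup.S, rfl⟩ (pt y hy)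
  have h2 : (ModularGroup.S : GL (Fin 2) ℝ) • pt y hy = ModularGroup.S • pt y hy := rfl
  rw [h2, S_pt, e, e, ModularGroup.denom_S] at h
  apply Complex.ofReal_injective
  push_cast
  rw [h]
  simp only [pt]
  rw [show (4 : ℤ) = ((4 : ℕ) : ℤ) from rfl, zpow_natCast, mul_pow, Complex.I_pow_four]
  push_cast
  ring

/-- indicator of odd numbers -/
def od (n : ℕ+) : ℝ := 1 - ind 2 n

lemma PB_od : PB od := (PB.const 1).sub (PB.ind 2)

lemma DS_od {β : ℕ+ → ℝ} (hβ : PB β) (hy : 0 < y) :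
    DS od β y = DS (fun _ => 1) β y - DS (fun _ => 1) β (2 * y) := by
  rw [DS_swap, DS_expand hβ (PB.const 1) hy 1 (-1) 0 0 0 1 1 1 1 (fun n => by rw [od]; ring)
    (by simp) (by simp) (by simp) (by simp), DS_swap β, DS_swap β]
  ring

lemma B1_eq (hy : 0 < y) : B1 y = 3 / 4 - 12 * (S3 y - 16 * S3 (2 * y)) := by
  rw [B1, DS_swap, DS_expand_pow (PB.const 1) 3 hy 1 (-2) 0 0 0 fun n => by rw [sg_eq]; ring]
  simp only [S3]; ring

theorem B1_inv (hy : 0 < y) :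
    B1 y = 192 * (DS od (fun m => ((m : ℕ) : ℝ) ^ 3) (2 / y) / y ^ 4) := by
  have h1 := S3_inv hy
  have h2 := S3_inv (mul_pos two_pos hy)
  rw [show 4 / (2 * y) = 2 / y by field_simp; norm_num] at h2
  rw [B1_eq hy, DS_od (PB.pow 3) (by positivity), show 2 * (2 / y) = 4 / y by ring]
  change _ = 192 * ((S3 (2 / y) - S3 (4 / y)) / y ^ 4)
  field_simp
  linear_combination 16 / 5 * h1 - 16 / 5 * h2

noncomputable def B2 (y : ℝ) : ℝ := 4 * (B1 y - B1 (2 * y))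

theorem B2_inv (hy : 0 < y) :
    B2 y = -48 * (DS od (fun m => sg m * ((m : ℕ) : ℝ) ^ 3) (1 / y) / y ^ 4) := by
  rw [B2, B1_inv hy, B1_inv (mul_pos two_pos hy), DS_expand_pow (γ := fun m => sg m * ((m : ℕ) : ℝ) ^ 3)
    PB_od 3 (by positivity) 1 (-2) 0 0 0 fun n => by rw [sg_eq]; ring, show 2 / (2 * y) = 1 / y by field_simp,
    show 2 * (1 / y) = 2 / y by ring]
  field_simp
  ring

end RV6
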