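import Pool.Agent.Lib.MP_15b3df_nt.RV07
import Pool.Agent.Lib.MP_15b3df_nt.RV10

/-! Calculus of the two-parameter family and Green's formula on rectangles. -/

open Real Filter Topology Set MeasureTheory

namespace RV6

lemma rect {a b c d : ℝ} (hab : a ≤ b) (hcd : c ≤ d) {F : ℝ → ℝ → ℝ}
    (hF : ContinuousOn (fun z : ℝ × ℝ => F z.1 z.2) (Icc a b ×ˢ Icc c d)) :
    Integrable (fun z : ℝ × ℝ => F z.1 z.2)
      ((volume.restrict (Ioc a b)).prod (volume.restrict (Ioc c d))) ∧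
    (∫ s in a..b, ∫ y in c..d, F s y) = ∫ z : ℝ × ℝ, F z.1 z.2
      ∂((volume.restrict (Ioc a b)).prod (volume.restrict (Ioc c d))) ∧
    (∫ y in c..d, ∫ s in a..b, F s y) = ∫ z : ℝ × ℝ, F z.1 z.2
      ∂((volume.restrict (Ioc a b)).prod (volume.restrict (Ioc c d))) := by
  have hi : Integrable (fun z : ℝ × ℝ => F z.1 z.2)
      ((volume.restrict (Ioc a b)).prod (volume.restrict (Ioc c d))) := by
    rw [Measure.prod_restrict]
    exact (hF.integrableOn_compact (isCompact_Icc.prod isCompact_Icc)).mono_set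
      (prod_mono Ioc_subset_Icc_self Ioc_subset_Icc_self)
  refine ⟨hi, ?_, ?_⟩
  · simp only [intervalIntegral.integral_of_le hab, intervalIntegral.integral_of_le hcd]
    rw [integral_prod _ hi]
  · simp only [intervalIntegral.integral_of_le hab, intervalIntegral.integral_of_le hcd]
    rw [integral_prod_symm _ hi]

lemma green {a b c d : ℝ} (hab : a ≤ b) (hcd : c ≤ d) {F G Fs Gy : ℝ → ℝ → ℝ}
    (hF : ∀ s ∈ Icc a b, ∀ y ∈ Icc c d, HasDerivAt (fun s => F s y) (Fs s y) s)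
    (hG : ∀ s ∈ Icc a b, ∀ y ∈ Icc c d, HasDerivAt (G s) (Gy s y) y)
    (c1 : ContinuousOn (fun z : ℝ × ℝ => Fs z.1 z.2) (Icc a b ×ˢ Icc c d))
    (c2 : ContinuousOn (fun z : ℝ × ℝ => Gy z.1 z.2) (Icc a b ×ˢ Icc c d)) :
    (∫ y in c..d, (F b y - F a y)) - ∫ s in a..b, (G s d - G s c) =
      ∫ y in c..d, ∫ s in a..b, (Fs s y - Gy s y) := by
  obtain ⟨i1, -, e1⟩ := rect hab hcd c1
  obtain ⟨i2, e2, -⟩ := rect hab hcd c2
  obtain ⟨-, -, e3⟩ := rect hab hcd (F := fun s y => Fs s y - Gy s y) (c1.sub c2)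
  rw [e3, integral_sub i1 i2, ← e1, ← e2]
  congr 1
  · refine intervalIntegral.integral_congr fun y hy => ?_
    rw [uIcc_of_le hcd] at hy
    refine (intervalIntegral.integral_eq_sub_of_hasDerivAt
      (fun s hs => hF s (by rwa [uIcc_of_le hab] at hs) y hy) ?_).symm
    refine ContinuousOn.intervalIntegrable_of_Icc hab ?_
    exact c1.comp (f := fun s => (s, y)) (by fun_prop) fun s hs => ⟨hs, hy⟩
  · refine intervalIntegral.integral_congr fun s hs => ?_
    rw [uIcc_of_le hab] at hs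
    refine (intervalIntegral.integral_eq_sub_of_hasDerivAt
      (fun y hy => hG s hs y (by rwa [uIcc_of_le hcd] at hy)) ?_).symm
    refine ContinuousOn.intervalIntegrable_of_Icc hcd ?_
    exact c2.comp (f := fun y => (s, y)) (by fun_prop) fun y hy => ⟨hs, hy⟩

lemma stokes {a b c d : ℝ} (hab : a ≤ b) (hcd : c ≤ d) {A As Ay Ls Ly Lsy : ℝ → ℝ → ℝ}
    {B : ℝ → ℝ}
    (h1 : ∀ s ∈ Icc a b, ∀ y ∈ Icc c d, HasDerivAt (fun s => A s y) (As s y) s)
    (h2 : ∀ s ∈ Icc a b, ∀ y ∈ Icc c d, HasDerivAt (A s) (Ay s y) y)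
    (h3 : ∀ s ∈ Icc a b, ∀ y ∈ Icc c d, HasDerivAt (fun s => Ly s y) (Lsy s y) s)
    (h4 : ∀ s ∈ Icc a b, ∀ y ∈ Icc c d, HasDerivAt (Ls s) (Lsy s y) y)
    (h5 : ∀ s ∈ Icc a b, ∀ y ∈ Icc c d, As s y * Ly s y - Ay s y * Ls s y = B y)
    (c1 : ContinuousOn (fun z : ℝ × ℝ => A z.1 z.2) (Icc a b ×ˢ Icc c d))
    (c2 : ContinuousOn (fun z : ℝ × ℝ => As z.1 z.2) (Icc a b ×ˢ Icc c d))
    (c3 : ContinuousOn (fun z : ℝ × ℝ => Ay z.1 z.2) (Icc a b ×ˢ Icc c d))
    (c4 : ContinuousOn (fun z : ℝ × ℝ => Ls z.1 z.2) (Icc a b ×ˢ Icc c d))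
    (c5 : ContinuousOn (fun z : ℝ × ℝ => Ly z.1 z.2) (Icc a b ×ˢ Icc c d))
    (c6 : ContinuousOn (fun z : ℝ × ℝ => Lsy z.1 z.2) (Icc a b ×ˢ Icc c d)) :
    (∫ y in c..d, (A b y ^ 2 * Ly b y - A a y ^ 2 * Ly a y)) -
      ∫ s in a..b, (A s d ^ 2 * Ls s d - A s c ^ 2 * Ls s c) =
      ∫ y in c..d, 2 * B y * ∫ s in a..b, A s y := by
  rw [green hab hcd (F := fun s y => A s y ^ 2 * Ly s y) (G := fun s y => A s y ^ 2 * Ls s y)
    (Fs := fun s y => 2 * A s y * As s y * Ly s y + A s y ^ 2 * Lsy s y)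
    (Gy := fun s y => 2 * A s y * Ay s y * Ls s y + A s y ^ 2 * Lsy s y)
    (fun s hs y hy => (((h1 s hs y hy).pow 2).mul (h3 s hs y hy)).congr_deriv (by simp))
    (fun s hs y hy => (((h2 s hs y hy).pow 2).mul (h4 s hs y hy)).congr_deriv (by simp))
    ((((c1.const_mul 2).mul c2).mul c5).add ((c1.pow 2).mul c6))
    ((((c1.const_mul 2).mul c3).mul c4).add ((c1.pow 2).mul c6))]
  refine intervalIntegral.integral_congr fun y hy => ?_
  rw [uIcc_of_le hcd] at hy
  rw [← intervalIntegral.integral_const_mul]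
  refine intervalIntegral.integral_congr fun s hs => ?_
  rw [uIcc_of_le hab] at hs
  rw [← h5 s hs y hy]; ring

variable {y : ℝ}

lemma PB_msg : PB fun m => ((m : ℕ) : ℝ) * sg m := PB.id.mul PB_sg

noncomputable def Dls (s y : ℝ) : ℝ :=
  -8 * π * DS (fun m => (m : ℕ) * sg m) (fun n => (n : ℕ) * sin (2 * π * ((n : ℕ) * s))) y

noncomputable def GG (s y : ℝ) : ℝ := -3 / π ^ 2 *
  DS (fun m => (m : ℕ) * sg m) (fun n => cos (2 * π * ((n : ℕ) * s)) / ((n : ℕ) : ℝ) ^ 2) y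

lemma hasDerivAt_logsin {s : ℝ} (hs : sin (π * s) ≠ 0) :
    HasDerivAt (fun s => log (4 * sin (π * s) ^ 2)) (2 * π * (cos (π * s) / sin (π * s))) s := by
  have h : HasDerivAt (fun s : ℝ => π * s) (π * 1) s := (hasDerivAt_id s).const_mul _
  refine (((h.sin.pow 2).const_mul 4).log (by simpa using hs)).congr_deriv ?_
  simp only [Pi.pow_apply]
  field_simp
  norm_num
  ring

lemma hasDerivAt_ell_s (hy : 0 < y) {s : ℝ} (hs : sin (π * s) ≠ 0) :
    HasDerivAt (fun s => ell s y) (ells s y) s :=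
  (((hasDerivAt_logsin hs).sub_const _).add ((hasDerivAt_uu hy s).const_mul 2)).congr_deriv
    (by unfold ells; ring)

lemma mul_div_c (n : ℕ+) (a : ℝ) : ((n : ℕ) : ℝ) * (a / ((n : ℕ) : ℝ)) = a :=
  mul_div_cancel₀ _ (c_pos n).ne'

lemma hasDerivAt_ell_y (hy : 0 < y) (s : ℝ) : HasDerivAt (ell s) (-π * Dl s y) y := by
  have h := hasDerivAt_DS PB_sg (PBF_cos.div1.pb s) hy
  simp only [mul_div_c] at h
  exact (((((hasDerivAt_id y).const_mul π).div_const 2).const_sub _).add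
    ((h.const_mul 2).const_mul 2)).congr_deriv (by unfold Dl; ring)

lemma hasDerivAt_PP_s (hy : 0 < y) (s : ℝ) : HasDerivAt (fun s => PP s y) (3 * Dl s y - 3 / 2) s := by
  have := hasDerivAt_DS_s PB_msg PBF_sin.div1 ((PBF.const (2 * π)).mul PBF_cos)
    (fun s n => hasDerivAt_sin_div n s) hy s
  refine (this.const_mul (6 / π)).congr_deriv ?_
  rw [DS_smul_right, Dl]
  generalize DS _ _ _ = A
  have := pi_pos
  field_simp
  ring

lemma hasDerivAt_PP_y (hy : 0 < y) (s : ℝ) : HasDerivAt (PP s) (-π * DP s y) y := by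
  have h := hasDerivAt_DS PB_msg (PBF_sin.div1.pb s) hy
  simp only [mul_div_c, ← mul_assoc, ← pow_two] at h
  simp only [mul_assoc] at h
  refine (h.const_mul (6 / π)).congr_of_eventuallyEq (.of_forall fun y => ?_) |>.congr_deriv ?_
  · simp only [PP, mul_assoc]
  · simp only [DP, mul_assoc]; ring

lemma hasDerivAt_Dl_s (hy : 0 < y) (s : ℝ) : HasDerivAt (fun s => Dl s y) (Dls s y) s := by
  have := hasDerivAt_DS_s PB_msg PBF_cos ((PBF.const (-(2 * π))).mul (PBF.id.mul PBF_sin))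
    (fun s n => by
      have h : HasDerivAt (fun t : ℝ => 2 * π * (((n : ℕ) : ℝ) * t)) (2 * π * ((n : ℕ) * 1)) s :=
        ((hasDerivAt_id s).const_mul _).const_mul _
      exact h.cos.congr_deriv (by ring)) hy s
  refine ((this.const_mul 4).const_add _).congr_deriv ?_
  rw [DS_smul_right, Dls]; ring

lemma hasDerivAt_ells_y (hy : 0 < y) (s : ℝ) : HasDerivAt (ells s) (-π * Dls s y) y :=
  (((hasDerivAt_DS PB_sg (PBF_sin.pb s) hy).const_mul (8 * π)).const_sub _).congr_deriv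
    (by unfold Dls; ring)

lemma hasDerivAt_GG (hy : 0 < y) (s : ℝ) : HasDerivAt (fun s => GG s y) (PP s y) s := by
  have := hasDerivAt_DS_s PB_msg (PBF_cos.div 2) ((PBF.const (-(2 * π))).mul PBF_sin.div1)
    (fun s n => (((hasDerivAt_cos_div n s).div_const ((n : ℕ) : ℝ)).congr_deriv
      (by ring)).congr_of_eventuallyEq (.of_forall fun s => by simp only [pow_two, div_div])) hy s
  refine (this.const_mul (-3 / π ^ 2)).congr_deriv ?_
  rw [DS_smul_right, PP]
  generalize DS _ _ _ = A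
  have := pi_pos
  field_simp
  ring

lemma cont_PP : ContinuousOn (fun z : ℝ × ℝ => PP z.1 z.2) {z | 0 < z.2} :=
  (continuousOn_DS PB_msg PBF_sin.div1 fun n => by fun_prop).const_mul _

lemma cont_Dl : ContinuousOn (fun z : ℝ × ℝ => Dl z.1 z.2) {z | 0 < z.2} :=
  continuousOn_const.add ((continuousOn_DS PB_msg PBF_cos fun n => by fun_prop).const_mul _)

lemma cont_DP : ContinuousOn (fun z : ℝ × ℝ => DP z.1 z.2) {z | 0 < z.2} :=
  (continuousOn_DS ((PB.pow 2).mul PB_sg) PBF_sin fun n => by fun_prop).const_mul _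

lemma cont_Dls : ContinuousOn (fun z : ℝ × ℝ => Dls z.1 z.2) {z | 0 < z.2} :=
  (continuousOn_DS PB_msg (PBF.id.mul PBF_sin) fun n => by fun_prop).const_mul _

lemma sin_pos' {s : ℝ} (h0 : 0 < s) (h1 : s < 1) : 0 < sin (π * s) :=
  sin_pos_of_pos_of_lt_pi (by positivity) (by nlinarith [pi_pos])

lemma cont_ells : ContinuousOn (fun z : ℝ × ℝ => ells z.1 z.2)
    {z | (0 < z.1 ∧ z.1 < 1) ∧ 0 < z.2} := by
  refine ContinuousOn.sub (ContinuousOn.const_mul (ContinuousOn.div (by fun_prop) (by fun_prop)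
    fun z hz => (sin_pos' hz.1.1 hz.1.2).ne') _) ?_
  exact ((continuousOn_DS PB_sg PBF_sin fun n => by fun_prop).const_mul _).mono fun z hz => hz.2

lemma cont_shift {F : ℝ → ℝ → ℝ} (h : ContinuousOn (fun z : ℝ × ℝ => F z.1 z.2) {z | 0 < z.2}) :
    ContinuousOn (fun z : ℝ × ℝ => F (z.1 + 1 / 2) z.2) {z | 0 < z.2} :=
  h.comp (f := fun z : ℝ × ℝ => (z.1 + 1 / 2, z.2)) (by fun_prop) fun _ hz => hz

lemma cont_slice {F : ℝ → ℝ → ℝ} (h : ContinuousOn (fun z : ℝ × ℝ => F z.1 z.2) {z | 0 < z.2})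
    (s : ℝ) : ContinuousOn (F s) (Ioi 0) :=
  h.comp (f := fun y => (s, y)) (by fun_prop) fun _ hz => hz

lemma cont_slice' {F : ℝ → ℝ → ℝ} (h : ContinuousOn (fun z : ℝ × ℝ => F z.1 z.2) {z | 0 < z.2})
    (hy : 0 < y) : Continuous fun s => F s y :=
  h.comp_continuous (f := fun s => (s, y)) (by fun_prop) fun _ => hy

lemma cos_one_sub (n : ℕ) (s : ℝ) : cos (2 * π * (n * (1 - s))) = cos (2 * π * (n * s)) := by
  rw [show 2 * π * (n * (1 - s)) = n * (2 * π) - 2 * π * (n * s) by ring, cos_nat_mul_two_pi_sub]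

lemma sin_one_sub (n : ℕ) (s : ℝ) : sin (2 * π * (n * (1 - s))) = -sin (2 * π * (n * s)) := by
  rw [show 2 * π * (n * (1 - s)) = n * (2 * π) - 2 * π * (n * s) by ring, sin_nat_mul_two_pi_sub]

lemma Dl_one_sub (s y : ℝ) : Dl (1 - s) y = Dl s y := by simp only [Dl, cos_one_sub]

lemma GG_one_sub (s y : ℝ) : GG (1 - s) y = GG s y := by simp only [GG, cos_one_sub]

lemma ell_one_sub (s y : ℝ) : ell (1 - s) y = ell s y := by
  simp only [ell, uu, cos_one_sub, mul_one_sub π, sin_pi_sub]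

lemma ells_one_sub (s y : ℝ) : ells (1 - s) y = -ells s y := by
  simp only [ells, sin_one_sub, mul_one_sub π, sin_pi_sub, cos_pi_sub, DS_neg_right]
  ring

lemma g3_change {f f' : ℝ → ℝ} {c d : ℝ} (hc : 0 < c) (hcd : c ≤ d)
    (hf : ∀ y, 0 < y → HasDerivAt f (f' y) y) (hf' : ContinuousOn f' (Ioi 0)) :
    ∫ y in c..d, P3 (exp (f y)) ^ 2 * f' y = ∫ x in exp (f c)..exp (f d), g3 x := by
  have hs : uIcc c d ⊆ Ioi 0 := fun y hy => by
    rw [uIcc_of_le hcd] at hy; exact hc.trans_le hy.1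
  have hfc : ContinuousOn f (Ioi 0) := fun y hy => (hf y hy).continuousAt.continuousWithinAt
  rw [← intervalIntegral.integral_comp_mul_deriv' (f := fun y => exp (f y))
    (fun y hy => (hf y (hs hy)).exp) ((hfc.rexp.mul hf').mono hs)]
  · refine intervalIntegral.integral_congr fun y _ => ?_
    simp only [Function.comp, g3]
    field_simp
  · refine ((continuous_P3.pow 2).continuousOn.div continuousOn_id ?_)
    rintro _ ⟨y, -, rfl⟩
    exact (exp_pos _).ne'

theorem stokes1 {c d : ℝ} (hc : 0 < c) (hcd : c ≤ d) :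
    (ell (1 / 2) d - ell (1 / 2) c) / 16 - (∫ x in x1 c..x1 d, g3 x) -
      ((∫ s in (1 / 3 : ℝ)..(1 / 2), (PP s d + 3 / 2 * (s - 1 / 3)) ^ 2 * ells s d) -
        ∫ s in (1 / 3 : ℝ)..(1 / 2), (PP s c + 3 / 2 * (s - 1 / 3)) ^ 2 * ells s c) =
      ∫ y in c..d, -2 * π * (B1 y * (GG (1 / 2) y - GG (1 / 3) y + 1 / 48)) := by
  have hp : ∀ y ∈ Icc c d, 0 < y := fun y hy => hc.trans_le hy.1
  have hsub : Icc (1 / 3 : ℝ) (1 / 2) ×ˢ Icc c d ⊆ {z | 0 < z.2} := fun z hz => hp _ hz.2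
  have hsin : ∀ s ∈ Icc (1 / 3 : ℝ) (1 / 2), sin (π * s) ≠ 0 := fun s hs =>
    (sin_pos' (by linarith [hs.1]) (by linarith [hs.2])).ne'
  have hs : uIcc c d ⊆ Ioi 0 := fun y hy => hp y (by rwa [uIcc_of_le hcd] at hy)
  have h := stokes (a := 1 / 3) (b := 1 / 2) (by norm_num) hcd
    (A := fun s y => PP s y + 3 / 2 * (s - 1 / 3)) (As := fun s y => 3 * Dl s y)
    (Ay := fun s y => -π * DP s y) (Ls := ells) (Ly := fun s y => -π * Dl s y)
    (Lsy := fun s y => -π * Dls s y) (B := fun y => -π * B1 y)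
    (fun s _ y hy => ((hasDerivAt_PP_s (hp y hy) s).add
      (((hasDerivAt_id s).sub_const _).const_mul _)).congr_deriv (by ring))
    (fun s _ y hy => (hasDerivAt_PP_y (hp y hy) s).add_const _)
    (fun s _ y hy => (hasDerivAt_Dl_s (hp y hy) s).const_mul _)
    (fun s _ y hy => hasDerivAt_ells_y (hp y hy) s)
    (fun s hs y hy => by rw [← key1 (hp y hy) (hsin s hs)]; ring)
    ((cont_PP.mono hsub).add (by fun_prop)) ((cont_Dl.mono hsub).const_mul _)
    ((cont_DP.mono hsub).const_mul _)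
    (cont_ells.mono fun z hz => ⟨⟨by linarith [hz.1.1], by linarith [hz.1.2]⟩, hp _ hz.2⟩)
    ((cont_Dl.mono hsub).const_mul _) ((cont_Dls.mono hsub).const_mul _)
  have hD := fun s => (cont_slice cont_Dl s).const_mul (-π)
  have e1 := intervalIntegral.integral_eq_sub_of_hasDerivAt
    (fun y hy => hasDerivAt_ell_y (hs hy) (1 / 2)) (((hD _).mono hs).intervalIntegrable)
  have e2 := g3_change hc hcd (fun y hy => hasDerivAt_ell_y hy (1 / 3)) (hD _)
  have ib : ∀ y, 0 < y → IntervalIntegrable (fun s => (PP s y + 3 / 2 * (s - 1 / 3)) ^ 2 * ells s y)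
      volume (1 / 3) (1 / 2) := fun y hy => by
    refine ContinuousOn.intervalIntegrable_of_Icc (by norm_num) (ContinuousOn.mul ?_ ?_)
    · have := cont_slice' cont_PP hy
      fun_prop
    · exact cont_ells.comp (f := fun s => (s, y)) (by fun_prop)
        fun s hs => ⟨⟨by linarith [hs.1], by linarith [hs.2]⟩, hy⟩
  rw [intervalIntegral.integral_sub (ib d (hc.trans_le hcd)) (ib c hc)] at h
  rw [← e1, x1, x1, ← e2, ← intervalIntegral.integral_div, ← intervalIntegral.integral_sub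
    ((((hD _).mono hs).div_const _).intervalIntegrable)]
  · refine Eq.trans (congrArg₂ _ ?_ rfl) (h.trans ?_)
    · refine intervalIntegral.integral_congr fun y hy => ?_
      have := P3_x1 (hs hy)
      simp only [x1] at this
      simp only [this, PP_half]
      ring
    · refine intervalIntegral.integral_congr fun y hy => ?_
      have e3 := intervalIntegral.integral_eq_sub_of_hasDerivAt (a := 1 / 3) (b := 1 / 2)
        (f := fun s => GG s y + 3 / 4 * (s - 1 / 3) ^ 2)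
        (f' := fun s => PP s y + 3 / 2 * (s - 1 / 3))
        (fun s _ => ((hasDerivAt_GG (hs hy) s).add
          ((((hasDerivAt_id s).sub_const _).pow 2).const_mul _)).congr_deriv (by simp; ring))
        (Continuous.intervalIntegrable (by have := cont_slice' cont_PP (hs hy); fun_prop) _ _)
      simp only [e3]
      ring
  · refine ContinuousOn.intervalIntegrable (ContinuousOn.mono (ContinuousOn.mul ?_ (hD _)) hs)
    exact (continuous_P3.comp_continuousOn (ContinuousOn.rexp fun y hy =>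
      (hasDerivAt_ell_y hy _).continuousAt.continuousWithinAt)).pow 2

theorem stokes2 {c d : ℝ} (hc : 0 < c) (hcd : c ≤ d) :
    (∫ x in x2 c..x2 d, g3 x) -
      ((∫ s in (1 / 4 : ℝ)..(1 / 3),
        (1 - (PP s d - PP (s + 1 / 2) d)) ^ 2 * (ells s d - ells (s + 1 / 2) d)) -
        ∫ s in (1 / 4 : ℝ)..(1 / 3),
          (1 - (PP s c - PP (s + 1 / 2) c)) ^ 2 * (ells s c - ells (s + 1 / 2) c)) =
      ∫ y in c..d, 2 * π * (B2 y * (1 / 12 - (GG (1 / 3) y - GG (1 / 6) y))) := by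
  have hp : ∀ y ∈ Icc c d, 0 < y := fun y hy => hc.trans_le hy.1
  have hsub : Icc (1 / 4 : ℝ) (1 / 3) ×ˢ Icc c d ⊆ {z | 0 < z.2} := fun z hz => hp _ hz.2
  have hsin : ∀ s ∈ Icc (1 / 4 : ℝ) (1 / 3), sin (π * s) ≠ 0 := fun s hs =>
    (sin_pos' (by linarith [hs.1]) (by linarith [hs.2])).ne'
  have hcos : ∀ s ∈ Icc (1 / 4 : ℝ) (1 / 3), cos (π * s) ≠ 0 := fun s hs =>
    (cos_pos_of_mem_Ioo ⟨by nlinarith [hs.1, pi_pos], by nlinarith [hs.2, pi_pos]⟩).ne'
  have hs : uIcc c d ⊆ Ioi 0 := fun y hy => hp y (by rwa [uIcc_of_le hcd] at hy)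
  have ce : ContinuousOn (fun z : ℝ × ℝ => ells z.1 z.2 - ells (z.1 + 1 / 2) z.2)
      (Icc (1 / 4 : ℝ) (1 / 3) ×ˢ Ioi 0) :=
    (cont_ells.mono fun z hz => ⟨⟨by linarith [hz.1.1], by linarith [hz.1.2]⟩, hz.2⟩).sub
      (cont_ells.comp (f := fun z : ℝ × ℝ => (z.1 + 1 / 2, z.2)) (by fun_prop)
        fun z hz => ⟨⟨by linarith [hz.1.1], by linarith [hz.1.2]⟩, hz.2⟩)
  have h := stokes (a := 1 / 4) (b := 1 / 3) (by norm_num) hcd
    (A := fun s y => 1 - (PP s y - PP (s + 1 / 2) y))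
    (As := fun s y => -3 * (Dl s y - Dl (s + 1 / 2) y))
    (Ay := fun s y => π * (DP s y - DP (s + 1 / 2) y))
    (Ls := fun s y => ells s y - ells (s + 1 / 2) y)
    (Ly := fun s y => -π * (Dl s y - Dl (s + 1 / 2) y))
    (Lsy := fun s y => -π * (Dls s y - Dls (s + 1 / 2) y)) (B := fun y => π * B2 y)
    (fun s _ y hy => (((hasDerivAt_PP_s (hp y hy) s).sub
      ((hasDerivAt_PP_s (hp y hy) (s + 1 / 2)).comp_add_const s _)).const_sub 1).congr_deriv
        (by ring))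
    (fun s _ y hy => (((hasDerivAt_PP_y (hp y hy) s).sub
      (hasDerivAt_PP_y (hp y hy) (s + 1 / 2))).const_sub 1).congr_deriv (by ring))
    (fun s _ y hy => ((hasDerivAt_Dl_s (hp y hy) s).sub
      ((hasDerivAt_Dl_s (hp y hy) (s + 1 / 2)).comp_add_const s _)).const_mul _)
    (fun s _ y hy => ((hasDerivAt_ells_y (hp y hy) s).sub
      (hasDerivAt_ells_y (hp y hy) (s + 1 / 2))).congr_deriv (by ring))
    (fun s hs y hy => by rw [B2, ← key2 (hp y hy) (hsin s hs) (hcos s hs)]; ring)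
    (continuousOn_const.sub ((cont_PP.sub (cont_shift cont_PP)).mono hsub))
    (((cont_Dl.sub (cont_shift cont_Dl)).mono hsub).const_mul _)
    (((cont_DP.sub (cont_shift cont_DP)).mono hsub).const_mul _)
    (ce.mono fun z hz => ⟨hz.1, hp _ hz.2⟩)
    (((cont_Dl.sub (cont_shift cont_Dl)).mono hsub).const_mul _)
    (((cont_Dls.sub (cont_shift cont_Dls)).mono hsub).const_mul _)
  have hD := fun s => (cont_slice cont_Dl s).const_mul (-π)
  have e2 := g3_change hc hcd (f := fun y => ell (1 / 3) y - ell (1 / 6) y)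
    (fun y hy => (hasDerivAt_ell_y hy (1 / 3)).sub (hasDerivAt_ell_y hy (1 / 6)))
    ((hD _).sub (hD _))
  have ib : ∀ y, 0 < y → IntervalIntegrable
      (fun s => (1 - (PP s y - PP (s + 1 / 2) y)) ^ 2 * (ells s y - ells (s + 1 / 2) y))
      volume (1 / 4) (1 / 3) := fun y hy => by
    refine ContinuousOn.intervalIntegrable_of_Icc (by norm_num) (ContinuousOn.mul ?_ ?_)
    · have := cont_slice' cont_PP hy
      fun_prop
    · exact ce.comp (f := fun s => (s, y)) (by fun_prop) fun s hs => ⟨hs, hy⟩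
  rw [intervalIntegral.integral_sub (ib d (hc.trans_le hcd)) (ib c hc)] at h
  rw [x2, x2, ← e2]
  refine Eq.trans (congrArg₂ _ ?_ rfl) (h.trans ?_)
  · refine intervalIntegral.integral_congr fun y hy => ?_
    have a1 := P3_x2 (hs hy)
    have a2 := PP_one_sub (1 / 6) y
    have a3 := Dl_one_sub (1 / 6) y
    have a4 := Dl_one_sub (1 / 4) y
    simp only [x2] at a1
    norm_num at a1 a2 a3 a4 ⊢
    rw [a2, a3, a4, show P3 (exp (ell (1 / 3) y - ell (1 / 6) y)) =
      1 - (PP (1 / 3) y - -PP (1 / 6) y) by linarith]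
    ring
  · refine intervalIntegral.integral_congr fun y hy => ?_
    have e3 := intervalIntegral.integral_eq_sub_of_hasDerivAt (a := 1 / 4) (b := 1 / 3)
      (f := fun s => s - (GG s y - GG (s + 1 / 2) y))
      (f' := fun s => 1 - (PP s y - PP (s + 1 / 2) y))
      (fun s _ => (hasDerivAt_id s).sub ((hasDerivAt_GG (hs hy) s).sub
        ((hasDerivAt_GG (hs hy) (s + 1 / 2)).comp_add_const s _)))
      (Continuous.intervalIntegrable (by have := cont_slice' cont_PP (hs hy); fun_prop) _ _)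
    have a3 := GG_one_sub (1 / 6) y
    have a4 := GG_one_sub (1 / 4) y
    simp only [e3]
    norm_num at a3 a4 ⊢
    rw [a3, a4]
    ring

end RV6
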