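import Pool.Agent.Lib.MP_15b3df_nt.RV11

/-! Passing to the limit in Green's formula. -/

open Real Filter Topology Set MeasureTheory

namespace RV6

noncomputable def z3 : ℝ := ∑' n : ℕ+, 1 / ((n : ℕ) : ℝ) ^ 3

lemma summable_zeta {k : ℕ} (hk : 1 < k) : Summable fun n : ℕ+ => 1 / ((n : ℕ) : ℝ) ^ k :=
  (summable_pnat_iff_summable_nat (f := fun j : ℕ => 1 / (j : ℝ) ^ k)).mpr
    (summable_one_div_nat_pow.mpr hk)

lemma int_of_bound {f : ℝ → ℝ} (hf : ContinuousOn f (Ioi 0)) {M C : ℝ}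
    (h1 : ∀ y, 0 < y → y ≤ 1 → |f y| ≤ M) (h2 : ∀ y, 1 ≤ y → |f y| ≤ C * exp (-(π * y))) :
    IntegrableOn f (Ioi 0) := by
  refine ((exp_neg_integrableOn_Ioi 0 pi_pos).const_mul (|M| * exp π + |C|)).mono'
    (hf.aestronglyMeasurable measurableSet_Ioi) ?_
  filter_upwards [ae_restrict_mem measurableSet_Ioi] with y hy
  have he := exp_pos (-π * y)
  have a0 := mul_nonneg (mul_nonneg (abs_nonneg M) (exp_pos π).le) he.le
  have a1 := mul_nonneg (abs_nonneg C) he.le
  rw [Real.norm_eq_abs, add_mul]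
  rcases le_total y 1 with h | h
  · have a2 : 1 ≤ exp π * exp (-π * y) := by
      rw [← exp_add]; exact one_le_exp (by nlinarith [pi_pos])
    nlinarith [h1 y hy h, le_abs_self M, abs_nonneg M]
  · have := h2 y h
    rw [← neg_mul] at this
    nlinarith [le_abs_self C]

lemma tendsto_int {f : ℝ → ℝ} (hf : IntegrableOn f (Ioi 0)) :
    Tendsto (fun t : ℝ => ∫ y in t⁻¹..t, f y) atTop (𝓝 (∫ y in Ioi 0, f y)) := by
  have hc : AECover (volume.restrict (Ioi (0 : ℝ))) atTop fun t : ℝ => Ioc t⁻¹ t := by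
    refine ⟨?_, fun _ => measurableSet_Ioc⟩
    filter_upwards [ae_restrict_mem measurableSet_Ioi] with y hy
    filter_upwards [eventually_ge_atTop y, tendsto_inv_atTop_zero.eventually (gt_mem_nhds hy)]
      with t h1 h2 using ⟨h2, h1⟩
  refine (hc.integral_tendsto_of_countably_generated hf).congr' ?_
  filter_upwards [eventually_ge_atTop 1] with t ht
  rw [intervalIntegral.integral_of_le ((inv_le_one_of_one_le₀ ht).trans ht),
    Measure.restrict_restrict measurableSet_Ioc, inter_eq_left.mpr]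
  exact fun y hy => (inv_pos.mpr (by linarith)).trans hy.1

lemma pow_exp_le (k : ℕ) {x : ℝ} (hx : 0 ≤ x) : x ^ k * exp (-x) ≤ k.factorial := by
  have := pow_div_factorial_le_exp x hx k
  rw [div_le_iff₀ (by positivity)] at this
  rw [exp_neg, mul_inv_le_iff₀ (exp_pos _), mul_comm]
  exact this

lemma DS_inv_bound {α β : ℕ+ → ℝ} (hα : PB α) (hβ : PB β) :
    ∃ M, ∀ y, 0 < y → y ≤ 1 → |DS α β (2 / y) / y ^ 4| ≤ M := by
  obtain ⟨C, hC⟩ := DS_decay hα hβ
  refine ⟨|C| * 24, fun y h0 h1 => ?_⟩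
  have a1 := hC 0 (2 / y) (by rw [le_div_iff₀ h0]; linarith)
  have a2 := pow_exp_le 4 (x := π * (2 / y)) (by positivity)
  have a3 : 1 / y ^ 4 ≤ (π * (2 / y)) ^ 4 := by
    rw [← one_div_pow]
    refine pow_le_pow_left₀ (by positivity) ?_ _
    rw [← mul_div_assoc]
    exact div_le_div_of_nonneg_right (by linarith [pi_gt_three]) h0.le
  have he := exp_pos (-(π * (2 / y)))
  rw [abs_div, abs_of_pos (pow_pos h0 4), div_eq_mul_one_div]
  calc _ ≤ |C| * exp (-(π * (2 / y))) * (π * (2 / y)) ^ 4 :=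
        mul_le_mul (a1.trans (mul_le_mul_of_nonneg_right (le_abs_self C) he.le)) a3
          (by positivity) (by positivity)
    _ = |C| * ((π * (2 / y)) ^ 4 * exp (-(π * (2 / y)))) := by ring
    _ ≤ _ := mul_le_mul_of_nonneg_left (by simpa [Nat.factorial] using a2) (abs_nonneg _)

lemma PB_3sg : PB fun m => ((m : ℕ) : ℝ) ^ 3 * sg m := (PB.pow 3).mul PB_sg

lemma cont_B1 : ContinuousOn B1 (Ioi 0) :=
  continuousOn_const.sub ((continuousOn_DS_y PB_3sg (PB.const 1)).const_mul _)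

lemma B1_decay : ∃ C, ∀ y, 1 ≤ y → |B1 y - 3 / 4| ≤ C * exp (-(π * y)) := by
  obtain ⟨C, hC⟩ := DS_decay PB_3sg (PB.const 1)
  refine ⟨12 * C, fun y hy => ?_⟩
  have := hC 0 y hy
  rw [B1, sub_sub_cancel_left, abs_neg, abs_mul, mul_assoc]
  norm_num
  exact this

lemma exp_le_one' {y : ℝ} (hy : 0 ≤ y) : exp (-(π * y)) ≤ 1 :=
  exp_le_one_iff.mpr (by nlinarith [pi_pos])

lemma B1_bound : ∃ M, ∀ y, 0 < y → |B1 y| ≤ M := by
  obtain ⟨C, hC⟩ := B1_decay
  obtain ⟨M, hM⟩ := DS_inv_bound PB_od (PB.pow 3)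
  refine ⟨192 * |M| + (|C| + 3 / 4), fun y hy => ?_⟩
  rcases le_total y 1 with h | h
  · rw [B1_inv hy, abs_mul]
    have := hM y hy h
    norm_num
    linarith [le_abs_self M, abs_nonneg C]
  · have a1 := hC y h
    have a2 := exp_le_one' hy.le
    have a3 := exp_pos (-(π * y))
    have a4 := abs_sub_abs_le_abs_sub (B1 y) (3 / 4)
    norm_num at a4
    nlinarith [le_abs_self C, abs_nonneg C, abs_nonneg M]

lemma int_B1 : IntegrableOn (fun y => B1 y - 3 / 4) (Ioi 0) := by
  obtain ⟨C, hC⟩ := B1_decay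
  obtain ⟨M, hM⟩ := B1_bound
  refine int_of_bound (cont_B1.sub continuousOn_const) (M := M + 3 / 4) (fun y hy _ => ?_) hC
  have := abs_sub (B1 y) (3 / 4)
  norm_num at this
  linarith [hM y hy]

lemma int_B1' : IntegrableOn (fun y => B1 (2 * y) - 3 / 4) (Ioi 0) :=
  (integrableOn_Ioi_comp_mul_left_iff (fun y => B1 y - 3 / 4) 0 two_pos).mpr (by simpa using int_B1)

lemma B2_eq (y : ℝ) : B2 y = 4 * (B1 y - 3 / 4) - 4 * (B1 (2 * y) - 3 / 4) := by rw [B2]; ring

lemma int_B2 : IntegrableOn B2 (Ioi 0) := by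
  rw [funext B2_eq]; exact (int_B1.const_mul 4).sub (int_B1'.const_mul 4)

lemma integral_B2_eq : ∫ y in Ioi 0, B2 y = 2 * ∫ y in Ioi 0, (B1 y - 3 / 4) := by
  simp only [B2_eq]
  rw [integral_sub (int_B1.const_mul 4) (int_B1'.const_mul 4), integral_const_mul,
    integral_const_mul, integral_comp_mul_left_Ioi (fun y => B1 y - 3 / 4) 0 two_pos]
  simp only [mul_zero, smul_eq_mul]
  ring

lemma PBF_G : PBF fun s n => cos (2 * π * ((n : ℕ) * s)) / ((n : ℕ) : ℝ) ^ 2 := PBF_cos.div 2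

lemma cont_GG (s : ℝ) : ContinuousOn (GG s) (Ioi 0) :=
  (continuousOn_DS_y PB_msg (PBF_G.pb s)).const_mul _

lemma GG_sub_le {y a b : ℝ} (hy : 0 < y) (h0 : 0 ≤ a) (h1 : a ≤ b) (h2 : b ≤ 1 / 2) :
    |GG b y - GG a y| ≤ 3 := by
  rw [← intervalIntegral.integral_eq_sub_of_hasDerivAt (fun s _ => hasDerivAt_GG hy s)
    ((cont_slice' cont_PP hy).intervalIntegrable _ _)]
  rw [← Real.norm_eq_abs]
  refine (intervalIntegral.norm_integral_le_of_norm_le_const (C := 6) fun s hs => ?_).trans ?_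
  · rw [uIoc_of_le h1] at hs
    exact abs_PP_le hy ⟨by linarith [hs.1], by linarith [hs.2]⟩
  · rw [abs_of_nonneg (by linarith)]; linarith

lemma int_mul_GG {f : ℝ → ℝ} (hf : ContinuousOn f (Ioi 0)) {M : ℝ} (hM : ∀ y, 0 < y → |f y| ≤ M)
    {a b : ℝ} (h0 : 0 ≤ a) (h1 : a ≤ b) (h2 : b ≤ 1 / 2) :
    IntegrableOn (fun y => f y * (GG b y - GG a y)) (Ioi 0) := by
  obtain ⟨C, hC⟩ := DS_decay PB_msg PBF_G
  have hM0 : 0 ≤ M := (abs_nonneg _).trans (hM 1 one_pos)
  refine int_of_bound (hf.mul ((cont_GG b).sub (cont_GG a))) (M := M * 3)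
    (C := M * (|-3 / π ^ 2| * (2 * C))) (fun y hy _ => ?_) fun y hy => ?_
  · rw [abs_mul]
    exact mul_le_mul (hM y hy) (GG_sub_le hy h0 h1 h2) (abs_nonneg _) hM0
  · rw [abs_mul, mul_assoc]
    refine mul_le_mul (hM y (by linarith)) ?_ (abs_nonneg _) hM0
    rw [GG, GG, ← mul_sub, abs_mul, mul_assoc]
    refine mul_le_mul_of_nonneg_left ((abs_sub _ _).trans ?_) (abs_nonneg _)
    linarith [hC a y hy, hC b y hy]

lemma cont_B2 : ContinuousOn B2 (Ioi 0) :=
  (cont_B1.sub (cont_B1.comp (f := fun y => 2 * y) (by fun_prop)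
    fun y hy => mem_Ioi.mpr (mul_pos two_pos (mem_Ioi.mp hy)))).const_mul _

lemma int_B1G : IntegrableOn (fun y => B1 y * (GG (1 / 2) y - GG (1 / 3) y)) (Ioi 0) := by
  obtain ⟨M, hM⟩ := B1_bound
  exact int_mul_GG cont_B1 hM (by norm_num) (by norm_num) le_rfl

lemma int_B2G : IntegrableOn (fun y => B2 y * (GG (1 / 3) y - GG (1 / 6) y)) (Ioi 0) := by
  obtain ⟨M, hM⟩ := B1_bound
  refine int_mul_GG cont_B2 (M := 8 * M) (fun y hy => ?_) (by norm_num) (by norm_num) (by norm_num)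
  rw [B2, abs_mul]
  norm_num
  linarith [abs_sub (B1 y) (B1 (2 * y)), hM y hy, hM (2 * y) (by linarith)]

lemma tendsto_g3 {a b : ℝ → ℝ} {A B : ℝ} {l : Filter ℝ} (ha : Tendsto a l (𝓝 A))
    (hb : Tendsto b l (𝓝 B)) :
    Tendsto (fun t => ∫ x in a t..b t, g3 x) l (𝓝 (∫ x in A..B, g3 x)) := by
  have hc := intervalIntegral.continuous_primitive ii_g3 0
  rw [← intervalIntegral.integral_interval_sub_left (ii_g3 0 _) (ii_g3 0 _)]
  exact (((hc.tendsto B).comp hb).sub ((hc.tendsto A).comp ha)).congr fun t =>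
    intervalIntegral.integral_interval_sub_left (ii_g3 0 _) (ii_g3 0 _)

lemma tendsto_uu (s : ℝ) : Tendsto (uu s) atTop (𝓝 0) := by
  have := (DS_tendsto PB_sg (PBF_cos.div1.pb s)).const_mul 2
  rw [mul_zero] at this
  exact this

lemma tendsto_PP (s : ℝ) : Tendsto (PP s) atTop (𝓝 0) := by
  have := (DS_tendsto PB_msg (PBF_sin.div1.pb s)).const_mul (6 / π)
  rw [mul_zero] at this
  exact this

lemma tendsto_ells (s : ℝ) :
    Tendsto (ells s) atTop (𝓝 (2 * π * (cos (π * s) / sin (π * s)))) := by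
  have := ((DS_tendsto PB_sg (PBF_sin.pb s)).const_mul (8 * π)).const_sub
    (2 * π * (cos (π * s) / sin (π * s)))
  rw [mul_zero, sub_zero] at this
  exact this

lemma tendsto_x1_top : Tendsto x1 atTop (𝓝 0) := by
  have h1 : Tendsto rr atTop (𝓝 0) := tendsto_exp_atBot.comp (tendsto_neg_atTop_atBot.comp
    ((tendsto_id.const_mul_atTop pi_pos).atTop_div_const two_pos))
  have := (h1.const_mul 3).mul ((tendsto_uu (1 / 3)).rexp.pow 2)
  simp only [mul_zero, zero_mul] at this
  exact this.congr fun y => (exp_ell_third y).symm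

lemma tendsto_x2_top : Tendsto x2 atTop (𝓝 3) := by
  have := (((tendsto_uu (1 / 3)).rexp.pow 2).const_mul 3).div ((tendsto_uu (1 / 6)).rexp.pow 2)
    (by simp)
  simp only [exp_zero, one_pow, mul_one, div_one] at this
  refine this.congr fun y => ?_
  have := rr_pos y
  rw [x2, exp_sub, exp_ell_third, exp_ell_sixth, Pi.div_apply]
  field_simp

lemma ells_bound {a b : ℝ} (h0 : 0 < a) (h1 : b < 1) :
    ∃ M, ∀ s ∈ Icc a b, ∀ y, 1 ≤ y → |ells s y| ≤ M := by
  obtain ⟨C, hC⟩ := DS_decay PB_sg PBF_sin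
  obtain ⟨M, hM⟩ := (isCompact_Icc (a := a) (b := b)).exists_bound_of_continuousOn
    (f := fun s => 2 * π * (cos (π * s) / sin (π * s)))
    (ContinuousOn.const_mul (ContinuousOn.div (by fun_prop) (by fun_prop) fun s hs =>
      (sin_pos' (by linarith [hs.1]) (by linarith [hs.2])).ne') _)
  refine ⟨M + 8 * π * |C|, fun s hs y hy => (abs_sub _ _).trans (add_le_add (hM s hs) ?_)⟩
  rw [abs_mul, abs_of_pos (by positivity)]
  refine mul_le_mul_of_nonneg_left ((hC s y hy).trans ?_) (by positivity)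
  have a2 := exp_le_one' (y := y) (by linarith)
  have a3 := exp_pos (-(π * y))
  nlinarith [le_abs_self C, abs_nonneg C]

lemma cont_ells_s {a b y : ℝ} (h0 : 0 < a) (h1 : b < 1) (hy : 0 < y) :
    ContinuousOn (fun s => ells s y) (Icc a b) :=
  cont_ells.comp (f := fun s => (s, y)) (by fun_prop)
    fun s hs => ⟨⟨by linarith [hs.1], by linarith [hs.2]⟩, hy⟩

/-- dominated convergence on a compact interval -/
lemma tendsto_bdry {a b M : ℝ} (hab : a ≤ b) {F : ℝ → ℝ → ℝ} {f : ℝ → ℝ}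
    (h1 : ∀ y, 1 ≤ y → ContinuousOn (fun s => F s y) (Icc a b))
    (h2 : ∀ s ∈ Icc a b, ∀ y, 1 ≤ y → |F s y| ≤ M)
    (h3 : ∀ s ∈ Icc a b, Tendsto (F s) atTop (𝓝 (f s))) :
    Tendsto (fun y => ∫ s in a..b, F s y) atTop (𝓝 (∫ s in a..b, f s)) := by
  refine intervalIntegral.tendsto_integral_filter_of_dominated_convergence (fun _ => M) ?_ ?_
    intervalIntegrable_const (.of_forall fun s hs => h3 s ?_)
  · filter_upwards [eventually_ge_atTop 1] with y hy
    rw [uIoc_of_le hab]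
    exact ((h1 y hy).mono Ioc_subset_Icc_self).aestronglyMeasurable measurableSet_Ioc
  · filter_upwards [eventually_ge_atTop 1] with y hy
    refine .of_forall fun s hs => h2 s ?_ y hy
    rw [uIoc_of_le hab] at hs; exact Ioc_subset_Icc_self hs
  · rw [uIoc_of_le hab] at hs; exact Ioc_subset_Icc_self hs

lemma tendsto_bdry0 {a b M : ℝ} (hab : a ≤ b) {A L Ls : ℝ → ℝ → ℝ}
    (h1 : ∀ y, 0 < y → ∀ s ∈ Icc a b, |A s y| ≤ M) (h2 : ∀ y, 0 < y → ∀ s ∈ Icc a b, 0 ≤ Ls s y)
    (h3 : ∀ y, 0 < y → ∀ s ∈ Icc a b, HasDerivAt (fun s => L s y) (Ls s y) s)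
    (h4 : ∀ y, 0 < y → ContinuousOn (fun s => Ls s y) (Icc a b))
    (h5 : Tendsto (fun y => L b y - L a y) (𝓝[>] 0) (𝓝 0)) :
    Tendsto (fun y => ∫ s in a..b, A s y ^ 2 * Ls s y) (𝓝[>] 0) (𝓝 0) := by
  have := h5.const_mul (M ^ 2)
  rw [mul_zero] at this
  refine squeeze_zero_norm' ?_ this
  filter_upwards [self_mem_nhdsWithin] with y hy
  have hi := (h4 y hy).intervalIntegrable_of_Icc (μ := volume) hab
  rw [← intervalIntegral.integral_eq_sub_of_hasDerivAt
    (fun s hs => h3 y hy s (by rwa [uIcc_of_le hab] at hs)) hi,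
    ← intervalIntegral.integral_const_mul]
  refine intervalIntegral.norm_integral_le_of_norm_le hab (.of_forall fun s hs => ?_)
    (hi.const_mul _)
  have hs' := Ioc_subset_Icc_self hs
  rw [norm_mul, Real.norm_of_nonneg (h2 y hy s hs'), norm_pow]
  exact mul_le_mul_of_nonneg_right (pow_le_pow_left₀ (norm_nonneg _) (h1 y hy s hs') 2)
    (h2 y hy s hs')

noncomputable def gz (y : ℝ) : ℝ := DS sg (fun n => 1 / ((n : ℕ) : ℝ) ^ 3) y

lemma tendsto_gz {c : ℝ} (hc : 0 < c) : Tendsto (fun y => gz (c * y)) (𝓝[>] 0) (𝓝 (z3 / 2)) := by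
  have h : Tendsto gz (𝓝[>] 0) (𝓝 (z3 / 2)) := by
    have := tendsto_tsum_of_dominated_convergence (𝓕 := 𝓝[>] 0)
      (f := fun (y : ℝ) (n : ℕ+) => 1 / ((n : ℕ) : ℝ) ^ 3 *
        (exp (-(π * y)) ^ (n : ℕ) / (1 + exp (-(π * y)) ^ (n : ℕ))))
      (g := fun n => 1 / ((n : ℕ) : ℝ) ^ 3 / 2) (summable_zeta (k := 3) (by norm_num))
      (fun n => ?_) (.of_forall fun y n => ?_)
    · rw [tsum_div_const] at this
      refine this.congr' ?_
      filter_upwards [self_mem_nhdsWithin] with y hy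
      exact (DS_hasSum_right PB_sg ((PB.const 1).div 3) hy
        (fun n => hasSum_sg (by positivity) (q_pow_lt hy n))).tsum_eq
    · refine tendsto_nhdsWithin_of_tendsto_nhds (Continuous.tendsto' ?_ _ _ (by norm_num; ring))
      have : ∀ y : ℝ, 1 + exp (-(π * y)) ^ (n : ℕ) ≠ 0 := fun y => by positivity
      fun_prop (disch := assumption)
    · have a1 : 0 < exp (-(π * y)) ^ (n : ℕ) := by positivity
      rw [Real.norm_of_nonneg (by positivity)]
      exact mul_le_of_le_one_right (by positivity) (div_le_one_of_le₀ (by linarith) (by linarith))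
  refine h.comp (tendsto_nhdsWithin_iff.mpr ⟨?_, ?_⟩)
  · exact tendsto_nhdsWithin_of_tendsto_nhds (Continuous.tendsto' (by fun_prop) _ _ (by simp))
  · filter_upwards [self_mem_nhdsWithin] with y hy using mul_pos hc hy

lemma integral_uu {y : ℝ} (hy : 0 < y) : ∫ s in (1 / 3 : ℝ)..(1 / 2), (s - 1 / 3) * uu s y =
    (-1 / 2 * gz y + 1 / 4 * gz (2 * y) - 1 / 18 * gz (3 * y)) / (2 * π ^ 2) := by
  have d1 := fun s => hasDerivAt_DS_s PB_sg (PBF_sin.div 2) ((PBF.const (2 * π)).mul PBF_cos.div1)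
    (fun s n => (((hasDerivAt_sin_div n s).div_const ((n : ℕ) : ℝ)).congr_deriv
      (by ring)).congr_of_eventuallyEq (.of_forall fun s => by simp only [pow_two, div_div])) hy s
  have d2 := fun s => hasDerivAt_DS_s PB_sg (PBF_cos.div 3)
    ((PBF.const (-(2 * π))).mul (PBF_sin.div 2))
    (fun s n => (((hasDerivAt_cos_div n s).div_const (((n : ℕ) : ℝ) ^ 2)).congr_deriv
      (by ring)).congr_of_eventuallyEq (.of_forall fun s => by
        simp only [div_div, pow_succ' _ 2])) hy s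
  simp only [DS_smul_right] at d1 d2
  have hc : Continuous fun s => uu s y :=
    continuous_iff_continuousAt.mpr fun s => (hasDerivAt_uu hy s).continuousAt
  have hp := pi_pos
  rw [intervalIntegral.integral_eq_sub_of_hasDerivAt (fun s _ =>
    (((((hasDerivAt_id s).sub_const (1 / 3)).mul (d1 s)).div_const π).add
      ((d2 s).div_const (2 * π ^ 2))).congr_deriv (by
        simp only [id, uu]; generalize DS _ _ _ = A; generalize DS _ _ _ = B; field_simp; ring))
    (Continuous.intervalIntegrable (by fun_prop) _ _)]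
  have e0 : DS sg (fun n => sin (2 * π * ((n : ℕ) * (1 / 2))) / ((n : ℕ) : ℝ) ^ 2) y = 0 := by
    rw [DS_congr (fun _ => rfl) (β' := fun _ => 0) fun n => by
      rw [show 2 * π * (((n : ℕ) : ℝ) * (1 / 2)) = (n : ℕ) * π by ring, sin_nat_mul_pi, zero_div]]
    simp [DS]
  have e1 := DS_expand (γ := fun n => cos (2 * π * ((n : ℕ) * (1 / 2))) / ((n : ℕ) : ℝ) ^ 3)
    PB_sg ((PB.const 1).div 3) hy (-1) 2 0 0 0 (1 / 8) (1 / 27) (1 / 64) (1 / 216)
    (fun n => by rw [cos_half]; ring) (fun n => by simp; ring) (fun n => by simp; ring)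
    (fun n => by simp; ring) (fun n => by simp; ring)
  have e2 := DS_expand (γ := fun n => cos (2 * π * ((n : ℕ) * (1 / 3))) / ((n : ℕ) : ℝ) ^ 3)
    PB_sg ((PB.const 1).div 3) hy (-1 / 2) 0 (3 / 2) 0 0 (1 / 8) (1 / 27) (1 / 64) (1 / 216)
    (fun n => by rw [cos_third]; ring) (fun n => by simp; ring) (fun n => by simp; ring)
    (fun n => by simp; ring) (fun n => by simp; ring)
  simp only [Pi.add_apply, Pi.mul_apply, id, e0, e1, e2, gz]
  ring

lemma clausen_log : ∫ s in (1 / 3 : ℝ)..(1 / 2), (s - 1 / 3) * log (4 * sin (π * s) ^ 2) =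
    11 / 72 * z3 / π ^ 2 := by
  have hsin : ∀ s ∈ Icc (1 / 3 : ℝ) (1 / 2), sin (π * s) ≠ 0 := fun s hs =>
    (sin_pos' (by linarith [hs.1]) (by linarith [hs.2])).ne'
  have hc : ∀ y, 0 < y → ContinuousOn (fun s => ell s y) (Icc (1 / 3) (1 / 2)) := fun y hy s hs =>
    (hasDerivAt_ell_s hy (hsin s hs)).continuousAt.continuousWithinAt
  have h1 : Tendsto (fun y => ∫ s in (1 / 3 : ℝ)..(1 / 2), (s - 1 / 3) * ell s y) (𝓝[>] 0)
      (𝓝 0) := by
    have := tendsto_ell_third.abs.add tendsto_ell_half.abs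
    rw [abs_zero, add_zero] at this
    refine squeeze_zero_norm' ?_ this
    filter_upwards [self_mem_nhdsWithin] with y hy
    have hm : MonotoneOn (fun s => ell s y) (Icc (1 / 3) (1 / 2)) := by
      refine monotoneOn_of_deriv_nonneg (convex_Icc _ _) (hc y hy) (fun s hs => ?_) fun s hs => ?_
      · exact (hasDerivAt_ell_s hy (hsin s (interior_subset hs))).differentiableAt
          |>.differentiableWithinAt
      · have hs' := interior_subset hs
        rw [(hasDerivAt_ell_s hy (hsin s hs')).deriv]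
        exact ells_nonneg hy (by linarith [hs'.1]) hs'.2
    refine (intervalIntegral.norm_integral_le_of_norm_le_const
      (C := |ell (1 / 3) y| + |ell (1 / 2) y|) fun s hs => ?_).trans ?_
    · rw [uIoc_of_le (by norm_num)] at hs
      have hs' := Ioc_subset_Icc_self hs
      have a1 := hm (by norm_num) hs' hs'.1
      have a2 := hm hs' (by norm_num) hs'.2
      have a3 : |ell s y| ≤ |ell (1 / 3) y| + |ell (1 / 2) y| := by
        rw [abs_le]
        constructor <;> linarith [neg_abs_le (ell (1 / 3) y), le_abs_self (ell (1 / 2) y),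
          abs_nonneg (ell (1 / 3) y), abs_nonneg (ell (1 / 2) y)]
      rw [norm_mul, Real.norm_of_nonneg (by linarith [hs'.1])]
      exact (mul_le_of_le_one_left (abs_nonneg _) (by linarith [hs'.2])).trans a3
    · exact mul_le_of_le_one_right (by positivity) (by norm_num)
  have h2 : Tendsto (fun y : ℝ => π * y / 144) (𝓝[>] 0) (𝓝 0) :=
    tendsto_nhdsWithin_of_tendsto_nhds (Continuous.tendsto' (by fun_prop) _ _ (by simp))
  have h3 := (((((tendsto_gz one_pos).const_mul (-1 / 2)).add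
    ((tendsto_gz two_pos).const_mul (1 / 4))).sub
    ((tendsto_gz three_pos).const_mul (1 / 18))).div_const (2 * π ^ 2)).const_mul 2
  have h4 := (h1.add h2).sub h3
  refine tendsto_nhds_unique (tendsto_const_nhds.congr' ?_) h4 |>.trans (by ring)
  filter_upwards [self_mem_nhdsWithin] with y hy
  have hu : Continuous fun s => uu s y :=
    continuous_iff_continuousAt.mpr fun s => (hasDerivAt_uu hy s).continuousAt
  have e : ∫ s in (1 / 3 : ℝ)..(1 / 2), (s - 1 / 3) * (π * y / 2) = π * y / 144 := by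
    rw [intervalIntegral.integral_mul_const, intervalIntegral.integral_sub
      intervalIntegral.intervalIntegrable_id intervalIntegrable_const]
    simp; ring
  have i1 : IntervalIntegrable (fun s => (s - 1 / 3) * ell s y) volume (1 / 3) (1 / 2) :=
    ContinuousOn.intervalIntegrable_of_Icc (by norm_num) (ContinuousOn.mul (by fun_prop) (hc y hy))
  rw [one_mul, ← integral_uu hy, ← e, ← intervalIntegral.integral_const_mul,
    ← intervalIntegral.integral_add i1 (Continuous.intervalIntegrable (by fun_prop) _ _),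
    ← intervalIntegral.integral_sub (i1.add (Continuous.intervalIntegrable (by fun_prop) _ _))
      (Continuous.intervalIntegrable (by fun_prop) _ _)]
  exact intervalIntegral.integral_congr fun s _ => by simp only [ell]; ring

lemma clausen : ∫ s in (1 / 3 : ℝ)..(1 / 2),
    (0 + 3 / 2 * (s - 1 / 3)) ^ 2 * (2 * π * (cos (π * s) / sin (π * s))) =
      log 4 / 16 - 11 / 16 * z3 / π ^ 2 := by
  have hsin : ∀ s ∈ uIcc (1 / 3 : ℝ) (1 / 2), sin (π * s) ≠ 0 := fun s hs => by
    rw [uIcc_of_le (by norm_num)] at hs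
    exact (sin_pos' (by linarith [hs.1]) (by linarith [hs.2])).ne'
  rw [intervalIntegral.integral_mul_deriv_eq_deriv_mul (u' := fun s => 9 / 2 * (s - 1 / 3))
    (u := fun s => (0 + 3 / 2 * (s - 1 / 3)) ^ 2)
    (fun s _ => (((((hasDerivAt_id s).sub_const (1 / 3)).const_mul (3 / 2)).const_add 0).pow
      2).congr_deriv (by simp; ring)) (fun s hs => hasDerivAt_logsin (hsin s hs))
    (Continuous.intervalIntegrable (by fun_prop) _ _)
    (ContinuousOn.intervalIntegrable (ContinuousOn.const_mul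
      (ContinuousOn.div (by fun_prop) (by fun_prop) hsin) _))]
  simp only [mul_assoc (9 / 2 : ℝ)]
  rw [intervalIntegral.integral_const_mul, clausen_log, show π * (1 / 2) = π / 2 by ring,
    sin_pi_div_two]
  norm_num
  ring

lemma tendsto_inv0 : Tendsto (fun t : ℝ => t⁻¹) atTop (𝓝[>] 0) := tendsto_inv_atTop_nhdsGT_zero

theorem piece1 : ∫ x in (0 : ℝ)..1, g3 x = -(11 / 16 * z3 / π ^ 2) - π / 48 * (∫ y in Ioi 0, B2 y)
    - 2 * π * ∫ y in Ioi 0, B1 y * (GG (1 / 2) y - GG (1 / 3) y) := by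
  obtain ⟨M, hM⟩ := ells_bound (a := 1 / 3) (b := 1 / 2) (by norm_num) (by norm_num)
  have hA : ∀ y, 0 < y → ∀ s ∈ Icc (1 / 3 : ℝ) (1 / 2), |PP s y + 3 / 2 * (s - 1 / 3)| ≤ 7 := by
    intro y hy s hs
    have := abs_le.mp (abs_PP_le hy (s := s) ⟨by linarith [hs.1], hs.2⟩)
    rw [abs_le]; constructor <;> linarith [hs.1, hs.2]
  have t1 := tendsto_bdry (a := 1 / 3) (b := 1 / 2) (M := 7 ^ 2 * M) (by norm_num)
    (F := fun s y => (PP s y + 3 / 2 * (s - 1 / 3)) ^ 2 * ells s y)
    (fun y hy => ContinuousOn.mul (by have := cont_slice' cont_PP (y := y) (by linarith); fun_prop)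
      (cont_ells_s (by norm_num) (by norm_num) (by linarith)))
    (fun s hs y hy => by
      rw [abs_mul, abs_pow]
      exact mul_le_mul (pow_le_pow_left₀ (abs_nonneg _) (hA y (by linarith) s hs) 2) (hM s hs y hy)
        (abs_nonneg _) (by positivity))
    (fun s _ => (((tendsto_PP s).add_const _).pow 2).mul (tendsto_ells s))
  rw [clausen] at t1
  have t2 := (tendsto_bdry0 (a := 1 / 3) (b := 1 / 2) (by norm_num) (L := ell) (Ls := ells) hA
    (fun y hy s hs => ells_nonneg hy (by linarith [hs.1]) hs.2)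
    (fun y hy s hs => hasDerivAt_ell_s hy (sin_pos' (by linarith [hs.1]) (by linarith [hs.2])).ne')
    (fun y hy => cont_ells_s (by norm_num) (by norm_num) hy)
    (by simpa using tendsto_ell_half.sub tendsto_ell_third)).comp tendsto_inv0
  have t3 := tendsto_g3 (tendsto_x1_zero.comp tendsto_inv0) tendsto_x1_top
  have t4 := ((tendsto_uu (1 / 2)).const_mul 2).const_add (log 4)
  have t5 := tendsto_ell_half.comp tendsto_inv0
  have t6 := tendsto_inv_atTop_zero.const_mul (π / 32)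
  have l1 := ((((t4.sub t5).div_const 16).sub t3).sub (t1.sub t2)).sub t6
  have l2 := ((tendsto_int int_B1G).const_mul (-2 * π)).sub ((tendsto_int int_B1).const_mul (π / 24))
  have := tendsto_nhds_unique (l1.congr' ?_) l2
  · rw [integral_B2_eq, intervalIntegral.integral_symm]
    linear_combination this
  filter_upwards [eventually_ge_atTop 1] with t ht
  have h0 : 0 < t⁻¹ := inv_pos.mpr (by linarith)
  have h1 : t⁻¹ ≤ t := (inv_le_one_of_one_le₀ ht).trans ht
  have hs : uIcc t⁻¹ t ⊆ Ioi 0 := fun y hy => by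
    rw [uIcc_of_le h1] at hy; exact h0.trans_le hy.1
  have h := stokes1 h0 h1
  have i1 := (int_B1G.mono_set hs).intervalIntegrable
  have i2 := (int_B1.mono_set hs).intervalIntegrable
  rw [intervalIntegral.integral_congr (a := t⁻¹) (b := t)
    (g := fun y => -2 * π * (B1 y * (GG (1 / 2) y - GG (1 / 3) y))
    - π / 24 * (B1 y - 3 / 4) - π / 32) (fun y _ => by ring),
    intervalIntegral.integral_sub ((i1.const_mul _).sub (i2.const_mul _)) intervalIntegrable_const,
    intervalIntegral.integral_sub (i1.const_mul _) (i2.const_mul _),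
    intervalIntegral.integral_const_mul, intervalIntegral.integral_const_mul,
    intervalIntegral.integral_const, ell, show π * (1 / 2) = π / 2 by ring, sin_pi_div_two] at h
  simp only [Function.comp, smul_eq_mul, one_pow, mul_one] at h ⊢
  linear_combination h

theorem piece2 : ∫ x in (1 : ℝ)..3, g3 x = log 3 + π / 6 * (∫ y in Ioi 0, B2 y)
    - 2 * π * ∫ y in Ioi 0, B2 y * (GG (1 / 3) y - GG (1 / 6) y) := by
  obtain ⟨M, hM⟩ := ells_bound (a := 1 / 4) (b := 5 / 6) (by norm_num) (by norm_num)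
  have hA : ∀ y, 0 < y → ∀ s ∈ Icc (1 / 4 : ℝ) (1 / 3),
      |1 - (PP s y - PP (s + 1 / 2) y)| ≤ 13 := by
    intro y hy s hs
    have a1 := abs_le.mp (abs_PP_le hy (s := s) ⟨by linarith [hs.1], by linarith [hs.2]⟩)
    have a2 := abs_le.mp (abs_PP_le hy (s := 1 / 2 - s) ⟨by linarith [hs.2], by linarith [hs.1]⟩)
    rw [show s + 1 / 2 = 1 - (1 / 2 - s) by ring, PP_one_sub, abs_le]
    constructor <;> linarith
  have hc : ∀ y, 0 < y → ContinuousOn (fun s => ells s y - ells (s + 1 / 2) y)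
      (Icc (1 / 4) (1 / 3)) := fun y hy =>
    (cont_ells_s (by norm_num) (by norm_num) hy).sub
      ((cont_ells_s (a := 1 / 4) (b := 5 / 6) (by norm_num) (by norm_num) hy).comp
        (f := fun s => s + 1 / 2) (by fun_prop)
        fun s hs => ⟨by linarith [hs.1], by linarith [hs.2]⟩)
  have hs1 : ∀ s ∈ Icc (1 / 4 : ℝ) (1 / 3), sin (π * s) ≠ 0 := fun s hs =>
    (sin_pos' (by linarith [hs.1]) (by linarith [hs.2])).ne'
  have hs2 : ∀ s ∈ Icc (1 / 4 : ℝ) (1 / 3), sin (π * (s + 1 / 2)) ≠ 0 := fun s hs =>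
    (sin_pos' (by linarith [hs.1]) (by linarith [hs.2])).ne'
  have t1 := tendsto_bdry (a := 1 / 4) (b := 1 / 3) (M := 13 ^ 2 * (M + M)) (by norm_num)
    (F := fun s y => (1 - (PP s y - PP (s + 1 / 2) y)) ^ 2 * (ells s y - ells (s + 1 / 2) y))
    (fun y hy => ContinuousOn.mul (by have := cont_slice' cont_PP (y := y) (by linarith); fun_prop)
      (hc y (by linarith)))
    (fun s hs y hy => by
      rw [abs_mul, abs_pow]
      exact mul_le_mul (pow_le_pow_left₀ (abs_nonneg _) (hA y (by linarith) s hs) 2)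
        ((abs_sub _ _).trans (add_le_add (hM s ⟨hs.1, by linarith [hs.2]⟩ y hy)
          (hM _ ⟨by linarith [hs.1], by linarith [hs.2]⟩ y hy)))
        (abs_nonneg _) (by positivity))
    (fun s _ => ((((tendsto_PP s).sub (tendsto_PP _)).const_sub 1).pow 2).mul
      ((tendsto_ells s).sub (tendsto_ells _)))
  have e1 : ∫ s in (1 / 4 : ℝ)..(1 / 3), (1 - (0 - 0)) ^ 2 * (2 * π * (cos (π * s) / sin (π * s))
      - 2 * π * (cos (π * (s + 1 / 2)) / sin (π * (s + 1 / 2)))) = log 3 := by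
    simp only [sub_zero, one_pow, one_mul]
    rw [intervalIntegral.integral_eq_sub_of_hasDerivAt (fun s hs =>
      (hasDerivAt_logsin (hs1 s (by rwa [uIcc_of_le (by norm_num)] at hs))).sub
        ((hasDerivAt_logsin (hs2 s (by rwa [uIcc_of_le (by norm_num)] at hs))).comp_add_const s _))
      (ContinuousOn.intervalIntegrable_of_Icc (by norm_num)
        ((ContinuousOn.const_mul (ContinuousOn.div (by fun_prop) (by fun_prop) hs1) _).sub
          (ContinuousOn.const_mul (ContinuousOn.div (by fun_prop) (by fun_prop) hs2) _)))]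
    simp only [Pi.sub_apply]
    rw [show π * (1 / 3 + 1 / 2) = π - π / 6 by ring, show π * (1 / 4 + 1 / 2) = π - π * (1 / 4) by
      ring, sin_pi_sub, sin_pi_sub, sin_pi_div_six, show π * (1 / 3) = π / 3 by ring,
      sin_pi_div_three, div_pow, sq_sqrt (by norm_num)]
    norm_num
  rw [e1] at t1
  have t2 := (tendsto_bdry0 (a := 1 / 4) (b := 1 / 3) (by norm_num)
    (L := fun s y => ell s y - ell (s + 1 / 2) y)
    (Ls := fun s y => ells s y - ells (s + 1 / 2) y) hA
    (fun y hy s hs => by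
      rw [show s + 1 / 2 = 1 - (1 / 2 - s) by ring, ells_one_sub]
      linarith [ells_nonneg hy (s := s) (by linarith [hs.1]) (by linarith [hs.2]),
        ells_nonneg hy (s := 1 / 2 - s) (by linarith [hs.2]) (by linarith [hs.1])])
    (fun y hy s hs => (hasDerivAt_ell_s hy (hs1 s hs)).sub
      ((hasDerivAt_ell_s hy (hs2 s hs)).comp_add_const s _)) hc
    (by
      have := tendsto_ell_third.sub tendsto_ell_sixth
      rw [sub_zero] at this
      refine this.congr fun y => ?_
      rw [show (1 / 3 + 1 / 2 : ℝ) = 1 - 1 / 6 by norm_num,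
        show (1 / 4 + 1 / 2 : ℝ) = 1 - 1 / 4 by norm_num, ell_one_sub, ell_one_sub]
      ring)).comp tendsto_inv0
  have t3 := tendsto_g3 (tendsto_x2_zero.comp tendsto_inv0) tendsto_x2_top
  have l1 := t3.sub (t1.sub t2)
  have l2 := ((tendsto_int int_B2).const_mul (π / 6)).sub ((tendsto_int int_B2G).const_mul (2 * π))
  have := tendsto_nhds_unique (l1.congr' ?_) l2
  · linear_combination this
  filter_upwards [eventually_ge_atTop 1] with t ht
  have h0 : 0 < t⁻¹ := inv_pos.mpr (by linarith)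
  have h1 : t⁻¹ ≤ t := (inv_le_one_of_one_le₀ ht).trans ht
  have hs : uIcc t⁻¹ t ⊆ Ioi 0 := fun y hy => by
    rw [uIcc_of_le h1] at hy; exact h0.trans_le hy.1
  have h := stokes2 h0 h1
  have i1 := (int_B2G.mono_set hs).intervalIntegrable
  have i2 := (int_B2.mono_set hs).intervalIntegrable
  rw [intervalIntegral.integral_congr (a := t⁻¹) (b := t) (g := fun y => π / 6 * B2 y -
    2 * π * (B2 y * (GG (1 / 3) y - GG (1 / 6) y))) (fun y _ => by ring),
    intervalIntegral.integral_sub (i2.const_mul _) (i1.const_mul _),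
    intervalIntegral.integral_const_mul, intervalIntegral.integral_const_mul] at h
  simp only [Function.comp] at h ⊢
  linear_combination h

theorem mahler_reduce2 : ∫ θ in Icc (0 : Fin 5 → ℝ) 1, log ‖1 + ∑ j, ee (θ j)‖ =
    11 / 16 * z3 / π ^ 2 - 7 * π / 48 * (∫ y in Ioi 0, B2 y)
    + 2 * π * (∫ y in Ioi 0, B1 y * (GG (1 / 2) y - GG (1 / 3) y))
    + 2 * π * ∫ y in Ioi 0, B2 y * (GG (1 / 3) y - GG (1 / 6) y) := by
  rw [mahler_reduce, ← intervalIntegral.integral_add_adjacent_intervals (ii_g3 0 1) (ii_g3 1 3),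
    piece1, piece2]
  ring

end RV6
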