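import Pool.Agent.Lib.MP_15b3df_nt.RV12

/-! Termwise integration of double series and the Rogers-Zudilin interchange. -/

open Real Filter Topology Set MeasureTheory

namespace RV6

/-- integrable on the positive half-line with a given integral -/
def HI (f : ℝ → ℝ) (v : ℝ) : Prop := IntegrableOn f (Ioi 0) ∧ ∫ y in Ioi 0, f y = v

variable {f g : ℝ → ℝ} {v w : ℝ}

lemma HI.add (h1 : HI f v) (h2 : HI g w) : HI (fun y => f y + g y) (v + w) :=
  ⟨h1.1.add h2.1, by rw [integral_add h1.1 h2.1, h1.2, h2.2]⟩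

lemma HI.sub (h1 : HI f v) (h2 : HI g w) : HI (fun y => f y - g y) (v - w) :=
  ⟨h1.1.sub h2.1, by rw [integral_sub h1.1 h2.1, h1.2, h2.2]⟩

lemma HI.cmul (c : ℝ) (h : HI f v) : HI (fun y => c * f y) (c * v) :=
  ⟨h.1.const_mul c, by rw [integral_const_mul, h.2]⟩

lemma HI.congr (h : HI f v) (hf : ∀ y, 0 < y → f y = g y) (hv : v = w) : HI g w :=
  ⟨h.1.congr_fun hf measurableSet_Ioi, by
    rw [← hv, ← h.2]; exact (setIntegral_congr_fun measurableSet_Ioi hf).symm⟩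

lemma HI.unique (h1 : HI f v) (h2 : HI f w) : v = w := h1.2.symm.trans h2.2

lemma HI.scale (h : HI f v) {c : ℝ} (hc : 0 < c) : HI (fun y => f (c * y)) (v / c) :=
  ⟨(integrableOn_Ioi_comp_mul_left_iff f 0 hc).mpr (by simpa using h.1), by
    rw [integral_comp_mul_left_Ioi f 0 hc, mul_zero, h.2, smul_eq_mul, div_eq_inv_mul]⟩

lemma HI.scale_pow {k : ℕ} (h : HI (fun y => f y * y ^ k) v) {c : ℝ} (hc : 0 < c) :
    HI (fun y => f (c * y) * y ^ k) (v / c ^ (k + 1)) :=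
  ((h.scale hc).cmul (1 / c ^ k)).congr (fun y _ => by rw [mul_pow]; field_simp)
    (by rw [pow_succ]; field_simp)

lemma HI.inv (h : HI f v) : HI (fun y => f (1 / y) / y ^ 2) v := by
  have h1 : HI (fun x => (|(-1 : ℝ)| * x ^ ((-1 : ℝ) - 1)) • f (x ^ (-1 : ℝ))) v :=
    ⟨(integrableOn_Ioi_comp_rpow_iff f (by norm_num)).mpr h.1, by
      rw [integral_comp_rpow_Ioi f (by norm_num), h.2]⟩
  refine h1.congr (fun y hy => ?_) rfl
  rw [rpow_neg_one, show (-1 : ℝ) - 1 = -(2 : ℕ) by norm_num, rpow_neg hy.le, rpow_natCast]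
  simp [div_eq_inv_mul]

lemma HI_tsum {ι : Type} [Countable ι] {F : ι → ℝ → ℝ} {u : ι → ℝ} (hF : ∀ i, HI (F i) (u i))
    (hs : Summable fun i => ∫ y in Ioi 0, ‖F i y‖)
    (hf : ∀ y, 0 < y → HasSum (fun i => F i y) (f y)) : HI f (∑' i, u i) := by
  refine HI.congr (f := fun y => ∑' i, F i y) (v := ∑' i, u i) ⟨⟨?_, ?_⟩, ?_⟩
    (fun y hy => (hf y hy).tsum_eq) rfl
  · exact AEStronglyMeasurable.tsum fun i => (hF i).1.1
  · refine lt_of_le_of_lt (lintegral_mono fun y => enorm_tsum_le_tsum_enorm) ?_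
    rw [lintegral_tsum fun i => (hF i).1.1.enorm, lt_top_iff_ne_top]
    simp only [← ofReal_integral_norm_eq_lintegral_enorm (hF _).1]
    rw [← ENNReal.ofReal_tsum_of_nonneg (fun i => integral_nonneg fun _ => norm_nonneg _) hs]
    exact ENNReal.ofReal_ne_top
  · rw [← integral_tsum_of_summable_integral_norm (fun i => (hF i).1) hs]
    exact tsum_congr fun i => (hF i).2

lemma HI_tsum_pos {ι : Type} [Countable ι] {G : ι → ℝ → ℝ} {c u : ι → ℝ}
    (hG : ∀ i, HI (G i) (u i)) (h0 : ∀ i y, 0 < y → 0 ≤ G i y)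
    (hs : Summable fun i => |c i| * u i)
    (hf : ∀ y, 0 < y → HasSum (fun i => c i * G i y) (f y)) : HI f (∑' i, c i * u i) := by
  refine HI_tsum (fun i => (hG i).cmul (c i)) (hs.congr fun i => ?_) hf
  exact (((hG i).cmul |c i|).congr (fun y hy => by
    rw [norm_mul, Real.norm_of_nonneg (h0 i y hy), Real.norm_eq_abs]) rfl).2.symm

lemma HI_exp (k : ℕ) {c : ℝ} (hc : 0 < c) :
    HI (fun y => exp (-(c * y)) * y ^ k) (k.factorial / c ^ (k + 1)) := by
  have key := integral_rpow_mul_exp_neg_mul_Ioi (a := k + 1) (by positivity) hc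
  have hint : IntegrableOn (fun x => x ^ ((k + 1 : ℝ) - 1) * exp (-(c * x))) (Ioi 0) :=
    .of_integral_ne_zero (by rw [key]; positivity)
  refine HI.congr ⟨hint, key⟩ (fun y _ => by simp [mul_comm]) ?_
  rw [Gamma_nat_eq_factorial, ← Nat.cast_succ, rpow_natCast, one_div_pow, one_div_mul_eq_div]

/-- Mellin transform of a double series at an integer point -/
lemma HI_DS {α β : ℕ+ → ℝ} (hα : PB α) (hβ : PB β) (k : ℕ) {a b : ℝ}
    (ha : HasSum (fun m => α m / ((m : ℕ) : ℝ) ^ (k + 1)) a)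
    (hb : HasSum (fun m => β m / ((m : ℕ) : ℝ) ^ (k + 1)) b) :
    HI (fun y => DS α β y * y ^ k) (k.factorial / π ^ (k + 1) * (a * b)) := by
  have hs := summable_mul_of_summable_norm ha.summable.norm hb.summable.norm
  have e : ∀ (p : ℕ+ × ℕ+) (x z : ℝ), x * z *
      (k.factorial / (π * (((p.1 : ℕ) : ℝ) * ((p.2 : ℕ) : ℝ))) ^ (k + 1)) = k.factorial /
        π ^ (k + 1) * (x / ((p.1 : ℕ) : ℝ) ^ (k + 1) * (z / ((p.2 : ℕ) : ℝ) ^ (k + 1))) := by
    intro p x z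
    simp only [mul_pow]
    ring
  refine (HI_tsum_pos (c := fun p : ℕ+ × ℕ+ => α p.1 * β p.2)
    (fun p => HI_exp k (c := π * (((p.1 : ℕ) : ℝ) * ((p.2 : ℕ) : ℝ)))
      (mul_pos pi_pos (mul_pos (c_pos _) (c_pos _)))) (fun p y hy => by positivity) ?_
    (fun y hy => ((DS_hasSum hα hβ hy).mul_right (y ^ k)).congr_fun fun p => ?_)).congr
      (fun _ _ => rfl) ?_
  · refine (hs.abs.mul_left (k.factorial / π ^ (k + 1))).congr fun p => ?_
    rw [abs_mul, abs_mul, e, abs_div, abs_div, abs_of_pos (pow_pos (c_pos _) _),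
      abs_of_pos (pow_pos (c_pos _) _)]
  · rw [ew, mul_right_comm π y]; ring
  · simp only [e]
    rw [tsum_mul_left, (ha.mul hb hs).tsum_eq]

noncomputable def kk (a b y : ℝ) : ℝ := exp (-(a / y)) * exp (-(b * y)) / y ^ 4

noncomputable def KB (a b : ℝ) : ℝ := ∫ y in Ioi 0, kk a b y

lemma kk_nonneg (a b y : ℝ) : 0 ≤ kk a b y := by unfold kk; positivity

lemma kk_le {a b y : ℝ} (ha : 0 < a) (hy : 0 < y) :
    kk a b y ≤ 720 / a ^ 6 * (exp (-(b * y)) * y ^ 2) := by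
  have h := pow_exp_le 6 (x := a / y) (by positivity)
  have : kk a b y = (a / y) ^ 6 * exp (-(a / y)) / a ^ 6 * (exp (-(b * y)) * y ^ 2) := by
    unfold kk; field_simp
  rw [this]
  gcongr
  simpa [Nat.factorial] using h

lemma HI_kk {a b : ℝ} (ha : 0 < a) (hb : 0 < b) :
    HI (kk a b) (KB a b) ∧ KB a b ≤ 1440 / (a ^ 6 * b ^ 3) := by
  have h := (HI_exp 2 hb).cmul (720 / a ^ 6)
  have hc : ContinuousOn (kk a b) (Ioi 0) := by
    unfold kk
    fun_prop (disch := exact fun y hy => by have : 0 < y := hy; positivity)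
  have hi : IntegrableOn (kk a b) (Ioi 0) := by
    refine h.1.mono' (hc.aestronglyMeasurable measurableSet_Ioi) ?_
    filter_upwards [ae_restrict_mem measurableSet_Ioi] with y hy
    rw [Real.norm_of_nonneg (kk_nonneg _ _ _)]
    exact kk_le ha hy
  refine ⟨⟨hi, rfl⟩, (setIntegral_mono_on hi h.1 measurableSet_Ioi fun y hy => kk_le ha hy).trans
    (le_of_eq ?_)⟩
  rw [h.2]
  simp only [Nat.factorial]
  field_simp
  norm_num [mul_comm]

lemma KB_nonneg (a b : ℝ) : 0 ≤ KB a b := integral_nonneg fun _ => kk_nonneg _ _ _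

lemma KB_scale {a b l : ℝ} (ha : 0 < a) (hb : 0 < b) (hl : 0 < l) :
    KB (a / l) (b * l) = l ^ 3 * KB a b :=
  (HI_kk (by positivity) (by positivity)).1.unique ((((HI_kk ha hb).1.scale hl).cmul
    (l ^ 4)).congr (fun y hy => by
      simp only [kk, div_div, mul_assoc]; field_simp) (by field_simp))

lemma HI_KS {α β γ δ : ℕ+ → ℝ} (hα : PB α) (hβ : PB β) (hγ : PB γ) (hδ : PB δ) {c : ℝ}
    (hc : 0 < c) (hs : Summable fun i : (ℕ+ × ℕ+) × ℕ+ × ℕ+ =>
      |α i.1.1 * β i.1.2 * (γ i.2.1 * δ i.2.2)| *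
        KB (π * c * ((i.1.1 : ℕ) * (i.1.2 : ℕ))) (π * ((i.2.1 : ℕ) * (i.2.2 : ℕ)))) :
    HI (fun y => DS α β (c / y) * DS γ δ y / y ^ 4) (∑' i : (ℕ+ × ℕ+) × ℕ+ × ℕ+,
      α i.1.1 * β i.1.2 * (γ i.2.1 * δ i.2.2) *
        KB (π * c * ((i.1.1 : ℕ) * (i.1.2 : ℕ))) (π * ((i.2.1 : ℕ) * (i.2.2 : ℕ)))) := by
  refine HI_tsum_pos (fun i => (HI_kk (mul_pos (mul_pos pi_pos hc) (mul_pos (c_pos _) (c_pos _)))
    (mul_pos pi_pos (mul_pos (c_pos _) (c_pos _)))).1) (fun _ _ _ => kk_nonneg _ _ _) hs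
    fun y hy => ?_
  have h1 := DS_hasSum hα hβ (div_pos hc hy)
  have h2 := DS_hasSum hγ hδ hy
  refine ((h1.mul h2 (summable_mul_of_summable_norm h1.summable.norm h2.summable.norm)).div_const
    (y ^ 4)).congr_fun fun i => ?_
  simp only [kk, ew]
  ring_nf

theorem RZ_swap {A B C E : ℕ+ → ℝ} {M : ℝ} (hA : ∀ n, |A n| ≤ M) (hB : ∀ n, |B n| ≤ M)
    (hC : ∀ n, |C n| ≤ M) (hE : ∀ n, |E n| ≤ M) {c : ℝ} (hc : 0 < c) :
    HI (fun y => DS B (fun n => (n : ℕ) * E n) (c * y) * DS A (fun m => (m : ℕ) * C m) (1 / y) *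
      y ^ 2) (∫ y in Ioi 0, DS B (fun m => A m * ((m : ℕ) : ℝ) ^ 3) (c / y) *
        DS (fun m => (m : ℕ) * C m) (fun n => E n / ((n : ℕ) : ℝ) ^ 2) y / y ^ 4) := by
  have pA := PB.of_le M hA
  have pB := PB.of_le M hB
  have pC := PB.of_le M hC
  have pE := PB.of_le M hE
  have hM : 0 ≤ M := (abs_nonneg _).trans (hA 1)
  let e : (ℕ+ × ℕ+) × ℕ+ × ℕ+ ≃ (ℕ+ × ℕ+) × ℕ+ × ℕ+ :=
    ⟨fun i => ((i.1.1, i.2.2), (i.1.2, i.2.1)), fun i => ((i.1.1, i.2.1), (i.2.2, i.1.2)),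
      fun _ => rfl, fun _ => rfl⟩
  have hK : ∀ a b a' b' : ℕ+, KB (π * c * ((a : ℕ) * (b : ℕ))) (π * ((a' : ℕ) * (b' : ℕ))) =
      (((b' : ℕ) : ℝ) / (b : ℕ)) ^ 3 *
        KB (π * c * ((a : ℕ) * (b' : ℕ))) (π * ((b : ℕ) * (a' : ℕ))) := by
    intro a b a' b'
    have := c_pos a
    have := c_pos b
    have := c_pos a'
    have := c_pos b'
    rw [← KB_scale (by positivity) (by positivity) (by positivity)]
    congr 1 <;> field_simp
  have hs : Summable fun i : (ℕ+ × ℕ+) × ℕ+ × ℕ+ =>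
      |B i.1.1 * ((i.1.2 : ℕ) * E i.1.2) * (A i.2.1 * ((i.2.2 : ℕ) * C i.2.2))| *
        KB (π * c * ((i.1.1 : ℕ) * (i.1.2 : ℕ))) (π * ((i.2.1 : ℕ) * (i.2.2 : ℕ))) := by
    have n0 : ∀ (k : ℕ) (n : ℕ+), 0 ≤ 1 / ((n : ℕ) : ℝ) ^ k := fun k n => by positivity
    have s1 := (summable_zeta (k := 6) (by norm_num)).mul_of_nonneg
      (summable_zeta (k := 5) (by norm_num)) (n0 _) (n0 _)
    have s2 := (summable_zeta (k := 3) (by norm_num)).mul_of_nonneg
      (summable_zeta (k := 2) (by norm_num)) (n0 _) (n0 _)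
    refine Summable.of_nonneg_of_le (fun i => mul_nonneg (abs_nonneg _) (KB_nonneg _ _))
      (fun i => ?_) ((s1.mul_of_nonneg s2 (fun _ => mul_nonneg (n0 _ _) (n0 _ _))
        (fun _ => mul_nonneg (n0 _ _) (n0 _ _))).mul_left (M ^ 4 * 1440 / ((π * c) ^ 6 * π ^ 3)))
    obtain ⟨⟨a, b⟩, a', b'⟩ := i
    have := c_pos a
    have := c_pos b
    have := c_pos a'
    have := c_pos b'
    have := pi_pos
    simp only [abs_mul, Nat.abs_cast]
    calc _ ≤ M * ((b : ℕ) * M) * (M * ((b' : ℕ) * M)) *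
          (1440 / ((π * c * ((a : ℕ) * (b : ℕ))) ^ 6 * (π * ((a' : ℕ) * (b' : ℕ))) ^ 3)) := by
          gcongr
          exacts [KB_nonneg _ _, hB _, hE _, hA _, hC _, (HI_kk (by positivity) (by positivity)).2]
      _ = _ := by field_simp
  have h2 := HI_KS pB (PB.id.mul pE) pA (PB.id.mul pC) hc hs
  have h1 := HI_KS pB (pA.mul (PB.pow 3)) (PB.id.mul pC) (pE.div 2) hc
    ((e.summable_iff.mpr hs).congr fun i => by
      obtain ⟨⟨a, b⟩, a', b'⟩ := i
      have := c_pos b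
      have := c_pos b'
      simp only [e, Function.comp, Equiv.coe_fn_mk, hK a b a' b', abs_mul, abs_div, abs_pow,
        Nat.abs_cast]
      field_simp)
  refine h2.inv.congr (fun y hy => by rw [div_div_eq_mul_div, div_one]; field_simp) ?_
  rw [h1.2, ← e.tsum_eq]
  refine tsum_congr fun i => ?_
  obtain ⟨⟨a, b⟩, a', b'⟩ := i
  have := c_pos b
  have := c_pos b'
  simp only [e, Equiv.coe_fn_mk, hK a b a' b']
  field_simp

end RV6
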