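import Pool.Agent.Lib.MP_15b3df_nt.RV13

/-! Explicit Mellin transforms and the modular form of the two main integrals. -/

open Real Filter Topology Set MeasureTheory

namespace RV6

noncomputable def z5 : ℝ := ∑' n : ℕ+, 1 / ((n : ℕ) : ℝ) ^ 5

lemma hz2 : HasSum (fun n : ℕ+ => 1 / ((n : ℕ) : ℝ) ^ 2) (π ^ 2 / 6) :=
  (hasSum_pnat_iff (f := fun n : ℕ => 1 / (n : ℝ) ^ 2)).mpr (by simpa using hasSum_zeta_two)

lemma hz4 : HasSum (fun n : ℕ+ => 1 / ((n : ℕ) : ℝ) ^ 4) (π ^ 4 / 90) :=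
  (hasSum_pnat_iff (f := fun n : ℕ => 1 / (n : ℝ) ^ 4)).mpr (by simpa using hasSum_zeta_four)

lemma hz3 : HasSum (fun n : ℕ+ => 1 / ((n : ℕ) : ℝ) ^ 3) z3 := (summable_zeta (by norm_num)).hasSum

lemma hz5 : HasSum (fun n : ℕ+ => 1 / ((n : ℕ) : ℝ) ^ 5) z5 := (summable_zeta (by norm_num)).hasSum

lemma HI_S1_2 : HI (fun y => S1 y * y ^ 2) (z3 / (3 * π)) :=
  (HI_DS (PB.const 1) PB.id 2 hz3 (hz2.congr_fun fun n => by
    have := c_pos n; field_simp)).congr (fun _ _ => rfl) (by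
      have := pi_pos; simp only [Nat.factorial]; field_simp; norm_num; ring)

lemma HI_S1_3 : HI (fun y => S1 y * y ^ 3) (z3 / 15) :=
  (HI_DS (PB.const 1) PB.id 3 hz4 (hz3.congr_fun fun n => by
    have := c_pos n; field_simp)).congr (fun _ _ => rfl) (by
      have := pi_pos; simp only [Nat.factorial]; field_simp; norm_num; ring)

lemma HI_S1_4 : HI (fun y => S1 y * y ^ 4) (4 * z5 / (15 * π)) :=
  (HI_DS (PB.const 1) PB.id 4 hz5 (hz4.congr_fun fun n => by
    have := c_pos n; field_simp)).congr (fun _ _ => rfl) (by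
      have := pi_pos; simp only [Nat.factorial]; field_simp; norm_num; ring)

lemma HI_S3_4 : HI (fun y => S3 y * y ^ 4) (4 * z5 / π ^ 3) :=
  (HI_DS (PB.const 1) (PB.pow 3) 4 hz5 (hz2.congr_fun fun n => by
    have := c_pos n; field_simp)).congr (fun _ _ => rfl) (by
      have := pi_pos; simp only [Nat.factorial]; field_simp; norm_num; ring)

lemma HI_SD_4 : HI (fun y => SD y * y ^ 4) (4 * z3 / (15 * π)) :=
  (HI_DS PB.id (PB.pow 2) 4 (hz4.congr_fun fun n => by have := c_pos n; field_simp)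
    (hz3.congr_fun fun n => by have := c_pos n; field_simp)).congr (fun _ _ => rfl) (by
      have := pi_pos; simp only [Nat.factorial]; field_simp; norm_num; ring)

noncomputable def f3 (t : ℝ) : ℝ :=
  exp (-(π * t)) * (1 - 4 * exp (-(π * t)) + exp (-(π * t)) ^ 2) / (1 + exp (-(π * t))) ^ 4

lemma HI_f3 : HI (fun t => f3 t * t ^ 2) (1 / π ^ 3) := by
  have hp := pi_pos
  have hne : ∀ t, 1 + exp (-(π * t)) ≠ 0 := fun t => by positivity
  have hi : IntegrableOn (fun t => f3 t * t ^ 2) (Ioi 0) := by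
    refine ((HI_exp 2 hp).cmul 6).1.mono' (Continuous.aestronglyMeasurable ?_) ?_
    · unfold f3
      fun_prop (disch := exact fun t => pow_ne_zero _ (hne t))
    filter_upwards [ae_restrict_mem measurableSet_Ioi] with t ht
    have a1 := exp_le_one' (le_of_lt ht)
    have a0 := exp_pos (-(π * t))
    rw [norm_mul, Real.norm_of_nonneg (sq_nonneg t), ← mul_assoc, f3, Real.norm_eq_abs, abs_div,
      abs_mul, abs_of_pos a0, abs_of_pos (pow_pos (add_pos one_pos a0) 4), mul_comm 6]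
    generalize exp (-(π * t)) = r at a0 a1
    refine mul_le_mul_of_nonneg_right ((div_le_self (by positivity)
      (one_le_pow₀ (by linarith))).trans (mul_le_mul_of_nonneg_left ?_ a0.le)) (sq_nonneg t)
    rw [abs_le]; constructor <;> nlinarith
  have hr : ∀ t, HasDerivAt (fun t => exp (-(π * t))) (exp (-(π * t)) * -(π * 1)) t := fun t =>
    ((hasDerivAt_id t).const_mul π).neg.exp
  have hk : ∀ k : ℕ, Tendsto (fun t => t ^ k * exp (-(π * t))) atTop (𝓝 0) := fun k => by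
    have := ((tendsto_pow_mul_exp_neg_atTop_nhds_zero k).comp
      (tendsto_id.const_mul_atTop hp)).const_mul (1 / π ^ k)
    rw [mul_zero] at this
    exact this.congr fun t => by simp only [Function.comp, id, mul_pow]; field_simp
  have h1 := tendsto_exp_neg_pi.const_add 1
  have h2 := ((((hk 2).mul ((tendsto_exp_neg_pi.const_sub 1).div (h1.pow 3)
    (by norm_num))).const_mul (-1 / π)).add (((hk 1).div (h1.pow 2) (by norm_num)).const_mul
    (-2 / π ^ 2))).add (((hk 0).div h1 (by norm_num)).const_mul (-2 / π ^ 3))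
  refine ⟨hi, (integral_Ioi_of_hasDerivAt_of_tendsto' (fun t _ => ?_) hi h2).trans ?_⟩
  · have d1 := (hr t).const_add 1
    refine ((((((hasDerivAt_pow 2 t).mul (hr t)).mul (((hr t).const_sub 1).div (d1.pow 3)
      (pow_ne_zero _ (hne t)))).const_mul (-1 / π)).add ((((hasDerivAt_pow 1 t).mul (hr t)).div
      (d1.pow 2) (pow_ne_zero _ (hne t))).const_mul (-2 / π ^ 2))).add
      ((((hasDerivAt_pow 0 t).mul (hr t)).div d1 (hne t)).const_mul (-2 / π ^ 3))).congr_deriv ?_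
    have := hne t
    simp only [f3, Pi.mul_apply, Pi.pow_apply, Pi.div_apply]
    generalize exp (-(π * t)) = r at this
    field_simp
    ring
  · simp
    ring

lemma hasSum_f3 {x : ℝ} (h0 : 0 ≤ x) (h1 : x < 1) :
    HasSum (fun m : ℕ+ => sg m * ((m : ℕ) : ℝ) ^ 3 * x ^ (m : ℕ))
      (x * (1 - 4 * x + x ^ 2) / (1 + x) ^ 4) := by
  have := (hasSum_h3 (z := -x) (by simpa [abs_of_nonneg h0])).neg
  rw [← Complex.hasSum_ofReal, show ((x * (1 - 4 * x + x ^ 2) / (1 + x) ^ 4 : ℝ) : ℂ) = -h3 (-x) by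
    rw [h3]; push_cast; ring]
  exact this.congr_fun fun m => by rw [sg, neg_pow (x : ℂ)]; push_cast; ring

lemma abs_od_le (n : ℕ+) : |od n| ≤ 1 := by unfold od ind; split_ifs <;> simp

lemma hasSum_od3 : HasSum (fun n : ℕ+ => od n * (1 / ((n : ℕ) : ℝ) ^ 3)) (7 / 8 * z3) := by
  have hinj : Function.Injective fun n : ℕ+ => 2 * n := fun a b h => by simpa using h
  have h : HasSum (fun n : ℕ+ => ind 2 n * (1 / ((n : ℕ) : ℝ) ^ 3)) (1 / 8 * z3) := by
    rw [← hinj.hasSum_iff]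
    · exact (hz3.mul_left (1 / 8)).congr_fun fun n => by simp [ind]; ring
    · intro n hn
      have : ¬ ((2 : ℕ+) : ℕ) ∣ (n : ℕ) := fun h => by
        obtain ⟨k, hk⟩ := PNat.dvd_iff.mpr h
        exact hn ⟨k, hk.symm⟩
      rw [ind, if_neg this, zero_mul]
  rw [show 7 / 8 * z3 = z3 - 1 / 8 * z3 by ring]
  exact (hz3.sub h).congr_fun fun n => by rw [od]; ring

theorem integral_B2 : ∫ y in Ioi 0, B2 y = -42 * z3 / π ^ 3 := by
  have hn : HI (fun t => |f3 t| * t ^ 2) (∫ t in Ioi 0, ‖f3 t * t ^ 2‖) :=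
    HI.congr ⟨HI_f3.1.norm, rfl⟩ (fun t _ => by simp) rfl
  have h := HI_tsum (F := fun (n : ℕ+) t => od n * (f3 ((n : ℕ) * t) * t ^ 2))
    (f := fun t => DS (fun m => sg m * ((m : ℕ) : ℝ) ^ 3) od t * t ^ 2)
    (fun n => (HI_f3.scale_pow (c_pos n)).cmul (od n)) ?_ fun y hy => ?_
  · have e := ((hasSum_od3.mul_left (1 / π ^ 3)).congr_fun
      (g := fun n => od n * (1 / π ^ 3 / ((n : ℕ) : ℝ) ^ (2 + 1))) fun n => by ring).tsum_eq
    rw [e] at h
    refine ((h.inv.cmul (-48)).congr (fun y hy => ?_) (by ring)).2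
    rw [B2_inv hy, DS_swap od]
    field_simp
  · refine Summable.of_nonneg_of_le (fun n => integral_nonneg fun _ => norm_nonneg _) (fun n => ?_)
      (hz3.summable.mul_left (∫ t in Ioi 0, ‖f3 t * t ^ 2‖))
    rw [(((hn.scale_pow (f := fun t => |f3 t|) (c_pos n)).cmul |od n|).congr
      (g := fun t => ‖od n * (f3 ((n : ℕ) * t) * t ^ 2)‖) (fun t _ => by simp) rfl).2, mul_one_div]
    exact mul_le_of_le_one_left (div_nonneg (integral_nonneg fun _ => norm_nonneg _)
      (by positivity)) (abs_od_le n)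
  · refine ((DS_hasSum_right (PB_sg.mul (PB.pow 3)) PB_od hy fun n =>
      hasSum_f3 (by positivity) (q_pow_lt hy n)).mul_right (y ^ 2)).congr_fun fun n => ?_
    rw [f3, mul_assoc, show -(π * ((n : ℕ) * y)) = (n : ℕ) * -(π * y) by ring, exp_nat_mul]

lemma DS_sub_right {α β γ : ℕ+ → ℝ} (hα : PB α) (hβ : PB β) (hγ : PB γ) {y : ℝ} (hy : 0 < y) :
    DS α (fun n => β n - γ n) y = DS α β y - DS α γ y := by
  simp only [sub_eq_add_neg]
  rw [DS_add_right hα hβ hγ.neg hy, DS_neg_right]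

lemma abs_sg (n : ℕ+) : |sg n| = 1 := by simp [sg]

lemma GG_sub {y : ℝ} (hy : 0 < y) (a b : ℝ) : GG a y - GG b y = -3 / π ^ 2 *
    DS (fun m => (m : ℕ) * sg m) (fun n => (cos (2 * π * ((n : ℕ) * a)) -
      cos (2 * π * ((n : ℕ) * b))) / ((n : ℕ) : ℝ) ^ 2) y := by
  simp only [sub_div]
  rw [DS_sub_right PB_msg (PBF_G.pb a) (PBF_G.pb b) hy, GG, GG]
  ring

lemma abs_cos_sub (a b : ℝ) : |cos a - cos b| ≤ 2 :=
  (abs_sub _ _).trans (by linarith [abs_cos_le_one a, abs_cos_le_one b])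

lemma DS_od1 {y : ℝ} (hy : 0 < y) :
    DS od (fun n => ((n : ℕ) : ℝ) ^ 1) y = S1 y - S1 (2 * y) := by
  rw [DS_od (PB.pow 1) hy, S1_eq, S1_eq]

lemma DS_sg1 {y : ℝ} (hy : 0 < y) :
    DS sg (fun n => ((n : ℕ) : ℝ) ^ 1) y = S1 y - 2 * S1 (2 * y) := by
  rw [DS_swap, DS_expand (PB.pow 1) (PB.const 1) hy 1 (-2) 0 0 0 1 1 1 1
    (fun n => by rw [sg_eq]; ring) (by simp) (by simp) (by simp) (by simp), S1_eq, S1_eq,
    DS_swap _ _ y, DS_swap _ _ (2 * y)]
  ring

theorem HI_main1 : HI (fun y => 1152 / π * ((1 / 2 * (S1 (2 * y) - S1 (4 * y)) -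
    4 * (S1 (4 * y) - S1 (8 * y)) + 9 / 2 * (S1 (6 * y) - S1 (12 * y))) *
      (4 * y ^ 2 * (S1 (2 * y) - S1 (4 * y)) + y / (2 * π) - 1 / 8) * y ^ 2))
    (2 * π * ∫ y in Ioi 0, B1 y * (GG (1 / 2) y - GG (1 / 3) y)) := by
  have hp := pi_pos
  refine ((RZ_swap (A := fun _ => 1) (B := od) (C := sg) (M := 2)
    (E := fun n => cos (2 * π * ((n : ℕ) * (1 / 2))) - cos (2 * π * ((n : ℕ) * (1 / 3))))
    (fun _ => by norm_num) (fun n => (abs_od_le n).trans one_le_two)
    (fun n => (abs_sg n).trans_le one_le_two) (fun n => abs_cos_sub _ _) two_pos).cmul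
    (-1152 / π)).congr (fun y hy => ?_) ?_
  · have h2 := S1_inv (mul_pos two_pos hy)
    have h4 := S1_inv (mul_pos four_pos hy)
    rw [show 4 / (2 * y) = 2 * (1 / y) by field_simp; norm_num] at h2
    rw [show 4 / (4 * y) = 1 / y by field_simp] at h4
    rw [DS_expand_pow PB_od 1 (mul_pos two_pos hy) (-1 / 2) 2 (-3 / 2) 0 0 fun n => by
      rw [cos_half, cos_third]; ring, DS_expand_pow (PB.const 1) 1 (one_div_pos.mpr hy) 1 (-2) 0 0 0
      fun n => by rw [sg_eq]; ring, DS_od1 (by positivity), DS_od1 (by positivity),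
      DS_od1 (by positivity), ← S1_eq, ← S1_eq, h2, h4]
    ring_nf
  · rw [← integral_const_mul, ← integral_const_mul]
    refine setIntegral_congr_fun measurableSet_Ioi fun y hy => ?_
    simp only [one_mul]
    rw [B1_inv hy, GG_sub hy]
    field_simp
    ring

theorem HI_main2 : HI (fun y => 288 / π * (((S1 y - 3 * S1 (2 * y) + 2 * S1 (4 * y)) -
    9 * (S1 (3 * y) - 3 * S1 (6 * y) + 2 * S1 (12 * y))) *
      (2 * y ^ 2 * (S1 y - 3 * S1 (2 * y) + 2 * S1 (4 * y)) - 1 / 8) * y ^ 2))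
    (2 * π * ∫ y in Ioi 0, B2 y * (GG (1 / 3) y - GG (1 / 6) y)) := by
  have hp := pi_pos
  refine ((RZ_swap (A := sg) (B := od) (C := sg) (M := 2)
    (E := fun n => cos (2 * π * ((n : ℕ) * (1 / 3))) - cos (2 * π * ((n : ℕ) * (1 / 6))))
    (fun n => (abs_sg n).trans_le one_le_two) (fun n => (abs_od_le n).trans one_le_two)
    (fun n => (abs_sg n).trans_le one_le_two) (fun n => abs_cos_sub _ _) one_pos).cmul
    (288 / π)).congr (fun y hy => ?_) ?_
  · have h1 := S1_inv hy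
    have h2 := S1_inv (mul_pos two_pos hy)
    have h4 := S1_inv (mul_pos four_pos hy)
    rw [show 4 / y = 2 * (2 * (1 / y)) by ring] at h1
    rw [show 4 / (2 * y) = 2 * (1 / y) by field_simp; norm_num] at h2
    rw [show 4 / (4 * y) = 1 / y by field_simp] at h4
    rw [one_mul, DS_expand_pow PB_od 1 hy (-1) 1 3 0 (-3) fun n => by
      rw [cos_sixth, cos_third]; ring, DS_expand_pow PB_sg 1 (one_div_pos.mpr hy) 1 (-2) 0 0 0
      fun n => by rw [sg_eq]; ring, DS_od1 (by positivity), DS_od1 (by positivity),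
      DS_od1 (by positivity), DS_od1 (y := 6 * y) (by positivity), DS_sg1 (by positivity),
      DS_sg1 (by positivity), h1, h2, h4]
    ring_nf
  · rw [← integral_const_mul, ← integral_const_mul]
    refine setIntegral_congr_fun measurableSet_Ioi fun y hy => ?_
    rw [B2_inv hy, GG_sub hy]
    field_simp
    ring

end RV6
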