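import Pool.Agent.Lib.MP_15b3df_nt.RV14

/-! Eta-product expressions of weight two Eisenstein series. -/

open Real Filter Topology Set
open Complex (I)

namespace RV6

noncomputable def TT (r : ℕ) (p x : ℂ) : ℂ :=
  ∑' k : ℕ+, ((k : ℕ) : ℂ) ^ r * (x ^ (k : ℕ) / ((k : ℕ) * (1 - p ^ (k : ℕ))))

variable {p : ℂ}

lemma TT_le (hp : ‖p‖ < 1) (r : ℕ) {x : ℂ} {R : ℝ} (hx : ‖x‖ ≤ R) (k : ℕ+) :
    ‖((k : ℕ) : ℂ) ^ r * (x ^ (k : ℕ) / ((k : ℕ) * (1 - p ^ (k : ℕ))))‖ ≤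
      ((k : ℕ) : ℝ) ^ r * R ^ (k : ℕ) / (1 - ‖p‖) := by
  have h1 := norm_one_sub_ge (e := 1) norm_one hp k.ne_zero
  have h2 := one_le_c k
  have h3 : 0 < 1 - ‖p‖ := by linarith
  have h4 := (norm_nonneg x).trans hx
  rw [one_mul] at h1
  rw [norm_mul, norm_div, norm_mul, norm_pow, norm_pow, Complex.norm_natCast, mul_div_assoc]
  gcongr
  nlinarith

lemma TT_summable (hp : ‖p‖ < 1) (r : ℕ) {x : ℂ} (hx : ‖x‖ < 1) : Summable fun k : ℕ+ =>
    ((k : ℕ) : ℂ) ^ r * (x ^ (k : ℕ) / ((k : ℕ) * (1 - p ^ (k : ℕ)))) :=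
  Summable.of_norm_bounded ((summable_pow_geo r (norm_nonneg x) hx).div_const _) (TT_le hp r le_rfl)

lemma hasDerivAt_TT (hp : ‖p‖ < 1) (r : ℕ) {x : ℂ} (hx : ‖x‖ < 1) (hx0 : x ≠ 0) :
    HasDerivAt (TT r p) (TT (r + 1) p x / x) x := by
  have hU : IsOpen {z : ℂ | ‖z‖ < (‖x‖ + 1) / 2} := isOpen_lt continuous_norm continuous_const
  have hx1 : x ∈ {z : ℂ | ‖z‖ < (‖x‖ + 1) / 2} := by simp only [mem_ofPred_eq]; linarith
  have hu := (summable_pow_geo r (x := (‖x‖ + 1) / 2) (by positivity) (by linarith)).div_const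
    (1 - ‖p‖)
  have hF : ∀ k : ℕ+, DifferentiableOn ℂ (fun x : ℂ => ((k : ℕ) : ℂ) ^ r * (x ^ (k : ℕ) /
    ((k : ℕ) * (1 - p ^ (k : ℕ))))) {z : ℂ | ‖z‖ < (‖x‖ + 1) / 2} := fun k => by fun_prop
  have hd := (Complex.differentiableOn_tsum_of_summable_norm hu hF hU
    fun k z hz => TT_le hp r (le_of_lt hz) k).differentiableAt (hU.mem_nhds hx1)
  refine hd.hasDerivAt.congr_deriv ((Complex.hasSum_deriv_of_summable_norm hu hF hU
    (fun k z hz => TT_le hp r (le_of_lt hz) k) hx1).unique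
    (((TT_summable hp (r + 1) hx).hasSum.div_const x).congr_fun fun k => ?_))
  rw [(((hasDerivAt_pow (k : ℕ) x).div_const _).const_mul _).deriv, pow_sub₀ _ hx0 k.pos]
  ring

lemma poch_TT (hp : ‖p‖ < 1) {x : ℂ} (hx : ‖x‖ < 1) : poch x p = Complex.exp (-TT 0 p x) := by
  obtain ⟨S, h1, h2⟩ := poch_exp hp hx
  simp only [h2, TT, pow_zero, one_mul, h1.tsum_eq]

lemma hasSum_TT (hp : ‖p‖ < 1) {x : ℂ} (hx : ‖x‖ < 1) : HasSum (fun k : ℕ+ =>
    ((k : ℕ) : ℂ) * (x ^ (k : ℕ) / (1 - p ^ (k : ℕ)))) (TT 2 p x) :=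
  (TT_summable hp 2 hx).hasSum.congr_fun fun k => by
    have : ((k : ℕ) : ℂ) ≠ 0 := by exact_mod_cast k.ne_zero
    field_simp

noncomputable def HH (p w : ℂ) : ℂ := h1 w + TT 2 p (w * p) + TT 2 p (p / w)

lemma NN_eq (hp : ‖p‖ < 1) (hp0 : p ≠ 0) {w : ℂ} (h1 : ‖p‖ < ‖w‖) (h2 : ‖w‖ * ‖p‖ < 1)
    (h3 : w ≠ 1) : NN p w = th p w ^ 2 * HH p w := by
  set U := {w : ℂ | ‖p‖ < ‖w‖ ∧ ‖w‖ * ‖p‖ < 1}
  have hU : IsOpen U := (isOpen_lt continuous_const continuous_norm).inter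
    (isOpen_lt (continuous_norm.mul continuous_const) continuous_const)
  have k0 : ∀ z ∈ U, z ≠ 0 := fun z hz => norm_pos_iff.mp ((norm_nonneg _).trans_lt hz.1)
  have k1 : ∀ z ∈ U, ‖z * p‖ < 1 := fun z hz => by rw [norm_mul]; exact hz.2
  have k2 : ∀ z ∈ U, ‖p / z‖ < 1 := fun z hz => by
    rw [norm_div, div_lt_one (norm_pos_iff.mpr (k0 z hz))]; exact hz.1
  have d1 : ∀ r, ∀ z ∈ U, HasDerivAt (fun z => TT r p (z * p)) (TT (r + 1) p (z * p) / z) z :=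
    fun r z hz => (HasDerivAt.comp (h₂ := TT r p) (h := fun z => z * p) z (hasDerivAt_TT hp r
      (k1 z hz) (mul_ne_zero (k0 z hz) hp0)) (hasDerivAt_mul_const p)).congr_deriv (by field_simp)
  have d2 : ∀ r, ∀ z ∈ U, HasDerivAt (fun z => TT r p (p / z)) (-TT (r + 1) p (p / z) / z) z :=
    fun r z hz => ((hasDerivAt_TT hp r (k2 z hz) (div_ne_zero hp0 (k0 z hz))).comp z
      ((hasDerivAt_inv (k0 z hz)).const_mul p)).congr_deriv (by have := k0 z hz; field_simp)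
  have e0 : ∀ z ∈ U, th p z = (1 - z) * Complex.exp (-TT 0 p (z * p) - TT 0 p (p / z)) :=
    fun z hz => by
      rw [th, poch_succ hp z, poch_TT hp (k1 z hz), poch_TT hp (k2 z hz), mul_assoc,
        ← Complex.exp_add, sub_eq_add_neg (-_)]
  have dE := fun z hz => ((d1 0 z hz).neg.sub (d2 0 z hz)).cexp
  have e1 : ∀ z ∈ U, dd (th p) z = Complex.exp (-TT 0 p (z * p) - TT 0 p (p / z)) *
      (-z + (1 - z) * (TT 1 p (p / z) - TT 1 p (z * p))) := fun z hz => by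
    have := k0 z hz
    rw [dd, ((((hasDerivAt_id z).const_sub 1).mul (dE z hz)).congr_of_eventuallyEq
      (eventually_of_mem (hU.mem_nhds hz) e0)).deriv]
    simp only [id, Pi.sub_apply, Pi.neg_apply]
    field_simp
    ring
  have hw : w ∈ U := ⟨h1, h2⟩
  have := k0 w hw
  have := sub_ne_zero.mpr h3.symm
  rw [NN, dd, dd, (((dE w hw).mul ((hasDerivAt_id w).neg.add (((hasDerivAt_id w).const_sub 1).mul
    ((d2 1 w hw).sub (d1 1 w hw))))).congr_of_eventuallyEq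
      (eventually_of_mem (hU.mem_nhds hw) e1)).deriv, ← dd, e1 w hw, e0 w hw, HH, RV6.h1]
  simp only [id, Pi.sub_apply, Pi.neg_apply, Pi.add_apply, Pi.mul_apply]
  field_simp
  ring

lemma theta_HH (hp : ‖p‖ < 1) (hp0 : p ≠ 0) {a b : ℂ} (a1 : ‖p‖ < ‖a‖) (a2 : ‖a‖ ≤ 1)
    (a3 : a ≠ 1) (b1 : ‖p‖ < ‖b‖ ^ 2) (b2 : ‖b‖ ≤ 1) (b3 : b ^ 2 ≠ 1) :
    (HH p a - HH p b) * (th p a * th p b) ^ 2 =
      -b * poch p p ^ 4 * (th p (b * a) * th p (b⁻¹ * a)) := by
  have n0 := norm_nonneg p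
  have n1 := norm_nonneg b
  have b4 : ‖p‖ < ‖b‖ := by nlinarith
  have b5 : ‖b‖ * ‖p‖ < 1 := by nlinarith
  have b6 : b ≠ 1 := by rintro rfl; simp at b3
  rw [← theta_wp hp hp0 (norm_pos_iff.mp (n0.trans_lt b4)) (th_ne_zero hp b4 b5 b6)
    (th_ne_zero hp (by rwa [norm_pow]) (by rw [norm_pow]; nlinarith) b3)
    (norm_pos_iff.mp (n0.trans_lt a1)), NN_eq hp hp0 a1 (by nlinarith) a3, NN_eq hp hp0 b4 b5 b6]
  ring

variable {y : ℝ}

lemma qc_mul (d : ℕ) (y : ℝ) : qc (d * y) = qc y ^ d := by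
  rw [qc_eq, qc_eq, ← Complex.ofReal_pow, ← exp_nat_mul]; congr 2; ring

lemma lamP {β : ℕ+ → ℝ} (hβ : PB β) (hy : 0 < y) (d : ℕ) (hd : 0 < d) :
    HasSum (fun k : ℕ+ => (β k : ℂ) * ph ((qc y ^ (k : ℕ)) ^ d)) (DS (fun _ => 1) β (d * y)) := by
  have := lamG0 hβ 0 (fun _ => hasSum_ph) (y := d * y) (by positivity)
  simp only [pow_zero, qc_mul, ← pow_mul, mul_comm d] at this
  rw [DS_swap]
  simpa only [pow_mul, mul_comm y] using this

/-- the Euler product in the nome `exp (-π y)` -/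
noncomputable def EE (y : ℝ) : ℂ := poch (qc y) (qc y)

lemma EE_mul (d : ℕ) (y : ℝ) : EE (d * y) = poch (qc y ^ d) (qc y ^ d) := by rw [EE, qc_mul]

lemma EE_ne (hy : 0 < y) : EE y ≠ 0 := poch_ne_zero' (norm_qc_lt hy) (norm_qc_lt hy)

lemma norm_pow_anti (hy : 0 < y) {i j : ℕ} (h : i < j) : ‖qc y ^ j‖ < ‖qc y‖ ^ i := by
  rw [norm_pow]
  exact pow_lt_pow_right_of_lt_one₀ (norm_pos_iff.mpr (qc_ne y)) (norm_qc_lt hy) h

lemma pow_ne_one' (hy : 0 < y) {i : ℕ} (h : i ≠ 0) : qc y ^ i ≠ 1 := fun e => by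
  have := norm_pow_lt (norm_qc_lt hy) h
  simp [e] at this

theorem prodB (hy : 0 < y) :
    ((S1 y - S1 (2 * y) - 3 * S1 (3 * y) + 3 * S1 (6 * y) : ℝ) : ℂ) * (EE y ^ 2 * EE (3 * y) ^ 2) =
      qc y * EE (2 * y) ^ 4 * EE (6 * y) ^ 4 := by
  have hq := norm_qc_lt hy
  have hq0 := qc_ne y
  have n : ∀ i, i ≠ 0 → ‖qc y ^ i‖ < 1 := fun i hi => norm_pow_lt hq hi
  have h := theta_HH (p := qc y ^ 6) (a := qc y ^ 3) (b := qc y) (n 6 (by norm_num))
    (pow_ne_zero _ hq0) (by rw [norm_pow _ 3]; exact norm_pow_anti hy (by norm_num))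
    (n 3 (by norm_num)).le (pow_ne_one' hy (by norm_num)) (norm_pow_anti hy (by norm_num)) hq.le
    (pow_ne_one' hy (by norm_num))
  have e1 : qc y ^ 6 / qc y ^ 3 = qc y ^ 3 := by field_simp
  have e2 : qc y ^ 6 / qc y = qc y ^ 5 := by field_simp
  have e3 : (qc y)⁻¹ * qc y ^ 3 = qc y ^ 2 := by field_simp
  have e4 : qc y ^ 6 / qc y ^ 2 = qc y ^ 4 := by field_simp
  have e5 : qc y ^ 6 / qc y ^ 4 = qc y ^ 2 := by field_simp
  have hp := n 6 (by norm_num)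
  have s := ((((hasSum_h1 (n 3 (by norm_num))).add (hasSum_TT hp (n 9 (by norm_num)))).add
    (hasSum_TT hp (n 3 (by norm_num)))).sub (((hasSum_h1 hq).add
      (hasSum_TT hp (n 7 (by norm_num)))).add (hasSum_TT hp (n 5 (by norm_num))))).unique
    (((((lamP PB.id hy 1 one_pos).sub (lamP PB.id hy 2 two_pos)).sub ((lamP PB.id hy 3
      three_pos).mul_left 3)).add ((lamP PB.id hy 6 (by norm_num)).mul_left 3)).neg.congr_fun
      fun k => by
        have m : ∀ i, i ≠ 0 → 1 - (qc y ^ (k : ℕ)) ^ i ≠ 0 := fun i hi =>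
          one_sub_ne (norm_pow_lt (n _ k.ne_zero) hi)
        have m1 := m 1 one_ne_zero
        have m2 := m 2 two_ne_zero
        have m3 := m 3 three_ne_zero
        have m6 := m 6 (by norm_num)
        simp only [pow_right_comm (qc y) _ (k : ℕ), ph, Complex.ofReal_natCast, pow_one] at m1 ⊢
        generalize qc y ^ (k : ℕ) = x at m1 m2 m3 m6
        field_simp
        ring)
  have p1 := poch_two hq (qc y)
  have p2 := poch_three (n 2 two_ne_zero) (qc y)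
  have p3 := poch_three (n 2 two_ne_zero) (qc y ^ 2)
  have p4 := poch_two (n 3 three_ne_zero) (qc y ^ 3)
  have E2 := EE_mul 2 y
  have E3 := EE_mul 3 y
  have E6 := EE_mul 6 y
  simp only [HH, th, e1, e2, e3, ← pow_succ', ← pow_add, ← pow_mul, e4, e5, Nat.reduceAdd,
    Nat.reduceMul, Nat.cast_ofNat, Nat.cast_one, one_mul, ← pow_two] at h s p1 p2 p3 p4 E2 E3 E6
  rw [s, ← S1, ← S1, ← S1, ← S1] at h
  rw [EE, E2, E3, E6, p1, p2, p3, p4]
  push_cast
  linear_combination (-(poch (qc y ^ 2) (qc y ^ 6) * poch (qc y ^ 4) (qc y ^ 6)) ^ 2 *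
    poch (qc y ^ 6) (qc y ^ 6) ^ 4) * h

lemma HH_ee (hy : 0 < y) (s : ℝ) : HH (qc y) (ee s) = h1 (ee s) + 2 * CC 1 s y := by
  have hq := norm_qc_lt hy
  have := ((hasSum_TT hq (x := ee s * qc y) (by rwa [norm_mul, norm_ee, one_mul])).add
    (hasSum_TT hq (x := qc y / ee s) (by rwa [norm_div, norm_ee, div_one]))).unique
    (((lamP ((PB.pow 1).mul (PBF_cos.pb s)) hy 1 one_pos).mul_left 2).congr_fun fun k => by
      rw [div_eq_mul_inv (qc y), mul_pow, mul_pow, inv_pow, ee_pow, ee_inv_eq, ee_eq, ph]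
      simp only [Complex.ofReal_mul, pow_one, Complex.ofReal_natCast]
      ring)
  rw [HH, add_assoc, this, CC, Nat.cast_one, one_mul]

theorem prodA (hy : 0 < y) :
    ((1 - 4 * S1 y + 16 * S1 (2 * y) + 12 * S1 (3 * y) - 48 * S1 (6 * y) : ℝ) : ℂ) *
      (EE (2 * y) ^ 2 * EE (6 * y) ^ 2) = EE y ^ 4 * EE (3 * y) ^ 4 := by
  have hq := norm_qc_lt hy
  have hρ := ee_third
  have h3 := rho_cube hρ
  have h0 := rho_ne hρ
  have b0 : ee (1 / 6) = -ee (1 / 3) ^ 2 := by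
    rw [ee_pow, show ((2 : ℕ) : ℝ) * (1 / 3) = 1 / 6 + 1 / 2 by norm_num, ee_add, ee_half]; ring
  have h := theta_HH hq (qc_ne y) (a := ee (1 / 2)) (b := ee (1 / 6)) (by rwa [norm_ee])
    (norm_ee _).le (by rw [ee_half]; norm_num) (by rwa [norm_ee, one_pow]) (norm_ee _).le
    (fun e => by
      rw [b0] at e
      have : ee (1 / 3) = 1 := by linear_combination e - ee (1 / 3) * h3
      rw [this] at hρ
      norm_num at hρ)
  have s6 : sin (π * (1 / 6)) = 1 / 2 := by rw [mul_one_div, sin_pi_div_six]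
  have s2 : sin (π * (1 / 2)) = 1 := by rw [mul_one_div, sin_pi_div_two]
  rw [HH_ee hy, HH_ee hy, h1_ee (by rw [s2]; norm_num), h1_ee (by rw [s6]; norm_num), s6, s2,
    CC1_half hy, CC1_sixth hy, ee_half, b0] at h
  generalize ee (1 / 3) = ρ at h hρ h3 h0
  have e1 : (-ρ ^ 2)⁻¹ * -1 = ρ := by field_simp; exact h3.symm
  have e2 : qc y / ρ = ρ ^ 2 * qc y := by rw [← rho_inv hρ, div_eq_inv_mul]
  have e3 : qc y / ρ ^ 2 = ρ * qc y := by field_simp; rw [h3, mul_one]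
  have p1 := poch_cube hq hρ (qc y)
  have p2 := poch_cube hq hρ (-qc y)
  have p3 := poch_neg hq (qc y)
  have p4 := poch_neg (norm_pow_lt hq three_ne_zero) (qc y ^ 3)
  have E2 := EE_mul 2 y
  have E3 := EE_mul 3 y
  have E6 := EE_mul 6 y
  rw [e1] at h
  simp only [th, poch_succ hq (-1), poch_succ hq (-ρ ^ 2), poch_succ hq (ρ ^ 2), poch_succ hq ρ,
    e2, e3, mul_neg, neg_mul, neg_neg, mul_one, one_mul, div_neg, div_one, Odd.neg_pow
    (by decide : Odd 3), ← pow_mul, Nat.reduceMul, Nat.cast_ofNat] at h p1 p2 p4 E2 E3 E6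
  rw [E2, E3, E6, EE, ← p4, ← p3, ← p2, ← p1]
  push_cast at h ⊢
  generalize poch (qc y) (qc y) = E at h
  generalize poch (-qc y) (qc y) = N at h
  generalize poch (ρ * qc y) (qc y) = A at h
  generalize poch (ρ ^ 2 * qc y) (qc y) = B at h
  generalize poch (-(ρ * qc y)) (qc y) = C at h
  generalize poch (-(ρ ^ 2 * qc y)) (qc y) = D at h
  have e4 : (1 - -ρ ^ 2) = -ρ := by linear_combination hρ
  have e5 : (1 - ρ ^ 2) * (B * A) * ((1 - ρ) * (A * B)) = 3 * (A * B) ^ 2 := by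
    linear_combination (A * B) ^ 2 * h3 - (A * B) ^ 2 * hρ
  rw [e4, mul_assoc (1 - ρ ^ 2), mul_assoc (1 - ρ), e5] at h
  apply mul_left_cancel₀ (pow_ne_zero 2 h0)
  linear_combination (E ^ 4 * (A * B) ^ 2 / 3) * h

theorem prodC (hy : 0 < y) :
    ((S1 y - 3 * S1 (2 * y) + 2 * S1 (4 * y) : ℝ) : ℂ) * EE (2 * y) ^ 4 =
      qc y * EE (4 * y) ^ 8 := by
  have hq := norm_qc_lt hy
  have hq0 := qc_ne y
  have n : ∀ i, i ≠ 0 → ‖qc y ^ i‖ < 1 := fun i hi => norm_pow_lt hq hi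
  have hp := n 4 four_ne_zero
  have h := theta_HH (p := qc y ^ 4) (a := -qc y) (b := qc y) hp
    (pow_ne_zero _ hq0) (by simpa using norm_pow_anti hy (i := 1) (j := 4) (by norm_num))
    (by simpa using hq.le) (fun e => by rw [← norm_neg, e] at hq; simp at hq)
    (norm_pow_anti hy (by norm_num)) hq.le (pow_ne_one' hy (by norm_num))
  have e1 : qc y ^ 4 / qc y = qc y ^ 3 := by field_simp
  have e2 : qc y ^ 4 / qc y ^ 2 = qc y ^ 2 := by field_simp
  have pb := PB_od.mul (PB.pow 1)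
  have s := ((((hasSum_h1 (z := -qc y) (by simpa)).add (hasSum_TT hp (x := -qc y ^ 5)
    (by rw [norm_neg]; exact n 5 (by norm_num)))).add (hasSum_TT hp (x := -qc y ^ 3)
    (by rw [norm_neg]; exact n 3 (by norm_num)))).sub (((hasSum_h1 hq).add
      (hasSum_TT hp (n 5 (by norm_num)))).add (hasSum_TT hp (n 3 (by norm_num))))).unique
    ((((lamP pb hy 1 one_pos).sub (lamP pb hy 2 two_pos)).mul_left (-2)).congr_fun
      fun k => by
        have m : ∀ i, i ≠ 0 → 1 - (qc y ^ (k : ℕ)) ^ i ≠ 0 := fun i hi =>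
          one_sub_ne (norm_pow_lt (n _ k.ne_zero) hi)
        have m1 := m 1 one_ne_zero
        have m2 := m 2 two_ne_zero
        have m4 := m 4 four_ne_zero
        have : ((-1 : ℝ) ^ (k : ℕ)) = 1 - 2 * od k := by
          have := sg_eq k
          rw [sg] at this
          rw [od]; linear_combination -this
        have : (-1 : ℂ) ^ (k : ℕ) = 1 - 2 * od k := by exact_mod_cast this
        simp only [neg_pow (qc y ^ _), neg_pow (qc y), this, pow_right_comm (qc y) _ (k : ℕ), ph,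
          Complex.ofReal_natCast, Complex.ofReal_mul, pow_one] at m1 ⊢
        generalize qc y ^ (k : ℕ) = x at m1 m2 m4
        field_simp
        ring)
  have d : ∀ y, 0 < y → DS (fun _ => 1) (fun m => od m * ((m : ℕ) : ℝ) ^ 1) y =
      S1 y - 2 * S1 (2 * y) := fun y hy => by
    rw [DS_expand_pow (PB.const 1) 1 hy 1 (-1) 0 0 0 fun n => by rw [od]; ring, S1_eq, S1_eq]
    ring
  rw [Nat.cast_one, one_mul, Nat.cast_ofNat, d y hy, d _ (mul_pos two_pos hy),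
    show 2 * (2 * y) = 4 * y by ring] at s
  have p1 := poch_neg hp (qc y)
  have p2 := poch_neg hp (qc y ^ 3)
  have p3 := poch_two hp (qc y ^ 2)
  have p4 := poch_two (n 2 two_ne_zero) (qc y ^ 2)
  have p5 := poch_two (n 2 two_ne_zero) (-qc y ^ 2)
  have p6 := poch_neg (n 2 two_ne_zero) (qc y ^ 2)
  have E2 := EE_mul 2 y
  have E4 := EE_mul 4 y
  simp only [HH, th, poch_succ hp (-1), mul_neg, neg_mul, div_neg, inv_mul_cancel₀ hq0, e1, e2,
    ← pow_succ', ← pow_add, ← pow_mul, Nat.reduceAdd, one_mul, div_one,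
    Nat.reduceMul, Nat.cast_ofNat, ← pow_two] at h s p1 p2 p3 p4 p5 p6 E2 E4
  rw [s, show ∀ a b c d : ℂ, a * b * (c * d) = c * a * (d * b) from fun _ _ _ _ => by ring, p1, p2,
    ← p3] at h
  rw [p4, p5] at p6
  rw [E2, E4, p4]
  have hG := poch_ne_zero' hp hp
  push_cast at h ⊢
  generalize poch (qc y ^ 4) (qc y ^ 4) = G at h p6 hG
  generalize poch (qc y ^ 2) (qc y ^ 4) = R at h p6
  generalize poch (-qc y ^ 2) (qc y ^ 4) = A at h p6
  generalize poch (-qc y ^ 4) (qc y ^ 4) = B at h p6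
  have : R * (A * B) = 1 := mul_left_cancel₀ hG (by linear_combination p6)
  linear_combination (-R ^ 2 * G ^ 4 / 2) * h + qc y * G ^ 8 * (R * (A * B) + 1) * this

end RV6
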