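import Pool.Agent.Lib.MP_15b3df_nt.RV15

/-! The Mahler measure as the Mellin transform of the weight four cusp form of level six. -/

open Real Filter Topology Set MeasureTheory

namespace RV6

variable {y : ℝ}

noncomputable def PE (y : ℝ) : ℝ := S1 y - S1 (2 * y) - 3 * S1 (3 * y) + 3 * S1 (6 * y)

noncomputable def ff (y : ℝ) : ℝ :=
  (1 - 4 * S1 y + 16 * S1 (2 * y) + 12 * S1 (3 * y) - 48 * S1 (6 * y)) * PE y

lemma ff_eq (hy : 0 < y) :
    (ff y : ℂ) = qc y * (EE y ^ 2 * EE (2 * y) ^ 2 * EE (3 * y) ^ 2 * EE (6 * y) ^ 2) := by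
  have h1 := prodA hy
  have h2 := prodB hy
  rw [← PE] at h2
  rw [ff, Complex.ofReal_mul]
  apply mul_right_cancel₀ (mul_ne_zero (mul_ne_zero (pow_ne_zero 2 (EE_ne (mul_pos two_pos hy)))
    (pow_ne_zero 2 (EE_ne (y := 6 * y) (by positivity)))) (mul_ne_zero (pow_ne_zero 2 (EE_ne hy))
    (pow_ne_zero 2 (EE_ne (mul_pos three_pos hy)))))
  rw [mul_mul_mul_comm, h1, h2]
  ring

lemma XX_mul (hy : 0 < y) : (S1 y - 3 * S1 (2 * y) + 2 * S1 (4 * y)) *
    (S1 (3 * y) - 3 * S1 (6 * y) + 2 * S1 (12 * y)) = PE (2 * y) ^ 2 := by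
  have h1 := prodC hy
  have h2 := prodC (mul_pos three_pos hy)
  have h3 := prodB (mul_pos two_pos hy)
  have q3 := qc_mul 3 y
  rw [← PE, qc_two, show 3 * (2 * y) = 6 * y by ring, show 2 * (2 * y) = 4 * y by ring,
    show 6 * (2 * y) = 12 * y by ring] at h3
  rw [show 2 * (3 * y) = 6 * y by ring, show 4 * (3 * y) = 12 * y by ring] at h2
  rw [Nat.cast_ofNat] at q3
  apply Complex.ofReal_injective
  rw [Complex.ofReal_mul, Complex.ofReal_pow]
  apply mul_right_cancel₀ (mul_ne_zero (pow_ne_zero 4 (EE_ne (mul_pos two_pos hy)))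
    (pow_ne_zero 4 (EE_ne (y := 6 * y) (by positivity))))
  rw [mul_mul_mul_comm, h1, h2, q3, show ∀ a b c : ℂ, a ^ 2 * (b ^ 4 * c ^ 4) =
    (a * (b ^ 2 * c ^ 2)) ^ 2 from fun _ _ _ => by ring, h3]
  ring

theorem HI_mahler : HI (fun y => 864 / π * (ff (2 * y) * y ^ 4))
    (∫ θ in Icc (0 : Fin 5 → ℝ) 1, log ‖1 + ∑ j, ee (θ j)‖) := by
  have hp := pi_pos
  have D := fun (c l : ℝ) (hl : 0 < l) => (HI_SD_4.scale_pow (f := SD) hl).cmul c
  have A := fun (c l : ℝ) (hl : 0 < l) => (HI_S1_3.scale_pow (f := S1) hl).cmul c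
  have B := fun (c l : ℝ) (hl : 0 < l) => (HI_S1_2.scale_pow (f := S1) hl).cmul c
  have p6 : (0 : ℝ) < 6 := by norm_num
  have p8 : (0 : ℝ) < 8 := by norm_num
  have p12 : (0 : ℝ) < 12 := by norm_num
  have hD := ((((D (-1) 2 two_pos).add (D 18 4 four_pos)).add (D (-27) 6 p6)).add
    (D (-32) 8 p8)).add (D 54 12 p12)
  have hA := (((((A 1 2 two_pos).add (A (-9) 4 four_pos)).add (A 9 6 p6)).add
    (A 8 8 p8)).add (A (-9) 12 p12)).cmul (1 / π)
  have hB := ((((((B (1 / 8) 2 two_pos).add (B 2 4 four_pos)).add (B (-45 / 8) 6 p6)).add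
    (B (-2) 8 p8)).add (B (9 / 2) 12 p12)).add (B (9 / 8) 3 three_pos)).add
      (HI_S1_2.cmul (-1 / 8))
  refine ((HI_main1.add HI_main2).sub (((hD.add hA).add hB).cmul (288 / π))).congr
    (fun y hy => ?_) ?_
  · have c := fun (l : ℝ) (hl : 0 < l) => mul_pos hl hy
    have e1 := conv11 hy
    have e2 := conv12 hy
    have e3 := conv14 hy
    have e4 := conv11 (c 2 two_pos)
    have e5 := conv12 (c 2 two_pos)
    have e6 := conv14 (c 2 two_pos)
    have e7 := conv11 (c 4 four_pos)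
    have e8 := conv12 (c 4 four_pos)
    have e9 := conv11 (c 6 p6)
    have e10 := conv12 (c 6 p6)
    have e11 := conv11 (c 12 p12)
    have e12 := conv13 (c 2 two_pos)
    have e13 := conv13 (c 4 four_pos)
    have e14 := XX_mul hy
    have r1 : 2 * (2 * y) = 4 * y := by ring
    have r2 : 3 * (2 * y) = 6 * y := by ring
    have r3 : 4 * (2 * y) = 8 * y := by ring
    have r4 : 2 * (4 * y) = 8 * y := by ring
    have r5 : 2 * (6 * y) = 12 * y := by ring
    have r6 : 3 * (4 * y) = 12 * y := by ring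
    have r7 : 6 * (2 * y) = 12 * y := by ring
    simp only [ff, PE, r1, r2, r3, r4, r5, r6, r7] at e5 e6 e8 e10 e12 e13 e14 ⊢
    linear_combination (288 / π * y ^ 4) * (2 * e1 - 12 * e2 + 8 * e3 + 20 * e4 - 128 * e5 +
      64 * e6 + 110 * e7 - 64 * e8 - 54 * e9 - 216 * e10 + 270 * e11 + 108 * e12 - 108 * e13 -
      18 * e14)
  · rw [mahler_reduce2, integral_B2]
    field_simp
    ring

lemma EE_real {s : ℝ} (hs : 0 < s) :
    EE (s / π) = (∏' n : ℕ, (1 - exp (-((n : ℝ) + 1) * s)) : ℝ) := by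
  have hp := pi_pos
  have hq := norm_qc_lt (div_pos hs hp)
  have e : ∀ n : ℕ, ((exp (-((n : ℝ) + 1) * s) : ℝ) : ℂ) = qc (s / π) * qc (s / π) ^ n := fun n => by
    rw [← pow_succ', qc_eq, ← Complex.ofReal_pow, ← exp_nat_mul]
    congr 2
    push_cast
    field_simp
  have hm : Multipliable fun n : ℕ => 1 - exp (-((n : ℝ) + 1) * s) :=
    multipliable_one_add_of_summable (f := fun n : ℕ => -exp (-((n : ℝ) + 1) * s))
      ((poch_summable hq (qc (s / π))).congr fun n => by rw [← e, norm_neg, norm_neg,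
        Complex.norm_real])
  refine (poch_hasProd hq _).unique
    ((hm.hasProd.map Complex.ofRealHom Complex.continuous_ofReal).congr_fun fun n => ?_)
  rw [← e]
  simp

theorem mahler_eta (η : ℝ → ℝ)
    (hη : ∀ s : ℝ, η s = exp (-s / 24) * ∏' n : ℕ, (1 - exp (-((n : ℝ) + 1) * s))) :
    HI (fun t => (3 / π ^ 2) ^ 3 * (η t ^ 2 * η (2 * t) ^ 2 * η (3 * t) ^ 2 * η (6 * t) ^ 2 * t ^ 4))
      (∫ θ in Icc (0 : Fin 5 → ℝ) 1, log ‖1 + ∑ j, ee (θ j)‖) := by
  have hp := pi_pos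
  refine ((HI_mahler.scale (c := 1 / (2 * π)) (by positivity)).cmul (1 / (2 * π))).congr
    (fun t ht => ?_) (by field_simp)
  have h := ff_eq (div_pos ht hp)
  rw [← mul_div_assoc, ← mul_div_assoc, ← mul_div_assoc, EE_real ht, EE_real (by positivity),
    EE_real (by positivity), EE_real (by positivity), qc_eq, mul_div_cancel₀ _ hp.ne'] at h
  have e : exp (-t) = exp (-t / 24) ^ 2 * exp (-(2 * t) / 24) ^ 2 * exp (-(3 * t) / 24) ^ 2 *
      exp (-(6 * t) / 24) ^ 2 := by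
    simp only [← exp_nat_mul, ← exp_add]
    congr 1
    push_cast
    ring
  simp only [← Complex.ofReal_pow, ← Complex.ofReal_mul, Complex.ofReal_inj] at h
  rw [show 2 * (1 / (2 * π) * t) = t / π by field_simp, h, e]
  simp only [hη]
  field_simp
  ring

end RV6
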