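import Pool.Agent.Lib.MP_15b3df_nt.RV16

/-! Integral q-expansion of the cusp form and analytic continuation of its L-series. -/

open Real Filter Topology Set MeasureTheory Asymptotics

namespace RV6

/-- integral q-expansion with polynomially bounded coefficients and given constant term -/
def QE (r : ℕ) (c₀ : ℤ) (F : ℝ → ℝ) : Prop :=
  ∃ (c : ℕ → ℤ) (C : ℝ), c 0 = c₀ ∧ (∀ n, |(c n : ℝ)| ≤ C * ((n : ℝ) + 1) ^ r) ∧
    ∀ y, 0 < y → HasSum (fun n => (c n : ℂ) * qc y ^ n) (F y)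

lemma summable_coeff {c : ℕ → ℤ} {C : ℝ} {r : ℕ} (h : ∀ n, |(c n : ℝ)| ≤ C * ((n : ℝ) + 1) ^ r)
    {R : ℝ} (h0 : 0 < R) (h1 : R < 1) : ∃ u : ℕ → ℝ, Summable u ∧
      ∀ (n : ℕ) (q : ℂ), ‖q‖ ≤ R → ‖(c n : ℂ) * q ^ n‖ ≤ u n := by
  have := ((summable_nat_add_iff 1).mpr (summable_pow_mul_geometric_of_norm_lt_one r (r := R)
    (by rwa [Real.norm_of_nonneg h0.le]))).mul_left (C / R)
  refine ⟨_, this, fun n q hq => ?_⟩
  rw [norm_mul, norm_pow, Complex.norm_intCast]
  calc _ ≤ C * ((n : ℝ) + 1) ^ r * R ^ n := by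
        gcongr
        exacts [(abs_nonneg _).trans (h n), h n]
    _ = _ := by push_cast; rw [pow_succ R]; field_simp

lemma summable_coeff' {c : ℕ → ℤ} {C : ℝ} {r : ℕ}
    (h : ∀ n, |(c n : ℝ)| ≤ C * ((n : ℝ) + 1) ^ r) {q : ℂ} (hq : ‖q‖ < 1) :
    Summable fun n => ‖(c n : ℂ) * q ^ n‖ := by
  obtain ⟨u, h1, h2⟩ := summable_coeff h (R := (‖q‖ + 1) / 2) (by positivity) (by linarith)
  exact Summable.of_nonneg_of_le (fun _ => norm_nonneg _) (fun n => h2 n q (by linarith)) h1

variable {r r' : ℕ} {a b : ℤ} {F G : ℝ → ℝ}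

lemma QE.lin (h1 : QE r a F) (h2 : QE r b G) (k : ℤ) :
    QE r (a + k * b) (fun y => F y + k * G y) := by
  obtain ⟨c, C, rfl, a1, a2⟩ := h1
  obtain ⟨d, D, rfl, b1, b2⟩ := h2
  refine ⟨fun n => c n + k * d n, C + |(k : ℝ)| * D, rfl, fun n => ?_, fun y hy => ?_⟩
  · push_cast
    refine (abs_add_le _ _).trans ?_
    rw [abs_mul, add_mul, mul_assoc]
    gcongr
    exacts [a1 n, b1 n]
  · push_cast
    exact ((a2 y hy).add ((b2 y hy).mul_left (k : ℂ))).congr_fun fun n => by ring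

lemma QE.mul (h1 : QE r a F) (h2 : QE r' b G) : QE (r + r' + 1) (a * b) (fun y => F y * G y) := by
  obtain ⟨c, C, rfl, a1, a2⟩ := h1
  obtain ⟨d, D, rfl, b1, b2⟩ := h2
  have hC : 0 ≤ C := by simpa using (abs_nonneg _).trans (a1 0)
  have hD : 0 ≤ D := by simpa using (abs_nonneg _).trans (b1 0)
  refine ⟨fun n => ∑ p ∈ Finset.HasAntidiagonal.antidiagonal n, c p.1 * d p.2, C * D, by simp, fun n => ?_,
    fun y hy => ?_⟩
  · push_cast
    refine (Finset.abs_sum_le_sum_abs _ _).trans ((Finset.sum_le_card_nsmul _ _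
      (C * ((n : ℝ) + 1) ^ r * (D * ((n : ℝ) + 1) ^ r')) fun p hp => ?_).trans (le_of_eq ?_))
    · have e1 : (p.1 : ℝ) ≤ n := by exact_mod_cast Finset.HasAntidiagonal.antidiagonal.fst_le hp
      have e2 : (p.2 : ℝ) ≤ n := by exact_mod_cast Finset.HasAntidiagonal.antidiagonal.snd_le hp
      rw [abs_mul]
      exact mul_le_mul ((a1 _).trans (by gcongr)) ((b1 _).trans (by gcongr)) (abs_nonneg _)
        (by positivity)
    · rw [Finset.Nat.card_antidiagonal, nsmul_eq_mul]
      push_cast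
      ring
  · have s1 := summable_coeff' a1 (norm_qc_lt hy)
    have s2 := summable_coeff' b1 (norm_qc_lt hy)
    rw [Complex.ofReal_mul, ← (a2 y hy).tsum_eq, ← (b2 y hy).tsum_eq,
      tsum_mul_tsum_eq_tsum_sum_antidiagonal_of_summable_norm s1 s2]
    refine (summable_norm_sum_mul_antidiagonal_of_summable_norm s1 s2).of_norm.hasSum.congr_fun
      fun n => ?_
    push_cast
    rw [Finset.sum_mul]
    refine Finset.sum_congr rfl fun p hp => ?_
    rw [← Finset.HasAntidiagonal.mem_antidiagonal.mp hp]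
    ring

lemma QE_one : QE r 1 fun _ => 1 := by
  refine ⟨fun n => if n = 0 then 1 else 0, 1, rfl, fun n => ?_, fun y _ => ?_⟩
  · have : (1 : ℝ) ≤ (n + 1) ^ r := one_le_pow₀ (by simp)
    dsimp only
    split_ifs <;> simp <;> linarith
  · simpa using hasSum_single (f := fun n : ℕ => (((if n = 0 then 1 else 0 : ℤ)) : ℂ) * qc y ^ n) 0
      fun n hn => by simp [hn]

lemma QE_S1 (d : ℕ) (hd : 0 < d) : QE 2 0 fun y => S1 (d * y) := by
  have hb : ∀ n : ℕ, |((ArithmeticFunction.sigma 1 n : ℤ) : ℝ)| ≤ 1 * ((n : ℝ) + 1) ^ 2 := fun n => by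
    have : (ArithmeticFunction.sigma 1 n : ℝ) ≤ (n : ℝ) ^ 2 := by
      exact_mod_cast ArithmeticFunction.sigma_le_pow_succ 1 n
    rw [Int.cast_natCast, Nat.abs_cast, one_mul]
    exact this.trans (by gcongr; linarith)
  refine ⟨fun n => if d ∣ n then ArithmeticFunction.sigma 1 (n / d) else 0, 1, by simp,
    fun n => ?_, fun y hy => ?_⟩
  · dsimp only
    split_ifs
    · refine (hb _).trans ?_
      have : ((n / d : ℕ) : ℝ) ≤ n := by exact_mod_cast Nat.div_le_self n d
      gcongr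
    · simp [sq_nonneg]
  · have hy' : 0 < d * y := by positivity
    have h := (summable_coeff' hb (norm_qc_lt hy')).of_norm
    have h2 := sigma_DS 1 hy'
    rw [← S1_eq] at h2
    have h3 := (hasSum_pnat_iff (f := fun n : ℕ => ((ArithmeticFunction.sigma 1 n : ℤ) : ℂ) *
      qc (d * y) ^ n)).mp (summable_pnat_iff_summable_nat.mpr h).hasSum
    simp only [Int.cast_natCast, h2, ArithmeticFunction.map_zero, Nat.cast_zero, zero_mul,
      add_zero, Int.cast_zero] at h3
    rw [← (mul_right_injective₀ hd.ne').hasSum_iff]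
    · exact h3.congr_fun fun n => by simp [Nat.mul_div_cancel_left n hd, qc_mul, pow_mul]
    · intro n hn
      have : ¬ d ∣ n := fun ⟨k, hk⟩ => hn ⟨k, hk.symm⟩
      simp [this]

lemma QE_ff : QE 5 0 ff := by
  have h1 := QE_S1 1 one_pos
  have h2 := QE_S1 2 two_pos
  have h3 := QE_S1 3 three_pos
  have h6 := QE_S1 6 (by norm_num)
  convert ((((QE_one.lin h1 (-4)).lin h2 16).lin h3 12).lin h6 (-48)).mul
    (((h1.lin h2 (-1)).lin h3 (-3)).lin h6 3) using 1
  · norm_num
  funext y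
  simp only [ff, PE]
  push_cast
  ring_nf

lemma poch_self (q : ℂ) : poch q q = ∏' n : ℕ, (1 - q ^ (n + 1)) := by simp only [poch, pow_succ']

lemma hasSum_disc {c : ℕ → ℤ} {C : ℝ} (h : ∀ n, |(c n : ℝ)| ≤ C * ((n : ℝ) + 1) ^ r)
    (h2 : ∀ y, 0 < y → HasSum (fun n => (c n : ℂ) * qc y ^ n) (ff y)) {q : ℂ} (hq : ‖q‖ < 1) :
    HasSum (fun n => (c n : ℂ) * q ^ n) (q * (poch q q ^ 2 * poch (q ^ 2) (q ^ 2) ^ 2 *
      poch (q ^ 3) (q ^ 3) ^ 2 * poch (q ^ 6) (q ^ 6) ^ 2)) := by
  have d1 : DifferentiableOn ℂ (fun q : ℂ => ∑' n, (c n : ℂ) * q ^ n) (Metric.ball 0 1) := by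
    intro z hz
    rw [mem_ball_zero_iff] at hz
    obtain ⟨u, h1, h2⟩ := summable_coeff h (R := (‖z‖ + 1) / 2) (by positivity) (by linarith)
    exact ((Complex.differentiableOn_tsum_of_summable_norm h1 (fun _ => by fun_prop)
      Metric.isOpen_ball fun n w hw => h2 n w (mem_ball_zero_iff.mp hw).le).differentiableAt
      (Metric.isOpen_ball.mem_nhds (by rw [mem_ball_zero_iff]; linarith))).differentiableWithinAt
  have d2 : ∀ k, k ≠ 0 → DifferentiableOn ℂ (fun q : ℂ => poch (q ^ k) (q ^ k) ^ 2)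
      (Metric.ball 0 1) := fun k hk => by
    simp only [poch_self]
    exact (ModularForm.differentiableOn_tprod_one_sub_pow.comp (f := fun q => q ^ k) (by fun_prop)
      fun z hz => mem_ball_zero_iff.mpr (norm_pow_lt (mem_ball_zero_iff.mp hz) hk)).pow 2
  have d3 := differentiableOn_id.mul ((((d2 1 one_ne_zero).mul (d2 2 two_ne_zero)).mul
    (d2 3 three_ne_zero)).mul (d2 6 (by norm_num)))
  have ht : Tendsto qc atTop (𝓝[≠] 0) := by
    refine tendsto_nhdsWithin_iff.mpr ⟨?_, .of_forall fun y => qc_ne y⟩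
    rw [funext qc_eq]
    exact (Complex.continuous_ofReal.tendsto' 0 0 rfl).comp tendsto_exp_neg_pi
  have := (d1.analyticOnNhd Metric.isOpen_ball).eqOn_of_preconnected_of_frequently_eq
    (d3.analyticOnNhd Metric.isOpen_ball) (convex_ball 0 1).isPreconnected
    (Metric.mem_ball_self one_pos) (ht.frequently ((eventually_gt_atTop 0).mono fun y hy => by
      have E2 := EE_mul 2 y
      have E3 := EE_mul 3 y
      have E6 := EE_mul 6 y
      rw [Nat.cast_ofNat] at E2 E3 E6
      simp only [Pi.mul_apply, id, pow_one, (h2 y hy).tsum_eq, ff_eq hy, E2, E3, E6]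
      rfl).frequently)
    (mem_ball_zero_iff.mpr hq)
  simp only [Pi.mul_apply, id, pow_one] at this
  rw [← this]
  exact (summable_coeff' h hq).of_norm.hasSum

lemma eta_eq (d : ℕ) (τ : ℂ) : ModularForm.eta (d * τ) = Complex.exp (2 * π * Complex.I * τ / 24) ^ d *
    poch (Complex.exp (2 * π * Complex.I * τ) ^ d) (Complex.exp (2 * π * Complex.I * τ) ^ d) := by
  simp only [ModularForm.eta, ModularForm.eta_q_eq_pow, poch_self, Function.Periodic.qParam,
    ← Complex.exp_nat_mul]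
  push_cast
  ring_nf

lemma hasSum_eta {c : ℕ → ℤ} {C : ℝ} (h : ∀ n, |(c n : ℝ)| ≤ C * ((n : ℝ) + 1) ^ r)
    (h2 : ∀ y, 0 < y → HasSum (fun n => (c n : ℂ) * qc y ^ n) (ff y)) {τ : ℂ} (hτ : 0 < τ.im) :
    HasSum (fun n => (c n : ℂ) * Complex.exp (2 * π * Complex.I * τ) ^ n)
      (ModularForm.eta τ ^ 2 * ModularForm.eta (2 * τ) ^ 2 * ModularForm.eta (3 * τ) ^ 2 *
        ModularForm.eta (6 * τ) ^ 2) := by
  have e1 := eta_eq 1 τ
  have e2 := eta_eq 2 τ
  have e3 := eta_eq 3 τ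
  have e6 := eta_eq 6 τ
  have e : Complex.exp (2 * π * Complex.I * τ) = Complex.exp (2 * π * Complex.I * τ / 24) ^ 24 := by
    rw [← Complex.exp_nat_mul]; congr 1; push_cast; ring
  simp only [Nat.cast_one, one_mul, pow_one, Nat.cast_ofNat] at e1 e2 e3 e6
  convert hasSum_disc h h2 (UpperHalfPlane.norm_exp_two_pi_I_lt_one ⟨τ, hτ⟩) using 1
  rw [e1, e2, e3, e6]
  generalize poch _ _ = A
  generalize poch _ _ = B
  generalize poch _ _ = C
  generalize poch _ _ = D
  simp only [e]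
  ring

lemma ff_inv {y : ℝ} (hy : 0 < y) : ff (1 / y) = 4 / 9 * y ^ 4 * ff (2 / 3 * y) := by
  have h1 := S1_inv (y := 6 * (2 / 3 * y)) (by positivity)
  have h2 := S1_inv (y := 3 * (2 / 3 * y)) (by positivity)
  have h3 := S1_inv (y := 2 * (2 / 3 * y)) (by positivity)
  have h6 := S1_inv (y := 2 / 3 * y) (by positivity)
  rw [show 4 / (6 * (2 / 3 * y)) = 1 / y by field_simp; norm_num] at h1
  rw [show 4 / (3 * (2 / 3 * y)) = 2 * (1 / y) by field_simp; norm_num] at h2
  rw [show 4 / (2 * (2 / 3 * y)) = 3 * (1 / y) by field_simp; norm_num] at h3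
  rw [show 4 / (2 / 3 * y) = 6 * (1 / y) by field_simp; norm_num] at h6
  simp only [ff, PE, h1, h2, h3, h6]
  ring

lemma cont_ff : ContinuousOn ff (Ioi 0) := by
  have h : ∀ c : ℝ, 0 < c → ContinuousOn (fun y => S1 (c * y)) (Ioi 0) := fun c hc =>
    (continuousOn_DS_y (PB.const 1) PB.id).comp (f := fun y => c * y) (by fun_prop)
      fun y hy => mem_Ioi.mpr (mul_pos hc hy)
  have h1 : ContinuousOn S1 (Ioi 0) := continuousOn_DS_y (PB.const 1) PB.id
  have h2 := h 2 two_pos
  have h3 := h 3 three_pos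
  have h6 := h 6 (by norm_num)
  unfold ff PE
  fun_prop

lemma ff_top {c : ℝ} (hc : 0 < c) (s : ℝ) : (fun y => ff (c * y)) =O[atTop] (· ^ s) := by
  have h : ∀ (s d : ℝ), 0 < d → (fun y => S1 (d * (c * y))) =O[atTop] (· ^ s) := fun s d hd => by
    obtain ⟨C, hC⟩ := DS_decay (PB.const 1) PB.id
    refine (IsBigO.of_bound C ?_).trans
      (isLittleO_exp_neg_mul_rpow_atTop (a := π * (d * c)) (by positivity) s).isBigO
    filter_upwards [eventually_ge_atTop (1 / (d * c))] with y hy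
    rw [div_le_iff₀ (by positivity)] at hy
    rw [Real.norm_of_nonneg (exp_pos _).le, show -(π * (d * c)) * y = -(π * (d * (c * y))) by ring]
    exact hC 0 _ (by linarith)
  have h1 := fun s => h s 1 one_pos
  simp only [one_mul] at h1
  have h0 : (fun _ : ℝ => (1 : ℝ)) =O[atTop] (· ^ (0 : ℝ)) := by
    simpa using isBigO_refl (fun _ : ℝ => (1 : ℝ)) atTop
  have p6 : (0 : ℝ) < 6 := by norm_num
  simpa [ff, PE] using ((((h0.sub ((h1 0).const_mul_left 4)).add ((h 0 2 two_pos).const_mul_left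
    16)).add ((h 0 3 three_pos).const_mul_left 12)).sub ((h 0 6 p6).const_mul_left 48)).mul
    ((((h1 s).sub (h s 2 two_pos)).sub ((h s 3 three_pos).const_mul_left 3)).add
      ((h s 6 p6).const_mul_left 3))

lemma diff_mellin : Differentiable ℂ (mellin fun t => (ff t : ℂ)) := by
  have hc : ContinuousOn (fun t => ((ff (2 / 3 * t) : ℝ) : ℂ)) (Ioi 0) :=
    Complex.continuous_ofReal.comp_continuousOn (cont_ff.comp (f := fun y => 2 / 3 * y)
      (by fun_prop) fun y hy => mem_Ioi.mpr (mul_pos (by norm_num) hy))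
  let P : WeakFEPair ℂ :=
    { f := fun t => ff t, g := fun t => ff (2 / 3 * t), k := 4, ε := 4 / 9, f₀ := 0, g₀ := 0
      hf_int := (Complex.continuous_ofReal.comp_continuousOn cont_ff).locallyIntegrableOn
        measurableSet_Ioi
      hg_int := hc.locallyIntegrableOn measurableSet_Ioi
      hk := four_pos
      hε := by norm_num
      h_feq := fun x hx => by
        rw [ff_inv hx, show (4 : ℝ) = (4 : ℕ) by norm_num, rpow_natCast, smul_eq_mul]
        push_cast; ring
      hf_top := fun s => by simpa using ff_top one_pos s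
      hg_top := fun s => by simpa using ff_top (c := 2 / 3) (by norm_num) s }
  have hP : IsStrongFEPair P := ⟨rfl, rfl⟩
  exact hP.Λ_eq ▸ hP.differentiable_Λ

lemma ff_pos {y : ℝ} (hy : 0 < y) : 0 < ff y := by
  have hp := pi_pos
  have k : ∀ y, 0 < y → ∃ x : ℝ, 0 < x ∧ EE y ^ 2 = x := fun y hy => by
    have h := EE_real (mul_pos hy hp)
    have h0 := EE_ne hy
    rw [mul_div_cancel_right₀ _ hp.ne'] at h
    rw [h] at h0 ⊢
    exact ⟨_, sq_pos_of_ne_zero (Complex.ofReal_ne_zero.mp h0), by push_cast; rfl⟩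
  obtain ⟨a, ha, e1⟩ := k y hy
  obtain ⟨b, hb, e2⟩ := k (2 * y) (by positivity)
  obtain ⟨c, hc, e3⟩ := k (3 * y) (by positivity)
  obtain ⟨d, hd, e6⟩ := k (6 * y) (by positivity)
  have h := ff_eq hy
  rw [e1, e2, e3, e6, qc_eq] at h
  simp only [← Complex.ofReal_mul, Complex.ofReal_inj] at h
  rw [h]
  positivity

theorem mahler_L : ∃ a : ℕ → ℤ,
    (∀ τ : ℂ, 0 < τ.im → HasSum (fun n => (a n : ℂ) * Complex.exp (2 * π * Complex.I * τ) ^ n)
      (ModularForm.eta τ ^ 2 * ModularForm.eta (2 * τ) ^ 2 * ModularForm.eta (3 * τ) ^ 2 *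
        ModularForm.eta (6 * τ) ^ 2)) ∧
    ∃ L : ℂ → ℂ, Differentiable ℂ L ∧ (∀ s : ℂ, 6 < s.re → LSeriesHasSum (fun n => a n) s (L s)) ∧
      L (-1) = 0 ∧ deriv L (-1) ≠ 0 ∧
      ((∫ θ in Icc (0 : Fin 5 → ℝ) 1, log ‖1 + ∑ j, ee (θ j)‖ : ℝ) : ℂ) = -8 * deriv L (-1) := by
  obtain ⟨a, C, h0, h1, h2⟩ := QE_ff
  have hp := pi_pos
  have hp' := pi_ne
  have : NeZero (π : ℂ) := ⟨hp'⟩
  set W := ∫ θ in Icc (0 : Fin 5 → ℝ) 1, log ‖1 + ∑ j, ee (θ j)‖
  have hW : HI (fun t => ff t / t ^ 2) (π / 8 * W) :=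
    (((HI.scale_pow (f := fun y => 864 / π * ff (2 * y)) (k := 4) (HI_mahler.congr
      (fun _ _ => by ring) rfl) (c := 1 / 3) (by norm_num)).cmul (π / 1944)).congr
      (g := fun y => ff (1 / y)) (fun y hy => by
        rw [ff_inv hy, show 2 * (1 / 3 * y) = 2 / 3 * y by ring]; field_simp; ring)
      (by ring)).inv.congr (fun y _ => by rw [one_div_one_div]) rfl
  have hW0 : 0 < π / 8 * W := by
    rw [← hW.2, setIntegral_pos_iff_support_of_nonneg_ae _ hW.1]
    · rw [inter_eq_right.mpr (show Ioi 0 ⊆ Function.support fun t => ff t / t ^ 2 from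
        fun t ht => (div_pos (ff_pos ht) (pow_pos ht 2)).ne')]
      simp
    · filter_upwards [ae_restrict_mem measurableSet_Ioi] with t ht
        using (div_pos (ff_pos ht) (pow_pos ht 2)).le
  have hM : mellin (fun t => (ff t : ℂ)) (-1) = π / 8 * W := by
    rw [show (π / 8 * W : ℂ) = (π / 8 * W : ℝ) by push_cast; rfl, ← hW.2, ← integral_complex_ofReal]
    refine setIntegral_congr_fun measurableSet_Ioi fun t ht => ?_
    simp only [smul_eq_mul]
    rw [show (-1 - 1 : ℂ) = -(2 : ℕ) by norm_num, Complex.cpow_neg, Complex.cpow_natCast]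
    push_cast
    ring
  have dG : Differentiable ℂ fun s : ℂ => (π : ℂ) ^ s * (s * (Complex.Gamma (s + 1 + 1))⁻¹) *
      mellin (fun t => (ff t : ℂ)) s :=
    (((differentiable_const_cpow_of_neZero _).mul (differentiable_id.mul
      (Complex.differentiable_one_div_Gamma.comp (f := fun s : ℂ => s + 1 + 1)
        (by fun_prop)))).mul diff_mellin)
  have hd := (((hasDerivAt_id (-1 : ℂ)).add_const 1).mul (dG (-1)).hasDerivAt).deriv
  simp only [id, neg_add_cancel, zero_mul, add_zero, zero_add, one_mul, Complex.Gamma_one, hM,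
    Complex.cpow_neg_one] at hd
  have hd' := hd.trans (show _ = -(W : ℂ) / 8 by field_simp)
  refine ⟨a, fun τ hτ => hasSum_eta h1 h2 hτ, _, (differentiable_fun_id.add_const 1).mul dG,
    fun s hs => ?_, by simp, ?_, ?_⟩
  · have hs0 : 0 < s.re := by linarith
    have hG := Complex.Gamma_ne_zero_of_re_pos hs0
    have := hasSum_mellin (a := fun n => (a n : ℂ)) (p := fun n : ℕ => π * n) (s := s)
      (F := fun t => ff t) (fun n => ?_) hs0 (fun t ht => (h2 t ht).congr_fun fun n => ?_) ?_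
    · have e := Complex.one_div_Gamma_eq_self_mul_one_div_Gamma_add_one s
      rw [Complex.one_div_Gamma_eq_self_mul_one_div_Gamma_add_one (s + 1)] at e
      simp only [Pi.mul_apply, id]
      rw [show ∀ A B C D E : ℂ, A * (B * (C * D) * E) = B * (C * (A * D)) * E from
        fun _ _ _ _ _ => by ring, ← e]
      refine (this.mul_left _).congr_fun fun n => ?_
      have : (π : ℂ) ^ s ≠ 0 := by simp
      rw [LSeries.term_of_ne_zero' (by rintro rfl; simp at hs0), Complex.ofReal_mul,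
        Complex.mul_cpow_ofReal_nonneg hp.le n.cast_nonneg, Complex.ofReal_natCast]
      field_simp
    · rcases n.eq_zero_or_pos with rfl | hn
      · simp [h0]
      · exact .inr (by positivity)
    · rw [qc_eq, ← Complex.ofReal_pow, ← exp_nat_mul]
      congr 3
      ring
    · refine Summable.of_nonneg_of_le (fun n => by positivity) (fun n => ?_)
        ((summable_nat_rpow_inv.mpr (show 1 < s.re - 5 by linarith)).mul_left
          (C * 2 ^ 5 / π ^ s.re))
      rcases n.eq_zero_or_pos with rfl | hn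
      · simp [h0, zero_rpow (show s.re - 5 ≠ 0 by linarith)]
      have hn' : (1 : ℝ) ≤ n := by exact_mod_cast hn
      have hC : 0 ≤ C := by simpa using (abs_nonneg _).trans (h1 0)
      rw [Complex.norm_intCast, mul_rpow hp.le n.cast_nonneg, rpow_sub (by linarith),
        show (5 : ℝ) = (5 : ℕ) by norm_num, rpow_natCast]
      calc _ ≤ C * (2 * (n : ℝ)) ^ 5 / (π ^ s.re * (n : ℝ) ^ s.re) := by
            gcongr
            exact (h1 n).trans (by gcongr; linarith)
        _ = _ := by field_simp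
  · rw [hd']
    have : W ≠ 0 := fun h => by simp [h] at hW0
    simpa
  · rw [hd']
    ring

end RV6
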